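import Mathlib

/-!
Formal finite sums of words: the monoid algebra of an additive commutative monoid over the reals,
with coefficient order, augmentation, l1 norm, sign twists and support predicates.
-/

open AddMonoidAlgebra

set_option linter.unusedSectionVars false

namespace Pool.Agent.P.MP_f562c3_an.SS

/-- Finite real combinations of words. -/
abbrev Rg (W : Type*) := AddMonoidAlgebra ℝ W

variable {W : Type*} [AddCommMonoid W]

/-- The word `w` with coefficient one. -/
noncomputable def wd (w : W) : Rg W := single w 1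

/-- All coefficients are nonnegative. -/
def NN (x : Rg W) : Prop := ∀ w, 0 ≤ x.coeff w

/-- The sum of the coefficients. -/
noncomputable def aug : Rg W →ₐ[ℝ] ℝ := AddMonoidAlgebra.lift ℝ ℝ W 1

/-- The sum of the absolute values of the coefficients. -/
noncomputable def l1 (x : Rg W) : ℝ := ∑ w ∈ x.coeff.support, |x.coeff w|

/-- The sign twist by the parity of an additive counter. -/
noncomputable def tw (χ : W →+ ℕ) : Rg W →ₐ[ℝ] Rg W :=
  AddMonoidAlgebra.lift ℝ (Rg W) W
    { toFun := fun w => single w.toAdd ((-1 : ℝ) ^ χ w.toAdd)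
      map_one' := by simp [one_def]
      map_mul' := fun a b => by simp [single_mul_single, pow_add] }

/-- Every word that occurs in `x` has the property `Q`. -/
def Sup (Q : W → Prop) (x : Rg W) : Prop := ∀ w, x.coeff w ≠ 0 → Q w

/-- Transport along an additive map of words. -/
noncomputable def mp {V : Type*} [AddCommMonoid V] (f : W →+ V) : Rg W →ₐ[ℝ] Rg V :=
  AddMonoidAlgebra.mapDomainAlgHom ℝ ℝ f

/-- The part with positive coefficients. -/
noncomputable def upos (x : Rg W) : Rg W :=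
  ofCoeff (x.coeff.mapRange (fun c => max c 0) (by simp))

/-- The part with negative coefficients, with the sign removed. -/
noncomputable def uneg (x : Rg W) : Rg W :=
  ofCoeff (x.coeff.mapRange (fun c => max (-c) 0) (by simp))

/-- The sum of the coefficients of the words in `Z`. -/
noncomputable def mass (Z : Set W) (x : Rg W) : ℝ :=
  ∑ w ∈ x.coeff.support, Z.indicator x.coeff w

theorem wd_zero : wd (0 : W) = 1 := rfl

theorem wd_add (a b : W) : wd (a + b) = wd a * wd b := by simp [wd, single_mul_single]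

theorem wd_nsmul (n : ℕ) (a : W) : wd (n • a) = wd a ^ n := by
  simp [wd, single_pow]

theorem wd_sum {ι : Type*} (s : Finset ι) (f : ι → W) :
    wd (∑ i ∈ s, f i) = ∏ i ∈ s, wd (f i) := by
  classical
  induction s using Finset.induction_on with
  | empty => simp [wd_zero]
  | insert a s ha ih => rw [Finset.sum_insert ha, Finset.prod_insert ha, wd_add, ih]

theorem smul_wd (c : ℝ) (w : W) : c • wd w = single w c := by simp [wd]

theorem coeff_wd [DecidableEq W] (a b : W) : (wd a).coeff b = if a = b then 1 else 0 := by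
  simp [wd, Finsupp.single_apply]

theorem eq_sum_wd (x : Rg W) : x = ∑ w ∈ x.coeff.support, x.coeff w • wd w := by
  simp only [smul_wd]
  apply AddMonoidAlgebra.ext
  rw [coeff_sum]
  simp only [coeff_single]
  exact (Finsupp.sum_single x.coeff).symm

theorem coeff_sub' (x y : Rg W) (w : W) : (x - y).coeff w = x.coeff w - y.coeff w := by
  simp

theorem coeff_add' (x y : Rg W) (w : W) : (x + y).coeff w = x.coeff w + y.coeff w := by
  simp

theorem coeff_smul' (c : ℝ) (x : Rg W) (w : W) : (c • x).coeff w = c * x.coeff w := by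
  simp

theorem coeff_sum' {ι : Type*} (s : Finset ι) (f : ι → Rg W) (w : W) :
    (∑ i ∈ s, f i).coeff w = ∑ i ∈ s, (f i).coeff w := by
  rw [coeff_sum, Finsupp.finsetSum_apply]

theorem mul_eq_sum (x y : Rg W) :
    x * y = ∑ a ∈ x.coeff.support, ∑ b ∈ y.coeff.support,
      (x.coeff a * y.coeff b) • wd (a + b) := by
  conv_lhs => rw [eq_sum_wd x, eq_sum_wd y]
  rw [Finset.sum_mul_sum]
  refine Finset.sum_congr rfl fun a _ => Finset.sum_congr rfl fun b _ => ?_
  rw [smul_mul_smul_comm, wd_add]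

/-! ### Nonnegative coefficients -/

theorem NN.zero : NN (0 : Rg W) := fun w => by simp

theorem NN.wd (w : W) : NN (wd w) := fun v => by
  classical
  rw [coeff_wd]; split_ifs <;> simp

theorem NN.one : NN (1 : Rg W) := NN.wd 0

theorem NN.add {x y : Rg W} (hx : NN x) (hy : NN y) : NN (x + y) := fun w => by
  rw [coeff_add']; exact add_nonneg (hx w) (hy w)

theorem NN.smul {x : Rg W} {c : ℝ} (hc : 0 ≤ c) (hx : NN x) : NN (c • x) := fun w => by
  rw [coeff_smul']; exact mul_nonneg hc (hx w)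

theorem NN.sum {ι : Type*} {s : Finset ι} {f : ι → Rg W} (h : ∀ i ∈ s, NN (f i)) :
    NN (∑ i ∈ s, f i) := fun w => by
  rw [coeff_sum']; exact Finset.sum_nonneg fun i hi => h i hi w

theorem NN.mul {x y : Rg W} (hx : NN x) (hy : NN y) : NN (x * y) := by
  rw [mul_eq_sum]
  exact NN.sum fun a _ => NN.sum fun b _ => NN.smul (mul_nonneg (hx a) (hy b)) (NN.wd _)

theorem NN.prod {ι : Type*} {s : Finset ι} {f : ι → Rg W} (h : ∀ i ∈ s, NN (f i)) :
    NN (∏ i ∈ s, f i) :=
  Finset.prod_induction f NN (fun _ _ => NN.mul) NN.one h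

theorem NN.pow {x : Rg W} (hx : NN x) (n : ℕ) : NN (x ^ n) := by
  induction n with
  | zero => simpa using NN.one
  | succ n ih => rw [pow_succ]; exact ih.mul hx

theorem NN.upos (x : Rg W) : NN (upos x) := fun w => by simp [SS.upos]

theorem NN.uneg (x : Rg W) : NN (uneg x) := fun w => by simp [SS.uneg]

theorem upos_sub_uneg (x : Rg W) : upos x - uneg x = x := by
  apply AddMonoidAlgebra.ext
  ext w
  rw [coeff_sub']
  simp only [upos, uneg, Finsupp.mapRange_apply]
  rcases le_total (x.coeff w) 0 with h | h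
  · rw [max_eq_right h, max_eq_left (by linarith)]; ring
  · rw [max_eq_left h, max_eq_right (by linarith)]; ring

/-! ### Augmentation and l1 norm -/

theorem aug_single (w : W) (c : ℝ) : aug (single w c) = c := by simp [aug]

theorem aug_wd (w : W) : aug (wd w) = 1 := aug_single w 1

theorem aug_eq (x : Rg W) : aug x = ∑ w ∈ x.coeff.support, x.coeff w := by
  conv_lhs => rw [eq_sum_wd x]
  simp [map_sum, aug_wd]

theorem l1_nonneg (x : Rg W) : 0 ≤ l1 x := Finset.sum_nonneg fun _ _ => abs_nonneg _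

theorem l1_eq_of_subset (x : Rg W) {s : Finset W} (h : x.coeff.support ⊆ s) :
    l1 x = ∑ w ∈ s, |x.coeff w| :=
  Finset.sum_subset h fun w _ hw => by simp [Finsupp.notMem_support_iff.1 hw]

theorem abs_coeff_le_l1 (x : Rg W) (w : W) : |x.coeff w| ≤ l1 x := by
  by_cases h : x.coeff w = 0
  · rw [h, abs_zero]; exact l1_nonneg x
  · exact Finset.single_le_sum (f := fun w => |x.coeff w|) (fun _ _ => abs_nonneg _)
      (Finsupp.mem_support_iff.2 h)

theorem NN.l1_eq {x : Rg W} (hx : NN x) : l1 x = aug x := by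
  rw [aug_eq]; exact Finset.sum_congr rfl fun w _ => abs_of_nonneg (hx w)

theorem NN.aug_nonneg {x : Rg W} (hx : NN x) : 0 ≤ aug x := hx.l1_eq ▸ l1_nonneg x

theorem abs_aug_le (x : Rg W) : |aug x| ≤ l1 x := by
  rw [aug_eq]; exact Finset.abs_sum_le_sum_abs _ _

theorem l1_zero : l1 (0 : Rg W) = 0 := by simp [l1]

theorem l1_wd (w : W) : l1 (wd w) = 1 := by rw [(NN.wd w).l1_eq, aug_wd]

theorem l1_one : l1 (1 : Rg W) = 1 := l1_wd 0

theorem l1_add_le (x y : Rg W) : l1 (x + y) ≤ l1 x + l1 y := by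
  classical
  have h1 : (x + y).coeff.support ⊆ x.coeff.support ∪ y.coeff.support := by
    rw [coeff_add]; exact Finsupp.support_add
  rw [l1_eq_of_subset _ h1, l1_eq_of_subset x Finset.subset_union_left,
    l1_eq_of_subset y Finset.subset_union_right, ← Finset.sum_add_distrib]
  exact Finset.sum_le_sum fun w _ => by rw [coeff_add']; exact abs_add_le _ _

theorem l1_smul (c : ℝ) (x : Rg W) : l1 (c • x) = |c| * l1 x := by
  have h1 : (c • x).coeff.support ⊆ x.coeff.support := by
    rw [coeff_smul]; exact Finsupp.support_smul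
  rw [l1_eq_of_subset _ h1, l1, Finset.mul_sum]
  exact Finset.sum_congr rfl fun w _ => by rw [coeff_smul', abs_mul]

theorem l1_neg (x : Rg W) : l1 (-x) = l1 x := by
  rw [← neg_one_smul ℝ x, l1_smul]; simp

theorem l1_sub_le (x y : Rg W) : l1 (x - y) ≤ l1 x + l1 y := by
  rw [sub_eq_add_neg, ← l1_neg y]; exact l1_add_le _ _

theorem l1_sum_le {ι : Type*} (s : Finset ι) (f : ι → Rg W) :
    l1 (∑ i ∈ s, f i) ≤ ∑ i ∈ s, l1 (f i) := by
  classical
  induction s using Finset.induction_on with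
  | empty => simp [l1_zero]
  | insert a s ha ih =>
    rw [Finset.sum_insert ha, Finset.sum_insert ha]
    exact (l1_add_le _ _).trans (by linarith)

theorem l1_mul_le (x y : Rg W) : l1 (x * y) ≤ l1 x * l1 y := by
  rw [mul_eq_sum]
  refine (l1_sum_le _ _).trans ?_
  rw [l1, l1, Finset.sum_mul_sum]
  refine Finset.sum_le_sum fun a _ => (l1_sum_le _ _).trans (Finset.sum_le_sum fun b _ => ?_)
  rw [l1_smul, l1_wd, mul_one, abs_mul]

theorem l1_prod_le {ι : Type*} (s : Finset ι) (f : ι → Rg W) :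
    l1 (∏ i ∈ s, f i) ≤ ∏ i ∈ s, l1 (f i) := by
  classical
  induction s using Finset.induction_on with
  | empty => simp [l1_one]
  | insert a s ha ih =>
    rw [Finset.prod_insert ha, Finset.prod_insert ha]
    exact (l1_mul_le _ _).trans (mul_le_mul_of_nonneg_left ih (l1_nonneg _))

theorem l1_pow_le (x : Rg W) (n : ℕ) : l1 (x ^ n) ≤ l1 x ^ n := by
  simpa using l1_prod_le (Finset.range n) fun _ => x

theorem l1_pow_le_of_le {x : Rg W} {M : ℝ} (h : l1 x ≤ M) (n : ℕ) : l1 (x ^ n) ≤ M ^ n :=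
  (l1_pow_le x n).trans (pow_le_pow_left₀ (l1_nonneg x) h n)

theorem l1_prod_le_pow {n : ℕ} {f : Fin n → Rg W} {M : ℝ} (h : ∀ l, l1 (f l) ≤ M) :
    l1 (∏ l, f l) ≤ M ^ n := by
  refine (l1_prod_le _ _).trans ?_
  calc ∏ l, l1 (f l) ≤ ∏ _l : Fin n, M :=
        Finset.prod_le_prod (fun l _ => l1_nonneg _) fun l _ => h l
    _ = M ^ n := by simp

theorem aug_upos_add_uneg (x : Rg W) : aug (upos x) + aug (uneg x) = l1 x := by
  have h1 : (upos x).coeff.support ⊆ x.coeff.support := fun w hw => by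
    rw [Finsupp.mem_support_iff] at hw ⊢
    exact fun h0 => hw (by simp [upos, h0])
  have h2 : (uneg x).coeff.support ⊆ x.coeff.support := fun w hw => by
    rw [Finsupp.mem_support_iff] at hw ⊢
    exact fun h0 => hw (by simp [uneg, h0])
  rw [← (NN.upos x).l1_eq, ← (NN.uneg x).l1_eq, l1_eq_of_subset (upos x) h1,
    l1_eq_of_subset (uneg x) h2, l1, ← Finset.sum_add_distrib]
  refine Finset.sum_congr rfl fun w _ => ?_
  simp only [upos, uneg, Finsupp.mapRange_apply]
  rcases le_total (x.coeff w) 0 with h | h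
  · rw [max_eq_right h, max_eq_left (by linarith), abs_neg]; simp
  · rw [max_eq_left h, max_eq_right (by linarith)]; simp

theorem l1_uneg_le (x : Rg W) : l1 (uneg x) ≤ l1 x := by
  rw [(NN.uneg x).l1_eq, ← aug_upos_add_uneg x]
  linarith [(NN.upos x).aug_nonneg]

theorem l1_upos_le (x : Rg W) : l1 (upos x) ≤ l1 x := by
  rw [(NN.upos x).l1_eq, ← aug_upos_add_uneg x]
  linarith [(NN.uneg x).aug_nonneg]

/-- Telescoping bound for a difference of products. -/
theorem l1_prod_sub_prod_le {n : ℕ} {f g : Fin n → Rg W} {M δ : ℝ} (hM : 1 ≤ M) (hδ : 0 ≤ δ)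
    (hf : ∀ l, l1 (f l) ≤ M) (hg : ∀ l, l1 (g l) ≤ M) (h : ∀ l, l1 (f l - g l) ≤ δ) :
    l1 (∏ l, f l - ∏ l, g l) ≤ n * δ * M ^ n := by
  induction n with
  | zero => simp [l1_zero]
  | succ n ih =>
    rw [Fin.prod_univ_succ, Fin.prod_univ_succ]
    have e : f 0 * ∏ l : Fin n, f l.succ - g 0 * ∏ l : Fin n, g l.succ =
        (f 0 - g 0) * ∏ l : Fin n, f l.succ +
          g 0 * (∏ l : Fin n, f l.succ - ∏ l : Fin n, g l.succ) := by ring
    have h1 := ih (f := fun l => f l.succ) (g := fun l => g l.succ) (fun l => hf _)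
      (fun l => hg _) (fun l => h _)
    have h2 : l1 (∏ l : Fin n, f l.succ) ≤ M ^ n := l1_prod_le_pow fun l => hf _
    have h3 : M ^ n ≤ M ^ (n + 1) := pow_le_pow_right₀ hM (Nat.le_succ n)
    have h0 : 0 ≤ M ^ n := by positivity
    rw [e]
    calc _ ≤ δ * M ^ n + M * (n * δ * M ^ n) := by
          refine (l1_add_le _ _).trans (add_le_add ?_ ?_)
          · exact (l1_mul_le _ _).trans (mul_le_mul (h 0) h2 (l1_nonneg _) hδ)
          · exact (l1_mul_le _ _).trans (mul_le_mul (hg 0) h1 (l1_nonneg _) (by linarith))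
      _ ≤ δ * M ^ (n + 1) + M * (n * δ * M ^ n) := by gcongr
      _ = _ := by push_cast; ring

/-! ### Twists -/

theorem tw_single (χ : W →+ ℕ) (w : W) (c : ℝ) :
    tw χ (single w c) = single w (c * (-1) ^ χ w) := by
  simp [tw]

theorem tw_wd (χ : W →+ ℕ) (w : W) : tw χ (wd w) = ((-1 : ℝ) ^ χ w) • wd w := by
  rw [wd, tw_single]; simp

theorem tw_wd_of_zero {χ : W →+ ℕ} {w : W} (h : χ w = 0) : tw χ (wd w) = wd w := by
  rw [tw_wd, h]; simp

theorem tw_wd_of_one {χ : W →+ ℕ} {w : W} (h : χ w = 1) : tw χ (wd w) = -wd w := by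
  rw [tw_wd, h]; simp

theorem coeff_tw (χ : W →+ ℕ) (x : Rg W) (w : W) :
    (tw χ x).coeff w = (-1) ^ χ w * x.coeff w := by
  classical
  conv_lhs => rw [eq_sum_wd x]
  rw [map_sum, coeff_sum']
  simp only [map_smul, tw_wd, coeff_smul', coeff_wd]
  rw [Finset.sum_eq_single w]
  · simp [mul_comm]
  · intro b _ hb; simp [hb]
  · intro h; simp [Finsupp.notMem_support_iff.1 h]

theorem l1_eq_aug_tw {χ : W →+ ℕ} {x : Rg W} (h : NN (tw χ x)) : l1 x = aug (tw χ x) := by
  rw [← h.l1_eq]
  have hs : (tw χ x).coeff.support ⊆ x.coeff.support := fun w hw => by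
    rw [Finsupp.mem_support_iff] at hw ⊢
    intro h0; apply hw; rw [coeff_tw, h0, mul_zero]
  rw [l1_eq_of_subset _ hs, l1]
  exact Finset.sum_congr rfl fun w _ => by rw [coeff_tw, abs_mul, abs_pow]; simp

/-! ### Supports -/

theorem Sup.mono {Q Q' : W → Prop} {x : Rg W} (h : Sup Q x) (hQ : ∀ w, Q w → Q' w) : Sup Q' x :=
  fun w hw => hQ w (h w hw)

theorem Sup.and {Q Q' : W → Prop} {x : Rg W} (h : Sup Q x) (h' : Sup Q' x) :
    Sup (fun w => Q w ∧ Q' w) x := fun w hw => ⟨h w hw, h' w hw⟩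

theorem Sup.zero (Q : W → Prop) : Sup Q 0 := fun w hw => by simp at hw

theorem Sup.trivial (x : Rg W) : Sup (fun _ => True) x := fun _ _ => True.intro

theorem Sup.wd {Q : W → Prop} {w : W} (h : Q w) : Sup Q (wd w) := fun v hv => by
  classical
  rw [coeff_wd] at hv
  split_ifs at hv with h1
  · exact h1 ▸ h
  · exact absurd rfl hv

theorem Sup.one {Q : W → Prop} (h : Q 0) : Sup Q 1 := Sup.wd h

theorem Sup.add {Q : W → Prop} {x y : Rg W} (hx : Sup Q x) (hy : Sup Q y) : Sup Q (x + y) :=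
  fun w hw => by
    rw [coeff_add'] at hw
    by_cases h : x.coeff w = 0
    · exact hy w (by simpa [h] using hw)
    · exact hx w h

theorem Sup.smul {Q : W → Prop} {x : Rg W} (c : ℝ) (hx : Sup Q x) : Sup Q (c • x) :=
  fun w hw => hx w fun h => hw (by rw [coeff_smul', h, mul_zero])

theorem Sup.neg {Q : W → Prop} {x : Rg W} (hx : Sup Q x) : Sup Q (-x) := by
  rw [← neg_one_smul ℝ x]; exact hx.smul _

theorem Sup.sub {Q : W → Prop} {x y : Rg W} (hx : Sup Q x) (hy : Sup Q y) : Sup Q (x - y) := by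
  rw [sub_eq_add_neg]; exact hx.add hy.neg

theorem Sup.sum {Q : W → Prop} {ι : Type*} {s : Finset ι} {f : ι → Rg W}
    (h : ∀ i ∈ s, Sup Q (f i)) : Sup Q (∑ i ∈ s, f i) :=
  Finset.sum_induction f (Sup Q) (fun _ _ => Sup.add) (Sup.zero Q) h

theorem Sup.mul {Q₁ Q₂ Q : W → Prop} {x y : Rg W} (hx : Sup Q₁ x) (hy : Sup Q₂ y)
    (h : ∀ a b, Q₁ a → Q₂ b → Q (a + b)) : Sup Q (x * y) := by
  rw [mul_eq_sum]
  exact Sup.sum fun a ha => Sup.sum fun b hb => Sup.smul _ (Sup.wd
    (h a b (hx a (Finsupp.mem_support_iff.1 ha)) (hy b (Finsupp.mem_support_iff.1 hb))))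

/-- Products, for a property graded by an additive monoid. -/
theorem Sup.prod_graded {G : Type*} [AddCommMonoid G] {Q : G → W → Prop} (h0 : Q 0 0)
    (hadd : ∀ g g' a b, Q g a → Q g' b → Q (g + g') (a + b)) {ι : Type*} {s : Finset ι}
    {f : ι → Rg W} {g : ι → G} (h : ∀ i ∈ s, Sup (Q (g i)) (f i)) :
    Sup (Q (∑ i ∈ s, g i)) (∏ i ∈ s, f i) := by
  classical
  induction s using Finset.induction_on with
  | empty => simpa using Sup.one h0
  | insert a s ha ih =>
    rw [Finset.sum_insert ha, Finset.prod_insert ha]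
    exact (h a (Finset.mem_insert_self _ _)).mul
      (ih fun i hi => h i (Finset.mem_insert_of_mem hi)) (hadd _ _)

theorem Sup.pow_graded {G : Type*} [AddCommMonoid G] {Q : G → W → Prop} (h0 : Q 0 0)
    (hadd : ∀ g g' a b, Q g a → Q g' b → Q (g + g') (a + b)) {x : Rg W} {g : G}
    (h : Sup (Q g) x) (n : ℕ) : Sup (Q (n • g)) (x ^ n) := by
  simpa using Sup.prod_graded h0 hadd (s := Finset.range n) (f := fun _ => x) (g := fun _ => g)
    fun _ _ => h

theorem Sup.prod {Q : W → Prop} (h0 : Q 0) (hadd : ∀ a b, Q a → Q b → Q (a + b)) {ι : Type*}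
    {s : Finset ι} {f : ι → Rg W} (h : ∀ i ∈ s, Sup Q (f i)) : Sup Q (∏ i ∈ s, f i) :=
  Finset.prod_induction f (Sup Q) (fun _ _ hx hy => hx.mul hy hadd) (Sup.one h0) h

theorem Sup.pow {Q : W → Prop} (h0 : Q 0) (hadd : ∀ a b, Q a → Q b → Q (a + b)) {x : Rg W}
    (h : Sup Q x) (n : ℕ) : Sup Q (x ^ n) := by
  simpa using Sup.prod h0 hadd (s := Finset.range n) (f := fun _ => x) fun _ _ => h

theorem Sup.upos {Q : W → Prop} {x : Rg W} (h : Sup Q x) : Sup Q (upos x) := fun w hw =>
  h w fun h0 => hw (by simp [SS.upos, h0])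

theorem Sup.uneg {Q : W → Prop} {x : Rg W} (h : Sup Q x) : Sup Q (uneg x) := fun w hw =>
  h w fun h0 => hw (by simp [SS.uneg, h0])

theorem tw_eq_self {χ : W →+ ℕ} {x : Rg W} (h : Sup (fun w => χ w = 0) x) : tw χ x = x := by
  apply AddMonoidAlgebra.ext
  ext w
  rw [coeff_tw]
  by_cases h0 : x.coeff w = 0
  · simp [h0]
  · simp [h w h0]

/-- The elements all of whose words have an upward closed property form an ideal. -/
def supIdeal (Q : W → Prop) (hQ : ∀ a b, Q b → Q (a + b)) : Ideal (Rg W) where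
  carrier := {x | Sup Q x}
  add_mem' := fun hx hy => Sup.add hx hy
  zero_mem' := Sup.zero Q
  smul_mem' := fun c _ hx => (Sup.trivial c).mul hx fun a b _ hb => hQ a b hb

theorem mem_supIdeal {Q : W → Prop} {hQ : ∀ a b, Q b → Q (a + b)} {x : Rg W} :
    x ∈ supIdeal Q hQ ↔ Sup Q x := Iff.rfl

/-! ### Transport -/

variable {V : Type*} [AddCommMonoid V]

theorem mp_single (f : W →+ V) (w : W) (c : ℝ) : mp f (single w c) = single (f w) c := by
  simp [mp]

theorem mp_wd (f : W →+ V) (w : W) : mp f (wd w) = wd (f w) := mp_single f w 1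

theorem mp_eq (f : W →+ V) (x : Rg W) :
    mp f x = ∑ w ∈ x.coeff.support, x.coeff w • wd (f w) := by
  conv_lhs => rw [eq_sum_wd x]
  simp [map_sum, mp_wd]

theorem NN.mp (f : W →+ V) {x : Rg W} (hx : NN x) : NN (mp f x) := by
  rw [mp_eq]; exact NN.sum fun w _ => NN.smul (hx w) (NN.wd _)

theorem aug_mp (f : W →+ V) (x : Rg W) : aug (mp f x) = aug x := by
  rw [mp_eq, aug_eq x]; simp [map_sum, aug_wd]

theorem l1_mp_le (f : W →+ V) (x : Rg W) : l1 (mp f x) ≤ l1 x := by
  rw [mp_eq]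
  refine (l1_sum_le _ _).trans (le_of_eq ?_)
  simp only [l1_smul, l1_wd, mul_one]
  rfl

theorem Sup.mp (f : W →+ V) {Q : V → Prop} {x : Rg W} (h : Sup (fun w => Q (f w)) x) :
    Sup Q (mp f x) := by
  rw [mp_eq]
  exact Sup.sum fun w hw => Sup.smul _ (Sup.wd (h w (Finsupp.mem_support_iff.1 hw)))

end Pool.Agent.P.MP_f562c3_an.SS
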