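import Pool.Agent.P.MP_f562c3_an.SS.Model

/-!
Positivity and time bounds.
* `Pos.mul`: `ev (x * y) B = ∑ b, y b * ∫ f dν b` with `f t = ev x ((· + t) ⁻¹' B) ≥ 0` (or the
  symmetric form; `Measure.lintegral_conv`, `Measure.conv` is the map of the product under
  addition, `Measure.prod_apply`). Put `ν₊ = ∑ ofReal (y b) • ν b`, `ν₋ = ∑ ofReal (-y b) • ν b`;
  `Pos y` says `ν₋ ≤ ν₊` (`Measure.le_iff`), and `integral_mono_measure` finishes.
* `Up.add`, `Lo.add`: a product set is conull for the product measure.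
-/

open MeasureTheory Set
open scoped ENNReal

namespace Pool.Agent.P.MP_f562c3_an.SS.Model

variable {W : Type*} [AddCommMonoid W] {M : Model W}

theorem ev_sub_Alg1 (x : Rg W) {s : Finset W} (h : x.coeff.support ⊆ s) (B : Set ℝ) :
    M.ev x B = ∑ w ∈ s, x.coeff w * (M.ν w).real B :=
  Finset.sum_subset h fun w _ hw => by simp [Finsupp.notMem_support_iff.1 hw]

theorem ev_wd (w : W) (B : Set ℝ) : M.ev (wd w) B = (M.ν w).real B := by
  classical
  rw [ev_sub_Alg1 (wd w) (s := {w}) (by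
    intro v hv
    rw [Finsupp.mem_support_iff, coeff_wd] at hv
    rw [Finset.mem_singleton]
    by_contra h
    exact hv (if_neg fun h' => h h'.symm)), Finset.sum_singleton, coeff_wd, if_pos rfl, one_mul]

theorem ev_add (x y : Rg W) (B : Set ℝ) : M.ev (x + y) B = M.ev x B + M.ev y B := by
  classical
  have h1 : (x + y).coeff.support ⊆ x.coeff.support ∪ y.coeff.support := by
    rw [AddMonoidAlgebra.coeff_add]; exact Finsupp.support_add
  rw [ev_sub_Alg1 _ h1, ev_sub_Alg1 x Finset.subset_union_left,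
    ev_sub_Alg1 y Finset.subset_union_right, ← Finset.sum_add_distrib]
  exact Finset.sum_congr rfl fun w _ => by rw [coeff_add', add_mul]

theorem ev_smul (c : ℝ) (x : Rg W) (B : Set ℝ) : M.ev (c • x) B = c * M.ev x B := by
  have h1 : (c • x).coeff.support ⊆ x.coeff.support := by
    rw [AddMonoidAlgebra.coeff_smul]; exact Finsupp.support_smul
  rw [ev_sub_Alg1 _ h1, ev, Finset.mul_sum]
  exact Finset.sum_congr rfl fun w _ => by rw [coeff_smul', mul_assoc]

theorem ev_sub (x y : Rg W) (B : Set ℝ) : M.ev (x - y) B = M.ev x B - M.ev y B := by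
  rw [sub_eq_add_neg, ev_add, ← neg_one_smul ℝ y, ev_smul]; ring

theorem ev_sum {ι : Type*} (s : Finset ι) (f : ι → Rg W) (B : Set ℝ) :
    M.ev (∑ i ∈ s, f i) B = ∑ i ∈ s, M.ev (f i) B := by
  classical
  induction s using Finset.induction_on with
  | empty => simp [ev]
  | insert a s ha ih => rw [Finset.sum_insert ha, Finset.sum_insert ha, ev_add, ih]

theorem ev_univ (x : Rg W) : M.ev x univ = aug x := by
  rw [aug_eq, ev]
  exact Finset.sum_congr rfl fun w _ => by rw [probReal_univ, mul_one]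

theorem pos_of_nn {x : Rg W} (h : NN x) : M.Pos x := by
  intro B _
  exact Finset.sum_nonneg fun w _ => mul_nonneg (h w) measureReal_nonneg

theorem Pos.add {x y : Rg W} (hx : M.Pos x) (hy : M.Pos y) : M.Pos (x + y) := by
  intro B hB
  rw [ev_add]; exact add_nonneg (hx B hB) (hy B hB)

theorem Pos.smul {x : Rg W} {c : ℝ} (hc : 0 ≤ c) (hx : M.Pos x) : M.Pos (c • x) := by
  intro B hB
  rw [ev_smul]; exact mul_nonneg hc (hx B hB)

theorem Pos.sum {ι : Type*} {s : Finset ι} {f : ι → Rg W} (h : ∀ i ∈ s, M.Pos (f i)) :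
    M.Pos (∑ i ∈ s, f i) := by
  intro B hB
  rw [ev_sum]; exact Finset.sum_nonneg fun i hi => h i hi B hB

/-- The positive measure of a sum with nonnegative coefficients. -/
noncomputable def mu_Alg1 (M : Model W) (x : Rg W) : Measure ℝ :=
  ∑ w ∈ x.coeff.support, (x.coeff w).toNNReal • M.ν w

instance fin_Alg1 (x : Rg W) : IsFiniteMeasure (mu_Alg1 M x) := by
  unfold mu_Alg1; infer_instance

theorem real_sum_Alg1 {ι : Type*} (s : Finset ι) (f : ι → Measure ℝ) [∀ i, IsFiniteMeasure (f i)]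
    (B : Set ℝ) : (∑ i ∈ s, f i).real B = ∑ i ∈ s, (f i).real B := by
  classical
  induction s using Finset.induction_on with
  | empty => simp
  | insert a s ha ih => rw [Finset.sum_insert ha, Finset.sum_insert ha, measureReal_add_apply, ih]

theorem sum_conv_Alg1 {ι : Type*} (s : Finset ι) (f : ι → Measure ℝ) [∀ i, IsFiniteMeasure (f i)]
    (μ : Measure ℝ) [IsFiniteMeasure μ] : (∑ i ∈ s, f i).conv μ = ∑ i ∈ s, (f i).conv μ := by
  classical
  induction s using Finset.induction_on with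
  | empty => simp
  | insert a s ha ih => rw [Finset.sum_insert ha, Finset.sum_insert ha, Measure.add_conv, ih]

theorem smul_conv_Alg1 (c : NNReal) (μ ρ : Measure ℝ) [IsFiniteMeasure ρ] :
    (c • μ).conv ρ = c • μ.conv ρ :=
  Measure.conv_smul_left μ ρ (c : ℝ≥0∞)

theorem mu_real_Alg1 {x : Rg W} (hx : NN x) (B : Set ℝ) : (mu_Alg1 M x).real B = M.ev x B := by
  rw [mu_Alg1, real_sum_Alg1, ev]
  exact Finset.sum_congr rfl fun w _ => by
    rw [measureReal_nnreal_smul_apply, Real.coe_toNNReal _ (hx w)]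

theorem conv_real_Alg1 {x y : Rg W} (hx : NN x) (hy : NN y) (B : Set ℝ) :
    ((mu_Alg1 M x).conv (mu_Alg1 M y)).real B = M.ev (x * y) B := by
  rw [mul_eq_sum, ev_sum]
  conv_lhs => rw [mu_Alg1]
  rw [sum_conv_Alg1, real_sum_Alg1]
  refine Finset.sum_congr rfl fun a _ => ?_
  rw [smul_conv_Alg1, Measure.conv_comm, measureReal_nnreal_smul_apply, mu_Alg1, sum_conv_Alg1,
    real_sum_Alg1, ev_sum, Finset.mul_sum]
  refine Finset.sum_congr rfl fun b _ => ?_
  rw [smul_conv_Alg1, Measure.conv_comm, measureReal_nnreal_smul_apply, ev_smul, ev_wd, M.add,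
    Real.coe_toNNReal _ (hx a), Real.coe_toNNReal _ (hy b), mul_assoc]

theorem conv_ineq_Alg1 (d m e l : Measure ℝ) [IsFiniteMeasure d] [IsFiniteMeasure m]
    [IsFiniteMeasure e] [IsFiniteMeasure l] (B : Set ℝ) :
    0 ≤ ((d + m).conv (e + l)).real B + (m.conv l).real B - ((d + m).conv l).real B -
      (m.conv (e + l)).real B := by
  rw [Measure.add_conv, Measure.add_conv, Measure.conv_add, Measure.conv_add,
    measureReal_add_apply, measureReal_add_apply, measureReal_add_apply, measureReal_add_apply]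
  have : 0 ≤ (d.conv e).real B := measureReal_nonneg
  linarith

theorem conv_null_Alg1 {v w : W} {A A' B : Set ℝ} (hB : MeasurableSet B) (h : M.ν v A = 0)
    (h' : M.ν w A' = 0) (hs : ∀ s t, s ∉ A → t ∉ A' → s + t ∉ B) : M.ν (v + w) B = 0 := by
  rw [M.add, Measure.conv, Measure.map_apply measurable_add hB]
  refine measure_mono_null (t := (A ×ˢ univ) ∪ (univ ×ˢ A')) ?_ (measure_union_null ?_ ?_)
  · rintro ⟨s, t⟩ hst
    by_contra hc
    simp only [mem_union, mem_prod, mem_univ, and_true, true_and, not_or] at hc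
    exact hs s t hc.1 hc.2 hst
  · rw [Measure.prod_prod, h, zero_mul]
  · rw [Measure.prod_prod, h', mul_zero]

theorem Pos.mul {x y : Rg W} (hx : M.Pos x) (hy : M.Pos y) : M.Pos (x * y) := by
  have hle : ∀ {z : Rg W}, M.Pos z → mu_Alg1 M (uneg z) ≤ mu_Alg1 M (upos z) := by
    intro z hz
    refine Measure.le_iff.2 fun B hB => ?_
    have h1 := hz B hB
    have e : M.ev z B = M.ev (upos z) B - M.ev (uneg z) B := by rw [← ev_sub, upos_sub_uneg]
    rw [e, ← mu_real_Alg1 (NN.upos z), ← mu_real_Alg1 (NN.uneg z), sub_nonneg] at h1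
    exact (ENNReal.toReal_le_toReal (measure_ne_top _ _) (measure_ne_top _ _)).1 h1
  intro B _
  have e : x * y = upos x * upos y + uneg x * uneg y - upos x * uneg y - uneg x * upos y := by
    conv_lhs => rw [← upos_sub_uneg x, ← upos_sub_uneg y]
    ring
  rw [e, ev_sub, ev_sub, ev_add, ← conv_real_Alg1 (NN.upos x) (NN.upos y),
    ← conv_real_Alg1 (NN.uneg x) (NN.uneg y), ← conv_real_Alg1 (NN.upos x) (NN.uneg y),
    ← conv_real_Alg1 (NN.uneg x) (NN.upos y), ← Measure.sub_add_cancel_of_le (hle hx),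
    ← Measure.sub_add_cancel_of_le (hle hy)]
  exact conv_ineq_Alg1 _ _ _ _ B

theorem Pos.prod {ι : Type*} {s : Finset ι} {f : ι → Rg W} (h : ∀ i ∈ s, M.Pos (f i)) :
    M.Pos (∏ i ∈ s, f i) := by
  exact Finset.prod_induction f M.Pos (fun _ _ => Pos.mul) (pos_of_nn NN.one) h

theorem Pos.pow {x : Rg W} (hx : M.Pos x) (n : ℕ) : M.Pos (x ^ n) := by
  induction n with
  | zero => rw [pow_zero]; exact pos_of_nn NN.one
  | succ n ih => rw [pow_succ]; exact ih.mul hx

theorem pos_of_le {v w : W} {c : ℝ} (hc : 0 ≤ c) (h : M.ν v ≤ ENNReal.ofReal c • M.ν w) :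
    M.Pos (c • wd w - wd v) := by
  intro B _
  rw [ev_sub, ev_smul, ev_wd, ev_wd, sub_nonneg]
  have h1 := Measure.le_iff'.1 h B
  rw [Measure.smul_apply, smul_eq_mul] at h1
  have h2 := ENNReal.toReal_mono (ENNReal.mul_ne_top ENNReal.ofReal_ne_top (measure_ne_top _ _)) h1
  rwa [ENNReal.toReal_mul, ENNReal.toReal_ofReal hc] at h2

theorem Up.zero : M.Up 0 0 := by
  unfold Up
  rw [M.zero, Measure.dirac_apply' _ measurableSet_Ioi]
  simp

theorem Up.mono {τ τ' : ℝ} {w : W} (h : M.Up τ w) (hτ : τ ≤ τ') : M.Up τ' w := by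
  exact measure_mono_null (Ioi_subset_Ioi hτ) h

theorem Up.add {τ τ' : ℝ} {v w : W} (h : M.Up τ v) (h' : M.Up τ' w) : M.Up (τ + τ') (v + w) := by
  refine conv_null_Alg1 measurableSet_Ioi h h' fun s t hs ht hst => ?_
  simp only [mem_Ioi, not_lt] at hs ht hst
  linarith

theorem Lo.zero (w : W) : M.Lo 0 w := M.nonneg w

theorem Lo.mono {τ τ' : ℝ} {w : W} (h : M.Lo τ w) (hτ : τ' ≤ τ) : M.Lo τ' w := by
  exact measure_mono_null (Iio_subset_Iio hτ) h

theorem Lo.add {τ τ' : ℝ} {v w : W} (h : M.Lo τ v) (h' : M.Lo τ' w) : M.Lo (τ + τ') (v + w) := by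
  refine conv_null_Alg1 measurableSet_Iio h h' fun s t hs ht hst => ?_
  simp only [mem_Iio, not_lt] at hs ht hst
  linarith

theorem Car.mono {C C' : Set ℝ} {w : W} (h : M.Car C w) (hC : C ⊆ C') : M.Car C' w := by
  exact measure_mono_null (compl_subset_compl.2 hC) h

theorem Car.inter {C C' : Set ℝ} {w : W} (h : M.Car C w) (h' : M.Car C' w) :
    M.Car (C ∩ C') w := by
  unfold Car
  rw [compl_inter]; exact measure_union_null h h'

theorem Car.iInter {ι : Type*} [Countable ι] {C : ι → Set ℝ} {w : W} (h : ∀ i, M.Car (C i) w) :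
    M.Car (⋂ i, C i) w := by
  unfold Car
  rw [compl_iInter]; exact measure_iUnion_null h

theorem Car.diff {C C' : Set ℝ} {w : W} (h : M.Car C w) (h' : M.ν w C' = 0) :
    M.Car (C \ C') w := by
  unfold Car
  rw [Set.sdiff_eq, compl_inter, compl_compl]; exact measure_union_null h h'

end Pool.Agent.P.MP_f562c3_an.SS.Model
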