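import Pool.Agent.P.MP_f562c3_an.SS.Alg2a

/-!
The norm in M(0,1). Upper bounds come from `VectorMeasure.variation_le_of_forall_enorm_le`,
lower bounds from `VectorMeasure.enorm_measure_le_variation` on disjoint sets.
* `Pos.nrm_eq`: if `Pos x` then `‖tr x B‖ = ev x (val '' B)` is additive, so the variation is
  `ev x [0,1)` (for instance through `VectorMeasure.variation` as a supremum over partitions, or
  by writing the positive signed measure as a measure), and `[0,1)` is conull for all words.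
* `nrm_disj`: the variation of `tr (f i)` vanishes off `val ⁻¹' C i`
  (`VectorMeasure.variation_apply_eq_zero`), and `tr (∑ f)` restricted to `val ⁻¹' C i` is
  `tr (f i)` (`VectorMeasure.variation_restrict`).
* `nrm_exact`: put `χ = ∑ γ ∈ Γ, cnt γ`, `y = tw χ x`; split `y = y₀ + y₁` by the parity of `χ`,
  so `x = y₀ - y₁` with `NN y₀`, `NN y₁`. Let `C` be the union, over all `θ : G → ℕ` supported in
  `Γ` (or `θ : Γ → ℕ`) with even sum, of `⋂ γ ∈ Γ, Hs γ (θ γ)`, and `C'` the same with odd sum; they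
  are disjoint. Apply `nrm_disj` (two terms) and `Pos.nrm_eq`.
* `nrm_wash`: `ν v - ν w = (ν v - c g) - (ν w - c g)`; bound `|ev B|` by the sum of the two
  positive measures `ν v - c • g`, `ν w - c • g` (`Measure.sub_apply`), each of mass `1 - c`.
-/

open MeasureTheory Set
open scoped ENNReal

namespace Pool.Agent.P.MP_f562c3_an.SS.Model

variable {W : Type*} [AddCommMonoid W] {M : Model W}

theorem Pos.nrm_eq {x : Rg W} (hx : M.Pos x) {τ : ℝ} (hτ : τ < 1) (h : Sup (M.Up τ) x) :
    M.nrm x = aug x := by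
  have he : MeasurableEmbedding (Subtype.val : UI → ℝ) :=
    MeasurableEmbedding.subtype_coe measurableSet_Ico
  have hre : ∀ B : Set UI, MeasurableSet B →
      ComplexMeasure.re (M.tr x) B = M.ev x (Subtype.val '' B) := fun B hB => by
    have h1 : ComplexMeasure.re (M.tr x) B = (M.tr x B).re := rfl
    rw [h1, tr_apply x hB, Complex.ofReal_re]
  have h0 : (0 : SignedMeasure UI) ≤[univ] ComplexMeasure.re (M.tr x) := by
    refine (VectorMeasure.le_restrict_univ_iff_le _ _).2 (VectorMeasure.le_iff.2 fun B hB => ?_)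
    rw [hre B hB]
    exact hx _ (he.measurableSet_image.2 hB)
  have h1 : ∀ B : Set UI, MeasurableSet B → ‖M.tr x B‖ₑ =
      (ComplexMeasure.re (M.tr x)).toMeasureOfZeroLE univ MeasurableSet.univ h0 B := fun B hB => by
    rw [enorm_tr_Alg2a x hB, abs_of_nonneg (hx _ (he.measurableSet_image.2 hB)),
      ← ofReal_measureReal, SignedMeasure.toMeasureOfZeroLE_real_apply _ _ _ hB, univ_inter,
      hre B hB]
  have h2 : (M.tr x).variation univ = ‖M.tr x univ‖ₑ := by
    refine le_antisymm ?_ (VectorMeasure.enorm_measure_le_variation _ _)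
    rw [h1 univ MeasurableSet.univ]
    exact VectorMeasure.variation_le_of_forall_enorm_le (fun B hB => (h1 B hB).le) univ
  rw [nrm, h2, enorm_tr_Alg2a x MeasurableSet.univ, ENNReal.toReal_ofReal (abs_nonneg _),
    abs_of_nonneg (hx _ (he.measurableSet_image.2 MeasurableSet.univ)), ev, aug_eq]
  refine Finset.sum_congr rfl fun w hw => ?_
  have h3 : M.ν w (Subtype.val '' (univ : Set UI)) = 1 := by
    refine (prob_compl_eq_zero_iff (he.measurableSet_image.2 MeasurableSet.univ)).1 ?_
    refine measure_mono_null (fun t ht => ?_)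
      (measure_union_null (M.nonneg w) (h w (Finsupp.mem_support_iff.1 hw)))
    by_contra h4
    rw [mem_union, not_or, mem_Iio, mem_Ioi, not_lt, not_lt] at h4
    exact ht ⟨⟨t, h4.1, h4.2.trans_lt hτ⟩, mem_univ _, rfl⟩
  rw [measureReal_def, h3, ENNReal.toReal_one, mul_one]

theorem variation_add_Alg2 {μ ν : ComplexMeasure UI} {A : Set UI} (hA : MeasurableSet A)
    (h1 : μ.variation Aᶜ = 0) (h2 : ν.variation A = 0) :
    (μ + ν).variation A = μ.variation univ := by
  have h3 : (μ + ν).restrict A = μ := by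
    ext B hB
    rw [VectorMeasure.restrict_apply _ hA hB, add_apply,
      (VectorMeasure.variation_apply_eq_zero hA).1 h2 _ inter_subset_right (hB.inter hA), add_zero]
    conv_rhs => rw [← inter_union_sdiff B A,
      VectorMeasure.of_union (disjoint_sdiff_self_right.mono_left inter_subset_right)
        (hB.inter hA) (hB.diff hA)]
    rw [(VectorMeasure.variation_apply_eq_zero hA.compl).1 h1 (B \ A) (fun _ h => h.2)
      (hB.diff hA), add_zero]
  conv_rhs => rw [← h3, VectorMeasure.variation_restrict hA, Measure.restrict_apply_univ]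

theorem nrm_two_Alg2 {x y : Rg W} {C : Set ℝ} (hC : MeasurableSet C) (hx : Sup (M.Car C) x)
    (hy : Sup (M.Car Cᶜ) y) : M.nrm (x + y) = M.nrm x + M.nrm y := by
  have hA : MeasurableSet ((Subtype.val : UI → ℝ) ⁻¹' C) := measurable_subtype_coe hC
  have h1 := variation_tr_compl hC hx
  have h2 := variation_tr_compl hC.compl hy
  rw [preimage_compl] at h2
  have h3 := variation_add_Alg2 hA h1 (by rwa [compl_compl] at h2)
  have h4 := variation_add_Alg2 hA.compl h2 h1
  rw [add_comm] at h4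
  rw [nrm, nrm, nrm, ← ENNReal.toReal_add (measure_ne_top _ _) (measure_ne_top _ _), ← h3, ← h4,
    measure_add_measure_compl hA, tr_add]

theorem nrm_disj {ι : Type*} (s : Finset ι) (f : ι → Rg W) (C : ι → Set ℝ)
    (hC : ∀ i, MeasurableSet (C i)) (hd : ∀ i ∈ s, ∀ j ∈ s, i ≠ j → Disjoint (C i) (C j))
    (h : ∀ i ∈ s, Sup (M.Car (C i)) (f i)) :
    M.nrm (∑ i ∈ s, f i) = ∑ i ∈ s, M.nrm (f i) := by
  classical
  induction s using Finset.induction_on with
  | empty => exact le_antisymm ((nrm_le_l1 _).trans_eq (by simp [l1_zero])) (by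
      simpa using nrm_nonneg _)
  | insert a s ha ih =>
    rw [Finset.sum_insert ha, Finset.sum_insert ha, nrm_two_Alg2 (hC a)
      (h a (Finset.mem_insert_self _ _)) (Sup.sum fun i hi =>
        (h i (Finset.mem_insert_of_mem hi)).mono fun w hw => hw.mono
          (hd i (Finset.mem_insert_of_mem hi) a (Finset.mem_insert_self _ _)
            fun e => ha (e ▸ hi)).subset_compl_right),
      ih (fun i hi j hj => hd i (Finset.mem_insert_of_mem hi) j (Finset.mem_insert_of_mem hj))
        fun i hi => h i (Finset.mem_insert_of_mem hi)]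

theorem nrm_exact {G : Type*} (Γ : Finset G) (cnt : G → W →+ ℕ) (Hs : G → ℕ → Set ℝ)
    (hm : ∀ γ θ, MeasurableSet (Hs γ θ))
    (hd : ∀ γ θ θ', θ ≠ θ' → Disjoint (Hs γ θ) (Hs γ θ')) {y x : Rg W} (hy : M.Pos y)
    (hx : NN (tw (∑ γ ∈ Γ, cnt γ) x)) {τ : ℝ} (hτ : τ < 1)
    (h : ∀ v w, y.coeff v ≠ 0 → x.coeff w ≠ 0 →
      M.Up τ (v + w) ∧ ∀ γ ∈ Γ, M.Car (Hs γ (cnt γ w)) (v + w)) :
    M.nrm (y * x) = aug y * l1 x := by
  have hs : ∀ w, (∑ γ ∈ Γ, cnt γ) w = ∑ γ : Γ, cnt γ w := fun w => by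
    rw [AddMonoidHom.finsetSum_apply, Finset.sum_coe_sort Γ fun γ => cnt γ w]
  have hy0 : Sup (fun v => y.coeff v ≠ 0) y := fun _ hv => hv
  have hp : Sup (fun w => x.coeff w ≠ 0 ∧ Even (∑ γ : Γ, cnt γ w)) (upos x) := by
    intro w hw
    have h1 : 0 < x.coeff w := by
      by_contra h1
      exact hw (by simp [upos, not_lt.1 h1])
    refine ⟨h1.ne', Nat.not_odd_iff_even.1 fun h2 => ?_⟩
    have h3 := hx w
    rw [coeff_tw, hs, h2.neg_one_pow] at h3
    linarith
  have hn : Sup (fun w => x.coeff w ≠ 0 ∧ ¬ Even (∑ γ : Γ, cnt γ w)) (uneg x) := by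
    intro w hw
    have h1 : x.coeff w < 0 := by
      by_contra h1
      exact hw (by simp [uneg, not_lt.1 h1])
    refine ⟨h1.ne, fun h2 => ?_⟩
    have h3 := hx w
    rw [coeff_tw, hs, h2.neg_one_pow] at h3
    linarith
  have hcar : ∀ v w, y.coeff v ≠ 0 → x.coeff w ≠ 0 →
      M.Car (⋂ γ : Γ, Hs γ (cnt γ w)) (v + w) := fun v w hv hw =>
    Car.iInter fun γ => (h v w hv hw).2 γ γ.2
  have hC : MeasurableSet (⋃ θ : Γ → ℕ, ⋃ _ : Even (∑ γ, θ γ), ⋂ γ : Γ, Hs γ (θ γ)) :=
    MeasurableSet.iUnion fun θ => MeasurableSet.iUnion fun _ => MeasurableSet.iInter fun γ => hm _ _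
  have h1 := nrm_two_Alg2 (M := M) (x := y * upos x) (y := (-1 : ℝ) • (y * uneg x)) hC
    (hy0.mul hp fun v w hv hw => (hcar v w hv hw.1).mono fun t ht =>
      mem_iUnion₂.2 ⟨fun γ => cnt γ w, hw.2, ht⟩)
    (Sup.smul _ (hy0.mul hn fun v w hv hw => (hcar v w hv hw.1).mono fun t ht ht' => by
      obtain ⟨θ, hθ, h2⟩ := mem_iUnion₂.1 ht'
      have h3 : θ = fun γ : Γ => cnt γ w := funext fun γ => by
        by_contra h3
        exact disjoint_left.1 (hd γ _ _ h3) (mem_iInter.1 h2 γ) (mem_iInter.1 ht γ)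
      exact hw.2 (h3 ▸ hθ)))
  rw [nrm_smul, neg_one_smul, ← sub_eq_add_neg, ← mul_sub, upos_sub_uneg, abs_neg, abs_one,
    one_mul,
    (hy.mul (pos_of_nn (NN.upos x))).nrm_eq hτ (hy0.mul hp fun v w hv hw => (h v w hv hw.1).1),
    (hy.mul (pos_of_nn (NN.uneg x))).nrm_eq hτ (hy0.mul hn fun v w hv hw => (h v w hv hw.1).1),
    map_mul, map_mul, ← mul_add, aug_upos_add_uneg] at h1
  exact h1

theorem nrm_wash {v w : W} {c : ℝ} (hc : c ≤ 1) {g : Measure ℝ} [IsProbabilityMeasure g]
    (hv : ENNReal.ofReal c • g ≤ M.ν v) (hw : ENNReal.ofReal c • g ≤ M.ν w) :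
    M.nrm (wd v - wd w) ≤ 2 * (1 - c) := by
  have hfin : IsFiniteMeasure (ENNReal.ofReal c • g) := isFiniteMeasure_of_le _ hv
  have key : ∀ u : W, ENNReal.ofReal c • g ≤ M.ν u → ∀ B, MeasurableSet B →
      (M.ν u - ENNReal.ofReal c • g).real B =
        (M.ν u).real B - (ENNReal.ofReal c • g).real B := fun u hu B hB => by
    rw [measureReal_def, Measure.sub_apply hB hu,
      ENNReal.toReal_sub_of_le (hu B) (measure_ne_top _ _)]
    rfl
  have h1 := variation_le_Alg2a (M := M) (x := wd v - wd w)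
    ((M.ν v - ENNReal.ofReal c • g) + (M.ν w - ENNReal.ofReal c • g)) fun B hB => by
      rw [← ofReal_measureReal (μ := _ + _), measureReal_add_apply, ev_sub, ev_wd, ev_wd]
      refine ENNReal.ofReal_le_ofReal ?_
      have h2 : 0 ≤ (M.ν v - ENNReal.ofReal c • g).real B := measureReal_nonneg
      have h3 : 0 ≤ (M.ν w - ENNReal.ofReal c • g).real B := measureReal_nonneg
      rw [key v hv B hB] at h2 ⊢
      rw [key w hw B hB] at h3 ⊢
      rw [abs_le]
      constructor <;> linarith
  have h2 : c ≤ (ENNReal.ofReal c • g).real univ := by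
    rw [measureReal_def, Measure.smul_apply, measure_univ, smul_eq_mul, mul_one,
      ENNReal.toReal_ofReal']
    exact le_max_left _ _
  refine (ENNReal.toReal_mono (measure_ne_top _ _) h1).trans ?_
  rw [← measureReal_def, measureReal_add_apply, key v hv _ MeasurableSet.univ,
    key w hw _ MeasurableSet.univ, probReal_univ (μ := M.ν v), probReal_univ (μ := M.ν w)]
  linarith

end Pool.Agent.P.MP_f562c3_an.SS.Model
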