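import Pool.Agent.P.MP_f562c3_an.SS.Alg1

/-!
The norm in M(0,1): basic properties. Upper bounds come from
`VectorMeasure.variation_le_of_forall_enorm_le`, `VectorMeasure.variation_add_le`,
`VectorMeasure.variation_smul`, `VectorMeasure.variation_apply_eq_zero`. The complex measure of a
word has real part the comap of `ν w` (`MeasurableEmbedding.comap_apply`,
`MeasurableEmbedding.subtype_coe measurableSet_Ico`) and imaginary part zero. `nrm_mul_le`: write
`y = ∑ w, y.coeff w • wd w` (`eq_sum_wd`).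
-/

open MeasureTheory Set
open scoped ENNReal

namespace Pool.Agent.P.MP_f562c3_an.SS.Model

variable {W : Type*} [AddCommMonoid W] {M : Model W}

theorem tr_apply (x : Rg W) {B : Set UI} (hB : MeasurableSet B) :
    M.tr x B = (M.ev x (Subtype.val '' B) : ℝ) := by
  have he : MeasurableEmbedding (Subtype.val : UI → ℝ) :=
    MeasurableEmbedding.subtype_coe measurableSet_Ico
  rw [tr, ev, FunLike.coe_sum, Finset.sum_apply, Complex.ofReal_sum]
  refine Finset.sum_congr rfl fun w _ => ?_
  have h1 : M.trw w B = ((M.ν w).real (Subtype.val '' B) : ℝ) := by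
    rw [trw, SignedMeasure.toComplexMeasure_apply, Measure.toSignedMeasure_apply_measurable hB,
      measureReal_def, he.comap_apply]
    rfl
  rw [smul_apply, h1, Complex.real_smul, Complex.ofReal_mul]

theorem enorm_tr_Alg2a (x : Rg W) {B : Set UI} (hB : MeasurableSet B) :
    ‖M.tr x B‖ₑ = ENNReal.ofReal |M.ev x (Subtype.val '' B)| := by
  rw [tr_apply x hB, ← ofReal_norm, Complex.norm_real, Real.norm_eq_abs]

theorem variation_le_Alg2a {x : Rg W} (m : Measure ℝ)
    (h : ∀ B, MeasurableSet B → ENNReal.ofReal |M.ev x B| ≤ m B) :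
    (M.tr x).variation univ ≤ m univ := by
  have he : MeasurableEmbedding (Subtype.val : UI → ℝ) :=
    MeasurableEmbedding.subtype_coe measurableSet_Ico
  have h1 : (M.tr x).variation ≤ m.comap (Subtype.val : UI → ℝ) :=
    VectorMeasure.variation_le_of_forall_enorm_le fun E hE => by
      rw [enorm_tr_Alg2a x hE, he.comap_apply]
      exact h _ (he.measurableSet_image.2 hE)
  refine (h1 univ).trans ?_
  rw [he.comap_apply]
  exact measure_mono (subset_univ _)

theorem tr_add (x y : Rg W) : M.tr (x + y) = M.tr x + M.tr y := by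
  ext B hB
  rw [add_apply, tr_apply _ hB, tr_apply _ hB, tr_apply _ hB, ev_add, Complex.ofReal_add]

theorem tr_smul (c : ℝ) (x : Rg W) : M.tr (c • x) = c • M.tr x := by
  ext B hB
  rw [smul_apply, tr_apply _ hB, tr_apply _ hB, ev_smul, Complex.ofReal_mul, Complex.real_smul]

theorem variation_tr_le (x : Rg W) : (M.tr x).variation univ ≤ ENNReal.ofReal (l1 x) := by
  refine (variation_le_Alg2a (∑ w ∈ x.coeff.support, ENNReal.ofReal |x.coeff w| • M.ν w)
    fun B _ => ?_).trans_eq ?_
  · refine (ENNReal.ofReal_le_ofReal (Finset.abs_sum_le_sum_abs _ _)).trans_eq ?_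
    rw [ENNReal.ofReal_sum_of_nonneg fun _ _ => abs_nonneg _, Measure.finsetSum_apply]
    refine Finset.sum_congr rfl fun w _ => ?_
    rw [abs_mul, ENNReal.ofReal_mul (abs_nonneg _), abs_of_nonneg measureReal_nonneg,
      ofReal_measureReal, Measure.smul_apply, smul_eq_mul]
  · rw [l1, ENNReal.ofReal_sum_of_nonneg fun _ _ => abs_nonneg _, Measure.finsetSum_apply]
    refine Finset.sum_congr rfl fun w _ => ?_
    rw [Measure.smul_apply, measure_univ, smul_eq_mul, mul_one]

instance (x : Rg W) : IsFiniteMeasure (M.tr x).variation :=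
  ⟨(variation_tr_le x).trans_lt ENNReal.ofReal_lt_top⟩

theorem variation_tr_compl {x : Rg W} {C : Set ℝ} (hC : MeasurableSet C) (h : Sup (M.Car C) x) :
    (M.tr x).variation (Subtype.val ⁻¹' C)ᶜ = 0 := by
  refine (VectorMeasure.variation_apply_eq_zero (measurable_subtype_coe hC).compl).2
    fun t ht htm => ?_
  rw [tr_apply x htm, ev, Finset.sum_eq_zero, Complex.ofReal_zero]
  intro w hw
  have h1 : M.ν w (Subtype.val '' t) = 0 := by
    refine measure_mono_null ?_ (h w (Finsupp.mem_support_iff.1 hw))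
    rintro _ ⟨a, ha, rfl⟩
    exact ht ha
  rw [measureReal_def, h1, ENNReal.toReal_zero, mul_zero]

theorem nrm_nonneg (x : Rg W) : 0 ≤ M.nrm x := ENNReal.toReal_nonneg

theorem nrm_le_l1 (x : Rg W) : M.nrm x ≤ l1 x := by
  exact ENNReal.toReal_le_of_le_ofReal (l1_nonneg x) (variation_tr_le x)

theorem nrm_add_le (x y : Rg W) : M.nrm (x + y) ≤ M.nrm x + M.nrm y := by
  rw [nrm, nrm, nrm, ← ENNReal.toReal_add (measure_ne_top _ _) (measure_ne_top _ _), tr_add]
  exact ENNReal.toReal_mono (ENNReal.add_ne_top.2 ⟨measure_ne_top _ _, measure_ne_top _ _⟩)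
    (VectorMeasure.variation_add_le univ)

theorem nrm_smul (c : ℝ) (x : Rg W) : M.nrm (c • x) = |c| * M.nrm x := by
  rw [nrm, nrm, tr_smul, VectorMeasure.variation_smul, Measure.coe_nnreal_smul_apply,
    ENNReal.toReal_mul]
  rfl

theorem nrm_sum_le {ι : Type*} (s : Finset ι) (f : ι → Rg W) :
    M.nrm (∑ i ∈ s, f i) ≤ ∑ i ∈ s, M.nrm (f i) := by
  classical
  induction s using Finset.induction_on with
  | empty => exact (nrm_le_l1 _).trans_eq (by simp [l1_zero])
  | insert a s ha ih =>
    rw [Finset.sum_insert ha, Finset.sum_insert ha]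
    exact (nrm_add_le _ _).trans (by linarith)

theorem abs_nrm_sub_le (x y : Rg W) : |M.nrm x - M.nrm y| ≤ M.nrm (x - y) := by
  have h1 := nrm_add_le (M := M) (x - y) y
  have h2 := nrm_add_le (M := M) ((-1 : ℝ) • (x - y)) x
  rw [sub_add_cancel] at h1
  rw [nrm_smul, neg_one_smul, neg_sub, sub_add_cancel, abs_neg, abs_one, one_mul] at h2
  rw [abs_le]
  constructor <;> linarith

theorem nrm_mul_le {z y : Rg W} {ζ : ℝ} (h : Sup (fun w => M.nrm (z * wd w) ≤ ζ) y) :
    M.nrm (z * y) ≤ ζ * l1 y := by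
  conv_lhs => rw [eq_sum_wd y, Finset.mul_sum]
  rw [l1, Finset.mul_sum]
  refine (nrm_sum_le _ _).trans (Finset.sum_le_sum fun w hw => ?_)
  rw [mul_smul_comm, nrm_smul, mul_comm]
  exact mul_le_mul_of_nonneg_right (h w (Finsupp.mem_support_iff.1 hw)) (abs_nonneg _)

theorem nrm_eq_zero {x : Rg W} (h : Sup (M.Lo 1) x) : M.nrm x = 0 := by
  have h1 := variation_tr_compl (M := M) (x := x) (C := Ici 1) measurableSet_Ici
    (h.mono fun w hw => by rwa [Car, compl_Ici])
  have h2 : ((Subtype.val : UI → ℝ) ⁻¹' Ici 1)ᶜ = univ :=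
    eq_univ_of_forall fun a => not_le.2 a.2.2
  rw [nrm, ← h2, h1, ENNReal.toReal_zero]

end Pool.Agent.P.MP_f562c3_an.SS.Model
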