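import Pool.Agent.P.MP_f562c3_an.SS.Alg2a
import Pool.Agent.P.MP_f562c3_an.Assemble

/-!
From a model to an embedding. The `n`-th power of the generator is the sum, over all tuples
`ι : Fin n → ℕ`, of `(∏ a (ι l)) • tr (∏ A (ι l))`.
* `vsum_exists`: build the vector measure with value `∑' i, s i B` on measurable `B`; countable
  additivity follows from summability on pairs, `‖s i (f n)‖ ≤ variation (s i) (f n)`. Its
  variation is at most `Measure.sum` of the variations.
* `isConv_tr`: `VectorMeasure.prod_eq_of_forall_apply_prod` with the candidate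
  `∑ v, ∑ w, (x v * y w) • (complex measure of the product of the comapped measures)`; then
  evaluate on the set of pairs with sum in `val '' B`, use `M.add`, `M.nonneg`, `mul_eq_sum`.
-/

open MeasureTheory Set
open scoped ENNReal

namespace Pool.Agent.P.MP_f562c3_an.SS

/-- Multiplicities of a tuple. -/
def mult {n : ℕ} (ι : Fin n → ℕ) (i : ℕ) : ℕ := (Finset.univ.filter fun l => ι l = i).card

theorem vsum_exists {X I : Type*} [MeasurableSpace X] [Countable I] (s : I → ComplexMeasure X)
    (h : ∑' i, (s i).variation univ ≠ ∞) :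
    ∃ S : ComplexMeasure X, (∀ B, MeasurableSet B → HasSum (fun i => s i B) (S B)) ∧
      S.variation ≤ Measure.sum fun i => (s i).variation := by
  have hs : ∀ B : Set X, Summable fun i => s i B := fun B => by
    refine Summable.of_enorm (ne_top_of_le_ne_top h (ENNReal.tsum_le_tsum fun i => ?_))
    exact (VectorMeasure.enorm_measure_le_variation _ _).trans (measure_mono (subset_univ B))
  refine ⟨⟨fun B => ∑' i, s i B, by simp, fun B hB => by simp [hB], fun f hf hd => ?_⟩,
    fun B _ => (hs B).hasSum, ?_⟩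
  · have hF : Summable fun p : I × ℕ => s p.1 (f p.2) := by
      refine Summable.of_enorm (ne_top_of_le_ne_top h ?_)
      rw [ENNReal.tsum_prod']
      refine ENNReal.tsum_le_tsum fun i => ?_
      calc ∑' n, ‖s i (f n)‖ₑ ≤ ∑' n, (s i).variation (f n) :=
            ENNReal.tsum_le_tsum fun n => VectorMeasure.enorm_measure_le_variation _ _
        _ = (s i).variation (⋃ n, f n) := (measure_iUnion hd hf).symm
        _ ≤ _ := measure_mono (subset_univ _)
    have h1 : HasSum (fun i => s i (⋃ n, f n)) (∑' p : I × ℕ, s p.1 (f p.2)) :=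
      hF.hasSum.prod_fiberwise fun i => (s i).m_iUnion hf hd
    have h2 : HasSum (fun p : ℕ × I => s p.2 (f p.1)) (∑' p : I × ℕ, s p.1 (f p.2)) :=
      (Equiv.prodComm ℕ I).hasSum_iff.2 hF.hasSum
    have h3 := h2.prod_fiberwise fun n => (hs (f n)).hasSum
    rw [h1.tsum_eq]
    exact h3
  · refine VectorMeasure.variation_le_of_forall_enorm_le fun E hE => ?_
    rw [Measure.sum_apply _ hE]
    exact enorm_tsum_le_tsum_enorm.trans
      (ENNReal.tsum_le_tsum fun i => VectorMeasure.enorm_measure_le_variation _ _)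

theorem hasSum_prod_pi {b : ℕ → ℝ} (hb : ∀ i, 0 ≤ b i) {S : ℝ} (h : HasSum b S) (n : ℕ) :
    HasSum (fun ι : Fin n → ℕ => ∏ l, b (ι l)) (S ^ n) := by
  induction n with
  | zero => simp
  | succ n ih =>
    have h0 : ∀ ι : Fin n → ℕ, 0 ≤ ∏ l, b (ι l) := fun ι => Finset.prod_nonneg fun l _ => hb _
    have h2 : Summable fun p : ℕ × (Fin n → ℕ) => b p.1 * ∏ l, b (p.2 l) :=
      Summable.mul_of_nonneg (f := b) (g := fun ι : Fin n → ℕ => ∏ l, b (ι l)) h.summable
        ih.summable hb h0
    have h1 : HasSum (fun p : ℕ × (Fin n → ℕ) => b p.1 * ∏ l, b (p.2 l)) (S * S ^ n) :=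
      HasSum.mul (f := b) (g := fun ι : Fin n → ℕ => ∏ l, b (ι l)) h ih h2
    rw [← (Fin.consEquiv fun _ : Fin (n + 1) => ℕ).hasSum_iff, pow_succ']
    refine h1.congr_fun fun p => ?_
    simp [Fin.prod_univ_succ, Fin.consEquiv]

variable {W : Type*} [AddCommMonoid W] (M : Model W)

theorem cplx_apply_Alg3a {X : Type*} [MeasurableSpace X] (μ : Measure X) [IsFiniteMeasure μ]
    {B : Set X} (hB : MeasurableSet B) :
    μ.toSignedMeasure.toComplexMeasure 0 B = (μ.real B : ℝ) := by
  apply Complex.ext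
  · rw [SignedMeasure.toComplexMeasure_apply, Measure.toSignedMeasure_apply_measurable hB]
    simp
  · rw [SignedMeasure.toComplexMeasure_apply]
    simp

theorem comap_real_Alg3a (μ : Measure ℝ) (B : Set UI) :
    (μ.comap (Subtype.val : UI → ℝ)).real B = μ.real (Subtype.val '' B) := by
  rw [Measure.real, Measure.real, (MeasurableEmbedding.subtype_coe measurableSet_Ico).comap_apply]

theorem prod_add_Alg3a (v w : W) {B : Set UI} (hB : MeasurableSet B) :
    (((M.ν v).comap (Subtype.val : UI → ℝ)).prod ((M.ν w).comap (Subtype.val : UI → ℝ)))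
      {p : UI × UI | (p.1 : ℝ) + (p.2 : ℝ) ∈ Subtype.val '' B} =
      M.ν (v + w) (Subtype.val '' B) := by
  have hB' : MeasurableSet (Subtype.val '' B) :=
    (MeasurableEmbedding.subtype_coe measurableSet_Ico).measurableSet_image.2 hB
  have hadd : Measurable fun p : ℝ × ℝ => p.1 + p.2 := by fun_prop
  have hm : Measurable (Prod.map (Subtype.val : UI → ℝ) (Subtype.val : UI → ℝ)) :=
    measurable_subtype_coe.prodMap measurable_subtype_coe
  have e1 : {p : UI × UI | (p.1 : ℝ) + (p.2 : ℝ) ∈ Subtype.val '' B} =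
      Prod.map (Subtype.val : UI → ℝ) (Subtype.val : UI → ℝ) ⁻¹'
        ((fun p : ℝ × ℝ => p.1 + p.2) ⁻¹' (Subtype.val '' B)) := rfl
  rw [e1, ← Measure.map_apply hm (hadd hB'),
    ← Measure.map_prod_map _ _ measurable_subtype_coe measurable_subtype_coe,
    map_comap_subtype_coe measurableSet_Ico, map_comap_subtype_coe measurableSet_Ico,
    Measure.prod_restrict, Measure.restrict_apply (hadd hB'), M.add, Measure.conv,
    Measure.map_apply hadd hB']
  have a1 : ∀ᵐ p ∂(M.ν v).prod (M.ν w), 0 ≤ p.1 := by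
    refine Measure.quasiMeasurePreserving_fst.ae (p := fun t : ℝ => 0 ≤ t) ?_
    rw [ae_iff]
    simpa only [not_le] using! M.nonneg v
  have a2 : ∀ᵐ p ∂(M.ν v).prod (M.ν w), 0 ≤ p.2 := by
    refine Measure.quasiMeasurePreserving_snd.ae (p := fun t : ℝ => 0 ≤ t) ?_
    rw [ae_iff]
    simpa only [not_le] using! M.nonneg w
  refine measure_congr ?_
  filter_upwards [a1, a2] with p h1 h2
  refine propext ⟨fun h => h.1, fun h => ⟨h, ?_⟩⟩
  obtain ⟨z, -, hz⟩ := h
  have hz1 : (z : ℝ) < 1 := z.2.2
  have hz2 : (z : ℝ) = p.1 + p.2 := hz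
  exact ⟨⟨h1, by linarith⟩, ⟨h2, by linarith⟩⟩

theorem isConv_tr (x y : Rg W) : IsConv (M.tr x) (M.tr y) (M.tr (x * y)) := by
  intro B hB
  have hprod : (M.tr x).prod (M.tr y) (ContinuousLinearMap.mul ℝ ℂ) =
      ∑ v ∈ x.coeff.support, ∑ w ∈ y.coeff.support, (x.coeff v * y.coeff w) •
        (((M.ν v).comap (Subtype.val : UI → ℝ)).prod
          ((M.ν w).comap (Subtype.val : UI → ℝ))).toSignedMeasure.toComplexMeasure 0 := by
    apply VectorMeasure.prod_eq_of_forall_apply_prod
    intro s t hs ht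
    rw [Model.tr_apply x hs, Model.tr_apply y ht, ContinuousLinearMap.mul_apply',
      ← Complex.ofReal_mul, Model.ev, Model.ev, Finset.sum_mul_sum, Complex.ofReal_sum,
      _root_.sum_apply]
    refine Finset.sum_congr rfl fun v _ => ?_
    rw [Complex.ofReal_sum, _root_.sum_apply]
    refine Finset.sum_congr rfl fun w _ => ?_
    rw [_root_.smul_apply, cplx_apply_Alg3a _ (hs.prod ht), measureReal_prod_prod,
      comap_real_Alg3a, comap_real_Alg3a, Complex.real_smul, ← Complex.ofReal_mul]
    congr 1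
    ring
  rw [hprod, Model.tr_apply _ hB, mul_eq_sum, Model.ev_sum, Complex.ofReal_sum, _root_.sum_apply]
  refine Finset.sum_congr rfl fun v _ => ?_
  rw [Model.ev_sum, Complex.ofReal_sum, _root_.sum_apply]
  refine Finset.sum_congr rfl fun w _ => ?_
  rw [_root_.smul_apply, cplx_apply_Alg3a _ (measurableSet_addPre hB), Model.ev_smul, Model.ev_wd,
    Complex.real_smul, ← Complex.ofReal_mul, Measure.real, Measure.real, prod_add_Alg3a M v w hB]

end Pool.Agent.P.MP_f562c3_an.SS
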