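import Pool.Agent.P.MP_f562c3_an.SS.Alg2
import Pool.Agent.P.MP_f562c3_an.SS.Alg3a

/-!
From a model to an embedding. The `n`-th power of the generator is the sum (`vsum_exists`), over
all tuples `ι : Fin n → ℕ`, of `(∏ a (ι l)) • tr (∏ A (ι l))`; `hasSum_prod_pi` and `nrm_le_l1`,
`l1_prod_le_pow` give summability.
* `embeds_of_model`: `assemble` with `K n = val ⁻¹' ⋃ ι, C (mult ι)`. Tuples of different
  lengths have different multiplicity functions (the length is the sum). For the norm: the upper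
  bound is the triangle inequality; on `val ⁻¹' C c` the sum restricts to
  `(∑ over ι with mult ι = c of the weights) • tr (∏ A)`, because `∏ l, A (ι l)` only depends on
  `mult ι` (`Finset.prod_fiberwise`, or `∏ i ∈ support, A i ^ mult ι i`). A shorter way to the lower
  bound: for a finite set `T` of tuples apply `nrm_disj` to the finite sum grouped by `mult`, and
  let the tail tend to zero. `IsConv` for sums: `ρ = vsum` over pairs of the products
  (`VectorMeasure.variation_prod_le`), and `Fin.appendEquiv`, `Fin.prod_univ_add`.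
-/

open MeasureTheory Set
open scoped ENNReal

namespace Pool.Agent.P.MP_f562c3_an.SS

variable {W : Type*} [AddCommMonoid W] (M : Model W)

theorem ms_eq_Alg3 {m n : ℕ} {ι : Fin m → ℕ} {κ : Fin n → ℕ} (h : mult ι = mult κ) :
    Finset.univ.val.map ι = Finset.univ.val.map κ := by
  have key : ∀ {n : ℕ} (ι : Fin n → ℕ) (i : ℕ), (Finset.univ.val.map ι).count i = mult ι i := by
    intro n ι i
    rw [Multiset.count_map]
    simp only [eq_comm (a := i)]
    rfl
  ext i
  rw [key, key, h]

theorem len_eq_Alg3 {m n : ℕ} {ι : Fin m → ℕ} {κ : Fin n → ℕ} (h : mult ι = mult κ) : m = n := by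
  simpa using congrArg Multiset.card (ms_eq_Alg3 h)

theorem prod_eq_Alg3 {n : ℕ} {ι κ : Fin n → ℕ} (h : mult ι = mult κ) (A : ℕ → Rg W) :
    ∏ l, A (ι l) = ∏ l, A (κ l) := by
  have := congrArg (fun s => (s.map A).prod) (ms_eq_Alg3 h)
  simp only [Multiset.map_map] at this
  exact this

theorem tr_sum_Alg3 {ι : Type*} (s : Finset ι) (f : ι → Rg W) :
    M.tr (∑ i ∈ s, f i) = ∑ i ∈ s, M.tr (f i) := by
  classical
  induction s using Finset.induction_on with
  | empty => simp [Model.tr]
  | insert a s ha ih => rw [Finset.sum_insert ha, Finset.sum_insert ha, Model.tr_add, ih]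

theorem var_eq_Alg3 (x : Rg W) : (M.tr x).variation univ = ENNReal.ofReal (M.nrm x) :=
  (ENNReal.ofReal_toReal (measure_ne_top _ _)).symm

theorem lower_Alg3 {X I : Type*} [MeasurableSpace X] {s : I → ComplexMeasure X}
    {S : ComplexMeasure X} (hS : ∀ B, MeasurableSet B → HasSum (fun i => s i B) (S B))
    (hfin : ∑' i, (s i).variation univ ≠ ∞)
    (h : ∀ T : Finset I, ∑ i ∈ T, (s i).variation univ ≤ (∑ i ∈ T, s i).variation univ) :
    ∑' i, (s i).variation univ ≤ S.variation univ := by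
  have h1 : ∀ T : Finset I, ∑ i ∈ T, (s i).variation univ ≤
      S.variation univ + ∑' i : {x // x ∉ T}, (s i).variation univ := fun T => by
    refine (h T).trans ?_
    rw [← Measure.sum_apply _ MeasurableSet.univ, ← Measure.add_apply]
    refine VectorMeasure.variation_le_of_forall_enorm_le (fun B hB => ?_) univ
    have h2 := (hS B hB).summable.sum_add_tsum_subtype_compl T
    rw [(hS B hB).tsum_eq] at h2
    rw [FunLike.coe_sum, Finset.sum_apply, eq_sub_of_add_eq h2, Measure.add_apply,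
      Measure.sum_apply _ hB]
    exact (enorm_sub_le).trans (add_le_add (VectorMeasure.enorm_measure_le_variation _ _)
      (enorm_tsum_le_tsum_enorm.trans (ENNReal.tsum_le_tsum fun i =>
        VectorMeasure.enorm_measure_le_variation _ _)))
  have h3 := (ENNReal.tendsto_tsum_compl_atTop_zero hfin).const_add (S.variation univ)
  rw [add_zero] at h3
  exact le_of_tendsto_of_tendsto' ENNReal.summable.hasSum h3 h1

theorem prod_Alg3 {X I J : Type*} [MeasurableSpace X] [Countable I] [Countable J]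
    {s : I → ComplexMeasure X} {t : J → ComplexMeasure X} {S T : ComplexMeasure X}
    (hS : ∀ B, MeasurableSet B → HasSum (fun i => s i B) (S B))
    (hT : ∀ B, MeasurableSet B → HasSum (fun j => t j B) (T B))
    (hs : ∑' i, (s i).variation univ ≠ ∞) (ht : ∑' j, (t j).variation univ ≠ ∞)
    {B : Set (X × X)} (hB : MeasurableSet B) :
    HasSum (fun p : I × J => (s p.1).prod (t p.2) (ContinuousLinearMap.mul ℝ ℂ) B)
      (S.prod T (ContinuousLinearMap.mul ℝ ℂ) B) := by
  have _i : ∀ i, IsFiniteMeasure (s i).variation := fun i =>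
    ⟨(ENNReal.ne_top_of_tsum_ne_top hs i).lt_top⟩
  have _i : ∀ j, IsFiniteMeasure (t j).variation := fun j =>
    ⟨(ENNReal.ne_top_of_tsum_ne_top ht j).lt_top⟩
  obtain ⟨ρ, hρ, -⟩ := vsum_exists
    (fun p : I × J => (s p.1).prod (t p.2) (ContinuousLinearMap.mul ℝ ℂ)) (by
      refine ne_top_of_le_ne_top (ENNReal.mul_ne_top (enorm_ne_top
        (x := ContinuousLinearMap.mul ℝ ℂ)) (ENNReal.mul_ne_top hs ht)) ?_
      rw [← ENNReal.tsum_mul_right]
      simp only [← ENNReal.tsum_mul_left]
      rw [← ENNReal.tsum_prod]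
      refine ENNReal.tsum_le_tsum fun p => (VectorMeasure.variation_prod_le univ).trans_eq ?_
      rw [Measure.smul_apply, ← univ_prod_univ, Measure.prod_prod, smul_eq_mul])
  rw [VectorMeasure.prod_eq_of_forall_apply_prod (ρ := ρ) fun u v hu hv => ?_]
  · exact hρ B hB
  · have h1 := hρ _ (hu.prod hv)
    simp only [VectorMeasure.prod_apply, ContinuousLinearMap.mul_apply'] at h1 ⊢
    exact h1.unique (HasSum.mul (f := fun i => s i u) (g := fun j => t j v) (hS u hu) (hT v hv)
      h1.summable)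

theorem embeds_of_model {w : ℕ → ℝ} (hw : ∀ n, 0 < w n) (hsub : ∀ m n, w (m + n) ≤ w m * w n)
    (A : ℕ → Rg W) (a : ℕ → ℝ) (ha : ∀ i, 0 ≤ a i) (hs : Summable a) {L : ℝ}
    (hL : ∀ i, l1 (A i) ≤ L) (C : (ℕ → ℕ) → Set ℝ) (hC : ∀ c, MeasurableSet (C c))
    (hd : ∀ c c', c ≠ c' → Disjoint (C c) (C c'))
    (hcar : ∀ n (ι : Fin n → ℕ), Sup (M.Car (C (mult ι))) (∏ l, A (ι l)))
    (hnorm : ∀ n, HasSum (fun ι : Fin n → ℕ => (∏ l, a (ι l)) * M.nrm (∏ l, A (ι l))) (w n)) :
    Embeds w := by
  classical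
  let x : ∀ n, (Fin n → ℕ) → Rg W := fun n ι => (∏ l, a (ι l)) • ∏ l, A (ι l)
  have hp : ∀ n (ι : Fin n → ℕ), 0 ≤ ∏ l, a (ι l) := fun n ι =>
    Finset.prod_nonneg fun l _ => ha _
  have hx : ∀ n ι, M.nrm (x n ι) = (∏ l, a (ι l)) * M.nrm (∏ l, A (ι l)) := fun n ι => by
    rw [Model.nrm_smul, abs_of_nonneg (hp n ι)]
  have hsum : ∀ n, ∑' ι, (M.tr (x n ι)).variation univ = ENNReal.ofReal (w n) := fun n => by
    simp only [var_eq_Alg3, hx]
    rw [← (hnorm n).tsum_eq, ENNReal.ofReal_tsum_of_nonneg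
      (fun ι => mul_nonneg (hp n ι) (Model.nrm_nonneg _)) (hnorm n).summable]
  have hfin : ∀ n, ∑' ι, (M.tr (x n ι)).variation univ ≠ ∞ := fun n => by
    rw [hsum]; exact ENNReal.ofReal_ne_top
  choose μ hμ hle using fun n => vsum_exists (fun ι => M.tr (x n ι)) (hfin n)
  have hm : ∀ n, MeasurableSet (⋃ ι : Fin n → ℕ, C (mult ι)) := fun n =>
    MeasurableSet.iUnion fun ι => hC _
  refine assemble hw hsub μ (fun n => Subtype.val ⁻¹' ⋃ ι : Fin n → ℕ, C (mult ι))
    (fun m n hmn => Disjoint.preimage _ ?_) (fun n => ?_) (fun n => le_antisymm ?_ ?_)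
    fun m n B hB => ?_
  · exact disjoint_iUnion_left.2 fun ι => disjoint_iUnion_right.2 fun κ =>
      hd _ _ fun e => hmn (len_eq_Alg3 e)
  · refine nonpos_iff_eq_zero.1 ((hle n _).trans_eq ?_)
    rw [Measure.sum_apply _ (measurable_subtype_coe (hm n)).compl, ENNReal.tsum_eq_zero]
    exact fun ι => Model.variation_tr_compl (hm n) (((hcar n ι).mono fun _ h =>
      h.mono (subset_iUnion (fun ι : Fin n → ℕ => C (mult ι)) ι)).smul _)
  · refine (hle n _).trans_eq ?_
    rw [Measure.sum_apply _ MeasurableSet.univ, hsum]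
  · rw [← hsum]
    refine lower_Alg3 (hμ n) (hfin n) fun T => le_of_eq ?_
    rw [← tr_sum_Alg3]
    simp only [var_eq_Alg3]
    rw [← ENNReal.ofReal_sum_of_nonneg fun ι _ => Model.nrm_nonneg _,
      ← Finset.sum_fiberwise_of_maps_to fun ι hι => Finset.mem_image_of_mem mult hι,
      ← Finset.sum_fiberwise_of_maps_to (f := x n) fun ι hι => Finset.mem_image_of_mem mult hι,
      Model.nrm_disj _ _ C hC (fun c _ c' _ => hd c c') fun c _ => Sup.sum fun ι hι =>
        (Finset.mem_filter.1 hι).2 ▸ (hcar n ι).smul _]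
    refine congrArg _ (Finset.sum_congr rfl fun c hc => ?_)
    obtain ⟨κ, -, rfl⟩ := Finset.mem_image.1 hc
    have e : ∀ ι ∈ T.filter fun ι => mult ι = mult κ,
        x n ι = (∏ l, a (ι l)) • ∏ l, A (κ l) := fun ι hι =>
      congrArg ((∏ l, a (ι l)) • ·) (prod_eq_Alg3 (Finset.mem_filter.1 hι).2 A)
    rw [Finset.sum_congr rfl e, ← Finset.sum_smul, Model.nrm_smul,
      abs_of_nonneg (Finset.sum_nonneg fun ι _ => hp n ι), Finset.sum_mul]
    exact Finset.sum_congr rfl fun ι hι => by
      rw [e ι hι, Model.nrm_smul, abs_of_nonneg (hp n ι)]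
  · have h1 := prod_Alg3 (hμ m) (hμ n) (hfin m) (hfin n) (measurableSet_addPre hB)
    refine ((Fin.appendEquiv m n).hasSum_iff.2 (hμ (m + n) B hB)).unique
      (h1.congr_fun fun p => ?_)
    have e : x (m + n) (Fin.appendEquiv m n p) = x m p.1 * x n p.2 := by
      simp only [x, Fin.appendEquiv_apply, Fin.prod_univ_add, Fin.append_left, Fin.append_right,
        smul_mul_smul_comm]
    rw [Function.comp_apply, e]
    exact isConv_tr M _ _ B hB

end Pool.Agent.P.MP_f562c3_an.SS
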