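import Pool.Agent.P.MP_f562c3_an.SS.ShortA

/-!
Short blocks: an element `1 + u` close to `1` whose norm roots increase strictly on `[k, 2k)`.
Words are pairs `(i, j)`, standing for `x ^ i * y ^ j`; `p` comes from `exists_p`.
* `short_block`: scale by the algebra map `wd (i,j) ↦ η ^ (i + (k+1) j) • wd (i,j)`. With
  `s = aug p_η → 1` we have `l1 (p_η ^ t) = s ^ t + 2 ∑ over negative coefficients`, so
  `l1 (p_η ^ t) = s ^ t + η ^ (2k+1) * f t η` with `f t η → 2 t (t-k) / k` as `η → 0+`.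
  Then `(l1 (p_η ^ (t+1)) ^ t - l1 (p_η ^ t) ^ (t+1)) / η ^ (2k+1)` tends to
  `t * f (t+1) 0 - (t+1) * f t 0 = 2 t (t+1) / k > 0` (both powers start with `s ^ (t (t+1))`;
  use `(a + e) ^ n - a ^ n = e * ∑ (a+e)^i a^(n-1-i)`).
-/

namespace Pool.Agent.P.MP_f562c3_an.SS

open Filter Topology

/-- Scaling of words by powers of `η`. -/
noncomputable def sc_Short {W : Type*} [AddCommMonoid W] (χ : W →+ ℕ) (η : ℝ) :
    Rg W →ₐ[ℝ] Rg W :=
  AddMonoidAlgebra.lift ℝ (Rg W) W
    { toFun := fun w => AddMonoidAlgebra.single w.toAdd (η ^ χ w.toAdd)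
      map_one' := by simp [AddMonoidAlgebra.one_def]
      map_mul' := fun a b => by simp [AddMonoidAlgebra.single_mul_single, pow_add] }

theorem sc_wd_Short {W : Type*} [AddCommMonoid W] (χ : W →+ ℕ) (η : ℝ) (w : W) :
    sc_Short χ η (wd w) = (η ^ χ w) • wd w := by
  simp [sc_Short, wd]

theorem coeff_sc_Short {W : Type*} [AddCommMonoid W] (χ : W →+ ℕ) (η : ℝ) (x : Rg W) (w : W) :
    (sc_Short χ η x).coeff w = η ^ χ w * x.coeff w := by
  classical
  conv_lhs => rw [eq_sum_wd x]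
  rw [map_sum, coeff_sum']
  simp only [map_smul, sc_wd_Short, coeff_smul', coeff_wd]
  rw [Finset.sum_eq_single w]
  · simp [mul_comm]
  · intro b _ hb; simp [hb]
  · intro h; simp [Finsupp.notMem_support_iff.1 h]

theorem l1_sc_Short {W : Type*} [AddCommMonoid W] (χ : W →+ ℕ) {η : ℝ} (hη : 0 ≤ η) (x : Rg W) :
    l1 (sc_Short χ η x) = ∑ w ∈ x.coeff.support, η ^ χ w * |x.coeff w| := by
  have hs : (sc_Short χ η x).coeff.support ⊆ x.coeff.support := fun w hw => by
    rw [Finsupp.mem_support_iff] at hw ⊢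
    intro h0; apply hw; rw [coeff_sc_Short, h0, mul_zero]
  rw [l1_eq_of_subset _ hs]
  exact Finset.sum_congr rfl fun w _ => by
    rw [coeff_sc_Short, abs_mul, abs_of_nonneg (pow_nonneg hη _)]

theorem aug_sc_Short {W : Type*} [AddCommMonoid W] (χ : W →+ ℕ) (η : ℝ) (x : Rg W) :
    aug (sc_Short χ η x) = ∑ w ∈ x.coeff.support, η ^ χ w * x.coeff w := by
  conv_lhs => rw [eq_sum_wd x]
  simp only [map_sum, map_smul, sc_wd_Short, aug_wd, smul_eq_mul, mul_one]
  exact Finset.sum_congr rfl fun w _ => mul_comm _ _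

theorem eventually_lt_Short {s f g : ℝ → ℝ} (hs : Continuous s) (hf : Continuous f)
    (hg : Continuous g) (h0 : s 0 = 1) {t m : ℕ} (hm : m ≠ 0)
    (h : (t + 1 : ℝ) * f 0 < t * g 0) :
    ∀ᶠ η in 𝓝[>] (0 : ℝ),
      (s η ^ t + η ^ m * f η) ^ (t + 1) < (s η ^ (t + 1) + η ^ m * g η) ^ t := by
  let F : ℝ → ℝ := fun η => (∑ i ∈ Finset.range (t + 1),
    (s η ^ t + η ^ m * f η) ^ i * (s η ^ t) ^ (t + 1 - 1 - i)) * f η
  let G : ℝ → ℝ := fun η => (∑ i ∈ Finset.range t,
    (s η ^ (t + 1) + η ^ m * g η) ^ i * (s η ^ (t + 1)) ^ (t - 1 - i)) * g η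
  have hF : Continuous F := by fun_prop
  have hG : Continuous G := by fun_prop
  have hFG : F 0 < G 0 := by simpa [F, G, h0, hm] using h
  have h1 : ∀ᶠ η in 𝓝 (0 : ℝ), F η < G η := hF.continuousAt.eventually_lt hG.continuousAt hFG
  filter_upwards [h1.filter_mono nhdsWithin_le_nhds, self_mem_nhdsWithin] with η h2 h3
  have hη : 0 < η ^ m := pow_pos h3 m
  have e1 := (Commute.all (s η ^ t + η ^ m * f η) (s η ^ t)).geom_sum₂_mul (t + 1)
  have e2 := (Commute.all (s η ^ (t + 1) + η ^ m * g η) (s η ^ (t + 1))).geom_sum₂_mul t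
  have e3 : (s η ^ t) ^ (t + 1) = (s η ^ (t + 1)) ^ t := by rw [← pow_mul, ← pow_mul, mul_comm]
  have e4 : (s η ^ t + η ^ m * f η) ^ (t + 1) = (s η ^ t) ^ (t + 1) + η ^ m * F η := by
    simp only [F]
    rw [add_sub_cancel_left] at e1
    linear_combination -e1
  have e5 : (s η ^ (t + 1) + η ^ m * g η) ^ t = (s η ^ (t + 1)) ^ t + η ^ m * G η := by
    simp only [G]
    rw [add_sub_cancel_left] at e2
    linear_combination -e2
  rw [e4, e5, e3]
  have := mul_lt_mul_of_pos_left h2 hη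
  linarith

/-- The weighted degree. -/
def dg_Short (k : ℕ) : ℕ × ℕ →+ ℕ where
  toFun w := w.1 + (k + 1) * w.2
  map_zero' := by simp
  map_add' a b := by simp only [Prod.fst_add, Prod.snd_add]; ring

theorem dg_zero_Short {k : ℕ} {w : ℕ × ℕ} (h : dg_Short k w = 0) : w = 0 := by
  obtain ⟨i, j⟩ := w
  have h' : i + (k + 1) * j = 0 := h
  have h1 : i = 0 := by omega
  have h2 : (k + 1) * j = 0 := by omega
  have h3 : j = 0 := by simpa using h2
  subst h1 h3
  rfl

theorem expand_Short {k : ℕ} {x : Rg (ℕ × ℕ)} {c : ℝ} (hc : 0 ≤ c) (h1 : x.coeff (k, 1) = -c)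
    (h2 : ∀ i j : ℕ, i + (k + 1) * j ≤ 2 * k + 1 → (i, j) ≠ (k, 1) → 0 ≤ x.coeff (i, j)) :
    ∃ f : ℝ → ℝ, Continuous f ∧ f 0 = 2 * c ∧ ∀ η : ℝ, 0 ≤ η →
      l1 (sc_Short (dg_Short k) η x) = aug (sc_Short (dg_Short k) η x) + η ^ (2 * k + 1) * f η := by
  refine ⟨fun η => ∑ w ∈ x.coeff.support,
    η ^ (dg_Short k w - (2 * k + 1)) * (|x.coeff w| - x.coeff w), by fun_prop, ?_, ?_⟩
  · simp only []
    rw [Finset.sum_eq_single (k, 1)]
    · have : dg_Short k (k, 1) - (2 * k + 1) = 0 := by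
        show k + (k + 1) * 1 - (2 * k + 1) = 0
        omega
      rw [this, h1, abs_neg, abs_of_nonneg hc]; ring
    · intro w _ hw
      by_cases h : dg_Short k w ≤ 2 * k + 1
      · rw [abs_of_nonneg (h2 w.1 w.2 h hw)]; simp
      · rw [zero_pow (by omega), zero_mul]
    · intro h
      have h0 := Finsupp.notMem_support_iff.1 h
      rw [h0]; simp
  · intro η hη
    rw [l1_sc_Short _ hη, aug_sc_Short, Finset.mul_sum, ← Finset.sum_add_distrib]
    refine Finset.sum_congr rfl fun w _ => ?_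
    by_cases h : 2 * k + 1 ≤ dg_Short k w
    · rw [← mul_assoc, ← pow_add, Nat.add_sub_cancel' h]; ring
    · have hw : w ≠ (k, 1) := by
        rintro rfl
        apply h
        show 2 * k + 1 ≤ k + (k + 1) * 1
        omega
      rw [abs_of_nonneg (h2 w.1 w.2 (le_of_lt (not_le.1 h)) hw)]; simp

theorem short_block {k : ℕ} (hk : 2 ≤ k) {γ : ℝ} (hγ : 0 < γ) :
    ∃ u : Rg (ℕ × ℕ), u.coeff 0 = 0 ∧ l1 u ≤ γ ∧ ∀ t : ℕ, k ≤ t → t + 1 < 2 * k →
      l1 ((1 + u) ^ t) ^ (t + 1) < l1 ((1 + u) ^ (t + 1)) ^ t := by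
  classical
  obtain ⟨p, hp0, hp⟩ := exists_p hk
  have hkpos : (0 : ℝ) < k := by exact_mod_cast (by omega : 0 < k)
  have hq0 : (p - 1).coeff 0 = 0 := by
    rw [coeff_sub', hp0, ← wd_zero, coeff_wd]; simp
  let s : ℝ → ℝ := fun η => aug (sc_Short (dg_Short k) η p)
  have hs : Continuous s := by
    simp only [s, aug_sc_Short]; fun_prop
  have hs0 : s 0 = 1 := by
    simp only [s, aug_sc_Short]
    rw [Finset.sum_eq_single 0]
    · simp [hp0]
    · intro w _ hw
      rw [zero_pow (fun h => hw (dg_zero_Short h)), zero_mul]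
    · intro h
      rw [Finsupp.notMem_support_iff.1 h, mul_zero]
  have h1 : ∀ᶠ η in 𝓝[>] (0 : ℝ), l1 (sc_Short (dg_Short k) η (p - 1)) ≤ γ := by
    have hc : Continuous fun η : ℝ =>
        ∑ w ∈ (p - 1).coeff.support, η ^ dg_Short k w * |(p - 1).coeff w| := by fun_prop
    have h0 : ∑ w ∈ (p - 1).coeff.support, (0 : ℝ) ^ dg_Short k w * |(p - 1).coeff w| < γ := by
      rw [Finset.sum_eq_zero]
      · exact hγ
      · intro w hw
        have : w ≠ 0 := fun h => (Finsupp.mem_support_iff.1 hw) (h ▸ hq0)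
        rw [zero_pow (fun h => this (dg_zero_Short h)), zero_mul]
    have h2 := hc.continuousAt.eventually_lt (continuousAt_const (y := γ)) h0
    filter_upwards [h2.filter_mono nhdsWithin_le_nhds, self_mem_nhdsWithin] with η h3 h4
    rw [l1_sc_Short _ (le_of_lt h4)]
    exact h3.le
  have h2 : ∀ t ∈ Finset.range (2 * k), ∀ᶠ η in 𝓝[>] (0 : ℝ), k ≤ t → t + 1 < 2 * k →
      l1 (sc_Short (dg_Short k) η (p ^ t)) ^ (t + 1) <
        l1 (sc_Short (dg_Short k) η (p ^ (t + 1))) ^ t := by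
    intro t _
    by_cases h : k ≤ t ∧ t + 1 < 2 * k
    · obtain ⟨ha, hb⟩ := h
      have ha' : (k : ℝ) ≤ t := by exact_mod_cast ha
      obtain ⟨f, hf, hf0, hfe⟩ := expand_Short (c := (t : ℝ) * (t - k) / k)
        (div_nonneg (mul_nonneg (by positivity) (by linarith)) hkpos.le)
        (hp t ha (by omega)).1 (hp t ha (by omega)).2
      obtain ⟨g, hg, hg0, hge⟩ := expand_Short (c := ((t + 1 : ℕ) : ℝ) * ((t + 1 : ℕ) - k) / k)
        (div_nonneg (mul_nonneg (by positivity) (by push_cast; linarith)) hkpos.le)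
        (hp (t + 1) (by omega) hb).1 (hp (t + 1) (by omega) hb).2
      have hlt : (t + 1 : ℝ) * f 0 < t * g 0 := by
        rw [hf0, hg0]
        push_cast
        have e : (t : ℝ) * (2 * ((t + 1) * (t + 1 - k) / k)) =
            (t + 1) * (2 * (t * (t - k) / k)) + 2 * t * (t + 1) / k := by ring
        have : (0 : ℝ) < 2 * t * (t + 1) / k := by
          have : (0 : ℝ) < t := by linarith
          positivity
        linarith
      filter_upwards [eventually_lt_Short hs hf hg hs0 (m := 2 * k + 1) (by omega) hlt,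
        self_mem_nhdsWithin] with η h3 h4 _ _
      rw [hfe η (le_of_lt h4), hge η (le_of_lt h4), map_pow, map_pow, map_pow, map_pow]
      exact h3
    · exact Eventually.of_forall fun η ha hb => absurd ⟨ha, hb⟩ h
  obtain ⟨η, h3, h4⟩ := (h1.and ((eventually_all_finset _).2 h2)).exists
  refine ⟨sc_Short (dg_Short k) η (p - 1), ?_, h3, fun t ha hb => ?_⟩
  · rw [coeff_sc_Short, hq0, mul_zero]
  · have e : 1 + sc_Short (dg_Short k) η (p - 1) = sc_Short (dg_Short k) η p := by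
      rw [map_sub, map_one]; ring
    rw [e, ← map_pow, ← map_pow]
    exact h4 t (Finset.mem_range.2 (by omega)) ha hb

end Pool.Agent.P.MP_f562c3_an.SS
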