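import Pool.Agent.P.MP_f562c3_an.SS.PlatDefs
import Pool.Agent.P.MP_f562c3_an.SS.Short

/-!
Choice of the short blocks. For `k > N` and `j : ℕ` let `c k j` be `0` if `st k ≠ k`, and otherwise
a short block (`short_block`) of norm at most `min (1 / 2 ^ j) (gap k)` with `gap k > 0` and
`T (en k + 1) * (1 + gap k) < T (en k)`. For ANY `J : ℕ → ℕ` put `u k = c k (J k)`; then
`1 ≤ GG n ≤ 1 + l1 (u (st n))` (`abs_coeff_le_l1` at the word `0`, whose coefficient in
`(1 + u) ^ n` is `1`; `l1_pow_le`), and the number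
`gh n = T n / GG n - T (n+1) / G'` is positive, where `G' = l1 ((1 + u (st n)) ^ (n+1)) ^ (1/(n+1))`
if `N < n` and `st (n+1) = st n`, and `G' = 1` otherwise. It only depends on `J (st n)` (for `n > N`)
and `gh n ≤ T n / GG n - T (n+1) / GG (n+1)`. Put `m N = gh N / 4`, `m n = min (gh n) (gh (n-1)) / 4`.
By `exists_rec` choose `J` with `J k ≥ k` and
`1 / 2 ^ J k ≤ 1 / 2 ^ k * (κ n * m n * (T n / GG n) ^ n)` for all `N ≤ n < k`; the right side only
depends on `J` below `k` because `st n ≤ n < k`. Sum the geometric series.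
-/

namespace Pool.Agent.P.MP_f562c3_an.SS

theorem exists_rec (Q : ℕ → (ℕ → ℕ) → ℕ → Prop)
    (hdep : ∀ k J J' x, (∀ i, i < k → J i = J' i) → Q k J x → Q k J' x)
    (hex : ∀ k J, ∃ x, Q k J x) : ∃ J : ℕ → ℕ, ∀ k, Q k J (J k) := by
  choose f hf using hex
  let A : ℕ → ℕ → ℕ := fun k =>
    Nat.rec (fun _ => 0) (fun k a => Function.update a k (f k a)) k
  have hA : ∀ k, A (k + 1) = Function.update (A k) k (f k (A k)) := fun _ => rfl
  have key : ∀ k i, i < k → A k i = f i (A i) := by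
    intro k
    induction k with
    | zero => intro i hi; omega
    | succ k ih =>
      intro i hi
      rw [hA]
      by_cases h : i = k
      · subst h; simp
      · rw [Function.update_of_ne h]
        exact ih i (by omega)
  exact ⟨fun k => f k (A k), fun k => hdep k (A k) _ _ (key k) (hf k (A k))⟩

/-- The norm root of a block. -/
noncomputable def rt_Blocks (v : Rg (ℕ × ℕ)) (n : ℕ) : ℝ := l1 ((1 + v) ^ n) ^ (1 / (n : ℝ))

theorem one_le_l1_Blocks {v : Rg (ℕ × ℕ)} (hv : v.coeff 0 = 0) (n : ℕ) :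
    1 ≤ l1 ((1 + v) ^ n) := by
  have hQ : ∀ a b : ℕ × ℕ, b ≠ 0 → a + b ≠ 0 := by
    intro a b hb h
    apply hb
    have h1 := congrArg Prod.fst h
    have h2 := congrArg Prod.snd h
    simp only [Prod.fst_add, Prod.snd_add, Prod.fst_zero, Prod.snd_zero] at h1 h2
    exact Prod.ext (by simp; omega) (by simp; omega)
  have hv' : v ∈ supIdeal (fun w : ℕ × ℕ => w ≠ 0) hQ :=
    mem_supIdeal.2 fun w hw h => hw (by rw [h]; exact hv)
  have key : ∀ n : ℕ, (1 + v) ^ n - 1 ∈ supIdeal (fun w : ℕ × ℕ => w ≠ 0) hQ := by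
    intro n
    induction n with
    | zero => simp
    | succ n ih =>
      have : (1 + v) ^ (n + 1) - 1 = (1 + v) ^ n * v + ((1 + v) ^ n - 1) := by ring
      rw [this]
      exact Ideal.add_mem _ (Ideal.mul_mem_left _ _ hv') ih
  have h0 : ((1 + v) ^ n - 1).coeff 0 = 0 := by
    by_contra h
    exact mem_supIdeal.1 (key n) 0 h rfl
  have h1 : (1 : Rg (ℕ × ℕ)).coeff 0 = 1 := by
    rw [← wd_zero, coeff_wd, if_pos rfl]
  rw [coeff_sub', h1] at h0
  have := abs_coeff_le_l1 ((1 + v) ^ n) 0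
  have h2 : ((1 + v) ^ n).coeff 0 = 1 := by linarith
  rw [h2, abs_one] at this
  exact this

theorem one_le_rt_Blocks {v : Rg (ℕ × ℕ)} (hv : v.coeff 0 = 0) (n : ℕ) : 1 ≤ rt_Blocks v n :=
  Real.one_le_rpow (one_le_l1_Blocks hv n) (by positivity)

theorem rt_le_Blocks (v : Rg (ℕ × ℕ)) {n : ℕ} (hn : n ≠ 0) : rt_Blocks v n ≤ 1 + l1 v := by
  have h1 : l1 (1 + v) ≤ 1 + l1 v := by
    have := l1_add_le 1 v
    rwa [l1_one] at this
  have h2 := l1_pow_le_of_le h1 n
  have h3 : 0 ≤ 1 + l1 v := by have := l1_nonneg v; linarith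
  unfold rt_Blocks
  calc l1 ((1 + v) ^ n) ^ (1 / (n : ℝ)) ≤ ((1 + l1 v) ^ n) ^ (1 / (n : ℝ)) :=
        Real.rpow_le_rpow (l1_nonneg _) h2 (by positivity)
    _ = 1 + l1 v := by rw [one_div, Real.pow_rpow_inv_natCast h3 hn]

theorem rt_lt_Blocks {v : Rg (ℕ × ℕ)} {t : ℕ} (ht : t ≠ 0)
    (h : l1 ((1 + v) ^ t) ^ (t + 1) < l1 ((1 + v) ^ (t + 1)) ^ t) :
    rt_Blocks v t < rt_Blocks v (t + 1) := by
  have a1 : rt_Blocks v t ^ t = l1 ((1 + v) ^ t) := by
    unfold rt_Blocks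
    rw [one_div, Real.rpow_inv_natCast_pow (l1_nonneg _) ht]
  have a2 : rt_Blocks v (t + 1) ^ (t + 1) = l1 ((1 + v) ^ (t + 1)) := by
    unfold rt_Blocks
    rw [one_div, Real.rpow_inv_natCast_pow (l1_nonneg _) (Nat.succ_ne_zero t)]
  rw [← a1, ← a2, ← pow_mul, ← pow_mul, mul_comm (t + 1) t] at h
  exact lt_of_pow_lt_pow_left₀ _ (Real.rpow_nonneg (l1_nonneg _) _) h

theorem rt_zero_Blocks (n : ℕ) : rt_Blocks 0 n = 1 := by
  unfold rt_Blocks
  rw [add_zero, one_pow, l1_one, Real.one_rpow]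

theorem one_le_GG (N : ℕ) (st : ℕ → ℕ) {u : ℕ → Rg (ℕ × ℕ)} (hu : ∀ k, (u k).coeff 0 = 0)
    (n : ℕ) : 1 ≤ GG N st u n := by
  unfold GG
  split_ifs
  · exact le_rfl
  · exact one_le_rt_Blocks (hu _) n

theorem cand_Blocks {ρ : ℕ → ℝ} (Q : Plat ρ) (T : ℕ → ℝ) (hT : ∀ n, Q.N ≤ n → 0 < T n)
    (hlt : ∀ n, Q.N ≤ n → ρ (n + 1) < ρ n → T (n + 1) < T n) (k j : ℕ) :
    ∃ v : Rg (ℕ × ℕ), v.coeff 0 = 0 ∧ (Q.st k ≠ k → v = 0) ∧ l1 v ≤ 1 / 2 ^ j ∧
      (Q.N < k → T (Q.en k + 1) * (1 + l1 v) < T (Q.en k)) ∧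
      (Q.N < k → Q.st k = k → ∀ t, k ≤ t → t + 1 < 2 * k →
        rt_Blocks v t < rt_Blocks v (t + 1)) := by
  by_cases hk : Q.N < k
  · have e1 := Q.le_en k hk
    have d1 := hlt (Q.en k) (by omega) (Q.drop_en k hk)
    have p1 := hT (Q.en k + 1) (by omega)
    by_cases hs : Q.st k = k
    · have h2 := Q.two_le
      have hg : 0 < (T (Q.en k) - T (Q.en k + 1)) / (2 * T (Q.en k + 1)) :=
        div_pos (by linarith) (by linarith)
      obtain ⟨v, v1, v2, v3⟩ := short_block (k := k) (by omega)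
        (lt_min (show (0 : ℝ) < 1 / 2 ^ j by positivity) hg)
      refine ⟨v, v1, fun h => absurd hs h, v2.trans (min_le_left _ _), fun _ => ?_,
        fun _ _ t a1 a2 => rt_lt_Blocks (by omega) (v3 t a1 a2)⟩
      have := (le_div_iff₀ (by linarith)).1 (v2.trans (min_le_right _ _))
      nlinarith
    · refine ⟨0, by simp, fun _ => rfl, by rw [l1_zero]; positivity, fun _ => ?_,
        fun _ h => absurd h hs⟩
      rw [l1_zero]
      linarith
  · exact ⟨0, by simp, fun _ => rfl, by rw [l1_zero]; positivity, fun h => absurd h hk,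
      fun h => absurd h hk⟩

theorem geom_Blocks (s : Finset ℕ) (hs : 0 ∉ s) : ∑ k ∈ s, (1 : ℝ) / 2 ^ k ≤ 1 := by
  have := sum_le_hasSum (insert 0 s) (fun i _ => by positivity) hasSum_geometric_two
  rw [Finset.sum_insert hs, pow_zero] at this
  simp only [one_div_pow] at this
  linarith

theorem blocks_exists {ρ : ℕ → ℝ} (Q : Plat ρ) (T κ : ℕ → ℝ) (hT : ∀ n, Q.N ≤ n → 0 < T n)
    (hκ : ∀ n, Q.N ≤ n → 0 < κ n) (heq : ∀ n, Q.N ≤ n → ρ (n + 1) = ρ n → T (n + 1) = T n)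
    (hlt : ∀ n, Q.N ≤ n → ρ (n + 1) < ρ n → T (n + 1) < T n) :
    ∃ (u : ℕ → Rg (ℕ × ℕ)) (m : ℕ → ℝ), (∀ k, (u k).coeff 0 = 0) ∧
      (∀ k, Q.st k ≠ k → u k = 0) ∧ (∀ k, l1 (u k) ≤ 1 / 2 ^ k) ∧ (∀ n, Q.N ≤ n → 0 < m n) ∧
      (∀ n, Q.N ≤ n → 4 * m n ≤ T n / GG Q.N Q.st u n - T (n + 1) / GG Q.N Q.st u (n + 1)) ∧
      (∀ n, Q.N ≤ n → 4 * m (n + 1) ≤ T n / GG Q.N Q.st u n - T (n + 1) / GG Q.N Q.st u (n + 1)) ∧
      ∀ n, Q.N ≤ n → ∀ s : Finset ℕ, (∀ k ∈ s, n < k) →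
        ∑ k ∈ s, l1 (u k) ≤ κ n * m n * (T n / GG Q.N Q.st u n) ^ n := by
  choose c c0 c1 c2 c3 c4 using cand_Blocks Q T hT hlt
  have h2 := Q.two_le
  obtain ⟨v, hv⟩ : ∃ v : (ℕ → ℕ) → ℕ → Rg (ℕ × ℕ),
      ∀ J n, v J n = if n ≤ Q.N then 0 else c (Q.st n) (J (Q.st n)) := ⟨_, fun _ _ => rfl⟩
  obtain ⟨gh, hgh⟩ : ∃ gh : (ℕ → ℕ) → ℕ → ℝ, ∀ J n, gh J n = T n / rt_Blocks (v J n) n -
      T (n + 1) / (if Q.N < n ∧ Q.st (n + 1) = Q.st n then rt_Blocks (v J n) (n + 1) else 1) :=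
    ⟨_, fun _ _ => rfl⟩
  obtain ⟨m, hm⟩ : ∃ m : (ℕ → ℕ) → ℕ → ℝ, ∀ J n, m J n =
      if n ≤ Q.N then gh J n / 4 else min (gh J n) (gh J (n - 1)) / 4 := ⟨_, fun _ _ => rfl⟩
  have v0 : ∀ J n, (v J n).coeff 0 = 0 := by
    intro J n
    rw [hv]
    split_ifs
    · simp
    · exact c0 _ _
  have hG : ∀ J n, GG Q.N Q.st (fun k => c k (J k)) n = rt_Blocks (v J n) n := by
    intro J n
    rw [hv]
    unfold GG
    split_ifs
    · exact (rt_zero_Blocks n).symm
    · rfl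
  have vdep : ∀ k J J', (∀ i, i < k → J i = J' i) → ∀ n, n < k → v J n = v J' n := by
    intro k J J' h n hn
    rw [hv, hv]
    split_ifs with a
    · rfl
    · rw [h _ (lt_of_le_of_lt (Q.st_le n (by omega)) hn)]
  have ghdep : ∀ k J J', (∀ i, i < k → J i = J' i) → ∀ n, n < k → gh J n = gh J' n := by
    intro k J J' h n hn
    rw [hgh, hgh, vdep k J J' h n hn]
  have mdep : ∀ k J J', (∀ i, i < k → J i = J' i) → ∀ n, n < k → m J n = m J' n := by
    intro k J J' h n hn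
    rw [hm, hm, ghdep k J J' h n hn, ghdep k J J' h (n - 1) (by omega)]
  have ghpos : ∀ J n, Q.N ≤ n → 0 < gh J n := by
    intro J n hn
    have t0 := hT n hn
    have t1 := hT (n + 1) (by omega)
    have r1 := one_le_rt_Blocks (v0 J n) n
    rw [hgh]
    by_cases a : Q.N < n
    · have hvn : v J n = c (Q.st n) (J (Q.st n)) := by rw [hv, if_neg (by omega)]
      have s1 := Q.lt_st n a
      have s2 := Q.st_le n a
      rcases Q.step n a with ⟨b1, b2⟩ | ⟨b1, b2⟩
      · rw [if_pos ⟨a, b1⟩, heq n hn b2, sub_pos]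
        have e1 := Q.le_en_st (n + 1) (by omega)
        rw [b1] at e1
        have e2 := Q.en_lt _ s1
        have := c4 (Q.st n) (J (Q.st n)) s1 (Q.st_st n a) n s2 (by omega)
        rw [← hvn] at this
        exact div_lt_div_of_pos_left t0 (by linarith) this
      · rw [if_neg (by omega), div_one, sub_pos, lt_div_iff₀ (by linarith)]
        have := c3 (Q.st n) (J (Q.st n)) s1
        rw [← hvn, b2] at this
        have r2 := rt_le_Blocks (v J n) (n := n) (by omega)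
        nlinarith
    · have e : n = Q.N := by omega
      rw [if_neg (fun h => a h.1), hv, if_pos (by omega), rt_zero_Blocks, div_one, div_one,
        sub_pos]
      exact hlt n hn (by rw [e]; exact Q.drop)
  have ghle : ∀ J n, Q.N ≤ n →
      gh J n ≤ T n / rt_Blocks (v J n) n - T (n + 1) / rt_Blocks (v J (n + 1)) (n + 1) := by
    intro J n hn
    have t1 := hT (n + 1) (by omega)
    rw [hgh]
    split_ifs with a
    · have : v J (n + 1) = v J n := by
        rw [hv, hv, if_neg (by omega), if_neg (by omega), a.2]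
      rw [this]
    · have r1 := one_le_rt_Blocks (v0 J (n + 1)) (n + 1)
      have := div_le_div_of_nonneg_left t1.le one_pos r1
      linarith
  have mpos : ∀ J n, Q.N ≤ n → 0 < m J n := by
    intro J n hn
    rw [hm]
    split_ifs with a
    · have := ghpos J n hn
      linarith
    · have := lt_min (ghpos J n hn) (ghpos J (n - 1) (by omega))
      linarith
  have bpos : ∀ J n, Q.N ≤ n → 0 < κ n * m J n * (T n / rt_Blocks (v J n) n) ^ n := by
    intro J n hn
    have r1 := one_le_rt_Blocks (v0 J n) n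
    exact mul_pos (mul_pos (hκ n hn) (mpos J n hn))
      (pow_pos (div_pos (hT n hn) (by linarith)) n)
  obtain ⟨J, hJ⟩ := exists_rec (fun k J x => k ≤ x ∧ ∀ n ∈ Finset.Ico Q.N k,
      (1 : ℝ) / 2 ^ x ≤ 1 / 2 ^ k * (κ n * m J n * (T n / rt_Blocks (v J n) n) ^ n))
    (fun k J J' x h hq => ⟨hq.1, fun n hn => by
      have a := (Finset.mem_Ico.1 hn).2
      rw [← vdep k J J' h n a, ← mdep k J J' h n a]
      exact hq.2 n hn⟩)
    (fun k J => by
      refine Filter.Eventually.exists (f := Filter.atTop)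
        ((Filter.eventually_ge_atTop k).and ((Filter.eventually_all_finset _).2 fun n hn => ?_))
      have t := tendsto_pow_atTop_nhds_zero_of_lt_one (r := (1 / 2 : ℝ)) (by norm_num)
        (by norm_num)
      simp only [one_div_pow] at t
      have p := bpos J n (Finset.mem_Ico.1 hn).1
      exact (t.eventually (ge_mem_nhds (mul_pos (by positivity) p))).mono fun x hx => hx)
  refine ⟨fun k => c k (J k), m J, fun k => c0 _ _, fun k => c1 _ _, fun k => ?_, mpos J,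
    fun n hn => ?_, fun n hn => ?_, fun n hn s hs => ?_⟩
  · refine (c2 k (J k)).trans ?_
    exact one_div_le_one_div_of_le (by positivity) (pow_le_pow_right₀ (by norm_num) (hJ k).1)
  · rw [hG, hG]
    refine le_trans ?_ (ghle J n hn)
    rw [hm]
    split_ifs
    · linarith
    · have := min_le_left (gh J n) (gh J (n - 1))
      linarith
  · rw [hG, hG]
    refine le_trans ?_ (ghle J n hn)
    rw [hm, if_neg (by omega), Nat.add_sub_cancel]
    have := min_le_right (gh J (n + 1)) (gh J n)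
    linarith
  · rw [hG]
    have p := bpos J n hn
    calc ∑ k ∈ s, l1 (c k (J k))
        ≤ ∑ k ∈ s, 1 / 2 ^ k * (κ n * m J n * (T n / rt_Blocks (v J n) n) ^ n) :=
          Finset.sum_le_sum fun k hk =>
            (c2 k (J k)).trans ((hJ k).2 n (Finset.mem_Ico.2 ⟨hn, hs k hk⟩))
      _ = (∑ k ∈ s, (1 : ℝ) / 2 ^ k) * (κ n * m J n * (T n / rt_Blocks (v J n) n) ^ n) := by
          rw [Finset.sum_mul]
      _ ≤ _ := by
          have := geom_Blocks s (fun h => by have := hs 0 h; omega)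
          nlinarith

end Pool.Agent.P.MP_f562c3_an.SS
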