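import Pool.Agent.P.MP_f562c3_an.SS.Comp
import Pool.Agent.P.MP_f562c3_an.SS.Alg2

/-!
Carriers from the shape of a word, and the two washing estimates.
* `car_Hd`: `E.car`, `E.nul`, `Car.diff`, `measure_biUnion_null_iff`.
* `car_sh`: let `m` be the invisible counter, `m ≤ n < k ≤ N`. Some `i < k` is not in `I`
  (cardinality); the family `sh k j i m` has size `m + 1`, rank `m`, no uniform letter and no
  shift. For `r < m` all families `sh k j i r` have size `r + 1 ≤ m`, so `E.nul` applies.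
* `wash_D`, `wash_L`: `nrm_mul_le`, `(1 - wd v) * wd w = wd w - wd (w + v)`, `E.wash` with
  `J0 = Jk k` resp. `Jk (K k)`, `nrm_wash`; `J_ge`, `J_mono`, `le_K` give `rk + 1 ≤ JJ`.
* `kill`: `nrm_mul_le`; for a word `w` pick the killer `κ`, write
  `kp k = (1 - wd (wD κ k)) * R` (`Finset.mul_prod_erase`) with `l1 R ≤ 1`, and apply `wash_D` to
  `R * wd w` (the hypotheses are upward closed: `Sup.mul` with `Sup.trivial`).
-/

open MeasureTheory Set

namespace Pool.Agent.P.MP_f562c3_an.SS.Par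

variable {Q : Par} (E : Q.En) {ε : ℕ → ℝ}

theorem measurableSet_Hd (φ : Fam) (θ : ℕ) : MeasurableSet (Hd E φ θ) := by
  exact (E.meas φ θ).diff (MeasurableSet.biUnion (Set.to_countable _) fun θ' _ => E.meas φ θ')

theorem disjoint_Hd (φ : Fam) {θ θ' : ℕ} (h : θ ≠ θ') : Disjoint (Hd E φ θ) (Hd E φ θ') := by
  refine Set.disjoint_left.2 fun x hx hx' => hx'.2 ?_
  exact Set.mem_biUnion (show θ ∈ {t | t ≠ θ'} from h) hx.1

theorem measurableSet_Hst_Carr (k j m : ℕ) : MeasurableSet (Hst E k j m) :=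
  (MeasurableSet.biUnion (Set.to_countable _) fun _ _ => E.meas _ _).diff
    (MeasurableSet.biUnion (Set.to_countable _) fun _ _ =>
      MeasurableSet.biUnion (Set.to_countable _) fun _ _ => E.meas _ _)

theorem disjoint_Hst_Carr (k j : ℕ) {m m' : ℕ} (h : m < m') :
    Disjoint (Hst E k j m) (Hst E k j m') :=
  Set.disjoint_left.2 fun _ hx hx' => hx'.2
    (Set.mem_biUnion (show m ∈ {r | r < m'} from h) hx.1)

theorem measurableSet_Hs (n : ℕ) (φ : Fam) (θ : ℕ) : MeasurableSet (Hs E n φ θ) := by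
  cases φ with
  | main κ k =>
    simp only [Hs]
    split_ifs <;> exact measurableSet_Hd E _ θ
  | sh k j i r => exact measurableSet_Hst_Carr E k j θ
  | mark i => exact measurableSet_Hd E _ θ
  | lock κ k => exact measurableSet_Hd E _ θ
  | delay k => exact measurableSet_Hd E _ θ
  | xm k b => exact measurableSet_Hd E _ θ

theorem disjoint_Hs (n : ℕ) (φ : Fam) (θ θ' : ℕ) (h : θ ≠ θ') :
    Disjoint (Hs E n φ θ) (Hs E n φ θ') := by
  cases φ with
  | main κ k =>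
    simp only [Hs]
    split_ifs <;> exact disjoint_Hd E _ h
  | sh k j i r =>
    rcases lt_or_gt_of_ne h with h1 | h1
    · exact disjoint_Hst_Carr E k j h1
    · exact (disjoint_Hst_Carr E k j h1).symm
  | mark i => exact disjoint_Hd E _ h
  | lock κ k => exact disjoint_Hd E _ h
  | delay k => exact disjoint_Hd E _ h
  | xm k b => exact disjoint_Hd E _ h

theorem car_Hd {w : Wd Fam} {φ : Fam} (h1 : ex φ 1 w = 0) (h0 : ex φ 0 w < Q.rk φ) :
    E.toModel.Car (Hd E φ (ex φ 3 w)) w := by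
  refine Model.Car.diff (E.car w φ h1 h0) ?_
  rw [measure_biUnion_null_iff (Set.to_countable _)]
  exact fun θ' hθ' => E.nul w φ θ' (Or.inl hθ')

theorem car_main {w : Wd Fam} {lo n : ℕ} (h : Gd lo n w) {κ : ℕ} (hκ : n ≤ κ ∨ κ < lo) (k : ℕ) :
    E.toModel.Car (Hs E n (.main κ k) (cnt (.main κ k) w)) w := by
  obtain ⟨h0, h1, h2, h3, h4⟩ := h.1 κ k
  have e : cnt (.main κ k) w = ex (.main κ k) 3 w := rfl
  rw [e]
  simp only [Hs]
  split_ifs with hn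
  · exact car_Hd E h1 (show _ < κ + 1 by omega)
  · rw [← h3]
    exact car_Hd E h2 (show _ < 1 by rw [h4 (hκ.resolve_left hn)]; exact Nat.one_pos)

theorem car_delay {w : Wd Fam} {lo n : ℕ} (h : Gd lo n w) (hn : n ≤ Q.N) (k : ℕ) :
    E.toModel.Car (Hs E n (.delay k) (cnt (.delay k) w)) w := by
  obtain ⟨h0, h1⟩ := h.2.1 k
  exact car_Hd E h1 (show _ < Q.N + 1 by omega)

theorem car_sh {w : Wd Fam} {s : ℕ × ℕ} {n : ℕ} (h : Sh Q.N s n w) (hn : n < s.1)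
    (hs : s.1 ≤ Q.N) :
    E.toModel.Car (Hs E n (.sh s.1 s.2 0 0) (cnt (.sh s.1 s.2 0 0) w)) w := by
  obtain ⟨hm, h3, h2, I, hI, h4⟩ := h
  have e : cnt (.sh s.1 s.2 0 0) w = ex (.sh s.1 s.2 0 0) 4 w := rfl
  rw [e]
  generalize ex (.sh s.1 s.2 0 0) 4 w = m at hm h2 h4
  obtain ⟨i, hi, hiI⟩ := Finset.exists_mem_notMem_of_card_lt_card
    (s := I) (t := Finset.range s.1) (by rw [Finset.card_range]; omega)
  rw [Finset.mem_range] at hi
  obtain ⟨h5, h6⟩ := h4 i m hi (by omega) hiI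
  have h7 : E.toModel.Car (E.H (.sh s.1 s.2 i m) 0) w := by
    have h8 := E.car w (.sh s.1 s.2 i m) h6 (show _ < m + 1 by omega)
    rwa [h3] at h8
  refine Model.Car.diff (h7.mono (Set.subset_biUnion_of_mem
    (u := fun i => E.H (.sh s.1 s.2 i m) 0) (show i ∈ {i | i < s.1} from hi))) ?_
  rw [measure_biUnion_null_iff (Set.to_countable _)]
  intro r hr
  rw [measure_biUnion_null_iff (Set.to_countable _)]
  intro i' hi'
  have hr' : r < m := hr
  refine E.nul w _ 0 (Or.inr ?_)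
  rcases h2 i' r hi' (by omega) with h9 | h9
  · exact Or.inr (show r + 1 ≤ _ by omega)
  · exact Or.inl h9

theorem wash_Carr {w v : Wd Fam} {J0 : ℕ} (h1 : v.1 = 0)
    (h2 : ∀ φ, ex φ 0 v = 0 ∧ ex φ 1 v = 0 ∧ ex φ 2 v = 0 ∧ ex φ 3 v ≤ 1)
    (h3 : ∀ φ, ex φ 3 v = 1 → Q.rk φ ≤ ex φ 0 w ∧ Q.rk φ + 1 ≤ Q.JJ φ ∧ J0 ≤ Q.JJ φ) :
    E.toModel.nrm ((1 - wd v) * wd w) ≤ 4 / 2 ^ J0 := by
  obtain ⟨g, hg, h4, h5⟩ := E.wash w v J0 h1 h2 h3
  have h6 : (0 : ℝ) ≤ 2 / 2 ^ J0 := by positivity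
  have h7 := Model.nrm_wash (M := E.toModel) (by linarith) h4 h5
  rw [sub_mul, one_mul, ← wd_add, add_comm v w]
  refine h7.trans (le_of_eq ?_)
  ring

theorem wash_D (hQ : Q.OK ε) {κ k : ℕ} (hκ : κ ≤ k) {y : Rg (Wd Fam)}
    (h : Sup (fun w => κ + 1 ≤ ex (.main κ k) 0 w ∧ 1 ≤ ex (.lock κ k) 0 w) y) :
    E.toModel.nrm ((1 - wd (wD κ k)) * y) ≤ 4 / 2 ^ Q.Jk k * l1 y := by
  refine Model.nrm_mul_le (h.mono fun w hw => wash_Carr E (v := wD κ k) rfl (fun φ => ?_)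
    fun φ hφ => ?_)
  · cases φ <;> exact ⟨rfl, rfl, rfl, by first | exact ite_le_one _ | exact Nat.zero_le 1⟩
  · have hJ := hQ.J_ge k
    cases φ with
    | main κ' k' =>
      have h1 : (if κ' = κ ∧ k' = k then 1 else 0 : ℕ) = 1 := hφ
      split_ifs at h1 with h2
      · obtain ⟨rfl, rfl⟩ := h2
        exact ⟨hw.1, show κ' + 1 + 1 ≤ Q.Jk k' by omega, le_rfl⟩
    | lock κ' k' =>
      have h1 : (if κ' = κ ∧ k' = k then 1 else 0 : ℕ) = 1 := hφ
      split_ifs at h1 with h2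
      · obtain ⟨rfl, rfl⟩ := h2
        exact ⟨hw.2, show 1 + 1 ≤ Q.Jk k' by omega, le_rfl⟩
    | mark i => exact absurd hφ (show (0 : ℕ) ≠ 1 by omega)
    | delay k' => exact absurd hφ (show (0 : ℕ) ≠ 1 by omega)
    | xm k' b => exact absurd hφ (show (0 : ℕ) ≠ 1 by omega)
    | sh k' j i r => exact absurd hφ (show (0 : ℕ) ≠ 1 by omega)

theorem wash_L (hQ : Q.OK ε) {k : ℕ} (hk : Q.N < k) {y : Rg (Wd Fam)}
    (h : Sup (fun w => Q.N + 1 ≤ ex (.delay k) 0 w) y) :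
    E.toModel.nrm ((1 - wd (wL k)) * y) ≤ 4 / 2 ^ Q.Jk k * l1 y := by
  refine Model.nrm_mul_le (h.mono fun w hw => wash_Carr E (v := wL k) rfl (fun φ => ?_)
    fun φ hφ => ?_)
  · cases φ <;> exact ⟨rfl, rfl, rfl, by first | exact ite_le_one _ | exact Nat.zero_le 1⟩
  · have hJ := hQ.J_ge k
    have hJ' : Q.Jk k ≤ Q.Jk (Q.K k) := hQ.J_mono (hQ.le_K k)
    cases φ with
    | delay k' =>
      have h1 : (if k' = k then 1 else 0 : ℕ) = 1 := hφ
      split_ifs at h1 with h2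
      · subst h2
        exact ⟨hw, show Q.N + 1 + 1 ≤ Q.Jk (Q.K k') by omega, hJ'⟩
    | mark i => exact absurd hφ (show (0 : ℕ) ≠ 1 by omega)
    | main κ' k' => exact absurd hφ (show (0 : ℕ) ≠ 1 by omega)
    | lock κ' k' => exact absurd hφ (show (0 : ℕ) ≠ 1 by omega)
    | xm k' b => exact absurd hφ (show (0 : ℕ) ≠ 1 by omega)
    | sh k' j i r => exact absurd hφ (show (0 : ℕ) ≠ 1 by omega)

theorem kill (hQ : Q.OK ε) {n k : ℕ} {y : Rg (Wd Fam)}
    (h : Sup (fun w => (∀ κ, n ≤ ex (.main κ k) 0 w) ∧ Kil Q.N n k w) y) :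
    E.toModel.nrm (Q.kp k * y) ≤ 4 / 2 ^ Q.Jk k * l1 y := by
  refine Model.nrm_mul_le (h.mono fun w hw => ?_)
  obtain ⟨h0, κ, h1, h2, h3, h4⟩ := hw
  have hmem : κ ∈ Finset.Icc Q.N k := Finset.mem_Icc.2 ⟨h1, h3⟩
  have hl : ∀ κ', l1 ((1 / 2 : ℝ) • (1 - wd (wD κ' k))) ≤ 1 := fun κ' => by
    have h5 := l1_sub_le (1 : Rg (Wd Fam)) (wd (wD κ' k))
    rw [l1_one, l1_wd] at h5
    rw [l1_smul, abs_of_pos (by norm_num : (0 : ℝ) < 1 / 2)]
    linarith
  obtain ⟨R, hR, hR'⟩ : ∃ R : Rg (Wd Fam), l1 R ≤ 1 ∧ Q.kp k = (1 - wd (wD κ k)) * R := by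
    refine ⟨(1 / 2 : ℝ) • ∏ κ' ∈ (Finset.Icc Q.N k).erase κ,
      ((1 / 2 : ℝ) • (1 - wd (wD κ' k))), ?_, ?_⟩
    · have h6 := (l1_prod_le ((Finset.Icc Q.N k).erase κ)
        fun κ' => ((1 / 2 : ℝ) • (1 - wd (wD κ' k)))).trans
        (Finset.prod_le_one (fun _ _ => l1_nonneg _) fun κ' _ => hl κ')
      rw [l1_smul, abs_of_pos (by norm_num : (0 : ℝ) < 1 / 2)]
      linarith
    · rw [kp, ← Finset.mul_prod_erase _ _ hmem, smul_mul_assoc, mul_smul_comm]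
  have h7 : Sup (fun v => κ + 1 ≤ ex (.main κ k) 0 v ∧ 1 ≤ ex (.lock κ k) 0 v) (R * wd w) := by
    refine (Sup.trivial R).mul (Sup.wd (Q := fun v => v = w) rfl) ?_
    rintro a _ - rfl
    rw [map_add, map_add]
    have h8 := h0 κ
    constructor <;> omega
  have h9 : l1 (R * wd w) ≤ 1 := by
    have h10 := l1_mul_le R (wd w)
    rw [l1_wd, mul_one] at h10
    exact h10.trans hR
  rw [hR', mul_assoc]
  refine (wash_D E hQ h3 h7).trans ?_
  exact mul_le_of_le_one_right (by positivity) h9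

end Pool.Agent.P.MP_f562c3_an.SS.Par
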