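import Pool.Agent.P.MP_f562c3_an.SS.SlotDefs

/-!
Plateaus of the root sequence, and the numerical data of the sharp blocks.
-/

namespace Pool.Agent.P.MP_f562c3_an.SS

/-- Above level `N` the sequence `ρ` splits into short plateaus: `st n` is the first index of the
plateau of `n` and `en k` the last index of the plateau of `k`. -/
structure Plat (ρ : ℕ → ℝ) where
  /-- the level after which all plateaus are short -/
  N : ℕ
  /-- start of the plateau -/
  st : ℕ → ℕ
  /-- end of the plateau -/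
  en : ℕ → ℕ
  two_le : 2 ≤ N
  drop : ρ (N + 1) < ρ N
  lt_st : ∀ n, N < n → N < st n
  st_le : ∀ n, N < n → st n ≤ n
  le_en_st : ∀ n, N < n → n ≤ en (st n)
  st_st : ∀ n, N < n → st (st n) = st n
  le_en : ∀ k, N < k → k ≤ en k
  en_lt : ∀ k, N < k → en k < 2 * k
  drop_en : ∀ k, N < k → ρ (en k + 1) < ρ (en k)
  step : ∀ n, N < n → (st (n + 1) = st n ∧ ρ (n + 1) = ρ n) ∨ (st (n + 1) = n + 1 ∧ en (st n) = n)
  past : ∀ n k, N < n → N < k → st k = k → k < st n → en k < n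
  future : ∀ n k, N < n → st k = k → st n < k → n < k

/-- Typed letters `(i, a, c)` of a sharp block of level `k`: coordinate, rank and count. -/
def Typ (k A : ℕ) : Finset (ℕ × ℕ × ℕ) :=
  (Finset.range k ×ˢ Finset.range (A + 1) ×ˢ Finset.range (A + 1)).filter fun g => g.2.1 ≤ g.2.2

/-- The mass of the positive part of a sharp block. -/
def ff (k A : ℕ) (x : ℝ) : ℝ := ∑ g ∈ Typ k A, x ^ g.2.2

/-- The index set of the sharp blocks: level and copy. -/
def Sb (N Jc : ℕ) : Finset (ℕ × ℕ) := Finset.Icc 2 N ×ˢ Finset.range Jc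

/-- The total mass of the product of the sharp blocks. -/
def FF (N Jc : ℕ) (ψ : ℕ → ℝ) (x : ℝ) : ℝ :=
  ∏ s ∈ Sb N Jc, (ff s.1 (AA N) x - ψ s.1 * x ^ s.1)

/-- The norm root of the product of the sharp blocks at level `n`. -/
def FB (N Jc : ℕ) (ψ : ℕ → ℝ) (n : ℕ) : ℝ :=
  ∏ s ∈ Sb N Jc, if n < s.1 then ff s.1 (AA N) 1 + ψ s.1 else ff s.1 (AA N) 1 - ψ s.1

/-- The admissible size of the negative part of a sharp block. -/
noncomputable def psi0 (N : ℕ) : ℝ :=
  1 / (8 * ((N : ℝ) * ((AA N : ℝ) + 1) ^ 2) ^ (2 * N) * 2 ^ (2 * N))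

/-- The norm root of the active short block. -/
noncomputable def GG (N : ℕ) (st : ℕ → ℕ) (u : ℕ → Rg (ℕ × ℕ)) (n : ℕ) : ℝ :=
  if n ≤ N then 1 else l1 ((1 + u (st n)) ^ n) ^ (1 / (n : ℝ))

end Pool.Agent.P.MP_f562c3_an.SS
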