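import Pool.Agent.P.MP_f562c3_an.SS.EngDefs
import Pool.Agent.P.MP_f562c3_an.SS.PlatDefs

/-!
Families, words and components of the generator.
-/

open scoped NNRat

namespace Pool.Agent.P.MP_f562c3_an.SS

/-- The families of slots. -/
inductive Fam : Type
  | mark (i : ℕ) : Fam
  | main (κ k : ℕ) : Fam
  | lock (κ k : ℕ) : Fam
  | delay (k : ℕ) : Fam
  | xm (k : ℕ) (b : Bool) : Fam
  | sh (k j i r : ℕ) : Fam
  deriving DecidableEq

/-- A code for families. -/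
def Fam.code : Fam → ℕ × ℕ × ℕ × ℕ × ℕ
  | .mark i => (0, i, 0, 0, 0)
  | .main κ k => (1, κ, k, 0, 0)
  | .lock κ k => (2, κ, k, 0, 0)
  | .delay k => (3, k, 0, 0, 0)
  | .xm k b => (4, k, b.toNat, 0, 0)
  | .sh k j i r => (5, k, j, i, r)

theorem Fam.code_injective : Function.Injective Fam.code := by
  intro a b h
  cases a <;> cases b <;> simp_all [Fam.code]
  rename_i b _ b'
  cases b <;> cases b' <;> simp_all

instance : Countable Fam := Fam.code_injective.countable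

instance : Nonempty Fam := ⟨.mark 0⟩

/-- A row of an exponent table. -/
def tb (a b c θ g : ℕ) : Fin 5 → ℕ := ![a, b, c, θ, g]

@[simp] theorem tb_0 (a b c θ g : ℕ) : tb a b c θ g 0 = a := rfl
@[simp] theorem tb_1 (a b c θ g : ℕ) : tb a b c θ g 1 = b := rfl
@[simp] theorem tb_2 (a b c θ g : ℕ) : tb a b c θ g 2 = c := rfl
@[simp] theorem tb_3 (a b c θ g : ℕ) : tb a b c θ g 3 = θ := rfl
@[simp] theorem tb_4 (a b c θ g : ℕ) : tb a b c θ g 4 = g := rfl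

theorem tb_le {a b c θ g D : ℕ} (ha : a ≤ D) (hb : b ≤ D) (hc : c ≤ D) (hθ : θ ≤ D) (hg : g ≤ D)
    (p : Fin 5) : tb a b c θ g p ≤ D := by
  fin_cases p <;> simpa

theorem ite_le_one (c : Prop) [Decidable c] : (if c then 1 else 0 : ℕ) ≤ 1 := by
  split_ifs <;> simp

/-- The parameters of the construction. -/
structure Par where
  /-- last level of the exact part -/
  N : ℕ
  /-- number of copies of the sharp blocks -/
  Jc : ℕ
  /-- level from which the sharp blocks are switched off -/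
  n0 : ℕ
  /-- negative weights of the sharp blocks -/
  ψ : ℕ → ℝ
  /-- the ladder -/
  lam : ℕ → ℝ
  /-- plateau starts -/
  st : ℕ → ℕ
  /-- plateau ends -/
  en : ℕ → ℕ
  /-- last component that carries a short block -/
  K : ℕ → ℕ
  /-- first active slots -/
  Jk : ℕ → ℕ
  /-- degree bounds for the short blocks -/
  Dk : ℕ → ℕ
  /-- the short blocks -/
  u : ℕ → Rg (ℕ × ℕ)

namespace Par

variable (Q : Par)

/-- Sizes of the families. -/
def rk : Fam → ℕ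
  | .mark _ => 1
  | .main κ _ => κ + 1
  | .lock _ _ => 1
  | .delay _ => Q.N + 1
  | .xm _ _ => 1
  | .sh _ _ _ r => r + 1

theorem one_le_rk (φ : Fam) : 1 ≤ Q.rk φ := by cases φ <;> simp [rk]

/-- First active slots of the families. -/
def JJ : Fam → ℕ
  | .mark i => Q.Jk i
  | .main _ k => Q.Jk k
  | .lock _ k => Q.Jk k
  | .delay k => Q.Jk (Q.K k)
  | .xm k _ => Q.Jk (Q.en k)
  | .sh _ _ _ _ => Q.Jk Q.N

/-- Table of the main word of component `i`. -/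
def eA (i : ℕ) : Fam → Fin 5 → ℕ
  | .mark j => tb 0 0 0 (if j = i then 1 else 0) 0
  | .main _ k => tb (if i ≤ k then 1 else 0) 0 0 0 0
  | .lock κ k => tb (if κ = i ∧ i ≤ k then 1 else 0) 0 0 0 0
  | .delay k => tb (if i ≤ Q.K k then 1 else 0) 0 0 0 0
  | .xm _ _ => tb 0 0 0 0 0
  | .sh _ _ _ _ => tb 0 0 0 0 0

/-- The main word of component `i`. -/
def wA (i : ℕ) : Wd Fam := mkW (1 / (2 * i)) (Q.eA i) 1 fun φ p => by
  cases φ <;> exact tb_le (by first | exact ite_le_one _ | simp) (by simp) (by simp)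
    (by first | exact ite_le_one _ | simp) (by simp) p

/-- Table of the sign word of a kill gadget. -/
def eD (κ k : ℕ) : Fam → Fin 5 → ℕ
  | .mark _ => tb 0 0 0 0 0
  | .main κ' k' => tb 0 0 0 (if κ' = κ ∧ k' = k then 1 else 0) 0
  | .lock κ' k' => tb 0 0 0 (if κ' = κ ∧ k' = k then 1 else 0) 0
  | .delay _ => tb 0 0 0 0 0
  | .xm _ _ => tb 0 0 0 0 0
  | .sh _ _ _ _ => tb 0 0 0 0 0

/-- The sign word of a kill gadget. -/
def wD (κ k : ℕ) : Wd Fam := mkW 0 (eD κ k) 1 fun φ p => by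
  cases φ <;> exact tb_le (by simp) (by simp) (by simp)
    (by first | exact ite_le_one _ | simp) (by simp) p

/-- Table of a rung of the ladder. -/
def eS (r : ℕ) : Fam → Fin 5 → ℕ
  | .mark _ => tb 0 0 0 0 0
  | .main _ _ => tb 0 0 0 0 0
  | .lock κ k => tb (if κ = r ∧ r ≤ k then 1 else 0) 0 0 0 0
  | .delay _ => tb 0 0 0 0 0
  | .xm _ _ => tb 0 0 0 0 0
  | .sh _ _ _ _ => tb 0 0 0 0 0

/-- A rung of the ladder; it is killed above level `r`. -/
def wS (r : ℕ) : Wd Fam := mkW 0 (eS r) 1 fun φ p => by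
  cases φ <;> exact tb_le (by first | exact ite_le_one _ | simp) (by simp) (by simp)
    (by simp) (by simp) p

/-- Table of a monomial of the short block `k`. -/
def eU (k : ℕ) (m : ℕ × ℕ) : Fam → Fin 5 → ℕ
  | .mark _ => tb 0 0 0 0 0
  | .main _ _ => tb 0 0 0 0 0
  | .lock κ k' => tb (if κ = Q.en k ∧ Q.en k ≤ k' then m.1 + m.2 else 0) 0 0 0 0
  | .delay _ => tb 0 0 0 0 0
  | .xm k' b => tb 0 0 0 (if k' = k then (if b then m.2 else m.1) else 0) 0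
  | .sh _ _ _ _ => tb 0 0 0 0 0

theorem eU_le (k : ℕ) (m : ℕ × ℕ) (φ : Fam) (p : Fin 5) : Q.eU k m φ p ≤ m.1 + m.2 := by
  cases φ <;> exact tb_le (by first | (split_ifs <;> omega) | simp) (by simp) (by simp)
    (by first | (split_ifs <;> omega) | simp) (by simp) p

/-- The monomials of the short block `k`; they are killed above level `en k`. -/
def wU (k : ℕ) : ℕ × ℕ →+ Wd Fam where
  toFun m := mkW 0 (Q.eU k m) (m.1 + m.2) (Q.eU_le k m)
  map_zero' := Wd.ext' rfl fun φ p => by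
    cases φ <;> fin_cases p <;> simp [eU, tb]
  map_add' a b := Wd.ext' (by simp) fun φ p => by
    rw [map_add]
    cases φ <;> fin_cases p <;> simp [eU, tb] <;> split_ifs <;> omega

theorem ex_wU (k : ℕ) (m : ℕ × ℕ) (φ : Fam) (p : Fin 5) : ex φ p (Q.wU k m) = Q.eU k m φ p := rfl

theorem wU_fst (k : ℕ) (m : ℕ × ℕ) : (Q.wU k m).1 = 0 := rfl

/-- Table of the sign word of the short block `k`. -/
def eL (k : ℕ) : Fam → Fin 5 → ℕ
  | .mark _ => tb 0 0 0 0 0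
  | .main _ _ => tb 0 0 0 0 0
  | .lock _ _ => tb 0 0 0 0 0
  | .delay k' => tb 0 0 0 (if k' = k then 1 else 0) 0
  | .xm _ _ => tb 0 0 0 0 0
  | .sh _ _ _ _ => tb 0 0 0 0 0

/-- The sign word of the short block `k`. -/
def wL (k : ℕ) : Wd Fam := mkW 0 (eL k) 1 fun φ p => by
  cases φ <;> exact tb_le (by simp) (by simp) (by simp)
    (by first | exact ite_le_one _ | simp) (by simp) p

/-- Table of a typed letter of the sharp block `s`. -/
def eT (s : ℕ × ℕ) (g : ℕ × ℕ × ℕ) : Fam → Fin 5 → ℕ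
  | .mark _ => tb 0 0 0 0 0
  | .main _ _ => tb 0 0 0 0 0
  | .lock _ _ => tb 0 0 0 0 0
  | .delay _ => tb 0 0 0 0 0
  | .xm _ _ => tb 0 0 0 0 0
  | .sh k j i r =>
    if (k, j) = s ∧ i < k ∧ r < Q.N then
      if i = g.1 then
        if g.2.1 < AA Q.N then tb g.2.1 0 (g.2.2 - g.2.1) 0 0 else tb 0 1 (g.2.2 - 1) 0 0
      else tb 0 0 g.2.2 0 0
    else tb 0 0 0 0 0

/-- A typed letter of the sharp block `s`. -/
def wT (s : ℕ × ℕ) (g : ℕ × ℕ × ℕ) : Wd Fam := mkW 0 (Q.eT s g) (g.2.1 + g.2.2 + 1) fun φ p => by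
  cases φ <;> simp only [eT] <;> (try split_ifs) <;>
    exact tb_le (by omega) (by omega) (by omega) (by omega) (by omega) p

/-- Table of the negative letter of the sharp block `s`. -/
def eZ (s : ℕ × ℕ) : Fam → Fin 5 → ℕ
  | .mark _ => tb 0 0 0 0 0
  | .main _ _ => tb 0 0 0 0 0
  | .lock _ _ => tb 0 0 0 0 0
  | .delay _ => tb 0 0 0 0 0
  | .xm _ _ => tb 0 0 0 0 0
  | .sh k j i r => if (k, j) = s ∧ i < k ∧ r < Q.N then tb 1 0 (k - 1) 0 1 else tb 0 0 0 0 0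

/-- The negative letter of the sharp block `s`. -/
def wZ (s : ℕ × ℕ) : Wd Fam := mkW 0 (Q.eZ s) (s.1 + 1) fun φ p => by
  cases φ <;> simp only [eZ] <;> (try split_ifs with h) <;>
    first
    | exact tb_le (by omega) (by omega) (by omega) (by omega) (by omega) p
    | (obtain ⟨rfl, -⟩ := h
       exact tb_le (by omega) (by omega) (by simp only; omega) (by omega) (by omega) p)

/-- The sign factors of component `k`. -/
noncomputable def kp (k : ℕ) : Rg (Wd Fam) :=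
  ∏ κ ∈ Finset.Icc Q.N k, ((1 / 2 : ℝ) • (1 - wd (wD κ k)))

/-- The basic part of component `i`. -/
noncomputable def al (i : ℕ) : Rg (Wd Fam) := wd (Q.wA i) * Q.kp i

/-- The rungs that are alive at level `n`. -/
noncomputable def sg (n : ℕ) : Rg (Wd Fam) :=
  ∑ r ∈ Finset.Ico n Q.n0, (Q.lam r - Q.lam (r + 1)) • wd (wS r)

/-- The positive part of a sharp block. -/
noncomputable def pp (s : ℕ × ℕ) (σ : Rg (Wd Fam)) : Rg (Wd Fam) :=
  ∑ g ∈ Typ s.1 (AA Q.N), σ ^ g.2.2 * wd (Q.wT s g)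

/-- A sharp block. -/
noncomputable def ph (s : ℕ × ℕ) (σ : Rg (Wd Fam)) : Rg (Wd Fam) :=
  Q.pp s σ - Q.ψ s.1 • (σ ^ s.1 * wd (Q.wZ s))

/-- The product of the sharp blocks. -/
noncomputable def Bc (σ : Rg (Wd Fam)) : Rg (Wd Fam) := ∏ s ∈ Sb Q.N Q.Jc, Q.ph s σ

/-- A short block without sign words. -/
noncomputable def ub (k : ℕ) : Rg (Wd Fam) := mp (Q.wU k) (Q.u k)

/-- A short block with sign words. -/
noncomputable def ut (k : ℕ) : Rg (Wd Fam) :=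
  mp (Q.wU k) (upos (Q.u k)) - wd (wL k) * mp (Q.wU k) (uneg (Q.u k))

/-- The short blocks attached to component `i`. -/
def att (i : ℕ) : Finset ℕ := (Finset.Ioc Q.N i).filter fun k => i ≤ Q.K k

/-- The short part of component `i`. -/
noncomputable def pc (i : ℕ) : Rg (Wd Fam) := 1 + ∑ k ∈ Q.att i, Q.ut k

/-- Component `i`. -/
noncomputable def Ac (i : ℕ) : Rg (Wd Fam) := Q.al i * Q.Bc (Q.sg Q.N) * Q.pc i

/-- The free norm of the short part. -/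
noncomputable def ec (i : ℕ) : ℝ := 1 + ∑ k ∈ Q.att i, l1 (Q.u k)

/-- A bound for the product of the sharp blocks. -/
def MB : ℝ := ∏ s ∈ Sb Q.N Q.Jc, (ff s.1 (AA Q.N) 1 + Q.ψ s.1)

/-- The conditions on the parameters; `ε n` is the precision at level `n`. -/
structure OK (ε : ℕ → ℝ) : Prop where
  two_le : 2 ≤ Q.N
  psi : ∀ k, 0 ≤ Q.ψ k ∧ Q.ψ k ≤ psi0 Q.N
  lt_n0 : Q.N < Q.n0
  lam_N : Q.lam Q.N = 1
  lam_anti : ∀ n, Q.N ≤ n → Q.lam (n + 1) ≤ Q.lam n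
  lam_zero : ∀ n, Q.n0 ≤ n → Q.lam n = 0
  lt_st : ∀ n, Q.N < n → Q.N < Q.st n
  st_le : ∀ n, Q.N < n → Q.st n ≤ n
  le_en_st : ∀ n, Q.N < n → n ≤ Q.en (Q.st n)
  le_en : ∀ k, Q.N < k → k ≤ Q.en k
  en_lt : ∀ k, Q.N < k → Q.en k < 2 * k
  tri : ∀ n k, Q.N < n → Q.N < k → k = Q.st n ∨ Q.u k = 0 ∨ Q.en k < n ∨ n < k
  u_zero : ∀ k, (Q.u k).coeff 0 = 0
  u_le : ∀ k, l1 (Q.u k) ≤ 1 / 2 ^ k
  u_deg : ∀ k, Sup (fun m : ℕ × ℕ => m.1 + m.2 ≤ Q.Dk k) (Q.u k)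
  le_K : ∀ k, k ≤ Q.K k
  J_mono : Monotone Q.Jk
  J_ge : ∀ k, k + 2 ≤ Q.Jk k
  J_al : ∀ i, 32 * i * (i + 2) ≤ 2 ^ Q.Jk i
  J_B : 64 * Q.n0 * (Sb Q.N Q.Jc).card * AA Q.N ≤ 2 ^ Q.Jk Q.N
  J_u : ∀ k, 64 * k * (Q.Dk k + 1) ≤ 2 ^ Q.Jk k
  J_sh : 2 * Q.N * AA Q.N ≤ Q.Jk Q.N
  prec : ∀ n k, Q.N < n → n < 2 * k → 4 / 2 ^ Q.Jk k ≤ ε n
  fut : ∀ n, Q.N ≤ n → ∀ s : Finset ℕ, (∀ k ∈ s, n < k) → ∑ k ∈ s, l1 (Q.u k) ≤ ε n

/-- The engine for these parameters. -/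
abbrev En : Type := Eng Fam Q.rk Q.JJ

end Par

/-- The counter read on a family: the invisible counter on sharp families, else the shift. -/
def cnt : Fam → Wd Fam →+ ℕ
  | .sh k j i r => ex (.sh k j i r) 4
  | φ => ex φ 3

/-- Admissible sets of counters. -/
def Adm (Γ : Finset Fam) : Prop :=
  ∀ φ ∈ Γ, (∃ κ k, φ = .main κ k) ∨ (∃ k, φ = .delay k) ∨ ∃ k j, φ = .sh k j 0 0

/-- The general shape of a word with at most `n` main letters and no killer below `lo`. -/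
def Gd (lo n : ℕ) (w : Wd Fam) : Prop :=
  (∀ κ k, ex (.main κ k) 0 w ≤ n ∧ ex (.main κ k) 1 w = 0 ∧ ex (.lock κ k) 1 w = 0 ∧
    ex (.lock κ k) 3 w = ex (.main κ k) 3 w ∧ (κ < lo → ex (.lock κ k) 0 w = 0)) ∧
  (∀ k, ex (.delay k) 0 w ≤ n ∧ ex (.delay k) 1 w = 0) ∧
  (∀ i, ex (.mark i) 0 w = 0 ∧ ex (.mark i) 1 w = 0) ∧
  ∀ k b, ex (.xm k b) 0 w = 0 ∧ ex (.xm k b) 1 w = 0

/-- The shape of a product of `n` letters of the sharp block `s`, with `m` negative letters. -/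
def Sh (N : ℕ) (s : ℕ × ℕ) (n : ℕ) (w : Wd Fam) : Prop :=
  ex (.sh s.1 s.2 0 0) 4 w ≤ n ∧
  (∀ i r, ex (.sh s.1 s.2 i r) 3 w = 0) ∧
  (∀ i r, i < s.1 → r < N →
    ex (.sh s.1 s.2 0 0) 4 w ≤ ex (.sh s.1 s.2 i r) 0 w ∨ 1 ≤ ex (.sh s.1 s.2 i r) 1 w) ∧
  ∃ I : Finset ℕ, I.card ≤ n ∧ ∀ i r, i < s.1 → r < N → i ∉ I →
    ex (.sh s.1 s.2 i r) 0 w = ex (.sh s.1 s.2 0 0) 4 w ∧ ex (.sh s.1 s.2 i r) 1 w = 0

/-- The word does not touch the sharp block `s`. -/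
def Off (s : ℕ × ℕ) (w : Wd Fam) : Prop := ∀ i r p, ex (.sh s.1 s.2 i r) p w = 0

/-- The word has no shift at all. -/
def NoShift (w : Wd Fam) : Prop := ∀ φ, ex φ 3 w = 0

/-- The word contains a killer for level `n` of a gadget of component `k`. -/
def Kil (N n k : ℕ) (w : Wd Fam) : Prop := ∃ κ, N ≤ κ ∧ κ < n ∧ κ ≤ k ∧ 1 ≤ ex (.lock κ k) 0 w

namespace Par

variable {Q : Par} (E : Q.En)

/-- Disjoint versions of the test sets. -/
def Hd (φ : Fam) (θ : ℕ) : Set ℝ := E.H φ θ \ ⋃ θ' ∈ {θ' | θ' ≠ θ}, E.H φ θ'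

/-- The sets that detect the number of negative letters of a sharp block. -/
def Hst (k j m : ℕ) : Set ℝ :=
  (⋃ i ∈ {i | i < k}, E.H (.sh k j i m) 0) \
    ⋃ r ∈ {r | r < m}, ⋃ i ∈ {i | i < k}, E.H (.sh k j i r) 0

/-- The sets that detect the counters at level `n`. -/
def Hs (n : ℕ) : Fam → ℕ → Set ℝ
  | .main κ k => if n ≤ κ then Hd E (.main κ k) else Hd E (.lock κ k)
  | .sh k j _ _ => Hst E k j
  | φ => Hd E φ

end Par

end Pool.Agent.P.MP_f562c3_an.SS
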