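import Pool.Agent.P.MP_f562c3_an.SS.Comp

/-!
Masses, l1 norms and sign twists of the components.
* `sg_aug`: telescoping (`Finset.sum_Ico_sub`-type lemmas or induction), `lam n0 = 0`; for
  `n ≥ n0` both sides vanish. `lam n ∈ [0,1]` for `n ≥ N` follows from `lam_anti`, `lam_N`,
  `lam_zero`.
* `ff` is monotone on `[0,1]`; `1 ≤ ff k A 1` because `(0,0,0) ∈ Typ k A` for `0 < k`.
* Twists: with `χ = ∑ φ ∈ Γ, cnt φ` one has `χ w = ∑ φ ∈ Γ, cnt φ w` (`AddMonoidHom.finset_sum_apply`).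
  For an admissible `Γ`: `χ` vanishes on `wA i`, `wS r`, `wU k m`, `wT s g`, and equals `1` on
  `wD κ k`, `wL k`, `wZ s` if `main κ k`, `delay k`, `sh s.1 s.2 0 0` lie in `Γ`
  (`Finset.sum_eq_single`). Then use `map_mul`, `map_prod`, `tw_wd_of_zero`, `tw_wd_of_one`,
  `tw_eq_self`.
-/

namespace Pool.Agent.P.MP_f562c3_an.SS.Par

variable {Q : Par} {ε : ℕ → ℝ}

theorem lam_le_CompAlg (hQ : Q.OK ε) {a b : ℕ} (ha : Q.N ≤ a) (hab : a ≤ b) :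
    Q.lam b ≤ Q.lam a := by
  induction b, hab using Nat.le_induction with
  | base => exact le_rfl
  | succ b hb ih => exact (hQ.lam_anti b (ha.trans hb)).trans ih

theorem lam_mem (hQ : Q.OK ε) {n : ℕ} (hn : Q.N ≤ n) : 0 ≤ Q.lam n ∧ Q.lam n ≤ 1 := by
  constructor
  · rw [← hQ.lam_zero (max n Q.n0) (le_max_right _ _)]
    exact lam_le_CompAlg hQ hn (le_max_left _ _)
  · rw [← hQ.lam_N]
    exact lam_le_CompAlg hQ le_rfl hn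

theorem sg_nn (hQ : Q.OK ε) {n : ℕ} (hn : Q.N ≤ n) : NN (Q.sg n) := by
  exact NN.sum fun r hr =>
    NN.smul (sub_nonneg.2 (hQ.lam_anti r (hn.trans (Finset.mem_Ico.1 hr).1))) (NN.wd _)

theorem tele_CompAlg (f : ℕ → ℝ) {a b : ℕ} (hab : a ≤ b) :
    ∑ r ∈ Finset.Ico a b, (f r - f (r + 1)) = f a - f b := by
  induction b, hab using Nat.le_induction with
  | base => simp
  | succ b hb ih => rw [Finset.sum_Ico_succ_top hb, ih]; ring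

theorem sg_aug (hQ : Q.OK ε) {n : ℕ} (hn : Q.N ≤ n) : aug (Q.sg n) = Q.lam n := by
  simp only [sg, map_sum, map_smul, aug_wd, smul_eq_mul, mul_one]
  rcases le_total n Q.n0 with h | h
  · rw [tele_CompAlg _ h, hQ.lam_zero _ le_rfl, sub_zero]
  · rw [Finset.Ico_eq_empty_of_le h, Finset.sum_empty, hQ.lam_zero _ h]

theorem l1_kp (k : ℕ) : l1 (Q.kp k) ≤ 1 := by
  refine (l1_prod_le _ _).trans (Finset.prod_le_one (fun _ _ => l1_nonneg _) fun κ _ => ?_)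
  have h := l1_sub_le (1 : Rg (Wd Fam)) (wd (wD κ k))
  rw [l1_one, l1_wd] at h
  rw [l1_smul, abs_of_nonneg (by norm_num)]
  linarith

theorem l1_al (i : ℕ) : l1 (Q.al i) ≤ 1 := by
  refine (l1_mul_le _ _).trans ?_
  rw [l1_wd, one_mul]
  exact l1_kp i

theorem ph_aug (s : ℕ × ℕ) (σ : Rg (Wd Fam)) :
    aug (Q.ph s σ) = ff s.1 (AA Q.N) (aug σ) - Q.ψ s.1 * aug σ ^ s.1 := by
  simp only [ph, pp, ff, map_sub, map_sum, map_mul, map_pow, map_smul, aug_wd, smul_eq_mul, mul_one]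

theorem Bc_aug (σ : Rg (Wd Fam)) : aug (Q.Bc σ) = FF Q.N Q.Jc Q.ψ (aug σ) := by
  simp only [Bc, FF, map_prod, ph_aug]

theorem l1_pw_CompAlg {σ : Rg (Wd Fam)} (h : l1 σ ≤ 1) (c : ℕ) (w : Wd Fam) :
    l1 (σ ^ c * wd w) ≤ 1 ^ c := by
  refine (l1_mul_le _ _).trans ?_
  rw [l1_wd, mul_one]
  exact l1_pow_le_of_le h c

theorem l1_Bc (hQ : Q.OK ε) {n : ℕ} (hn : Q.N ≤ n) : l1 (Q.Bc (Q.sg n)) ≤ Q.MB := by
  have h : l1 (Q.sg n) ≤ 1 := by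
    rw [(sg_nn hQ hn).l1_eq, sg_aug hQ hn]
    exact (lam_mem hQ hn).2
  refine (l1_prod_le _ _).trans (Finset.prod_le_prod (fun _ _ => l1_nonneg _) fun s _ => ?_)
  refine (l1_sub_le _ _).trans (add_le_add ((l1_sum_le _ _).trans
    (Finset.sum_le_sum fun g _ => l1_pw_CompAlg h _ _)) ?_)
  rw [l1_smul, abs_of_nonneg (hQ.psi _).1]
  exact mul_le_of_le_one_right (hQ.psi _).1 ((l1_pw_CompAlg h _ _).trans_eq (one_pow _))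

theorem one_le_MB (hQ : Q.OK ε) : 1 ≤ Q.MB := by
  have h := Finset.prod_le_prod (s := Sb Q.N Q.Jc) (f := fun _ => (1 : ℝ))
    (g := fun s => ff s.1 (AA Q.N) 1 + Q.ψ s.1) (fun _ _ => zero_le_one) fun s hs => by
      have h2 : 2 ≤ s.1 := (Finset.mem_Icc.1 (Finset.mem_product.1 hs).1).1
      have h3 : ((0, 0, 0) : ℕ × ℕ × ℕ) ∈ Typ s.1 (AA Q.N) := by
        simp only [Typ, Finset.mem_filter, Finset.mem_product, Finset.mem_range]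
        omega
      have h4 := Finset.single_le_sum (f := fun g : ℕ × ℕ × ℕ => (1 : ℝ) ^ g.2.2)
        (fun _ _ => by positivity) h3
      have h5 := (hQ.psi s.1).1
      rw [one_pow] at h4
      exact le_add_of_le_of_nonneg h4 h5
  rwa [Finset.prod_const_one] at h

theorem l1_ut (k : ℕ) : l1 (Q.ut k) ≤ l1 (Q.u k) := by
  rw [← aug_upos_add_uneg (Q.u k), ← (NN.upos _).l1_eq, ← (NN.uneg _).l1_eq]
  refine (l1_sub_le _ _).trans (add_le_add (l1_mp_le _ _) ((l1_mul_le _ _).trans ?_))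
  rw [l1_wd, one_mul]
  exact l1_mp_le _ _

theorem l1_one_add_sum (hQ : Q.OK ε) (s : Finset ℕ) (hs : ∀ k ∈ s, Q.N < k) :
    l1 (1 + ∑ k ∈ s, Q.ut k) ≤ 2 := by
  have h0 : 0 ∉ s := fun h => Nat.not_lt_zero _ (hs 0 h)
  have h1 := summable_geometric_two.sum_le_tsum (insert 0 s) fun _ _ => by positivity
  rw [tsum_geometric_two, Finset.sum_insert h0, pow_zero] at h1
  have h2 : l1 (∑ k ∈ s, Q.ut k) ≤ ∑ k ∈ s, (1 / 2 : ℝ) ^ k :=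
    (l1_sum_le _ _).trans (Finset.sum_le_sum fun k _ =>
      (l1_ut k).trans ((hQ.u_le k).trans_eq (by rw [one_div_pow])))
  have h3 := l1_add_le (1 : Rg (Wd Fam)) (∑ k ∈ s, Q.ut k)
  rw [l1_one] at h3
  linarith

theorem l1_pc (hQ : Q.OK ε) (i : ℕ) : l1 (Q.pc i) ≤ 2 := by
  exact l1_one_add_sum hQ _ fun k hk => (Finset.mem_Ioc.1 (Finset.mem_filter.1 hk).1).1

theorem l1_Ac (hQ : Q.OK ε) (i : ℕ) : l1 (Q.Ac i) ≤ 2 * Q.MB := by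
  have h0 : 0 ≤ Q.MB := zero_le_one.trans (one_le_MB hQ)
  have h1 : l1 (Q.al i * Q.Bc (Q.sg Q.N)) ≤ 1 * Q.MB :=
    (l1_mul_le _ _).trans (mul_le_mul (l1_al i) (l1_Bc hQ le_rfl) (l1_nonneg _) zero_le_one)
  rw [one_mul] at h1
  rw [mul_comm]
  exact (l1_mul_le _ _).trans (mul_le_mul h1 (l1_pc hQ i) (l1_nonneg _) h0)

theorem ut_sub_ub (k : ℕ) : Q.ut k - Q.ub k = (1 - wd (wL k)) * mp (Q.wU k) (uneg (Q.u k)) := by
  have h : Q.ub k = mp (Q.wU k) (upos (Q.u k)) - mp (Q.wU k) (uneg (Q.u k)) := by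
    rw [← map_sub, upos_sub_uneg, ub]
  rw [h, ut]
  ring

theorem Bc_congr (I : Ideal (Rg (Wd Fam))) {σ σ' : Rg (Wd Fam)} (h : σ - σ' ∈ I) :
    Q.Bc σ - Q.Bc σ' ∈ I := by
  have h1 : Ideal.Quotient.mkₐ ℝ I σ = Ideal.Quotient.mkₐ ℝ I σ' := Ideal.Quotient.eq.2 h
  have h2 : Ideal.Quotient.mkₐ ℝ I (Q.Bc σ) = Ideal.Quotient.mkₐ ℝ I (Q.Bc σ') := by
    simp only [Bc, ph, pp, map_prod, map_sub, map_sum, map_mul, map_pow, map_smul, h1]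
  exact Ideal.Quotient.eq.1 h2

variable {Γ : Finset Fam}

theorem chi_zero_CompAlg (hΓ : Adm Γ) {w : Wd Fam} (h1 : ∀ κ k, ex (.main κ k) 3 w = 0)
    (h2 : ∀ k, ex (.delay k) 3 w = 0) (h3 : ∀ k j, ex (.sh k j 0 0) 4 w = 0) :
    (∑ φ ∈ Γ, cnt φ) w = 0 := by
  rw [AddMonoidHom.finsetSum_apply]
  refine Finset.sum_eq_zero fun φ hφ => ?_
  rcases hΓ φ hφ with ⟨κ, k, rfl⟩ | ⟨k, rfl⟩ | ⟨k, j, rfl⟩
  · exact h1 κ k
  · exact h2 k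
  · exact h3 k j

theorem chi_one_CompAlg (hΓ : Adm Γ) {w : Wd Fam} {φ₀ : Fam} (h : φ₀ ∈ Γ) (h0 : cnt φ₀ w = 1)
    (h1 : ∀ κ k, Fam.main κ k ≠ φ₀ → ex (.main κ k) 3 w = 0)
    (h2 : ∀ k, Fam.delay k ≠ φ₀ → ex (.delay k) 3 w = 0)
    (h3 : ∀ k j, Fam.sh k j 0 0 ≠ φ₀ → ex (.sh k j 0 0) 4 w = 0) :
    (∑ φ ∈ Γ, cnt φ) w = 1 := by
  rw [AddMonoidHom.finsetSum_apply, Finset.sum_eq_single_of_mem φ₀ h, h0]
  intro φ hφ hne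
  rcases hΓ φ hφ with ⟨κ, k, rfl⟩ | ⟨k, rfl⟩ | ⟨k, j, rfl⟩
  · exact h1 κ k hne
  · exact h2 k hne
  · exact h3 k j hne

theorem chi_wU (hΓ : Adm Γ) (k : ℕ) (m : ℕ × ℕ) : (∑ φ ∈ Γ, cnt φ) (Q.wU k m) = 0 := by
  exact chi_zero_CompAlg hΓ (fun _ _ => rfl) (fun _ => rfl) fun _ _ => rfl

theorem chi_wA_CompAlg (hΓ : Adm Γ) (i : ℕ) : (∑ φ ∈ Γ, cnt φ) (Q.wA i) = 0 :=
  chi_zero_CompAlg hΓ (fun _ _ => rfl) (fun _ => rfl) fun _ _ => rfl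

theorem chi_wS_CompAlg (hΓ : Adm Γ) (r : ℕ) : (∑ φ ∈ Γ, cnt φ) (wS r) = 0 :=
  chi_zero_CompAlg hΓ (fun _ _ => rfl) (fun _ => rfl) fun _ _ => rfl

theorem chi_wT_CompAlg (hΓ : Adm Γ) (s : ℕ × ℕ) (g : ℕ × ℕ × ℕ) :
    (∑ φ ∈ Γ, cnt φ) (Q.wT s g) = 0 :=
  chi_zero_CompAlg hΓ (fun _ _ => rfl) (fun _ => rfl) fun k j => by
    change Q.eT s g (.sh k j 0 0) 4 = 0
    simp only [eT]
    split_ifs <;> rfl

theorem chi_wD_CompAlg (hΓ : Adm Γ) {κ k : ℕ} (h : Fam.main κ k ∈ Γ) :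
    (∑ φ ∈ Γ, cnt φ) (wD κ k) = 1 :=
  chi_one_CompAlg hΓ h (if_pos ⟨rfl, rfl⟩)
    (fun _ _ hne => if_neg fun e => hne (by rw [e.1, e.2])) (fun _ _ => rfl) fun _ _ _ => rfl

theorem chi_wL_CompAlg (hΓ : Adm Γ) {k : ℕ} (h : Fam.delay k ∈ Γ) :
    (∑ φ ∈ Γ, cnt φ) (wL k) = 1 :=
  chi_one_CompAlg hΓ h (if_pos rfl) (fun _ _ _ => rfl)
    (fun _ hne => if_neg fun e => hne (by rw [e])) fun _ _ _ => rfl

theorem chi_wZ_CompAlg (hΓ : Adm Γ) (hN : 0 < Q.N) {s : ℕ × ℕ} (hs : 0 < s.1)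
    (h : Fam.sh s.1 s.2 0 0 ∈ Γ) : (∑ φ ∈ Γ, cnt φ) (Q.wZ s) = 1 := by
  refine chi_one_CompAlg hΓ h ?_ (fun _ _ _ => rfl) (fun _ _ => rfl) fun k j hne => ?_
  · change Q.eZ s (.sh s.1 s.2 0 0) 4 = 1
    simp only [eZ]
    rw [if_pos ⟨trivial, hs, hN⟩]
    rfl
  · change Q.eZ s (.sh k j 0 0) 4 = 0
    simp only [eZ]
    rw [if_neg fun e => hne (by rw [← e.1])]
    rfl

theorem tw_al (hΓ : Adm Γ) {i : ℕ} (h : ∀ κ, Q.N ≤ κ → κ ≤ i → Fam.main κ i ∈ Γ) :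
    NN (tw (∑ φ ∈ Γ, cnt φ) (Q.al i)) ∧ aug (tw (∑ φ ∈ Γ, cnt φ) (Q.al i)) = 1 := by
  have e : tw (∑ φ ∈ Γ, cnt φ) (Q.al i) =
      wd (Q.wA i) * ∏ κ ∈ Finset.Icc Q.N i, ((1 / 2 : ℝ) • (1 + wd (wD κ i))) := by
    rw [al, map_mul, tw_wd_of_zero (chi_wA_CompAlg hΓ i), kp, map_prod]
    congr 1
    refine Finset.prod_congr rfl fun κ hκ => ?_
    rw [map_smul, map_sub, map_one, tw_wd_of_one (chi_wD_CompAlg hΓ
      (h κ (Finset.mem_Icc.1 hκ).1 (Finset.mem_Icc.1 hκ).2)), sub_neg_eq_add]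
  rw [e]
  refine ⟨(NN.wd _).mul (NN.prod fun κ _ => NN.smul (by norm_num) (NN.one.add (NN.wd _))), ?_⟩
  rw [map_mul, aug_wd, one_mul, map_prod]
  refine Finset.prod_eq_one fun κ _ => ?_
  rw [map_smul, map_add, map_one, aug_wd, smul_eq_mul]
  norm_num

theorem tw_pc (hΓ : Adm Γ) {i : ℕ} (h : ∀ k ∈ Q.att i, Fam.delay k ∈ Γ) :
    NN (tw (∑ φ ∈ Γ, cnt φ) (Q.pc i)) ∧ aug (tw (∑ φ ∈ Γ, cnt φ) (Q.pc i)) = Q.ec i := by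
  have hm : ∀ k x, tw (∑ φ ∈ Γ, cnt φ) (mp (Q.wU k) x) = mp (Q.wU k) x := fun k x =>
    tw_eq_self (Sup.mp _ fun m _ => chi_wU hΓ k m)
  have e : tw (∑ φ ∈ Γ, cnt φ) (Q.pc i) = 1 + ∑ k ∈ Q.att i,
      (mp (Q.wU k) (upos (Q.u k)) + wd (wL k) * mp (Q.wU k) (uneg (Q.u k))) := by
    rw [pc, map_add, map_one, map_sum]
    congr 1
    refine Finset.sum_congr rfl fun k hk => ?_
    rw [ut, map_sub, map_mul, hm, hm, tw_wd_of_one (chi_wL_CompAlg hΓ (h k hk)), neg_mul,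
      sub_neg_eq_add]
  rw [e]
  refine ⟨NN.one.add (NN.sum fun k _ => (NN.mp _ (NN.upos _)).add
    ((NN.wd _).mul (NN.mp _ (NN.uneg _)))), ?_⟩
  rw [map_add, map_one, map_sum, ec]
  congr 1
  refine Finset.sum_congr rfl fun k _ => ?_
  rw [map_add, map_mul, aug_wd, one_mul, aug_mp, aug_mp, aug_upos_add_uneg]

theorem tw_ph (hQ : Q.OK ε) (hΓ : Adm Γ) {s : ℕ × ℕ} (hs : 0 < s.1)
    (h : Fam.sh s.1 s.2 0 0 ∈ Γ) :
    NN (tw (∑ φ ∈ Γ, cnt φ) (Q.ph s (Q.sg Q.N))) ∧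
      aug (tw (∑ φ ∈ Γ, cnt φ) (Q.ph s (Q.sg Q.N))) = ff s.1 (AA Q.N) 1 + Q.ψ s.1 := by
  have hσ : tw (∑ φ ∈ Γ, cnt φ) (Q.sg Q.N) = Q.sg Q.N :=
    tw_eq_self (Sup.sum fun r _ => Sup.smul _ (Sup.wd (chi_wS_CompAlg hΓ r)))
  have hp : tw (∑ φ ∈ Γ, cnt φ) (Q.pp s (Q.sg Q.N)) = Q.pp s (Q.sg Q.N) := by
    rw [pp, map_sum]
    refine Finset.sum_congr rfl fun g _ => ?_
    rw [map_mul, map_pow, hσ, tw_wd_of_zero (chi_wT_CompAlg hΓ s g)]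
  have e : tw (∑ φ ∈ Γ, cnt φ) (Q.ph s (Q.sg Q.N)) =
      Q.pp s (Q.sg Q.N) + Q.ψ s.1 • (Q.sg Q.N ^ s.1 * wd (Q.wZ s)) := by
    rw [ph, map_sub, hp, map_smul, map_mul, map_pow, hσ,
      tw_wd_of_one (chi_wZ_CompAlg hΓ (by have := hQ.two_le; omega) hs h), mul_neg, smul_neg,
      sub_neg_eq_add]
  have hn := sg_nn hQ le_rfl
  have ha : aug (Q.sg Q.N) = 1 := (sg_aug hQ le_rfl).trans hQ.lam_N
  rw [e]
  refine ⟨NN.add (NN.sum fun g _ => (hn.pow _).mul (NN.wd _))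
    (NN.smul (hQ.psi _).1 ((hn.pow _).mul (NN.wd _))), ?_⟩
  simp only [pp, ff, map_add, map_sum, map_mul, map_pow, map_smul, aug_wd, ha, smul_eq_mul,
    mul_one, one_pow]

end Pool.Agent.P.MP_f562c3_an.SS.Par
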