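import Mathlib

/-!
Mixed radix expansions. `BB rad j = rad 0 * ... * rad j ≥ rad j * 4 ^ j`.
* `val_le`: the term `ξ j / BB j` is at most `C / 2 / 4 ^ j`.
* `dgt_eventually`: take `j ≥ j0` with `t.den ≤ j`, so that `t.den ∣ BB (j - 1)`. Then
  `(t + val ξ) * BB j = z * rad j + ξ j + tail` with a natural number `z` and
  `0 ≤ tail = ∑_{i > j} ξ i * BB j / BB i ≤ (1/2) ∑_k 4⁻¹ ^ k = 2/3 < 1`, and `ξ j < rad j`.
-/

open Filter
open scoped NNRat

namespace Pool.Agent.P.MP_f562c3_an.SS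

/-- Products of the radices. -/
def BB (rad : ℕ → ℕ) (j : ℕ) : ℕ := ∏ i ∈ Finset.range (j + 1), rad i

/-- The value of a digit sequence. -/
noncomputable def val (rad : ℕ → ℕ) (ξ : ℕ → ℕ) : ℝ := ∑' j, (ξ j : ℝ) / BB rad j

/-- The digit of a real number. -/
noncomputable def dgt (rad : ℕ → ℕ) (j : ℕ) (x : ℝ) : ℕ := ⌊x * BB rad j⌋₊ % rad j

variable {rad : ℕ → ℕ}

theorem prod_ge_Digit (h4 : ∀ j, 4 ≤ rad j) (a k : ℕ) :
    (∏ i ∈ Finset.range a, rad i) * 4 ^ k ≤ ∏ i ∈ Finset.range (a + k), rad i := by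
  induction k with
  | zero => simp
  | succ k ih =>
    rw [← add_assoc, Finset.prod_range_succ, pow_succ, ← mul_assoc]
    exact Nat.mul_le_mul ih (h4 _)

theorem prod_pos_Digit (h4 : ∀ j, 4 ≤ rad j) (a : ℕ) : 0 < ∏ i ∈ Finset.range a, rad i :=
  Finset.prod_pos fun i _ => lt_of_lt_of_le (by norm_num) (h4 i)

theorem term_le_Digit (h4 : ∀ j, 4 ≤ rad j) {x c : ℝ} (hc : 0 ≤ c) (a k : ℕ)
    (hx : x ≤ c * rad (a + k)) :
    x / BB rad (a + k) * (∏ i ∈ Finset.range a, rad i : ℕ) ≤ c * (1 / 4) ^ k := by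
  have h1 : ((∏ i ∈ Finset.range a, rad i : ℕ) : ℝ) * 4 ^ k ≤
      (∏ i ∈ Finset.range (a + k), rad i : ℕ) := by exact_mod_cast prod_ge_Digit h4 a k
  have h2 : (0 : ℝ) < (∏ i ∈ Finset.range (a + k), rad i : ℕ) := by
    exact_mod_cast prod_pos_Digit h4 (a + k)
  have h3 : (0 : ℝ) < rad (a + k) := by
    exact_mod_cast lt_of_lt_of_le (by norm_num) (h4 (a + k))
  rw [BB, Finset.prod_range_succ, Nat.cast_mul, div_mul_eq_mul_div, one_div, inv_pow,
    ← div_eq_mul_inv, div_le_div_iff₀ (by positivity) (by positivity), mul_assoc]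
  calc x * (((∏ i ∈ Finset.range a, rad i : ℕ) : ℝ) * 4 ^ k)
      ≤ c * rad (a + k) * (((∏ i ∈ Finset.range a, rad i : ℕ) : ℝ) * 4 ^ k) :=
        mul_le_mul_of_nonneg_right hx (by positivity)
    _ ≤ c * rad (a + k) * (∏ i ∈ Finset.range (a + k), rad i : ℕ) :=
        mul_le_mul_of_nonneg_left h1 (by positivity)
    _ = _ := by ring

theorem term_le0_Digit (h4 : ∀ j, 4 ≤ rad j) {x c : ℝ} (hc : 0 ≤ c) (k : ℕ)
    (hx : x ≤ c * rad k) : x / BB rad k ≤ c * (1 / 4) ^ k := by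
  have := term_le_Digit (x := x) h4 hc 0 k (by rwa [zero_add])
  simpa using this

theorem geo_Digit (c : ℝ) : HasSum (fun k : ℕ => c * (1 / 4) ^ k) (c * (4 / 3)) := by
  have h := (hasSum_geometric_of_lt_one (r := (1 / 4 : ℝ)) (by norm_num) (by norm_num)).mul_left c
  rwa [show (1 - 1 / 4 : ℝ)⁻¹ = 4 / 3 by norm_num] at h

theorem summable_Digit (h4 : ∀ j, 4 ≤ rad j) {ξ : ℕ → ℕ} {c : ℝ} (hc : 0 ≤ c) (a : ℕ)
    (hξ : ∀ j, a ≤ j → (ξ j : ℝ) ≤ c * rad j) : Summable fun j => (ξ j : ℝ) / BB rad j := by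
  rw [← summable_nat_add_iff a]
  refine Summable.of_nonneg_of_le (fun k => by positivity)
    (fun k => term_le0_Digit h4 hc _ (hξ _ (Nat.le_add_left _ _))) ?_
  exact (summable_nat_add_iff (f := fun k => c * (1 / 4 : ℝ) ^ k) a).2 (geo_Digit c).summable

theorem measurable_val : Measurable (val rad) := by
  have h : val rad = fun ξ => ((∑' j, (ξ j : NNReal) / BB rad j : NNReal) : ℝ) := by
    funext ξ
    rw [NNReal.coe_tsum, val]
    simp
  rw [h]
  refine measurable_coe_nnreal_real.comp (Measurable.tsum fun j => ?_)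
  exact (measurable_from_top (f := fun n : ℕ => (n : NNReal) / BB rad j)).comp
    (measurable_pi_apply j)

theorem measurable_dgt (j : ℕ) : Measurable (dgt rad j) := by
  exact (measurable_from_top (f := fun n : ℕ => n % rad j)).comp
    (Nat.measurable_floor.comp (measurable_id.mul_const _))

theorem val_nonneg (ξ : ℕ → ℕ) : 0 ≤ val rad ξ := by
  exact tsum_nonneg fun j => by positivity

theorem val_zero : val rad 0 = 0 := by
  simp [val]

theorem val_add (h4 : ∀ j, 4 ≤ rad j) {ξ η : ℕ → ℕ} {C C' : ℕ} (hξ : ∀ j, ξ j ≤ C * rad j)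
    (hη : ∀ j, η j ≤ C' * rad j) : val rad (ξ + η) = val rad ξ + val rad η := by
  have h1 := summable_Digit h4 (ξ := ξ) (Nat.cast_nonneg C) 0 fun j _ => by exact_mod_cast hξ j
  have h2 := summable_Digit h4 (ξ := η) (Nat.cast_nonneg C') 0 fun j _ => by exact_mod_cast hη j
  rw [val, val, val, ← h1.tsum_add h2]
  refine tsum_congr fun j => ?_
  rw [Pi.add_apply, Nat.cast_add, add_div]

theorem val_le (h4 : ∀ j, 4 ≤ rad j) {ξ : ℕ → ℕ} {C J0 : ℕ} (hξ : ∀ j, 2 * ξ j ≤ C * rad j)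
    (h0 : ∀ j < J0, ξ j = 0) : val rad ξ ≤ C / 2 ^ J0 := by
  have hc : (0 : ℝ) ≤ C / 2 := by positivity
  have hx : ∀ j, (ξ j : ℝ) ≤ C / 2 * rad j := fun j => by
    have : (2 : ℝ) * ξ j ≤ C * rad j := by exact_mod_cast hξ j
    linarith
  have h1 := summable_Digit h4 hc 0 fun j _ => hx j
  rw [val, ← h1.sum_add_tsum_nat_add J0, Finset.sum_eq_zero fun j hj => by
    rw [h0 j (Finset.mem_range.1 hj), Nat.cast_zero, zero_div], zero_add]
  have h2 := geo_Digit ((C : ℝ) / 2 * (1 / 4) ^ J0)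
  refine (((summable_nat_add_iff J0).2 h1).tsum_le_tsum (fun k => ?_) h2.summable).trans ?_
  · refine (term_le0_Digit h4 hc _ (hx _)).trans (le_of_eq ?_)
    rw [pow_add]; ring
  · rw [h2.tsum_eq]
    have h3 : ((1 : ℝ) / 4) ^ J0 ≤ (1 / 2) ^ J0 := pow_le_pow_left₀ (by norm_num) (by norm_num) _
    have h5 : (C : ℝ) / 2 ^ J0 = C * (1 / 2) ^ J0 := by rw [one_div, inv_pow, div_eq_mul_inv]
    have h6 : (0 : ℝ) ≤ (1 / 4) ^ J0 := by positivity
    have h7 : (0 : ℝ) ≤ C := Nat.cast_nonneg C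
    rw [h5]
    nlinarith [mul_le_mul_of_nonneg_left h3 h7, mul_nonneg h7 h6]

theorem dgt_eventually (h4 : ∀ j, 4 ≤ rad j) (hd : ∀ j, j + 1 ∣ rad j) (t : ℚ≥0) {ξ : ℕ → ℕ}
    {j0 : ℕ} (hξ : ∀ j, j0 ≤ j → 2 * ξ j ≤ rad j) (j : ℕ) (hj : j0 ≤ j) (ht : t.den ≤ j) :
    dgt rad j ((t : ℝ) + val rad ξ) = ξ j := by
  have hx : ∀ i, j0 ≤ i → (ξ i : ℝ) ≤ 1 / 2 * rad i := fun i hi => by
    have : (2 : ℝ) * ξ i ≤ rad i := by exact_mod_cast hξ i hi
    linarith
  have h1 := summable_Digit h4 (by norm_num) j0 hx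
  have hB : ∀ i, (0 : ℝ) < BB rad i := fun i => by exact_mod_cast prod_pos_Digit h4 (i + 1)
  have hBj : BB rad j = (∏ i ∈ Finset.range j, rad i) * rad j := Finset.prod_range_succ _ _
  have hden : t.den ∣ ∏ i ∈ Finset.range j, rad i := by
    have h2 := hd (t.den - 1)
    have h3 := t.den_pos
    rw [Nat.sub_add_cancel h3] at h2
    exact h2.trans (Finset.dvd_prod_of_mem _ (Finset.mem_range.2 (by omega)))
  obtain ⟨m, hm⟩ := hden
  have e1 : (t : ℝ) * BB rad j = (t.num * m * rad j : ℕ) := by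
    have h2 : (t.den : ℝ) ≠ 0 := Nat.cast_ne_zero.2 t.den_pos.ne'
    rw [hBj, hm, NNRat.cast_def]
    push_cast
    field_simp
  have e2 : ∀ i ∈ Finset.range j, ∃ z : ℕ, (ξ i : ℝ) / BB rad i * BB rad j = (z * rad j : ℕ) := by
    intro i hi
    obtain ⟨z, hz⟩ : BB rad i ∣ ∏ i ∈ Finset.range j, rad i :=
      Finset.prod_dvd_prod_of_subset _ _ _
        (Finset.range_subset_range.2 (Finset.mem_range.1 hi))
    refine ⟨ξ i * z, ?_⟩
    have := (hB i).ne'
    rw [hBj, hz]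
    push_cast
    field_simp
  choose! z hz using e2
  have h2 := geo_Digit (1 / 2)
  have hs := ((summable_nat_add_iff (j + 1)).2 h1).mul_right (BB rad j : ℝ)
  have h3 : ∑' k, (ξ (k + (j + 1)) : ℝ) / BB rad (k + (j + 1)) * BB rad j ≤ 1 / 2 * (4 / 3) := by
    rw [← h2.tsum_eq]
    refine hs.tsum_le_tsum (fun k => ?_) h2.summable
    rw [add_comm k]
    exact term_le_Digit h4 (by norm_num) (j + 1) k (hx _ (by omega))
  have h5 : 0 ≤ ∑' k, (ξ (k + (j + 1)) : ℝ) / BB rad (k + (j + 1)) * BB rad j :=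
    tsum_nonneg fun k => by positivity
  have e3 : ((t : ℝ) + val rad ξ) * BB rad j =
      ((ξ j + (t.num * m + ∑ i ∈ Finset.range j, z i) * rad j : ℕ) : ℝ) +
        ∑' k, (ξ (k + (j + 1)) : ℝ) / BB rad (k + (j + 1)) * BB rad j := by
    rw [val, ← h1.sum_add_tsum_nat_add (j + 1), Finset.sum_range_succ, add_mul, add_mul, add_mul,
      e1, Finset.sum_mul, Finset.sum_congr rfl hz, div_mul_cancel₀ _ (hB j).ne', tsum_mul_right]
    push_cast
    rw [add_mul, Finset.sum_mul]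
    ring
  have e4 : ⌊((t : ℝ) + val rad ξ) * BB rad j⌋₊ =
      ξ j + (t.num * m + ∑ i ∈ Finset.range j, z i) * rad j := by
    rw [e3, Nat.floor_eq_iff (by positivity)]
    constructor <;> linarith
  have h6 := hξ j hj
  have h7 := h4 j
  rw [dgt, e4, Nat.add_mul_mod_self_right, Nat.mod_eq_of_lt (by omega)]

end Pool.Agent.P.MP_f562c3_an.SS
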