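import Pool.Agent.P.MP_f562c3_an.SS.Eng0

/-!
Washing and domination, slot by slot, then `infinitePi_smul_le`, `Measure.map_mono`,
`Measure.map_smul`.
* `nu_wash`: on the active slots `j` of families with `ex φ 3 v = 1` let `g j` be the `g` of
  `Slot.wash` times `X ^ (a - r) * U ^ b * P ^ c * wd (θ • d)` and `c j = ofReal (1 - 1 / 2 ^ j)`
  (`NN.mul`, `law_smul_le`); on all other slots `sp (w + v) j = sp w j`, take it as `g j`, with
  `c j = 1`. Such active slots have `j ≥ J0`, and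
  `∏ (1 - ε j) ≥ 1 - ∑ ε j ≥ 1 - 2 / 2 ^ J0` over finite sets (induction). The measure is the map of
  `infinitePi fun j => law (g j)` under `ξ ↦ w.1 + val ξ`; note `(w + v).1 = w.1`.
* `nu_dom`: `c j = ofReal (1 / (1 + 1 / 2 ^ j))` for all `j`, `c0 = 1 / 8`,
  `∏ (1 + ε j) ≤ exp (∑ ε j) ≤ exp 2 < 8` (`Real.add_one_le_exp`, `Real.exp_one_lt_d9`).
-/

open MeasureTheory Set
open scoped ENNReal NNRat

namespace Pool.Agent.P.MP_f562c3_an.SS.EngData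

variable {Fam : Type} {r : Fam → ℕ} (G : EngData Fam r) (J : Fam → ℕ)

private theorem sum_le_Eng2 (J0 : ℕ) (s : Finset ℕ) :
    ∑ j ∈ s, (if J0 ≤ j then (1 : ℝ) / 2 ^ j else 0) ≤ 2 / 2 ^ J0 := by
  have key : ∀ n : ℕ, ∑ j ∈ Finset.range n, (if J0 ≤ j then (1 : ℝ) / 2 ^ j else 0) +
      2 / 2 ^ (max n J0) = 2 / 2 ^ J0 := by
    intro n
    induction n with
    | zero => simp
    | succ n ih =>
      rw [Finset.sum_range_succ, ← ih]
      by_cases h : J0 ≤ n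
      · rw [if_pos h, max_eq_left h, max_eq_left (h.trans (Nat.le_succ n)), pow_succ]
        field_simp
        ring
      · rw [if_neg h, max_eq_right (by omega), max_eq_right (by omega), add_zero]
  obtain ⟨n, hn⟩ := s.exists_nat_subset_range
  have h1 := Finset.sum_le_sum_of_subset_of_nonneg
    (f := fun j => if J0 ≤ j then (1 : ℝ) / 2 ^ j else 0) hn fun j _ _ => by
      split_ifs <;> positivity
  have h2 : (0 : ℝ) ≤ 2 / 2 ^ (max n J0) := by positivity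
  linarith [key n]

private theorem prod_ge_Eng2 (ε : ℕ → ℝ) (h0 : ∀ j, 0 ≤ ε j) (h1 : ∀ j, ε j ≤ 1) (s : Finset ℕ) :
    1 - ∑ j ∈ s, ε j ≤ ∏ j ∈ s, (1 - ε j) := by
  induction s using Finset.induction_on with
  | empty => simp
  | insert a s ha ih =>
    rw [Finset.sum_insert ha, Finset.prod_insert ha]
    have h2 : 0 ≤ ∑ j ∈ s, ε j := Finset.sum_nonneg fun j _ => h0 j
    nlinarith [mul_le_mul_of_nonneg_left ih (sub_nonneg.2 (h1 a)), mul_nonneg (h0 a) h2]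

private theorem self_Eng2 {x : Rg ℕ} (hx : NN x) {ε : ℝ} (h : 0 ≤ ε) : NN (x - (1 - ε) • x) := by
  rw [sub_smul, one_smul, sub_sub_cancel]
  exact hx.smul h

private theorem slot_wash_Eng2 (w v : Wd Fam) (J0 : ℕ)
    (h1 : ∀ φ, ex φ 0 v = 0 ∧ ex φ 1 v = 0 ∧ ex φ 2 v = 0 ∧ ex φ 3 v ≤ 1)
    (h2 : ∀ φ, ex φ 3 v = 1 → r φ ≤ ex φ 0 w ∧ r φ + 1 ≤ J φ ∧ J0 ≤ J φ) (j : ℕ) :
    ∃ g : Rg ℕ, NN g ∧ aug g = 1 ∧
      NN (G.sp J w j - (1 - if J0 ≤ j then (1 : ℝ) / 2 ^ j else 0) • g) ∧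
      NN (G.sp J (w + v) j - (1 - if J0 ≤ j then (1 : ℝ) / 2 ^ j else 0) • g) := by
  obtain ⟨e0, e1, e2, e3⟩ := h1 (G.fam j)
  by_cases h : J (G.fam j) ≤ j ∧ ex (G.fam j) 3 v = 1
  · obtain ⟨ha, hb, hc⟩ := h2 _ h.2
    obtain ⟨g, g1, g2, g3, g4⟩ := (G.S j).wash (hb.trans h.1)
    obtain ⟨a, ha'⟩ := Nat.exists_eq_add_of_le ha
    have hq : NN ((G.S j).X ^ a * (G.S j).U ^ ex (G.fam j) 1 w * (G.S j).P ^ ex (G.fam j) 2 w *
        wd (ex (G.fam j) 3 w • (G.S j).d)) :=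
      ((((G.S j).nnX.pow _).mul ((G.S j).nnU.pow _)).mul ((G.S j).nnP.pow _)).mul (NN.wd _)
    refine ⟨g * ((G.S j).X ^ a * (G.S j).U ^ ex (G.fam j) 1 w * (G.S j).P ^ ex (G.fam j) 2 w *
        wd (ex (G.fam j) 3 w • (G.S j).d)), g1.mul hq, ?_, ?_, ?_⟩
    · simp only [map_mul, map_pow, g2, (G.S j).augX, (G.S j).augU, (G.S j).augP, aug_wd, one_pow,
        mul_one]
    · have := g3.mul hq
      rw [if_pos (hc.trans h.1), sp, if_pos h.1, ha', ← smul_mul_assoc]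
      rw [sub_mul] at this
      rwa [pow_add, mul_assoc (_ ^ r _), mul_assoc (_ ^ r _), mul_assoc (_ ^ r _)]
    · have := g4.mul hq
      rw [if_pos (hc.trans h.1), G.sp_add, sp, sp, if_pos h.1, if_pos h.1, ha', e0, e1, e2, h.2,
        ← smul_mul_assoc, pow_zero, pow_zero, pow_zero, one_mul, one_mul, one_mul, one_smul]
      rw [sub_mul, mul_right_comm (_ ^ r _)] at this
      rwa [pow_add, mul_assoc (_ ^ r _), mul_assoc (_ ^ r _), mul_assoc (_ ^ r _)]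
  · have e : G.sp J v j = 1 := by
      rw [sp]
      split_ifs with h'
      · have e4 : ex (G.fam j) 3 v = 0 := by
          have : ex (G.fam j) 3 v ≠ 1 := fun h3 => h ⟨h', h3⟩
          omega
        rw [e0, e1, e2, e4, pow_zero, pow_zero, pow_zero, zero_smul, wd_zero, mul_one, mul_one,
          mul_one]
      · rfl
    have h0 : 0 ≤ if J0 ≤ j then (1 : ℝ) / 2 ^ j else 0 := by split_ifs <;> positivity
    rw [G.sp_add, e, mul_one]
    exact ⟨G.sp J w j, G.sp_nn J w j, G.sp_aug J w j, self_Eng2 (G.sp_nn J w j) h0,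
      self_Eng2 (G.sp_nn J w j) h0⟩

private theorem slot_dom_Eng2 (w w' : Wd Fam)
    (h : ∀ φ, (∀ p, p ≠ 4 → ex φ p w = ex φ p w') ∨
      (ex φ 3 w = 0 ∧ ex φ 3 w' = 0 ∧ ex φ 0 w' = 0 ∧ ex φ 1 w' = 1 ∧
        ex φ 0 w + ex φ 1 w + ex φ 2 w = ex φ 2 w' + 1 ∧ ex φ 2 w' + 1 ≤ J φ ∧
        (1 ≤ ex φ 1 w ∨ AA (r φ) ≤ ex φ 0 w))) (j : ℕ) :
    NN (G.sp J w' j - (1 + (1 : ℝ) / 2 ^ j)⁻¹ • G.sp J w j) := by
  have hp : (0 : ℝ) < 1 + 1 / 2 ^ j := by positivity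
  suffices H : NN ((1 + (1 : ℝ) / 2 ^ j) • G.sp J w' j - G.sp J w j) by
    have := H.smul (inv_nonneg.2 hp.le)
    rwa [smul_sub, smul_smul, inv_mul_cancel₀ hp.ne', one_smul] at this
  have hs : G.sp J w j = G.sp J w' j →
      NN ((1 + (1 : ℝ) / 2 ^ j) • G.sp J w' j - G.sp J w j) := fun e => by
    rw [e, add_smul, one_smul, add_sub_cancel_left]
    exact (G.sp_nn J w' j).smul (by positivity)
  by_cases hj : J (G.fam j) ≤ j
  · rcases h (G.fam j) with h | ⟨a1, a2, a3, a4, a5, a6, a7⟩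
    · refine hs ?_
      rw [sp, sp, h 0 (by decide), h 1 (by decide), h 2 (by decide), h 3 (by decide)]
    · have := (G.S j).dom _ _ _ _ a5 (a6.trans hj) a7
      rwa [sp, sp, if_pos hj, if_pos hj, a1, a2, a3, a4, pow_zero, pow_one, zero_smul, wd_zero,
        one_mul, mul_one, mul_one]
  · exact hs (by rw [sp, sp, if_neg hj, if_neg hj])

theorem nu_wash (w v : Wd Fam) (J0 : ℕ) (hv : v.1 = 0)
    (h1 : ∀ φ, ex φ 0 v = 0 ∧ ex φ 1 v = 0 ∧ ex φ 2 v = 0 ∧ ex φ 3 v ≤ 1)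
    (h2 : ∀ φ, ex φ 3 v = 1 → r φ ≤ ex φ 0 w ∧ r φ + 1 ≤ J φ ∧ J0 ≤ J φ) :
    ∃ g : Measure ℝ, IsProbabilityMeasure g ∧ ENNReal.ofReal (1 - 2 / 2 ^ J0) • g ≤ G.nu J w ∧
      ENNReal.ofReal (1 - 2 / 2 ^ J0) • g ≤ G.nu J (w + v) := by
  choose g g1 g2 g3 g4 using slot_wash_Eng2 G J w v J0 h1 h2
  have : ∀ j, IsProbabilityMeasure (law (g j)) := fun j => law_prob (g1 j) (g2 j)
  have h0 : ∀ j, 0 ≤ if J0 ≤ j then (1 : ℝ) / 2 ^ j else 0 := fun j => by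
    split_ifs <;> positivity
  have h3 : ∀ j, (if J0 ≤ j then (1 : ℝ) / 2 ^ j else 0) ≤ 1 := fun j => by
    split_ifs
    · exact (div_le_one (by positivity)).2 (one_le_pow₀ one_le_two)
    · exact zero_le_one
  have hc : ∀ s : Finset ℕ, ENNReal.ofReal (1 - 2 / 2 ^ J0) ≤
      ∏ j ∈ s, ENNReal.ofReal (1 - if J0 ≤ j then (1 : ℝ) / 2 ^ j else 0) := fun s => by
    rw [← ENNReal.ofReal_prod_of_nonneg fun j _ => sub_nonneg.2 (h3 j)]
    exact ENNReal.ofReal_le_ofReal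
      ((sub_le_sub_left (sum_le_Eng2 J0 s) 1).trans (prod_ge_Eng2 _ h0 h3 s))
  have e : (w + v).1 = w.1 := by rw [Prod.fst_add, hv, add_zero]
  refine ⟨(Measure.infinitePi fun j => law (g j)).map fun ξ => (w.1 : ℝ) + val G.rad ξ,
    Measure.isProbabilityMeasure_map (G.measurable_sum _).aemeasurable, ?_, ?_⟩
  · rw [← Measure.map_smul]
    exact Measure.map_mono (infinitePi_smul_le _ _ _ _ (fun j => law_smul_le (g1 j) (g3 j)) hc)
      (G.measurable_sum _)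
  · rw [← Measure.map_smul, nu, e]
    exact Measure.map_mono (infinitePi_smul_le _ _ _ _ (fun j => law_smul_le (g1 j) (g4 j)) hc)
      (G.measurable_sum _)

theorem nu_dom (w w' : Wd Fam) (ht : w.1 = w'.1)
    (h : ∀ φ, (∀ p, p ≠ 4 → ex φ p w = ex φ p w') ∨
      (ex φ 3 w = 0 ∧ ex φ 3 w' = 0 ∧ ex φ 0 w' = 0 ∧ ex φ 1 w' = 1 ∧
        ex φ 0 w + ex φ 1 w + ex φ 2 w = ex φ 2 w' + 1 ∧ ex φ 2 w' + 1 ≤ J φ ∧
        (1 ≤ ex φ 1 w ∨ AA (r φ) ≤ ex φ 0 w))) :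
    G.nu J w ≤ (8 : ℝ≥0∞) • G.nu J w' := by
  have hc : ∀ s : Finset ℕ, (8 : ℝ≥0∞)⁻¹ ≤ ∏ j ∈ s, ENNReal.ofReal (1 + (1 : ℝ) / 2 ^ j)⁻¹ := by
    intro s
    have h1 : ∏ j ∈ s, (1 + (1 : ℝ) / 2 ^ j) ≤ 8 := by
      have h2 := Real.prod_one_add_le_exp_sum s (f := fun j => (1 : ℝ) / 2 ^ j)
        fun j => by positivity
      have h3 : ∑ j ∈ s, (1 : ℝ) / 2 ^ j ≤ 1 + 1 := by
        have := sum_le_Eng2 0 s
        simp only [zero_le, if_true, pow_zero] at this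
        linarith
      have h4 := Real.exp_le_exp.2 h3
      rw [Real.exp_add] at h4
      nlinarith [Real.exp_one_lt_d9, Real.exp_pos 1]
    have h5 : 0 < ∏ j ∈ s, (1 + (1 : ℝ) / 2 ^ j) := Finset.prod_pos fun j _ => by positivity
    rw [← ENNReal.ofReal_prod_of_nonneg fun j _ => by positivity, Finset.prod_inv_distrib,
      ← ENNReal.ofReal_ofNat 8, ← ENNReal.ofReal_inv_of_pos (by norm_num)]
    exact ENNReal.ofReal_le_ofReal (inv_anti₀ h5 h1)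
  have h6 : (8 : ℝ≥0∞)⁻¹ • G.dl J w ≤ G.dl J w' := infinitePi_smul_le _ _ _ _
    (fun j => law_smul_le (G.sp_nn J w j) (slot_dom_Eng2 G J w w' h j)) hc
  have h7 : G.dl J w ≤ (8 : ℝ≥0∞) • G.dl J w' := by
    intro s
    have h8 := h6 s
    rw [Measure.smul_apply, smul_eq_mul] at h8 ⊢
    calc G.dl J w s = 8 * (8⁻¹ * G.dl J w s) := by
          rw [← mul_assoc, ENNReal.mul_inv_cancel (by norm_num) (by norm_num), one_mul]
      _ ≤ _ := by gcongr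
  rw [nu, nu, ← Measure.map_smul, ht]
  exact Measure.map_mono h7 (G.measurable_sum _)

end Pool.Agent.P.MP_f562c3_an.SS.EngData
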