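import Pool.Agent.P.MP_f562c3_an.SS.Eng1
import Pool.Agent.P.MP_f562c3_an.SS.Eng2

/-!
Existence of the engine.
-/

open MeasureTheory Set

namespace Pool.Agent.P.MP_f562c3_an.SS

theorem engData_exists (Fam : Type) [Countable Fam] [Nonempty Fam] (r : Fam → ℕ)
    (hr : ∀ φ, 1 ≤ r φ) : Nonempty (EngData Fam r) := by
  obtain ⟨f, hf⟩ := exists_surjective_nat Fam
  refine ⟨⟨fun j => f (Nat.unpair j).1, fun φ j0 => ?_, fun j =>
    (slot_exists _ j (hr _) (by positivity)).some⟩⟩
  obtain ⟨i, rfl⟩ := hf φ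
  exact ⟨Nat.pair i j0, Nat.right_le_pair _ _, by simp⟩

theorem eng_exists (Fam : Type) [Countable Fam] [Nonempty Fam] (r J : Fam → ℕ)
    (hr : ∀ φ, 1 ≤ r φ) : Nonempty (Eng Fam r J) := by
  obtain ⟨G⟩ := engData_exists Fam r hr
  exact ⟨{
    ν := G.nu J
    prob := fun w => inferInstance
    zero := G.nu_zero J
    add := G.nu_add J
    nonneg := fun w => measure_mono_null (Iio_subset_Iio (NNRat.cast_nonneg _)) (G.nu_lo J w)
    lo := G.nu_lo J
    up := G.nu_up J
    H := G.HH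
    meas := G.measurableSet_HH
    car := G.nu_car J
    nul := G.nu_nul J
    wash := G.nu_wash J
    dom := G.nu_dom J }⟩

end Pool.Agent.P.MP_f562c3_an.SS
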