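import Pool.Agent.P.MP_f562c3_an.SS.Alg0

/-!
Laws on the natural numbers. Compare measures on singletons (`Measure.ext_iff_singleton`,
`Measure.le_iff` with finite sums), or use `mul_eq_sum`, `Measure.dirac_conv_dirac`,
`Measure.add_conv`, `Measure.conv_add`; a useful intermediate fact is
`law (∑ i, c i • wd (f i)) = ∑ i, ofReal (c i) • dirac (f i)` for `c i ≥ 0`.
-/

open MeasureTheory
open scoped ENNReal

namespace Pool.Agent.P.MP_f562c3_an.SS

/-- The measure with the given weights. -/
noncomputable def law (x : Rg ℕ) : Measure ℕ :=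
  ∑ m ∈ x.coeff.support, ENNReal.ofReal (x.coeff m) • Measure.dirac m

theorem single_Law (x : Rg ℕ) (m : ℕ) : law x {m} = ENNReal.ofReal (x.coeff m) := by
  classical
  rw [law, Measure.finsetSum_apply, Finset.sum_eq_single m]
  · simp
  · intro b _ hb
    simp [hb]
  · intro h
    simp [Finsupp.notMem_support_iff.1 h]

theorem apply_Law (x : Rg ℕ) (Z : Set ℕ) :
    law x Z = ∑ m ∈ x.coeff.support, ENNReal.ofReal (Z.indicator x.coeff m) := by
  classical
  rw [law, Measure.finsetSum_apply]
  refine Finset.sum_congr rfl fun m _ => ?_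
  by_cases h : m ∈ Z <;> simp [h]

theorem sum_Law {ι : Type*} (s : Finset ι) (c : ι → ℝ) (f : ι → ℕ) (hc : ∀ i ∈ s, 0 ≤ c i) :
    law (∑ i ∈ s, c i • wd (f i)) = ∑ i ∈ s, ENNReal.ofReal (c i) • Measure.dirac (f i) := by
  classical
  rw [Measure.ext_iff_singleton]
  intro m
  rw [single_Law, coeff_sum', Measure.finsetSum_apply, ENNReal.ofReal_sum_of_nonneg]
  · refine Finset.sum_congr rfl fun i _ => ?_
    rw [coeff_smul', coeff_wd]
    by_cases h : f i = m <;> simp [h]
  · intro i hi
    rw [coeff_smul']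
    exact mul_nonneg (hc i hi) (NN.wd _ _)

theorem conv_Law {ι κ : Type*} (s : Finset ι) (t : Finset κ) (c : ι → ℝ) (d : κ → ℝ) (f : ι → ℕ)
    (g : κ → ℕ) :
    (∑ i ∈ s, ENNReal.ofReal (c i) • Measure.dirac (f i)).conv
        (∑ j ∈ t, ENNReal.ofReal (d j) • Measure.dirac (g j)) =
      ∑ i ∈ s, ∑ j ∈ t, (ENNReal.ofReal (c i) * ENNReal.ofReal (d j)) •
        Measure.dirac (f i + g j) := by
  classical
  ext Z hZ
  rw [Measure.conv, Measure.map_apply (by fun_prop) hZ,
    Measure.prod_apply (by exact (Set.to_countable _).measurableSet), lintegral_finsetSum_measure,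
    Measure.finsetSum_apply]
  refine Finset.sum_congr rfl fun i _ => ?_
  rw [lintegral_smul_measure, lintegral_dirac, Measure.finsetSum_apply, Measure.finsetSum_apply,
    smul_eq_mul, Finset.mul_sum]
  refine Finset.sum_congr rfl fun j _ => ?_
  by_cases h : f i + g j ∈ Z <;> simp [h]

theorem law_apply {x : Rg ℕ} (hx : NN x) (Z : Set ℕ) : law x Z = ENNReal.ofReal (mass Z x) := by
  rw [apply_Law, mass, ENNReal.ofReal_sum_of_nonneg]
  exact fun m _ => Set.indicator_nonneg (fun m _ => hx m) m

theorem law_prob {x : Rg ℕ} (hx : NN x) (h1 : aug x = 1) : IsProbabilityMeasure (law x) := by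
  refine ⟨?_⟩
  rw [law_apply hx, mass, Set.indicator_univ, ← aug_eq, h1, ENNReal.ofReal_one]

theorem law_one : law 1 = Measure.dirac 0 := by
  have h := sum_Law ({0} : Finset ℕ) (fun _ => 1) (fun _ => 0) fun _ _ => zero_le_one
  simpa [wd_zero] using h

theorem law_mul {x y : Rg ℕ} (hx : NN x) (hy : NN y) : law (x * y) = (law x).conv (law y) := by
  have h := conv_Law x.coeff.support y.coeff.support x.coeff y.coeff id id
  have h2 := sum_Law (x.coeff.support ×ˢ y.coeff.support) (fun p => x.coeff p.1 * y.coeff p.2)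
    (fun p => p.1 + p.2) fun p _ => mul_nonneg (hx _) (hy _)
  rw [Finset.sum_product, Finset.sum_product] at h2
  rw [mul_eq_sum, h2]
  refine Eq.trans ?_ h.symm
  refine Finset.sum_congr rfl fun a _ => Finset.sum_congr rfl fun b _ => ?_
  rw [ENNReal.ofReal_mul (hx a)]
  rfl

theorem law_compl {x : Rg ℕ} {Z : Set ℕ} (h : Sup (fun m => m ∈ Z) x) : law x Zᶜ = 0 := by
  rw [apply_Law]
  refine Finset.sum_eq_zero fun m hm => ?_
  have h1 : m ∉ Zᶜ := fun h2 => h2 (h m (Finsupp.mem_support_iff.1 hm))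
  rw [Set.indicator_of_notMem h1, ENNReal.ofReal_zero]

theorem law_smul_le {x y : Rg ℕ} {c : ℝ} (hx : NN x) (h : NN (y - c • x)) :
    ENNReal.ofReal c • law x ≤ law y := by
  refine Measure.le_iff.2 fun Z _ => ?_
  rw [← Measure.tsum_indicator_apply_singleton _ Z (by measurability),
    ← Measure.tsum_indicator_apply_singleton (law y) Z (by measurability)]
  refine ENNReal.tsum_le_tsum fun m => Set.indicator_le_indicator ?_
  rw [Measure.smul_apply, single_Law, single_Law, smul_eq_mul, mul_comm,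
    ← ENNReal.ofReal_mul (hx m)]
  have h1 := h m
  rw [coeff_sub', coeff_smul'] at h1
  exact ENNReal.ofReal_le_ofReal (by linarith)

end Pool.Agent.P.MP_f562c3_an.SS
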