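import Mathlib

/-!
Infinite products of laws on the natural numbers.
* `infinitePi_smul_le`: first for finite products (`Measure.pi` on a countable discrete space:
  compare singletons, `Measure.pi_singleton`, and sum), then for cylinders
  (`Measure.infinitePi_cylinder`), then for all measurable sets by approximation with
  `exists_measure_symmDiff_lt_of_generateFrom_isSetRing` for the finite measure `μ + ν`
  (`isSetRing_measurableCylinders`, `generateFrom_measurableCylinders`). Note `c0 ≤ 1` (empty `s`).
* `infinitePi_conv`: `Measure.eq_infinitePi`; on a box use `Measure.lintegral_conv` or the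
  definition as a map of the product, Fubini, `Measure.infinitePi_pi`, and
  `lintegral_restrict_infinitePi` with `lintegral_fintype_prod_eq_prod`-type lemmas.
-/

open MeasureTheory
open scoped ENNReal

namespace Pool.Agent.P.MP_f562c3_an.SS

theorem pi_smul_le_Prod {I : Type} [Fintype I] (g h : I → Measure ℕ)
    [∀ j, IsProbabilityMeasure (g j)] [∀ j, IsProbabilityMeasure (h j)] (c : I → ℝ≥0∞)
    (hc : ∀ j, c j • g j ≤ h j) (S : Set (I → ℕ)) :
    (∏ j, c j) * Measure.pi g S ≤ Measure.pi h S := by
  have hS : S.Countable := Set.to_countable S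
  have key : ∀ μ : Measure (I → ℕ), μ S = ∑' x : S, μ {(x : I → ℕ)} := by
    intro μ
    have h1 := measure_biUnion (μ := μ) (f := fun x : I → ℕ => ({x} : Set (I → ℕ))) hS
      (fun x _ y _ hxy => Set.disjoint_singleton.2 hxy) (fun x _ => measurableSet_singleton x)
    rw [Set.biUnion_of_singleton] at h1
    exact h1
  rw [key (Measure.pi g), key (Measure.pi h), ← ENNReal.tsum_mul_left]
  refine ENNReal.tsum_le_tsum fun x => ?_
  rw [Measure.pi_singleton, Measure.pi_singleton, ← Finset.prod_mul_distrib]
  refine Finset.prod_le_prod' fun j _ => ?_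
  have h2 := hc j {(x : I → ℕ) j}
  simpa [Measure.smul_apply, smul_eq_mul] using h2

theorem infinitePi_smul_le (g h : ℕ → Measure ℕ) [∀ j, IsProbabilityMeasure (g j)]
    [∀ j, IsProbabilityMeasure (h j)] (c : ℕ → ℝ≥0∞) (c0 : ℝ≥0∞) (hc : ∀ j, c j • g j ≤ h j)
    (h0 : ∀ s : Finset ℕ, c0 ≤ ∏ j ∈ s, c j) :
    c0 • Measure.infinitePi g ≤ Measure.infinitePi h := by
  have hc1 : c0 ≤ 1 := by simpa using h0 ∅
  have hcyl : ∀ t ∈ measurableCylinders (fun _ : ℕ => ℕ),
      c0 * Measure.infinitePi g t ≤ Measure.infinitePi h t := by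
    intro t ht
    obtain ⟨I, S, mS, rfl⟩ := (mem_measurableCylinders t).1 ht
    rw [Measure.infinitePi_cylinder _ mS, Measure.infinitePi_cylinder _ mS]
    have h1 := pi_smul_le_Prod (fun i : I => g i) (fun i : I => h i) (fun i : I => c i)
      (fun j => hc j) S
    have h2 : c0 ≤ ∏ j : I, c j := by
      rw [Finset.prod_coe_sort I c]
      exact h0 I
    exact (mul_le_mul_left h2 _).trans h1
  rw [Measure.le_iff]
  intro s hs
  rw [Measure.smul_apply, smul_eq_mul]
  refine ENNReal.le_of_forall_pos_le_add fun ε hε _ => ?_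
  have hcov : ∃ D : Set (Set (ℕ → ℕ)), D.Countable ∧ D ⊆ measurableCylinders (fun _ : ℕ => ℕ) ∧
      (Measure.infinitePi g + Measure.infinitePi h) (⋃₀ D)ᶜ = 0 := by
    refine ⟨{Set.univ}, Set.countable_singleton _, ?_, by simp⟩
    intro t ht
    rw [Set.mem_singleton_iff.1 ht]
    exact univ_mem_measurableCylinders _
  obtain ⟨t, ht, hts⟩ := exists_measure_symmDiff_lt_of_generateFrom_isSetRing
    (μ := Measure.infinitePi g + Measure.infinitePi h) isSetRing_measurableCylinders hcov
    generateFrom_measurableCylinders.symm hs (ε := (ε : ℝ≥0∞)) (by exact_mod_cast hε)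
  rw [Measure.add_apply] at hts
  have e1 : Measure.infinitePi g s ≤ Measure.infinitePi g t + Measure.infinitePi g (symmDiff t s) := by
    refine (measure_mono ?_).trans (measure_union_le _ _)
    intro x hx
    by_cases hxt : x ∈ t
    · exact Or.inl hxt
    · exact Or.inr (Set.mem_symmDiff.2 (Or.inr ⟨hx, hxt⟩))
  have e2 : Measure.infinitePi h t ≤ Measure.infinitePi h s + Measure.infinitePi h (symmDiff t s) := by
    refine (measure_mono ?_).trans (measure_union_le _ _)
    intro x hx
    by_cases hxs : x ∈ s
    · exact Or.inl hxs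
    · exact Or.inr (Set.mem_symmDiff.2 (Or.inl ⟨hx, hxs⟩))
  calc c0 * Measure.infinitePi g s
      ≤ c0 * (Measure.infinitePi g t + Measure.infinitePi g (symmDiff t s)) :=
        mul_le_mul_right e1 _
    _ = c0 * Measure.infinitePi g t + c0 * Measure.infinitePi g (symmDiff t s) := mul_add _ _ _
    _ ≤ Measure.infinitePi h t + 1 * Measure.infinitePi g (symmDiff t s) :=
        add_le_add (hcyl t ht) (mul_le_mul_left hc1 _)
    _ ≤ (Measure.infinitePi h s + Measure.infinitePi h (symmDiff t s)) +
          1 * Measure.infinitePi g (symmDiff t s) := add_le_add e2 le_rfl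
    _ = Measure.infinitePi h s +
          (Measure.infinitePi g (symmDiff t s) + Measure.infinitePi h (symmDiff t s)) := by
        ring
    _ ≤ Measure.infinitePi h s + ε := add_le_add le_rfl hts.le

theorem pi_conv_Prod {I : Type} [Fintype I] (g h : I → Measure ℕ)
    [∀ j, IsProbabilityMeasure (g j)] [∀ j, IsProbabilityMeasure (h j)] :
    (Measure.pi g).conv (Measure.pi h) = Measure.pi fun j => (g j).conv (h j) := by
  have h1 := (measurePreserving_arrowProdEquivProdArrow ℕ ℕ I g h).map_eq
  have h2 := Measure.pi_map_pi (μ := fun j : I => (g j).prod (h j))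
    (f := fun _ : I => fun x : ℕ × ℕ => x.1 + x.2) (fun _ => measurable_add.aemeasurable)
  unfold Measure.conv
  rw [← h1, ← h2, Measure.map_map measurable_add (MeasurableEquiv.measurable _)]
  rfl

theorem infinitePi_conv (g h : ℕ → Measure ℕ) [∀ j, IsProbabilityMeasure (g j)]
    [∀ j, IsProbabilityMeasure (h j)] :
    (Measure.infinitePi g).conv (Measure.infinitePi h) =
      Measure.infinitePi fun j => (g j).conv (h j) := by
  refine ((Measure.isProjectiveLimit_infinitePi fun j => (g j).conv (h j)).unique ?_).symm
  intro I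
  let L : (ℕ → ℕ) →+ (I → ℕ) :=
    { toFun := fun x => I.restrict x
      map_zero' := rfl
      map_add' := fun _ _ => rfl }
  have hL : Measurable L := Finset.measurable_restrict I
  have h1 := Measure.map_conv_addMonoidHom (μ := Measure.infinitePi g)
    (ν := Measure.infinitePi h) L hL
  have h2 : (Measure.infinitePi g).map L = Measure.pi fun i : I => g i :=
    Measure.infinitePi_map_restrict g
  have h3 : (Measure.infinitePi h).map L = Measure.pi fun i : I => h i :=
    Measure.infinitePi_map_restrict h
  rw [h2, h3, pi_conv_Prod] at h1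
  exact h1

end Pool.Agent.P.MP_f562c3_an.SS
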