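import Pool.Agent.P.MP_f562c3_an.SS.SlotC

/-!
Encoding of arrays by natural numbers. Let `e : Ps r ≃ Fin k`, `Q = n * B + 1` and
`enc m = ∑ p, m p * Q ^ e p`, an additive map that is injective on arrays with entries `< Q`
(`finFunctionFinEquiv`, or induction). Transport all letters by `mp enc` and put
`Z' θ = {z | ∀ m, (∀ p, m p ≤ n * B) → enc m = z → m ∈ Z θ}`. The words of a product of at most `n`
letters have entries `≤ n * B` (`Sup.pow_graded`, `Sup.mul`), and for them
`enc m ∈ Z' θ ↔ m ∈ Z θ`. `car`: `Sup.mp`; `nul`: `mass_preimage` and monotonicity of the sum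
(the coefficients are nonnegative); `wash` and `dom`: `NN.mp`, `aug_mp`, `map_sub`, `map_smul`.
-/

namespace Pool.Agent.P.MP_f562c3_an.SS

/-- A slot with values in the natural numbers. -/
structure Slot (r n : ℕ) (ε : ℝ) where
  /-- rank one letter -/
  X : Rg ℕ
  /-- uniform letter -/
  U : Rg ℕ
  /-- bulk letter -/
  P : Rg ℕ
  /-- shift -/
  d : ℕ
  /-- bound for the digits of one letter -/
  B : ℕ
  /-- test sets -/
  Z : ℕ → Set ℕ
  nnX : NN X
  nnU : NN U
  nnP : NN P
  augX : aug X = 1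
  augU : aug U = 1
  augP : aug P = 1
  smX : Sup (fun m => m ≤ B) X
  smU : Sup (fun m => m ≤ B) U
  smP : Sup (fun m => m ≤ B) P
  smd : d ≤ B
  car : ∀ a c θ : ℕ, a + c + θ ≤ n → a < r → Sup (fun m => m ∈ Z θ) (X ^ a * P ^ c * wd (θ • d))
  nul : ∀ a b c θ θ' : ℕ, a + b + c + θ ≤ n → θ' ≤ n → (θ' ≠ θ ∨ 1 ≤ b ∨ r ≤ a) →
    mass (Z θ') (X ^ a * U ^ b * P ^ c * wd (θ • d)) ≤ ε
  wash : r + 1 ≤ n → ∃ g : Rg ℕ, NN g ∧ aug g = 1 ∧ NN (X ^ r - (1 - ε) • g) ∧
    NN (X ^ r * wd d - (1 - ε) • g)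
  dom : ∀ a b c t : ℕ, a + b + c = t + 1 → t + 1 ≤ n → (1 ≤ b ∨ AA r ≤ a) →
    NN ((1 + ε) • (U * P ^ t) - X ^ a * U ^ b * P ^ c)

theorem enc_exists_SlotD (D : Type) [Fintype D] (K : ℕ) :
    ∃ enc : (D → ℕ) →+ ℕ, (∀ m m' : D → ℕ, (∀ p, m p ≤ m' p) → enc m ≤ enc m') ∧
      ∀ m m' : D → ℕ, (∀ p, m p ≤ K) → (∀ p, m' p ≤ K) → enc m = enc m' → m = m' := by
  classical
  let e : D ≃ Fin (Fintype.card D) := Fintype.equivFin D
  refine ⟨{ toFun := fun m => ∑ i : Fin (Fintype.card D), m (e.symm i) * (K + 1) ^ (i : ℕ)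
            map_zero' := by simp
            map_add' := fun a b => by simp [add_mul, Finset.sum_add_distrib] }, ?_, ?_⟩
  · intro m m' h
    show ∑ i : Fin (Fintype.card D), m (e.symm i) * (K + 1) ^ (i : ℕ) ≤
      ∑ i : Fin (Fintype.card D), m' (e.symm i) * (K + 1) ^ (i : ℕ)
    exact Finset.sum_le_sum fun i _ => Nat.mul_le_mul_right _ (h _)
  · intro m m' hm hm' h
    have h1 : finFunctionFinEquiv (fun i : Fin (Fintype.card D) =>
        (⟨m (e.symm i), Nat.lt_succ_of_le (hm _)⟩ : Fin (K + 1))) =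
        finFunctionFinEquiv (fun i : Fin (Fintype.card D) =>
        (⟨m' (e.symm i), Nat.lt_succ_of_le (hm' _)⟩ : Fin (K + 1))) := by
      apply Fin.ext
      rw [finFunctionFinEquiv_apply, finFunctionFinEquiv_apply]
      exact h
    have h2 := finFunctionFinEquiv.injective h1
    funext p
    have h3 := congrArg Fin.val (congrFun h2 (e p))
    simpa using h3

theorem sup_word_SlotD {D : Type} {B : ℕ} {X U P : Rg (D → ℕ)} {d : D → ℕ}
    (hX : Sup (fun m => ∀ p, m p ≤ B) X) (hU : Sup (fun m => ∀ p, m p ≤ B) U)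
    (hP : Sup (fun m => ∀ p, m p ≤ B) P) (hd : ∀ p, d p ≤ B) (a b c θ n : ℕ)
    (h : a + b + c + θ ≤ n) :
    Sup (fun m => ∀ p, m p ≤ n * B) (X ^ a * U ^ b * P ^ c * wd (θ • d)) := by
  have hpow : ∀ (x : Rg (D → ℕ)) (k : ℕ), Sup (fun m => ∀ p, m p ≤ B) x →
      Sup (fun m => ∀ p, m p ≤ k * B) (x ^ k) := fun x k hx => by
    have := Sup.pow_graded (Q := fun (g : ℕ) (m : D → ℕ) => ∀ p, m p ≤ g) (fun p => le_rfl)
      (fun g g' u v hu hv p => add_le_add (hu p) (hv p)) hx k
    simpa using this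
  have hw : Sup (fun m : D → ℕ => ∀ p, m p ≤ θ * B) (wd (θ • d)) :=
    Sup.wd fun p => by simpa using Nat.mul_le_mul_left θ (hd p)
  have h1 := (hpow X a hX).mul (hpow U b hU) (Q := fun m => ∀ p, m p ≤ a * B + b * B)
    fun u v hu hv p => add_le_add (hu p) (hv p)
  have h2 := h1.mul (hpow P c hP) (Q := fun m => ∀ p, m p ≤ a * B + b * B + c * B)
    fun u v hu hv p => add_le_add (hu p) (hv p)
  refine h2.mul hw fun u v hu hv p => (add_le_add (hu p) (hv p)).trans ?_
  calc a * B + b * B + c * B + θ * B = (a + b + c + θ) * B := by ring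
    _ ≤ n * B := Nat.mul_le_mul_right _ h

theorem mass_le_SlotD {W : Type*} [AddCommMonoid W] {S T : Set W} {x : Rg W} (hx : NN x)
    (h : Sup (fun w => w ∈ S → w ∈ T) x) : mass S x ≤ mass T x := by
  refine Finset.sum_le_sum fun w hw => ?_
  by_cases hS : w ∈ S
  · rw [Set.indicator_of_mem hS, Set.indicator_of_mem (h w (Finsupp.mem_support_iff.1 hw) hS)]
  · rw [Set.indicator_of_notMem hS]
    exact Set.indicator_nonneg (fun v _ => hx v) w

theorem slot_exists (r n : ℕ) (hr : 1 ≤ r) {ε : ℝ} (hε : 0 < ε) : Nonempty (Slot r n ε) := by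
  obtain ⟨B, ⟨S⟩⟩ := slotArr_exists r n hr hε
  obtain ⟨enc, hmono, hinj⟩ := enc_exists_SlotD (Ps r) (n * B)
  have hsm : ∀ x : Rg (Ps r → ℕ), Sup (fun m => ∀ p, m p ≤ B) x →
      Sup (fun m => m ≤ enc fun _ => B) (mp enc x) := fun x hx =>
    Sup.mp enc (hx.mono fun m hm => hmono _ _ hm)
  refine ⟨{ X := mp enc S.X
            U := mp enc S.U
            P := mp enc S.P
            d := enc S.d
            B := enc fun _ => B
            Z := fun θ => {z | ∀ m : Ps r → ℕ, (∀ p, m p ≤ n * B) → enc m = z → m ∈ S.Z θ}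
            nnX := S.nnX.mp enc
            nnU := S.nnU.mp enc
            nnP := S.nnP.mp enc
            augX := by rw [aug_mp, S.augX]
            augU := by rw [aug_mp, S.augU]
            augP := by rw [aug_mp, S.augP]
            smX := hsm _ S.smX
            smU := hsm _ S.smU
            smP := hsm _ S.smP
            smd := hmono _ _ S.smd
            car := ?_
            nul := ?_
            wash := ?_
            dom := ?_ }⟩
  · intro a c θ h ha
    have e : mp enc S.X ^ a * mp enc S.P ^ c * wd (θ • enc S.d) =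
        mp enc (S.X ^ a * S.P ^ c * wd (θ • S.d)) := by
      rw [map_mul, map_mul, map_pow, map_pow, mp_wd, map_nsmul]
    rw [e]
    have h1 := sup_word_SlotD S.smX S.smU S.smP S.smd a 0 c θ n (by omega)
    rw [pow_zero, mul_one] at h1
    refine Sup.mp enc ((h1.and (S.car a c θ ha)).mono fun m hm m' hm' he => ?_)
    rw [hinj m' m hm' hm.1 he]
    exact hm.2
  · intro a b c θ θ' h h' hc
    have e : mp enc S.X ^ a * mp enc S.U ^ b * mp enc S.P ^ c * wd (θ • enc S.d) =
        mp enc (S.X ^ a * S.U ^ b * S.P ^ c * wd (θ • S.d)) := by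
      rw [map_mul, map_mul, map_mul, map_pow, map_pow, map_pow, mp_wd, map_nsmul]
    rw [e, ← mass_preimage]
    refine le_trans (mass_le_SlotD ?_ ?_) (S.nul a b c θ θ' h h' hc)
    · exact (((S.nnX.pow a).mul (S.nnU.pow b)).mul (S.nnP.pow c)).mul (NN.wd _)
    · exact (sup_word_SlotD S.smX S.smU S.smP S.smd a b c θ n h).mono
        fun m hm hz => hz m hm rfl
  · intro h
    obtain ⟨g, hg, ha, h1, h2⟩ := S.wash h
    refine ⟨mp enc g, hg.mp enc, by rw [aug_mp, ha], ?_, ?_⟩
    · have := h1.mp enc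
      rwa [map_sub, map_smul, map_pow] at this
    · have := h2.mp enc
      rwa [map_sub, map_smul, map_mul, map_pow, mp_wd] at this
  · intro a b c t h h' hc
    have := (S.dom a b c t h h' hc).mp enc
    rwa [map_sub, map_smul, map_mul, map_mul, map_mul, map_pow, map_pow, map_pow, map_pow] at this

end Pool.Agent.P.MP_f562c3_an.SS
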