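import Pool.Agent.P.MP_f562c3_an.SS.EngDefs
import Pool.Agent.P.MP_f562c3_an.SS.SlotD
import Pool.Agent.P.MP_f562c3_an.SS.Law
import Pool.Agent.P.MP_f562c3_an.SS.Prod
import Pool.Agent.P.MP_f562c3_an.SS.Digit

/-!
Construction of the engine: definitions and the semigroup.
* `ae_le`: if the exponents in the columns `0..3` are `≤ D` then the words of `sp w j` are
  `≤ 4 D * B` (`Sup.pow_graded`, `Sup.mul`), so `law_compl`, `measurePreserving_eval_infinitePi` and
  `ae_all_iff` apply. `ae_mem` is the general form.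
* `nu_add`: `infinitePi_conv`, `law_mul`, `sp_add`; both sides are maps of the product of the two
  infinite products (`Measure.conv`, `Measure.map_map`, `Measure.map_prod_map`), and the two
  functions agree almost everywhere by `val_add` (every word has bounded exponents: `w.2.2`).
* `nu_up`: `val_le` with `C = 2 D`; for `j < J0` the slot polynomial is `1`.
-/

open MeasureTheory Set
open scoped ENNReal NNRat

namespace Pool.Agent.P.MP_f562c3_an.SS

/-- An assignment of slots to families, with the slot gadgets. -/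
structure EngData (Fam : Type) (r : Fam → ℕ) where
  /-- the owner of a slot -/
  fam : ℕ → Fam
  often : ∀ φ j0, ∃ j, j0 ≤ j ∧ fam j = φ
  /-- the gadget in a slot -/
  S : (j : ℕ) → Slot (r (fam j)) j (1 / 2 ^ j)

namespace EngData

variable {Fam : Type} {r : Fam → ℕ} (G : EngData Fam r) (J : Fam → ℕ)

/-- The radices. -/
def rad (j : ℕ) : ℕ := 4 * (j + 1) * ((G.S j).B + 1)

/-- The slot polynomial of a word. -/
noncomputable def sp (w : Wd Fam) (j : ℕ) : Rg ℕ :=
  if J (G.fam j) ≤ j then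
    (G.S j).X ^ ex (G.fam j) 0 w * (G.S j).U ^ ex (G.fam j) 1 w * (G.S j).P ^ ex (G.fam j) 2 w *
      wd (ex (G.fam j) 3 w • (G.S j).d)
  else 1

/-- The law of the digit sequence of a word. -/
noncomputable def dl (w : Wd Fam) : Measure (ℕ → ℕ) :=
  Measure.infinitePi fun j => law (G.sp J w j)

/-- The measure of a word. -/
noncomputable def nu (w : Wd Fam) : Measure ℝ :=
  (G.dl J w).map fun ξ => (w.1 : ℝ) + val G.rad ξ

/-- The test sets. -/
def HH (φ : Fam) (θ : ℕ) : Set ℝ :=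
  {x | ∃ j0, ∀ j, j0 ≤ j → G.fam j = φ → dgt G.rad j x ∈ (G.S j).Z θ}

theorem four_le_rad (j : ℕ) : 4 ≤ G.rad j := by
  unfold rad
  nlinarith [Nat.zero_le j, Nat.zero_le (G.S j).B, Nat.zero_le (j * (G.S j).B)]

theorem dvd_rad (j : ℕ) : j + 1 ∣ G.rad j := by
  unfold rad
  exact Dvd.dvd.mul_right (Dvd.intro_left 4 rfl) _

theorem sp_nn (w : Wd Fam) (j : ℕ) : NN (G.sp J w j) := by
  unfold sp
  split_ifs
  · exact ((((G.S j).nnX.pow _).mul ((G.S j).nnU.pow _)).mul ((G.S j).nnP.pow _)).mul (NN.wd _)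
  · exact NN.one

theorem sp_aug (w : Wd Fam) (j : ℕ) : aug (G.sp J w j) = 1 := by
  unfold sp
  split_ifs
  · simp only [map_mul, map_pow, (G.S j).augX, (G.S j).augU, (G.S j).augP, aug_wd, one_pow,
      mul_one]
  · exact map_one aug

theorem sp_add (v w : Wd Fam) (j : ℕ) : G.sp J (v + w) j = G.sp J v j * G.sp J w j := by
  unfold sp
  split_ifs
  · simp only [map_add, pow_add, add_nsmul, wd_add]
    ring
  · exact (mul_one _).symm

instance (w : Wd Fam) (j : ℕ) : IsProbabilityMeasure (law (G.sp J w j)) :=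
  law_prob (G.sp_nn J w j) (G.sp_aug J w j)

instance (w : Wd Fam) : IsProbabilityMeasure (G.dl J w) := by
  unfold dl; infer_instance

theorem measurable_sum (t : ℝ) : Measurable fun ξ : ℕ → ℕ => t + val G.rad ξ :=
  measurable_val.const_add t

instance (w : Wd Fam) : IsProbabilityMeasure (G.nu J w) :=
  Measure.isProbabilityMeasure_map (G.measurable_sum _).aemeasurable

theorem ae_mem (w : Wd Fam) {Z : ℕ → Set ℕ} (h : ∀ j, Sup (fun m => m ∈ Z j) (G.sp J w j)) :
    ∀ᵐ ξ ∂G.dl J w, ∀ j, ξ j ∈ Z j := by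
  rw [ae_all_iff]
  intro j
  have hm := measurePreserving_eval_infinitePi (fun j => law (G.sp J w j)) j
  have h0 : ∀ᵐ m ∂law (G.sp J w j), m ∈ Z j := by
    rw [ae_iff]; exact law_compl (h j)
  exact hm.quasiMeasurePreserving.ae h0

theorem sup_pow_Eng0 {x : Rg ℕ} {B : ℕ} (h : Sup (fun m => m ≤ B) x) {a D : ℕ} (ha : a ≤ D) :
    Sup (fun m => m ≤ D * B) (x ^ a) := by
  have := Sup.pow_graded (Q := fun (g : ℕ) (m : ℕ) => m ≤ g) (x := x) (g := B) le_rfl
    (fun _ _ _ _ h1 h2 => add_le_add h1 h2) h a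
  refine this.mono fun m hm => le_trans hm ?_
  rw [smul_eq_mul]
  exact Nat.mul_le_mul_right _ ha

theorem sp_sup_Eng0 (w : Wd Fam) {D : ℕ} (h : ∀ φ p, p ≠ 4 → ex φ p w ≤ D) (j : ℕ) :
    Sup (fun m => m ≤ 4 * D * (G.S j).B) (G.sp J w j) := by
  unfold sp
  split_ifs
  · have h0 := sup_pow_Eng0 (G.S j).smX (h (G.fam j) 0 (by decide))
    have h1 := sup_pow_Eng0 (G.S j).smU (h (G.fam j) 1 (by decide))
    have h2 := sup_pow_Eng0 (G.S j).smP (h (G.fam j) 2 (by decide))
    have h3 : Sup (fun m => m ≤ D * (G.S j).B) (wd (ex (G.fam j) 3 w • (G.S j).d)) := by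
      refine Sup.wd ?_
      rw [smul_eq_mul]
      exact Nat.mul_le_mul (h (G.fam j) 3 (by decide)) (G.S j).smd
    have h01 := h0.mul h1 (Q := fun m => m ≤ 2 * (D * (G.S j).B)) fun a b ha hb => by omega
    have h012 := h01.mul h2 (Q := fun m => m ≤ 3 * (D * (G.S j).B)) fun a b ha hb => by omega
    refine h012.mul h3 fun a b ha hb => ?_
    rw [mul_assoc]; omega
  · exact Sup.one (Nat.zero_le _)

theorem ae_le (w : Wd Fam) {D : ℕ} (h : ∀ φ p, p ≠ 4 → ex φ p w ≤ D) :
    ∀ᵐ ξ ∂G.dl J w, ∀ j, ξ j ≤ 4 * D * (G.S j).B := by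
  exact G.ae_mem J w (Z := fun j => {m | m ≤ 4 * D * (G.S j).B}) (G.sp_sup_Eng0 J w h)

theorem le_rad_Eng0 (D j : ℕ) : 4 * D * (G.S j).B ≤ D * G.rad j := by
  unfold rad
  calc 4 * D * (G.S j).B = D * (4 * 1 * (G.S j).B) := by ring
    _ ≤ D * (4 * (j + 1) * ((G.S j).B + 1)) :=
      Nat.mul_le_mul_left _ (Nat.mul_le_mul (Nat.mul_le_mul_left _ (by omega)) (by omega))

theorem ae_rad_Eng0 (w : Wd Fam) : ∃ D : ℕ, ∀ᵐ ξ ∂G.dl J w, ∀ j, ξ j ≤ D * G.rad j := by
  obtain ⟨D, hD⟩ := w.2.2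
  refine ⟨D, ?_⟩
  filter_upwards [G.ae_le J w (D := D) fun φ p _ => hD φ p] with ξ hξ j
  exact (hξ j).trans (G.le_rad_Eng0 D j)

theorem nu_zero : G.nu J 0 = Measure.dirac 0 := by
  have h := G.ae_le J 0 (D := 0) fun φ p _ => by rw [map_zero]
  have h2 : (fun ξ : ℕ → ℕ => (((0 : Wd Fam).1 : ℚ≥0) : ℝ) + val G.rad ξ) =ᵐ[G.dl J 0]
      fun _ => (0 : ℝ) := by
    filter_upwards [h] with ξ hξ
    have : ξ = 0 := funext fun j => by simpa using hξ j
    rw [this, val_zero]; simp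
  unfold nu
  rw [Measure.map_congr h2, Measure.map_const]
  simp

theorem nu_add (v w : Wd Fam) : G.nu J (v + w) = (G.nu J v).conv (G.nu J w) := by
  have hdl : G.dl J (v + w) = (G.dl J v).conv (G.dl J w) := by
    unfold dl
    rw [infinitePi_conv]
    congr 1
    funext j
    rw [sp_add, law_mul (G.sp_nn J v j) (G.sp_nn J w j)]
  obtain ⟨D, hD⟩ := G.ae_rad_Eng0 J v
  obtain ⟨E, hE⟩ := G.ae_rad_Eng0 J w
  have hD' : ∀ᵐ p ∂(G.dl J v).prod (G.dl J w), ∀ j, p.1 j ≤ D * G.rad j :=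
    Measure.quasiMeasurePreserving_fst.ae hD
  have hE' : ∀ᵐ p ∂(G.dl J v).prod (G.dl J w), ∀ j, p.2 j ≤ E * G.rad j :=
    Measure.quasiMeasurePreserving_snd.ae hE
  unfold nu
  rw [hdl, Measure.conv, Measure.conv,
    Measure.map_map (G.measurable_sum _) measurable_add,
    Measure.map_prod_map _ _ (G.measurable_sum _) (G.measurable_sum _),
    Measure.map_map measurable_add ((G.measurable_sum _).prodMap (G.measurable_sum _))]
  refine Measure.map_congr ?_
  filter_upwards [hD', hE'] with p h1 h2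
  simp only [Function.comp_apply, Prod.map_fst, Prod.map_snd, Prod.fst_add]
  rw [val_add G.four_le_rad h1 h2]
  push_cast
  ring

theorem nu_lo (w : Wd Fam) : G.nu J w (Iio (w.1 : ℝ)) = 0 := by
  unfold nu
  rw [Measure.map_apply (G.measurable_sum _) measurableSet_Iio]
  have : (fun ξ : ℕ → ℕ => (w.1 : ℝ) + val G.rad ξ) ⁻¹' Iio (w.1 : ℝ) = ∅ := by
    ext ξ
    have := val_nonneg (rad := G.rad) ξ
    simp only [mem_preimage, mem_Iio, mem_empty_iff_false, iff_false, not_lt]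
    linarith
  rw [this, measure_empty]

theorem nu_up (w : Wd Fam) (D J0 : ℕ) (hD : ∀ φ p, p ≠ 4 → ex φ p w ≤ D)
    (hJ : ∀ φ p, p ≠ 4 → ex φ p w ≠ 0 → J0 ≤ J φ) :
    G.nu J w (Ioi ((w.1 : ℝ) + 4 * D / 2 ^ J0)) = 0 := by
  have h0 : ∀ᵐ ξ ∂G.dl J w, ∀ j, ξ j ∈ {m : ℕ | j < J0 → m = 0} := by
    refine G.ae_mem J w (Z := fun j => {m : ℕ | j < J0 → m = 0}) fun j => ?_
    by_cases hj : j < J0
    · have : G.sp J w j = 1 := by
        unfold sp
        split_ifs with h1
        · have hz : ∀ p, p ≠ 4 → ex (G.fam j) p w = 0 := fun p hp => by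
            by_contra hne
            have := hJ _ p hp hne
            omega
          rw [hz 0 (by decide), hz 1 (by decide), hz 2 (by decide), hz 3 (by decide)]
          simp [wd_zero]
        · rfl
      rw [this]
      exact Sup.one fun _ => rfl
    · exact fun m _ h => absurd h hj
  unfold nu
  rw [Measure.map_apply (G.measurable_sum _) measurableSet_Ioi]
  refine measure_eq_zero_iff_ae_notMem.2 ?_
  filter_upwards [h0, G.ae_le J w hD] with ξ h1 h2
  have h3 : val G.rad ξ ≤ ((2 * D : ℕ) : ℝ) / 2 ^ J0 := by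
    refine val_le G.four_le_rad (fun j => ?_) fun j hj => h1 j hj
    have := (h2 j).trans (G.le_rad_Eng0 D j)
    rw [mul_assoc]; omega
  have h4 : ((2 * D : ℕ) : ℝ) / 2 ^ J0 ≤ 4 * D / 2 ^ J0 := by
    refine div_le_div_of_nonneg_right ?_ (by positivity)
    push_cast
    have : (0 : ℝ) ≤ D := Nat.cast_nonneg D
    linarith
  simp only [mem_preimage, mem_Ioi, not_lt]
  linarith

end EngData

end Pool.Agent.P.MP_f562c3_an.SS
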