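import Pool.Agent.P.MP_f562c3_an.SS.Eng0

/-!
The test sets. Let `D` bound the exponents of `w` (`w.2.2`). Almost surely `ξ j ≤ 4 D * B`
(`ae_le`), hence `2 * ξ j ≤ rad j` for `j ≥ 2 D`, and `dgt rad j (w.1 + val ξ) = ξ j` for
`j ≥ max (2 D) w.1.den` (`dgt_eventually`).
* `nu_car`: `ae_mem` with `Z j = (S j).Z θ` for the slots `j ≥ max (4 D) (J φ)` of `φ`, `univ`
  otherwise (`Slot.car`; rewrite with `fam j = φ`, e.g. by `subst`).
* `nu_nul`: `HH` is the union over `j0` of sets that are, for every large slot `j` of `φ`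
  (`often`), contained almost surely in `{ξ | ξ j ∈ (S j).Z θ}`, of measure at most `1 / 2 ^ j`
  (`Measure.infinitePi_map_eval` or `measurePreserving_eval_infinitePi`, `law_apply`, `Slot.nul`).
-/

open MeasureTheory Set
open scoped ENNReal NNRat

namespace Pool.Agent.P.MP_f562c3_an.SS.EngData

variable {Fam : Type} {r : Fam → ℕ} (G : EngData Fam r) (J : Fam → ℕ)

theorem measurableSet_HH (φ : Fam) (θ : ℕ) : MeasurableSet (G.HH φ θ) := by
  have : G.HH φ θ = ⋃ j0 : ℕ, ⋂ j : ℕ, ⋂ _ : j0 ≤ j, ⋂ _ : G.fam j = φ,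
      dgt G.rad j ⁻¹' (G.S j).Z θ := by
    ext x
    simp [HH]
  rw [this]
  exact MeasurableSet.iUnion fun j0 => MeasurableSet.iInter fun j =>
    MeasurableSet.iInter fun _ => MeasurableSet.iInter fun _ =>
      measurable_dgt j (MeasurableSet.of_discrete)

theorem ae_dgt_Eng1 (w : Wd Fam) {D : ℕ} (hD : ∀ φ p, ex φ p w ≤ D) :
    ∀ᵐ ξ ∂G.dl J w, ∀ j, 2 * D ≤ j → w.1.den ≤ j →
      dgt G.rad j ((w.1 : ℝ) + val G.rad ξ) = ξ j := by
  filter_upwards [G.ae_le J w (D := D) fun φ p _ => hD φ p] with ξ hξ j hj ht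
  refine dgt_eventually G.four_le_rad G.dvd_rad w.1 (j0 := 2 * D) (fun i hi => ?_) j hj ht
  have h1 := hξ i
  have h2 : 2 * D * (G.S i).B ≤ (i + 1) * ((G.S i).B + 1) :=
    Nat.mul_le_mul (by omega) (by omega)
  unfold rad
  nlinarith

theorem nu_car (w : Wd Fam) (φ : Fam) (h1 : ex φ 1 w = 0) (h0 : ex φ 0 w < r φ) :
    G.nu J w (G.HH φ (ex φ 3 w))ᶜ = 0 := by
  classical
  obtain ⟨D, hD⟩ := w.2.2
  have hD' : ∀ φ p, ex φ p w ≤ D := hD
  unfold nu
  rw [Measure.map_apply (G.measurable_sum _) (G.measurableSet_HH φ _).compl]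
  have hm := G.ae_mem J w
    (Z := fun j => {m | 4 * D ≤ j → J φ ≤ j → G.fam j = φ → m ∈ (G.S j).Z (ex φ 3 w)})
    (fun j => by
      intro m hm a1 a2 a3
      subst a3
      have hs : G.sp J w j = (G.S j).X ^ ex (G.fam j) 0 w * (G.S j).P ^ ex (G.fam j) 2 w *
          wd (ex (G.fam j) 3 w • (G.S j).d) := by
        unfold sp
        rw [if_pos a2, h1, pow_zero, mul_one]
      rw [hs] at hm
      have b0 := hD' (G.fam j) 0
      have b2 := hD' (G.fam j) 2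
      have b3 := hD' (G.fam j) 3
      exact (G.S j).car _ _ _ (by omega) h0 m hm)
  have : ∀ᵐ ξ ∂G.dl J w, (w.1 : ℝ) + val G.rad ξ ∈ G.HH φ (ex φ 3 w) := by
    filter_upwards [hm, G.ae_dgt_Eng1 J w hD'] with ξ a1 a2
    refine ⟨4 * D + J φ + w.1.den, fun j hj hf => ?_⟩
    rw [a2 j (by omega) (by omega)]
    exact a1 j (by omega) (by omega) hf
  exact this

theorem nu_nul (w : Wd Fam) (φ : Fam) (θ : ℕ)
    (h : θ ≠ ex φ 3 w ∨ 1 ≤ ex φ 1 w ∨ r φ ≤ ex φ 0 w) : G.nu J w (G.HH φ θ) = 0 := by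
  obtain ⟨D, hD⟩ := w.2.2
  have hD' : ∀ φ p, ex φ p w ≤ D := hD
  unfold nu
  rw [Measure.map_apply (G.measurable_sum _) (G.measurableSet_HH φ _)]
  have hU : (fun ξ : ℕ → ℕ => (w.1 : ℝ) + val G.rad ξ) ⁻¹' G.HH φ θ =
      ⋃ j0 : ℕ, {ξ | ∀ j, j0 ≤ j → G.fam j = φ →
        dgt G.rad j ((w.1 : ℝ) + val G.rad ξ) ∈ (G.S j).Z θ} := by
    ext ξ
    simp [HH]
  rw [hU]
  refine measure_iUnion_null fun j0 => ?_
  have key : ∀ k : ℕ, G.dl J w {ξ | ∀ j, j0 ≤ j → G.fam j = φ →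
      dgt G.rad j ((w.1 : ℝ) + val G.rad ξ) ∈ (G.S j).Z θ} ≤ ENNReal.ofReal ((1 / 2) ^ k) := by
    intro k
    obtain ⟨j, hj, hf⟩ := G.often φ (j0 + 4 * D + J φ + w.1.den + θ + k)
    have e1 : G.dl J w {ξ | ∀ j, j0 ≤ j → G.fam j = φ →
        dgt G.rad j ((w.1 : ℝ) + val G.rad ξ) ∈ (G.S j).Z θ} ≤
        G.dl J w ((fun ξ => ξ j) ⁻¹' (G.S j).Z θ) := by
      refine measure_mono_ae ?_
      filter_upwards [G.ae_dgt_Eng1 J w hD'] with ξ a2 a1
      have := a1 j (by omega) hf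
      rw [a2 j (by omega) (by omega)] at this
      exact this
    have e2 : G.dl J w ((fun ξ => ξ j) ⁻¹' (G.S j).Z θ) = law (G.sp J w j) ((G.S j).Z θ) :=
      (measurePreserving_eval_infinitePi (fun j => law (G.sp J w j)) j).measure_preimage
        (MeasurableSet.of_discrete).nullMeasurableSet
    rw [e2, law_apply (G.sp_nn J w j)] at e1
    refine e1.trans (ENNReal.ofReal_le_ofReal ?_)
    subst hf
    have hs : G.sp J w j = (G.S j).X ^ ex (G.fam j) 0 w * (G.S j).U ^ ex (G.fam j) 1 w *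
        (G.S j).P ^ ex (G.fam j) 2 w * wd (ex (G.fam j) 3 w • (G.S j).d) := by
      unfold sp
      rw [if_pos (by omega)]
    have b0 := hD' (G.fam j) 0
    have b1 := hD' (G.fam j) 1
    have b2 := hD' (G.fam j) 2
    have b3 := hD' (G.fam j) 3
    rw [hs]
    refine ((G.S j).nul _ _ _ _ θ (by omega) (by omega) h).trans ?_
    rw [one_div_pow]
    exact one_div_le_one_div_of_le (by positivity) (pow_le_pow_right₀ (by norm_num) (by omega))
  refine le_antisymm ?_ bot_le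
  have t : Filter.Tendsto (fun k : ℕ => ENNReal.ofReal ((1 / 2 : ℝ) ^ k)) Filter.atTop
      (nhds (ENNReal.ofReal 0)) :=
    ENNReal.tendsto_ofReal (tendsto_pow_atTop_nhds_zero_of_lt_one (by norm_num) (by norm_num))
  rw [ENNReal.ofReal_zero] at t
  exact ge_of_tendsto' t key

end Pool.Agent.P.MP_f562c3_an.SS.EngData
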