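import Pool.Agent.P.MP_f562c3_an.SS.Alg0

/-!
The one-slot gadget. `X` is a random rank one matrix over a large prime field, `U` a uniform
matrix, `P` only carries the bulk that absorbs carries, `d` is a fixed matrix of full rank.
-/

namespace Pool.Agent.P.MP_f562c3_an.SS

/-- The number of rank one summands above which the sum is dominated by the uniform law. -/
def AA (r : ℕ) : ℕ := r * r + 2 * r

theorem AA_mono {r s : ℕ} (h : r ≤ s) : AA r ≤ AA s := by
  unfold AA; nlinarith [Nat.mul_le_mul h h]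

theorem le_AA (r : ℕ) : r ≤ AA r := by unfold AA; omega

/-- The data and the four properties of one slot with values in `G`. -/
structure SlotOn (G : Type*) [AddCommMonoid G] (r n : ℕ) (ε : ℝ) (Small : G → Prop) where
  /-- rank one letter -/
  X : Rg G
  /-- uniform letter -/
  U : Rg G
  /-- bulk letter -/
  P : Rg G
  /-- shift -/
  d : G
  /-- test sets -/
  Z : ℕ → Set G
  nnX : NN X
  nnU : NN U
  nnP : NN P
  augX : aug X = 1
  augU : aug U = 1
  augP : aug P = 1
  smX : Sup Small X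
  smU : Sup Small U
  smP : Sup Small P
  smd : Small d
  car : ∀ a c θ : ℕ, a < r → Sup (fun m => m ∈ Z θ) (X ^ a * P ^ c * wd (θ • d))
  nul : ∀ a b c θ θ' : ℕ, a + b + c + θ ≤ n → θ' ≤ n → (θ' ≠ θ ∨ 1 ≤ b ∨ r ≤ a) →
    mass (Z θ') (X ^ a * U ^ b * P ^ c * wd (θ • d)) ≤ ε
  wash : r + 1 ≤ n → ∃ g : Rg G, NN g ∧ aug g = 1 ∧ NN (X ^ r - (1 - ε) • g) ∧
    NN (X ^ r * wd d - (1 - ε) • g)
  dom : ∀ a b c t : ℕ, a + b + c = t + 1 → t + 1 ≤ n → (1 ≤ b ∨ AA r ≤ a) →
    NN ((1 + ε) • (U * P ^ t) - X ^ a * U ^ b * P ^ c)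

section Count

variable {F : Type*} [Field F] {r a : ℕ}

/-- A sum of `a` rank one matrices. -/
def outer (f : Fin a → (Fin r → F) × (Fin (r + 1) → F)) : Matrix (Fin r) (Fin (r + 1)) F :=
  ∑ i, Matrix.vecMulVec (f i).1 (f i).2

/-- The identity matrix with a zero column appended. -/
def D0 (F : Type*) [Field F] (r : ℕ) : Matrix (Fin r) (Fin (r + 1)) F :=
  Matrix.of fun i j => if j = i.castSucc then 1 else 0

/-- The rows are linearly dependent. -/
def Dep (Y : Matrix (Fin r) (Fin (r + 1)) F) : Prop := ∃ w : Fin r → F, w ≠ 0 ∧ Matrix.vecMul w Y = 0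

end Count

section Bulk

variable {D : Type*} [Fintype D] [DecidableEq D]

/-- The uniform law on the box `q * [lo, lo + len)` in every coordinate. -/
noncomputable def bx (D : Type*) [Fintype D] [DecidableEq D] (q lo len : ℕ) : Rg (D → ℕ) :=
  (((len : ℝ) ^ Fintype.card D)⁻¹) • ∑ m : D → Fin len, wd (fun p => q * (lo + (m p : ℕ)))

end Bulk

section Concrete

variable (q r : ℕ)

/-- Matrix positions. -/
abbrev Ps (r : ℕ) : Type := Fin r × Fin (r + 1)

/-- Matrices over the prime field. -/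
abbrev Mt (q r : ℕ) : Type := Matrix (Fin r) (Fin (r + 1)) (ZMod q)

/-- Reduction of an integer array modulo `q`. -/
def red : (Ps r → ℕ) →+ Mt q r where
  toFun m := Matrix.of fun i j => (m (i, j) : ZMod q)
  map_zero' := by ext i j; simp
  map_add' a b := by ext i j; simp

variable {q r}

/-- The lift of a matrix to its array of least residues. -/
def lft (y : Mt q r) : Ps r → ℕ := fun p => (y p.1 p.2).val

/-- The lift of a formal sum of matrices. -/
noncomputable def lftL (x : Rg (Mt q r)) : Rg (Ps r → ℕ) :=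
  ∑ y ∈ x.coeff.support, x.coeff y • wd (lft y)

variable (q r) [Fact q.Prime]

/-- The law of a lifted random rank one matrix. -/
noncomputable def X0 : Rg (Ps r → ℕ) :=
  (((q : ℝ) ^ (2 * r + 1))⁻¹) • ∑ ω : (Fin r → ZMod q) × (Fin (r + 1) → ZMod q),
    wd (lft (Matrix.vecMulVec ω.1 ω.2))

/-- The uniform law on matrices. -/
noncomputable def Un : Rg (Mt q r) := (((q : ℝ) ^ (r * (r + 1)))⁻¹) • ∑ y : Mt q r, wd y

/-- The law of a lifted uniform matrix. -/
noncomputable def U0 : Rg (Ps r → ℕ) :=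
  (((q : ℝ) ^ (r * (r + 1)))⁻¹) • ∑ y : Mt q r, wd (lft y)

/-- The test set. -/
def ZZ (θ : ℕ) : Set (Ps r → ℕ) := {m | Dep (red q r m - (θ : ZMod q) • D0 (ZMod q) r)}

end Concrete

end Pool.Agent.P.MP_f562c3_an.SS
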