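import Pool.Agent.P.MP_f562c3_an.SS.Model
import Pool.Agent.P.MP_f562c3_an.SS.SlotDefs

/-!
The interface of the engine. A family `φ` has size `r φ` and owns infinitely many slots, active
from slot number `J φ` on.
-/

open MeasureTheory Set
open scoped ENNReal NNRat

namespace Pool.Agent.P.MP_f562c3_an.SS

/-- The engine. -/
structure Eng (Fam : Type) (r J : Fam → ℕ) extends Model (Wd Fam) where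
  lo : ∀ w : Wd Fam, ν w (Iio (w.1 : ℝ)) = 0
  up : ∀ (w : Wd Fam) (D J0 : ℕ), (∀ φ p, p ≠ 4 → ex φ p w ≤ D) →
    (∀ φ p, p ≠ 4 → ex φ p w ≠ 0 → J0 ≤ J φ) → ν w (Ioi ((w.1 : ℝ) + 4 * D / 2 ^ J0)) = 0
  /-- the test sets -/
  H : Fam → ℕ → Set ℝ
  meas : ∀ φ θ, MeasurableSet (H φ θ)
  car : ∀ (w : Wd Fam) φ, ex φ 1 w = 0 → ex φ 0 w < r φ → ν w (H φ (ex φ 3 w))ᶜ = 0
  nul : ∀ (w : Wd Fam) φ θ, (θ ≠ ex φ 3 w ∨ 1 ≤ ex φ 1 w ∨ r φ ≤ ex φ 0 w) → ν w (H φ θ) = 0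
  wash : ∀ (w v : Wd Fam) (J0 : ℕ), v.1 = 0 →
    (∀ φ, ex φ 0 v = 0 ∧ ex φ 1 v = 0 ∧ ex φ 2 v = 0 ∧ ex φ 3 v ≤ 1) →
    (∀ φ, ex φ 3 v = 1 → r φ ≤ ex φ 0 w ∧ r φ + 1 ≤ J φ ∧ J0 ≤ J φ) →
    ∃ g : Measure ℝ, IsProbabilityMeasure g ∧ ENNReal.ofReal (1 - 2 / 2 ^ J0) • g ≤ ν w ∧
      ENNReal.ofReal (1 - 2 / 2 ^ J0) • g ≤ ν (w + v)
  dom : ∀ w w' : Wd Fam, w.1 = w'.1 →
    (∀ φ, (∀ p, p ≠ 4 → ex φ p w = ex φ p w') ∨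
      (ex φ 3 w = 0 ∧ ex φ 3 w' = 0 ∧ ex φ 0 w' = 0 ∧ ex φ 1 w' = 1 ∧
        ex φ 0 w + ex φ 1 w + ex φ 2 w = ex φ 2 w' + 1 ∧ ex φ 2 w' + 1 ≤ J φ ∧
        (1 ≤ ex φ 1 w ∨ AA (r φ) ≤ ex φ 0 w))) →
    ν w ≤ (8 : ℝ≥0∞) • ν w'

end Pool.Agent.P.MP_f562c3_an.SS
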