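import Pool.Agent.P.MP_f562c3_an.Fixed
import Pool.Agent.P.MP_f562c3_an.SS.Alg3a

/-!
The fixed point. For `u` in the box `[0,1]^ℕ` put `X n = R n + m n * (2 * u n - 1)` and
`a i = X i - X (i+1)` for `N ≤ i`, `a i = 0` for `i < N`. With `g i = 2 (R i - R (i+1))` for `N ≤ i`
and `0` below we have `0 ≤ a i ≤ g i`, `∑_{i ≥ n} a i = X n` (telescoping; `m n → 0`), and
`|a i - a' i| ≤ δ * g i / 2` if `|u - u'| ≤ δ`. Since `∑ g = 2 R N` and `∑_{i > K} g i = 2 R (K+1)`,
`hasSum_prod_pi` and a union bound over the position `l` give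
`∑' ι, (∏ g (ι l)) * |E n ι| ≤ ω n := m n * (R n / 2) ^ (n-1) / (2 n)`.
Let `F n a = ∑' ι, (∏ a (ι l)) * E n ι`; `|F n a| ≤ ω n` and `|F n a - F n a'| ≤ n δ ω n / 2`
(telescoping of products). Define `Φ u n = ((R n ^ n - F n a) ^ (1/n) - R n + m n) / (2 m n)` for
`N ≤ n` and `0` below; `abs_sub_mul_le` with `c = R n / 2` shows that `Φ` maps the box to itself
and halves distances (note `4 m n ≤ R n`); apply `box_fixed`. Finally
`∑' ι, (∏ a (ι l)) * [∀ l, n ≤ ι l] = X n ^ n` by `hasSum_prod_pi` for `i ↦ if n ≤ i then a i else 0`.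
-/

open Filter Topology

namespace Pool.Agent.P.MP_f562c3_an.SS

theorem tail_Fix {X : ℕ → ℝ} {n : ℕ} (h : ∀ i, n ≤ i → X (i + 1) ≤ X i)
    (h0 : Tendsto X atTop (𝓝 0)) :
    HasSum (fun i => if n ≤ i then X i - X (i + 1) else 0) (X n) := by
  have h1 := hasSum_tele (r := fun j => X (j + n))
    (fun j => by
      have := h (j + n) (Nat.le_add_left _ _)
      simpa [add_assoc, add_comm, add_left_comm] using this)
    (h0.comp (tendsto_add_atTop_nat n)) 0
  rw [← hasSum_nat_add_iff' n]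
  have h2 : ∑ i ∈ Finset.range n, (if n ≤ i then X i - X (i + 1) else 0) = 0 :=
    Finset.sum_eq_zero fun i hi => by
      rw [if_neg (by simpa using Finset.mem_range.1 hi)]
  rw [h2, sub_zero]
  simp only [add_zero, zero_add] at h1
  have e : (fun j => if n ≤ j + n then X (j + n) - X (j + n + 1) else 0) =
      fun j => X (j + n) - X (j + 1 + n) := by
    funext j
    rw [if_pos (Nat.le_add_left _ _), show j + n + 1 = j + 1 + n by ring]
  rw [e]; exact h1

theorem prod_diff_Fix {ι : Type*} (s : Finset ι) {a b g : ι → ℝ} {η : ℝ} (hη : 0 ≤ η)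
    (ha : ∀ i, 0 ≤ a i ∧ a i ≤ g i) (hb : ∀ i, 0 ≤ b i ∧ b i ≤ g i)
    (h : ∀ i, |a i - b i| ≤ η * g i) :
    |∏ i ∈ s, a i - ∏ i ∈ s, b i| ≤ s.card * η * ∏ i ∈ s, g i := by
  classical
  induction s using Finset.induction_on with
  | empty => simp
  | insert j s hj ih =>
    rw [Finset.prod_insert hj, Finset.prod_insert hj, Finset.prod_insert hj,
      Finset.card_insert_of_notMem hj]
    have e : a j * ∏ i ∈ s, a i - b j * ∏ i ∈ s, b i =
        (a j - b j) * ∏ i ∈ s, a i + b j * (∏ i ∈ s, a i - ∏ i ∈ s, b i) := by ring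
    have h1 : 0 ≤ ∏ i ∈ s, a i := Finset.prod_nonneg fun i _ => (ha i).1
    have h2 : ∏ i ∈ s, a i ≤ ∏ i ∈ s, g i :=
      Finset.prod_le_prod (fun i _ => (ha i).1) fun i _ => (ha i).2
    have hg : 0 ≤ g j := (ha j).1.trans (ha j).2
    rw [e]
    refine (abs_add_le _ _).trans ?_
    rw [abs_mul, abs_mul, abs_of_nonneg h1, abs_of_nonneg (hb j).1]
    have h3 : |a j - b j| * ∏ i ∈ s, a i ≤ (η * g j) * ∏ i ∈ s, g i :=
      mul_le_mul (h j) h2 h1 (mul_nonneg hη hg)
    have h4 : b j * |∏ i ∈ s, a i - ∏ i ∈ s, b i| ≤ g j * (s.card * η * ∏ i ∈ s, g i) :=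
      mul_le_mul (hb j).2 ih (abs_nonneg _) hg
    push_cast
    nlinarith

theorem pow_diff_Fix {S T : ℝ} (hT : 0 ≤ T) (hS : T ≤ S) (n : ℕ) :
    S ^ n - (S - T) ^ n ≤ n * T * S ^ (n - 1) := by
  induction n with
  | zero => simp
  | succ n ih =>
    have h0 : 0 ≤ S - T := sub_nonneg.2 hS
    have hS0 : 0 ≤ S := hT.trans hS
    have h1 : (S - T) ^ n ≤ S ^ n := pow_le_pow_left₀ h0 (by linarith) n
    have h2 : S * (n * T * S ^ (n - 1)) ≤ n * T * S ^ n := by
      rcases n with _ | n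
      · simp
      · simp only [Nat.add_sub_cancel]; rw [pow_succ]; exact le_of_eq (by ring)
    have e : S ^ (n + 1) - (S - T) ^ (n + 1) = S * (S ^ n - (S - T) ^ n) + T * (S - T) ^ n := by
      ring
    rw [e, Nat.add_sub_cancel]
    have h3 := mul_le_mul_of_nonneg_left ih hS0
    have h4 := mul_le_mul_of_nonneg_left h1 hT
    push_cast
    linarith

theorem weight_Fix {N n K : ℕ} (hn : 1 ≤ n) {g : ℕ → ℝ} (hg : ∀ i, 0 ≤ g i)
    (hgN : ∀ i, i < N → g i = 0) {S T ε M : ℝ} (hS : HasSum g S)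
    (hT : HasSum (fun i => if K + 1 ≤ i then g i else 0) T) (_hε : 0 ≤ ε) (hM : 0 ≤ M)
    {E : (Fin n → ℕ) → ℝ}
    (hE : ∀ ι : Fin n → ℕ, (∀ l, N ≤ ι l) → |E ι| ≤ ε + if ∃ l, K < ι l then M else 0) :
    Summable (fun ι : Fin n → ℕ => (∏ l, g (ι l)) * |E ι|) ∧
      ∑' ι : Fin n → ℕ, (∏ l, g (ι l)) * |E ι| ≤ (ε * S + n * M * T) * S ^ (n - 1) := by
  have hlow : HasSum (fun i => if K + 1 ≤ i then 0 else g i) (S - T) := by
    have e : (fun i => if K + 1 ≤ i then 0 else g i) =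
        fun i => g i - if K + 1 ≤ i then g i else 0 := by
      funext i
      split_ifs <;> simp
    rw [e]; exact hS.sub hT
  have hT0 : 0 ≤ T := hT.nonneg fun i => by split_ifs; exacts [hg i, le_rfl]
  have hST : 0 ≤ S - T := hlow.nonneg fun i => by split_ifs; exacts [le_rfl, hg i]
  have h1 := hasSum_prod_pi hg hS n
  have h2 := hasSum_prod_pi (b := fun i => if K + 1 ≤ i then 0 else g i)
    (fun i => by split_ifs; exacts [le_rfl, hg i]) hlow n
  have h3 := (h1.mul_left ε).add ((h1.sub h2).mul_left M)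
  have hle : ∀ ι : Fin n → ℕ, (∏ l, g (ι l)) * |E ι| ≤
      ε * ∏ l, g (ι l) + M * (∏ l, g (ι l) - ∏ l, (if K + 1 ≤ ι l then 0 else g (ι l))) := by
    intro ι
    have hp : 0 ≤ ∏ l, g (ι l) := Finset.prod_nonneg fun l _ => hg _
    by_cases hι : ∀ l, N ≤ ι l
    · refine (mul_le_mul_of_nonneg_left (hE ι hι) hp).trans ?_
      by_cases hK : ∃ l, K < ι l
      · obtain ⟨l, hl⟩ := hK
        have : ∏ l, (if K + 1 ≤ ι l then 0 else g (ι l)) = 0 :=
          Finset.prod_eq_zero (Finset.mem_univ l) (if_pos hl)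
        rw [this, if_pos ⟨l, hl⟩]
        exact le_of_eq (by ring)
      · have : ∏ l, (if K + 1 ≤ ι l then 0 else g (ι l)) = ∏ l, g (ι l) :=
          Finset.prod_congr rfl fun l _ => if_neg fun h => hK ⟨l, h⟩
        rw [this, if_neg hK]
        exact le_of_eq (by ring)
    · push Not at hι
      obtain ⟨l, hl⟩ := hι
      have e1 : ∏ l, g (ι l) = 0 := Finset.prod_eq_zero (Finset.mem_univ l) (hgN _ hl)
      have e2 : ∏ l, (if K + 1 ≤ ι l then 0 else g (ι l)) = 0 :=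
        Finset.prod_eq_zero (Finset.mem_univ l) (by rw [hgN _ hl]; simp)
      rw [e1, e2]; simp
  have hs : Summable (fun ι : Fin n → ℕ => (∏ l, g (ι l)) * |E ι|) :=
    Summable.of_nonneg_of_le
      (fun ι => mul_nonneg (Finset.prod_nonneg fun l _ => hg _) (abs_nonneg _)) hle h3.summable
  refine ⟨hs, (hs.tsum_le_tsum hle h3.summable).trans ?_⟩
  rw [h3.tsum_eq]
  have h4 := mul_le_mul_of_nonneg_left (pow_diff_Fix hT0 (by linarith : T ≤ S) n) hM
  have e : S ^ n = S * S ^ (n - 1) := by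
    rw [← pow_succ']; congr 1; omega
  have e2 : (ε * S + n * M * T) * S ^ (n - 1) = ε * S ^ n + M * (n * T * S ^ (n - 1)) := by
    rw [e]; ring
  rw [e2]
  linarith

theorem root_Fix {n : ℕ} (hn : 1 ≤ n) {R m F : ℝ} (hR : 0 < R) (hm : 0 < m) (h4 : 4 * m ≤ R)
    (hF : |F| ≤ m * (R / 2) ^ (n - 1) / (2 * n)) :
    ((R ^ n - F) ^ ((n : ℝ)⁻¹)) ^ n = R ^ n - F ∧ R / 2 ≤ (R ^ n - F) ^ ((n : ℝ)⁻¹) := by
  have hp : 0 < (R / 2) ^ (n - 1) := by positivity
  have hn' : (1 : ℝ) ≤ n := by exact_mod_cast hn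
  have e : (R / 2) ^ n = R / 2 * (R / 2) ^ (n - 1) := by
    rw [← pow_succ']; congr 1; omega
  have h1 : m * (R / 2) ^ (n - 1) / (2 * n) ≤ (R / 2) ^ n := by
    rw [div_le_iff₀ (by positivity), e]
    have : m ≤ R / 2 * (2 * n) := by nlinarith
    nlinarith
  have h2 : 2 * (R / 2) ^ n ≤ R ^ n := by
    have h3 : (2 : ℝ) ≤ 2 ^ n := by
      calc (2 : ℝ) = 2 ^ 1 := by norm_num
        _ ≤ 2 ^ n := pow_le_pow_right₀ (by norm_num) hn
    have e2 : R ^ n = 2 ^ n * (R / 2) ^ n := by rw [← mul_pow]; congr 1; ring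
    rw [e2]
    exact mul_le_mul_of_nonneg_right h3 (by positivity)
  have h5 : (R / 2) ^ n ≤ R ^ n - F := by
    have := (abs_le.1 (hF.trans h1)).2
    linarith
  have h6 : 0 ≤ R ^ n - F := le_trans (by positivity) h5
  have h7 : ((R ^ n - F) ^ ((n : ℝ)⁻¹)) ^ n = R ^ n - F :=
    Real.rpow_inv_natCast_pow h6 (by omega)
  refine ⟨h7, le_of_pow_le_pow_left₀ (n := n) (by omega) (Real.rpow_nonneg h6 _) ?_⟩
  rw [h7]; exact h5

theorem absmul_Fix {n : ℕ} (hn : 1 ≤ n) {c X Y : ℝ} (hc : 0 ≤ c) (hX : c ≤ X) (hY : c ≤ Y) :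
    |X - Y| * c ^ (n - 1) ≤ |X ^ n - Y ^ n| := by
  have := abs_sub_mul_le hc hX hY (n - 1)
  rwa [Nat.sub_add_cancel hn] at this

theorem fix_exists (N : ℕ) (hN : 1 ≤ N) (R m : ℕ → ℝ) (hR : ∀ n, N ≤ n → 0 < R n)
    (hlim : Tendsto R atTop (𝓝 0)) (hm : ∀ n, N ≤ n → 0 < m n)
    (h1 : ∀ n, N ≤ n → 4 * m n ≤ R n - R (n + 1))
    (h2 : ∀ n, N ≤ n → 4 * m (n + 1) ≤ R n - R (n + 1))
    (E : (n : ℕ) → (Fin n → ℕ) → ℝ) (K : ℕ → ℕ) (ε M : ℕ → ℝ) (hK : ∀ n, N ≤ n → N ≤ K n)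
    (hε : ∀ n, N ≤ n → 0 ≤ ε n) (hM : ∀ n, N ≤ n → 0 ≤ M n)
    (hE : ∀ n, N ≤ n → ∀ ι : Fin n → ℕ, (∀ l, N ≤ ι l) →
      |E n ι| ≤ ε n + if ∃ l, K n < ι l then M n else 0)
    (hsmall : ∀ n, N ≤ n →
      (ε n * (2 * R N) + n * M n * (2 * R (K n + 1))) * (2 * R N) ^ (n - 1) ≤
        m n * (R n / 2) ^ (n - 1) / (2 * n)) :
    ∃ a : ℕ → ℝ, (∀ i, 0 ≤ a i) ∧ (∀ i, i < N → a i = 0) ∧ Summable a ∧
      ∀ n, N ≤ n → HasSum (fun ι : Fin n → ℕ =>
        (∏ l, a (ι l)) * ((if ∀ l, n ≤ ι l then 1 else 0) + E n ι)) (R n ^ n) := by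
  have hRd : ∀ n, N ≤ n → R (n + 1) ≤ R n := fun n hn => by
    have := h1 n hn; have := hm n hn; linarith
  have h4 : ∀ n, N ≤ n → 4 * m n ≤ R n := fun n hn => by
    have := h1 n hn; have := hR (n + 1) (by omega); linarith
  let g : ℕ → ℝ := fun i => if N ≤ i then 2 * R i - 2 * R (i + 1) else 0
  have hg0 : ∀ i, 0 ≤ g i := fun i => by
    simp only [g]; split_ifs with h
    · linarith [hRd i h]
    · exact le_rfl
  have hgN : ∀ i, i < N → g i = 0 := fun i hi => if_neg (by omega)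
  have hlim2 : Tendsto (fun i => 2 * R i) atTop (𝓝 0) := by simpa using hlim.const_mul 2
  have hgS : HasSum g (2 * R N) :=
    tail_Fix (X := fun i => 2 * R i) (fun i hi => by linarith [hRd i hi]) hlim2
  have hgT : ∀ k, N ≤ k → HasSum (fun i => if k + 1 ≤ i then g i else 0) (2 * R (k + 1)) := by
    intro k hk
    convert tail_Fix (X := fun i => 2 * R i) (n := k + 1)
      (fun i hi => by linarith [hRd i (by omega)]) hlim2 using 2 with i
    by_cases h : k + 1 ≤ i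
    · rw [if_pos h, if_pos h]; exact if_pos (by omega)
    · rw [if_neg h, if_neg h]
  have hW : ∀ n, N ≤ n → Summable (fun ι : Fin n → ℕ => (∏ l, g (ι l)) * |E n ι|) ∧
      ∑' ι : Fin n → ℕ, (∏ l, g (ι l)) * |E n ι| ≤ m n * (R n / 2) ^ (n - 1) / (2 * n) := by
    intro n hn
    obtain ⟨hs, hb⟩ := weight_Fix (hN.trans hn) hg0 hgN hgS (hgT (K n) (hK n hn)) (hε n hn)
      (hM n hn) (hE n hn)
    exact ⟨hs, hb.trans (hsmall n hn)⟩
  let X : (ℕ → ℝ) → ℕ → ℝ := fun u n => R n + m n * (2 * u n - 1)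
  let a : (ℕ → ℝ) → ℕ → ℝ := fun u i => if N ≤ i then X u i - X u (i + 1) else 0
  have hX : ∀ u, (∀ i, u i ∈ Set.Icc (0 : ℝ) 1) → ∀ i, N ≤ i →
      R i - m i ≤ X u i ∧ X u i ≤ R i + m i := by
    intro u hu i hi
    have h0 := hm i hi
    have h5 := (hu i).1
    have h6 := (hu i).2
    simp only [X]
    constructor <;> nlinarith
  have ha : ∀ u, (∀ i, u i ∈ Set.Icc (0 : ℝ) 1) → ∀ i, 0 ≤ a u i ∧ a u i ≤ g i := by
    intro u hu i
    simp only [a, g]
    split_ifs with hi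
    · have h5 := hX u hu i hi
      have h6 := hX u hu (i + 1) (by omega)
      have h7 := h1 i hi
      have h8 := h2 i hi
      have h9 := hRd i hi
      constructor <;> linarith [h5.1, h5.2, h6.1, h6.2]
    · exact ⟨le_rfl, le_rfl⟩
  have hXd : ∀ u, (∀ i, u i ∈ Set.Icc (0 : ℝ) 1) → ∀ i, N ≤ i → X u (i + 1) ≤ X u i := by
    intro u hu i hi
    have := (ha u hu i).1
    simp only [a, if_pos hi] at this
    linarith
  have hXlim : ∀ u, (∀ i, u i ∈ Set.Icc (0 : ℝ) 1) → Tendsto (X u) atTop (𝓝 0) := by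
    intro u hu
    refine squeeze_zero' ?_ ?_ hlim2
    · filter_upwards [eventually_ge_atTop N] with i hi
      linarith [(hX u hu i hi).1, h4 i hi, hm i hi]
    · filter_upwards [eventually_ge_atTop N] with i hi
      linarith [(hX u hu i hi).2, h4 i hi, hm i hi]
  have hlipa : ∀ u v δ, (∀ i, |u i - v i| ≤ δ) → ∀ i, |a u i - a v i| ≤ δ / 2 * g i := by
    intro u v δ hδ i
    have hδ0 : 0 ≤ δ := (abs_nonneg _).trans (hδ 0)
    simp only [a, g]
    split_ifs with hi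
    · have e : X u i - X u (i + 1) - (X v i - X v (i + 1)) =
          2 * m i * (u i - v i) + -(2 * m (i + 1) * (u (i + 1) - v (i + 1))) := by
        simp only [X]; ring
      have h5 := hm i hi
      have h6 := hm (i + 1) (by omega)
      rw [e]
      refine (abs_add_le _ _).trans ?_
      rw [abs_neg, abs_mul, abs_mul (2 * m (i + 1)), abs_of_pos (by linarith : 0 < 2 * m i),
        abs_of_pos (by linarith : 0 < 2 * m (i + 1))]
      have h7 := mul_le_mul_of_nonneg_left (hδ i) (by linarith : 0 ≤ 2 * m i)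
      have h8 := mul_le_mul_of_nonneg_left (hδ (i + 1)) (by linarith : 0 ≤ 2 * m (i + 1))
      have h9 := mul_le_mul_of_nonneg_left (h1 i hi) hδ0
      have h10 := mul_le_mul_of_nonneg_left (h2 i hi) hδ0
      nlinarith
    · simp
  have hterm : ∀ u, (∀ i, u i ∈ Set.Icc (0 : ℝ) 1) → ∀ n (ι : Fin n → ℕ),
      ‖(∏ l, a u (ι l)) * E n ι‖ ≤ (∏ l, g (ι l)) * |E n ι| := by
    intro u hu n ι
    rw [Real.norm_eq_abs, abs_mul, abs_of_nonneg (Finset.prod_nonneg fun l _ => (ha u hu _).1)]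
    exact mul_le_mul_of_nonneg_right
      (Finset.prod_le_prod (fun l _ => (ha u hu _).1) fun l _ => (ha u hu _).2) (abs_nonneg _)
  have hFs : ∀ u, (∀ i, u i ∈ Set.Icc (0 : ℝ) 1) → ∀ n, N ≤ n →
      Summable fun ι : Fin n → ℕ => (∏ l, a u (ι l)) * E n ι := fun u hu n hn =>
    Summable.of_norm_bounded (hW n hn).1 (hterm u hu n)
  let F : (ℕ → ℝ) → ℕ → ℝ := fun u n => ∑' ι : Fin n → ℕ, (∏ l, a u (ι l)) * E n ι
  have hF : ∀ u, (∀ i, u i ∈ Set.Icc (0 : ℝ) 1) → ∀ n, N ≤ n →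
      |F u n| ≤ m n * (R n / 2) ^ (n - 1) / (2 * n) := fun u hu n hn =>
    (tsum_of_norm_bounded (hW n hn).1.hasSum (hterm u hu n)).trans (hW n hn).2
  have hFl : ∀ u v δ, (∀ i, u i ∈ Set.Icc (0 : ℝ) 1) → (∀ i, v i ∈ Set.Icc (0 : ℝ) 1) →
      (∀ i, |u i - v i| ≤ δ) → ∀ n, N ≤ n →
      |F u n - F v n| ≤ n * (δ / 2) * (m n * (R n / 2) ^ (n - 1) / (2 * n)) := by
    intro u v δ hu hv hδ n hn
    have hδ0 : 0 ≤ δ := (abs_nonneg _).trans (hδ 0)
    simp only [F]
    rw [← (hFs u hu n hn).tsum_sub (hFs v hv n hn)]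
    have h5 := ((hW n hn).1.hasSum.mul_left (n * (δ / 2)))
    refine le_trans (tsum_of_norm_bounded (f := fun ι : Fin n → ℕ =>
      (∏ l, a u (ι l)) * E n ι - (∏ l, a v (ι l)) * E n ι) h5 fun ι => ?_)
      (mul_le_mul_of_nonneg_left (hW n hn).2 (by positivity))
    rw [Real.norm_eq_abs, ← sub_mul, abs_mul, ← mul_assoc]
    refine mul_le_mul_of_nonneg_right ?_ (abs_nonneg _)
    have := prod_diff_Fix (Finset.univ : Finset (Fin n)) (a := fun l => a u (ι l))
      (b := fun l => a v (ι l)) (g := fun l => g (ι l)) (η := δ / 2) (by positivity)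
      (fun l => ha u hu _) (fun l => ha v hv _) fun l => hlipa u v δ hδ _
    simpa using this
  let Y : (ℕ → ℝ) → ℕ → ℝ := fun u n => (R n ^ n - F u n) ^ ((n : ℝ)⁻¹)
  have hY : ∀ u, (∀ i, u i ∈ Set.Icc (0 : ℝ) 1) → ∀ n, N ≤ n →
      Y u n ^ n = R n ^ n - F u n ∧ R n / 2 ≤ Y u n := fun u hu n hn =>
    root_Fix (hN.trans hn) (hR n hn) (hm n hn) (h4 n hn) (hF u hu n hn)
  let Φ : (ℕ → ℝ) → ℕ → ℝ := fun u n => if N ≤ n then (Y u n - R n + m n) / (2 * m n) else 0
  obtain ⟨u, hu, hfix⟩ := box_fixed Φ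
    (by
      intro u hu n
      simp only [Φ]
      split_ifs with hn
      · have h0 := hR n hn
        have h5 := hm n hn
        have hn' : (1 : ℝ) ≤ n := by exact_mod_cast hN.trans hn
        have hp : 0 < (R n / 2) ^ (n - 1) := by positivity
        have h6 := absmul_Fix (hN.trans hn) (c := R n / 2) (by linarith) (hY u hu n hn).2
          (by linarith : R n / 2 ≤ R n)
        rw [(hY u hu n hn).1, show R n ^ n - F u n - R n ^ n = -F u n by ring, abs_neg] at h6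
        have h7 : m n * (R n / 2) ^ (n - 1) / (2 * n) ≤ m n * (R n / 2) ^ (n - 1) :=
          div_le_self (by positivity) (by linarith)
        have h8 : |Y u n - R n| ≤ m n :=
          le_of_mul_le_mul_right (h6.trans ((hF u hu n hn).trans h7)) hp
        rw [abs_le] at h8
        refine ⟨div_nonneg (by linarith [h8.1]) (by linarith), ?_⟩
        rw [div_le_one (by linarith)]
        linarith [h8.2]
      · exact ⟨le_rfl, zero_le_one⟩)
    (by
      intro u v δ hu hv hδ n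
      have hδ0 : 0 ≤ δ := (abs_nonneg _).trans (hδ 0)
      simp only [Φ]
      split_ifs with hn
      · have h0 := hR n hn
        have h5 := hm n hn
        have hn' : (1 : ℝ) ≤ n := by exact_mod_cast hN.trans hn
        have hp : 0 < (R n / 2) ^ (n - 1) := by positivity
        have h6 := absmul_Fix (hN.trans hn) (c := R n / 2) (by linarith) (hY u hu n hn).2
          (hY v hv n hn).2
        rw [(hY u hu n hn).1, (hY v hv n hn).1,
          show R n ^ n - F u n - (R n ^ n - F v n) = -(F u n - F v n) by ring, abs_neg] at h6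
        have h7 : n * (δ / 2) * (m n * (R n / 2) ^ (n - 1) / (2 * n)) =
            (δ / 4 * m n) * (R n / 2) ^ (n - 1) := by
          field_simp; ring
        have h8 : |Y u n - Y v n| ≤ δ / 4 * m n :=
          le_of_mul_le_mul_right (h6.trans ((hFl u v δ hu hv hδ n hn).trans h7.le)) hp
        rw [← sub_div, abs_div, abs_of_pos (by linarith : 0 < 2 * m n),
          div_le_iff₀ (by linarith), show Y u n - R n + m n - (Y v n - R n + m n) =
            Y u n - Y v n by ring]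
        nlinarith
      · simp only [sub_self, abs_zero]; linarith)
  refine ⟨a u, fun i => (ha u hu i).1, fun i hi => if_neg (by omega),
    Summable.of_nonneg_of_le (fun i => (ha u hu i).1) (fun i => (ha u hu i).2) hgS.summable, ?_⟩
  intro n hn
  have hXY : X u n = Y u n := by
    have h5 := congrFun hfix n
    simp only [Φ, if_pos hn] at h5
    have h6 := (hm n hn).ne'
    simp only [X]
    rw [← h5]; field_simp; ring
  have ht : HasSum (fun i => if n ≤ i then a u i else 0) (X u n) := by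
    convert tail_Fix (X := X u) (n := n) (fun i hi => hXd u hu i (hn.trans hi)) (hXlim u hu)
      using 2 with i
    by_cases h : n ≤ i
    · rw [if_pos h, if_pos h]; exact if_pos (hn.trans h)
    · rw [if_neg h, if_neg h]
  have h5 := hasSum_prod_pi (b := fun i => if n ≤ i then a u i else 0)
    (fun i => by split_ifs; exacts [(ha u hu i).1, le_rfl]) ht n
  have h6 := h5.add (hFs u hu n hn).hasSum
  rw [hXY, (hY u hu n hn).1] at h6
  convert h6 using 1
  · funext ι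
    rw [mul_add]
    congr 1
    by_cases h : ∀ l, n ≤ ι l
    · rw [if_pos h, mul_one]
      exact Finset.prod_congr rfl fun l _ => (if_pos (h l)).symm
    · rw [if_neg h, mul_zero]
      push Not at h
      obtain ⟨l, hl⟩ := h
      exact (Finset.prod_eq_zero (Finset.mem_univ l) (if_neg (by omega))).symm
  · simp only [F]; ring

end Pool.Agent.P.MP_f562c3_an.SS
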