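import Pool.Agent.P.MP_f562c3_an.SS.Comp
import Pool.Agent.P.MP_f562c3_an.SS.Alg1

/-!
Positivity of the powers of a sharp block from its level on. Let `k = s.1`, `A = AA N`.
* `distribute`: raise the entries one by one (induction on `c - ∑ need`).
* `compress`: for `i < k` put `need i = min A (j + ∑ over l with (g l).1 = i of (g l).2.1)`, and
  `need l = 0` for `k ≤ l < t`. Then `∑ need ≤ j k + ∑ (g l).2.1 ≤ c ≤ t A` for
  `c = j k + ∑ (g l).2.2`. With `c'` from `distribute` put `h l = (l, need l, c' l)` for `l < k` and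
  `h l = (0, 0, c' l)` otherwise. On the family `sh k s.2 i r` (`i < k`, `r < N`) the source word
  has columns `(a, b, c - a - b, 0)` with `a + A b = j + ∑ ...`, the target word has
  `(need i, 0, c - need i, 0)` if `need i < A` (then `b = 0`, `a = need i`), and `(0, 1, c - 1, 0)`
  otherwise (then `1 ≤ b` or `A ≤ a`, and `AA (r+1) ≤ A` by `AA_mono`, `c ≤ 2 N A ≤ Jk N` by
  `J_sh`). All other families are untouched. Apply `E.dom`.
* `neg_le`: expand `pp ^ (t - j)` as a sum over `g ∈ Fintype.piFinset fun _ => Typ k A`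
  (`Finset.prod_univ_sum`, `Finset.sum_pow'`); each term of `(σ ^ k * wd z) ^ j * pp ^ (t - j)` is
  `σ ^ c * wd source ≼ 8 • σ ^ c * wd target ≼ 8 • pp ^ t` (`pos_of_le`, `Pos.mul`; the target is
  one of the positive terms of `pp ^ t`). There are at most `(N (A+1)^2) ^ (2N)` terms.
* `ph_pow_pos`: for `k ≤ t < 2k` use the binomial theorem, `ψ ^ j ≤ ψ`, `∑ choose t j ≤ 2 ^ (2N)`
  and the definition of `psi0`; every `t ≥ k` is `t' + q k` with `k ≤ t' < 2k`.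
-/

open scoped ENNReal

namespace Pool.Agent.P.MP_f562c3_an.SS

theorem distribute {t A c : ℕ} (need : Fin t → ℕ) (h1 : ∀ l, need l ≤ A) (h2 : ∑ l, need l ≤ c)
    (h3 : c ≤ t * A) : ∃ c' : Fin t → ℕ, (∀ l, need l ≤ c' l ∧ c' l ≤ A) ∧ ∑ l, c' l = c := by
  induction c, h2 using Nat.le_induction with
  | base => exact ⟨need, fun l => ⟨le_rfl, h1 l⟩, rfl⟩
  | succ c hc ih =>
    obtain ⟨d, hd, e⟩ := ih (by omega)
    have h4 : ∃ l, d l < A := by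
      by_contra h
      push Not at h
      have h5 : ∑ _l : Fin t, A ≤ ∑ l, d l := Finset.sum_le_sum fun l _ => h l
      rw [Finset.sum_const, Finset.card_univ, Fintype.card_fin, smul_eq_mul] at h5
      omega
    obtain ⟨l, hl⟩ := h4
    refine ⟨fun m => d m + if m = l then 1 else 0, fun m => ?_, ?_⟩
    · have := hd m
      dsimp only
      split_ifs with h
      · subst h
        omega
      · omega
    · rw [Finset.sum_add_distrib, e, Finset.sum_ite_eq', if_pos (Finset.mem_univ l)]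

theorem mem_Typ_SharpPos {k A : ℕ} {g : ℕ × ℕ × ℕ} :
    g ∈ Typ k A ↔ g.1 < k ∧ g.2.1 ≤ g.2.2 ∧ g.2.2 ≤ A := by
  simp only [Typ, Finset.mem_filter, Finset.mem_product, Finset.mem_range]
  omega

theorem card_Typ_SharpPos (k A : ℕ) : (Typ k A).card ≤ k * (A + 1) ^ 2 := by
  refine (Finset.card_filter_le _ _).trans ?_
  rw [Finset.card_product, Finset.card_product, Finset.card_range, Finset.card_range, sq]

theorem cancel_SharpPos {G : Type*} [AddCommGroup G] (a b c : G) : a + b + (c - b) = a + c := by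
  abel

namespace Par

variable {Q : Par} (E : Q.En) {ε : ℕ → ℝ}

/-- The families on which the letters of the block `s` are active. -/
def Act_SharpPos (Q : Par) (s : ℕ × ℕ) (φ : Fam) : Prop :=
  ∃ i r, i < s.1 ∧ r < Q.N ∧ φ = .sh s.1 s.2 i r

theorem tb_zero_SharpPos (p : Fin 5) : tb 0 0 0 0 0 p = 0 := by fin_cases p <;> rfl

theorem off_SharpPos {s : ℕ × ℕ} {φ : Fam} (h : ¬ Q.Act_SharpPos s φ) (p : Fin 5) :
    ex φ p (Q.wZ s) = 0 ∧ ∀ g, ex φ p (Q.wT s g) = 0 := by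
  cases φ with
  | sh k j i r =>
    have h1 : ¬ ((k, j) = s ∧ i < k ∧ r < Q.N) := by
      rintro ⟨rfl, h2, h3⟩
      exact h ⟨i, r, h2, h3, rfl⟩
    refine ⟨?_, fun g => ?_⟩
    · show Q.eZ s (.sh k j i r) p = 0
      rw [eZ, if_neg h1, tb_zero_SharpPos]
    · show Q.eT s g (.sh k j i r) p = 0
      rw [eT, if_neg h1, tb_zero_SharpPos]
  | _ => exact ⟨tb_zero_SharpPos p, fun g => tb_zero_SharpPos p⟩

theorem onZ_SharpPos {s : ℕ × ℕ} {i r : ℕ} (hi : i < s.1) (hr : r < Q.N) (p : Fin 5) :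
    ex (.sh s.1 s.2 i r) p (Q.wZ s) = tb 1 0 (s.1 - 1) 0 1 p := by
  show Q.eZ s (.sh s.1 s.2 i r) p = _
  rw [eZ, if_pos ⟨rfl, hi, hr⟩]

theorem onT_SharpPos {s : ℕ × ℕ} {i r : ℕ} (hi : i < s.1) (hr : r < Q.N) {g : ℕ × ℕ × ℕ}
    (hg : g ∈ Typ s.1 (AA Q.N)) :
    ex (.sh s.1 s.2 i r) 0 (Q.wT s g) = (if i = g.1 ∧ g.2.1 < AA Q.N then g.2.1 else 0) ∧
    ex (.sh s.1 s.2 i r) 1 (Q.wT s g) = (if i = g.1 ∧ ¬ g.2.1 < AA Q.N then 1 else 0) ∧
    ex (.sh s.1 s.2 i r) 0 (Q.wT s g) + ex (.sh s.1 s.2 i r) 1 (Q.wT s g) +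
      ex (.sh s.1 s.2 i r) 2 (Q.wT s g) = g.2.2 ∧
    ex (.sh s.1 s.2 i r) 0 (Q.wT s g) + AA Q.N * ex (.sh s.1 s.2 i r) 1 (Q.wT s g) =
      (if i = g.1 then g.2.1 else 0) ∧
    ex (.sh s.1 s.2 i r) 3 (Q.wT s g) = 0 := by
  have h0 : ∀ p, ex (.sh s.1 s.2 i r) p (Q.wT s g) = Q.eT s g (.sh s.1 s.2 i r) p := fun _ => rfl
  have h1 := mem_Typ_SharpPos.1 hg
  have h2 := le_AA Q.N
  simp only [h0]
  rw [eT, if_pos ⟨rfl, hi, hr⟩]
  by_cases a : i = g.1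
  · by_cases b : g.2.1 < AA Q.N
    · simp only [if_pos a, if_pos b, if_pos (And.intro a b), if_neg (fun h : _ ∧ ¬ _ => h.2 b),
        tb_0, tb_1, tb_2, tb_3, true_and, and_true]
      omega
    · simp only [if_pos a, if_neg b, if_pos (And.intro a b), if_neg (fun h : _ ∧ _ => b h.2),
        tb_0, tb_1, tb_2, tb_3, true_and, and_true]
      omega
  · simp only [if_neg a, if_neg (fun h : _ ∧ _ => a h.1), tb_0, tb_1, tb_2, tb_3, true_and,
      and_true]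
    omega

theorem compress (hQ : Q.OK ε) {s : ℕ × ℕ} (hs : s ∈ Sb Q.N Q.Jc) {j t' t : ℕ} (hj : 1 ≤ j)
    (ht : j + t' = t) (h1 : s.1 ≤ t) (h2 : t < 2 * s.1) (g : Fin t' → ℕ × ℕ × ℕ)
    (hg : ∀ l, g l ∈ Typ s.1 (AA Q.N)) :
    ∃ h : Fin t → ℕ × ℕ × ℕ, (∀ l, h l ∈ Typ s.1 (AA Q.N)) ∧
      ∑ l, (h l).2.2 = j * s.1 + ∑ l, (g l).2.2 ∧
      E.ν (j • Q.wZ s + ∑ l, Q.wT s (g l)) ≤ (8 : ℝ≥0∞) • E.ν (∑ l, Q.wT s (h l)) := by
  have hk : 2 ≤ s.1 ∧ s.1 ≤ Q.N := Finset.mem_Icc.1 (Finset.mem_product.1 hs).1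
  have hA := le_AA Q.N
  have hg' := fun l => mem_Typ_SharpPos.1 (hg l)
  obtain ⟨raw, hraw⟩ : ∃ raw : ℕ → ℕ,
      ∀ i, raw i = j + ∑ l, if i = (g l).1 then (g l).2.1 else 0 := ⟨_, fun _ => rfl⟩
  obtain ⟨nd, hnd⟩ : ∃ nd : ℕ → ℕ,
      ∀ i, nd i = if i < s.1 then min (AA Q.N) (raw i) else 0 := ⟨_, fun _ => rfl⟩
  obtain ⟨c, hc⟩ : ∃ c, c = j * s.1 + ∑ l, (g l).2.2 := ⟨_, rfl⟩
  have a1 : ∀ i, nd i ≤ AA Q.N := fun i => by
    rw [hnd]
    split_ifs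
    · exact min_le_left _ _
    · exact Nat.zero_le _
  have a2 : ∑ l : Fin t, nd l ≤ c := by
    rw [Fin.sum_univ_eq_sum_range nd t,
      ← Finset.sum_subset (Finset.range_mono h1) (fun i _ hi => by
        rw [hnd, if_neg fun h => hi (Finset.mem_range.2 h)])]
    calc ∑ i ∈ Finset.range s.1, nd i ≤ ∑ i ∈ Finset.range s.1, raw i :=
          Finset.sum_le_sum fun i hi => by
            rw [hnd, if_pos (Finset.mem_range.1 hi)]
            exact min_le_right _ _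
      _ ≤ c := by
          simp only [hraw]
          rw [Finset.sum_add_distrib, Finset.sum_const, Finset.card_range, smul_eq_mul,
            Finset.sum_comm, hc, mul_comm]
          refine Nat.add_le_add_left (Finset.sum_le_sum fun l _ => ?_) _
          rw [Finset.sum_ite_eq', if_pos (Finset.mem_range.2 (hg' l).1)]
          exact (hg' l).2.1
  have a3 : c ≤ t * AA Q.N := by
    have b1 : ∑ l, (g l).2.2 ≤ ∑ _l : Fin t', AA Q.N := Finset.sum_le_sum fun l _ => (hg' l).2.2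
    rw [Finset.sum_const, Finset.card_univ, Fintype.card_fin, smul_eq_mul] at b1
    rw [hc, ← ht, add_mul]
    exact Nat.add_le_add (Nat.mul_le_mul_left _ (hk.2.trans hA)) b1
  obtain ⟨c', hc', e⟩ := distribute (fun l : Fin t => nd l) (fun l => a1 l) a2 a3
  obtain ⟨h, hh⟩ : ∃ h : Fin t → ℕ × ℕ × ℕ,
      ∀ l, h l = (if (l : ℕ) < s.1 then (l : ℕ) else 0, nd l, c' l) := ⟨_, fun _ => rfl⟩
  have a4 : ∀ l, h l ∈ Typ s.1 (AA Q.N) := fun l => by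
    rw [mem_Typ_SharpPos, hh]
    refine ⟨?_, (hc' l).1, (hc' l).2⟩
    show (if (l : ℕ) < s.1 then (l : ℕ) else 0) < s.1
    split_ifs with b
    · exact b
    · omega
  have a5 : ∑ l, (h l).2.2 = c := by simp only [hh]; exact e
  refine ⟨h, a4, a5.trans hc, E.dom _ _ ?_ fun φ => ?_⟩
  · simp [Prod.fst_sum, wZ, wT]
  by_cases hφ : Q.Act_SharpPos s φ
  swap
  · refine Or.inl fun p _ => ?_
    simp only [map_add, map_nsmul, map_sum, (off_SharpPos hφ p).1, (off_SharpPos hφ p).2,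
      smul_zero, Finset.sum_const_zero, add_zero]
  obtain ⟨i, r, hi, hr, rfl⟩ := hφ
  have s1 : ∀ p, ex (.sh s.1 s.2 i r) p (j • Q.wZ s + ∑ l, Q.wT s (g l)) =
      j * tb 1 0 (s.1 - 1) 0 1 p + ∑ l, ex (.sh s.1 s.2 i r) p (Q.wT s (g l)) := fun p => by
    rw [map_add, map_nsmul, map_sum, onZ_SharpPos hi hr, smul_eq_mul]
  have G := fun l => onT_SharpPos hi hr (hg l)
  have H := fun l => onT_SharpPos hi hr (a4 l)
  have s2 : ex (.sh s.1 s.2 i r) 0 (j • Q.wZ s + ∑ l, Q.wT s (g l)) +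
      ex (.sh s.1 s.2 i r) 1 (j • Q.wZ s + ∑ l, Q.wT s (g l)) +
      ex (.sh s.1 s.2 i r) 2 (j • Q.wZ s + ∑ l, Q.wT s (g l)) = c := by
    have b1 : j * s.1 = j * (s.1 - 1) + j := by
      rw [← Nat.mul_succ, Nat.succ_eq_add_one, Nat.sub_add_cancel (by omega)]
    rw [s1, s1, s1, hc, ← Finset.sum_congr rfl fun l _ => (G l).2.2.1, Finset.sum_add_distrib,
      Finset.sum_add_distrib, tb_0, tb_1, tb_2]
    omega
  have s3 : ex (.sh s.1 s.2 i r) 0 (j • Q.wZ s + ∑ l, Q.wT s (g l)) +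
      AA Q.N * ex (.sh s.1 s.2 i r) 1 (j • Q.wZ s + ∑ l, Q.wT s (g l)) = raw i := by
    rw [s1, s1, hraw, ← Finset.sum_congr rfl fun l _ => (G l).2.2.2.1, Finset.sum_add_distrib,
      ← Finset.mul_sum, tb_0, tb_1]
    ring
  have s4 : ex (.sh s.1 s.2 i r) 3 (j • Q.wZ s + ∑ l, Q.wT s (g l)) = 0 := by
    rw [s1, tb_3, mul_zero, zero_add]
    exact Finset.sum_eq_zero fun l _ => (G l).2.2.2.2
  have t2 : ex (.sh s.1 s.2 i r) 0 (∑ l, Q.wT s (h l)) +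
      ex (.sh s.1 s.2 i r) 1 (∑ l, Q.wT s (h l)) +
      ex (.sh s.1 s.2 i r) 2 (∑ l, Q.wT s (h l)) = c := by
    rw [map_sum, map_sum, map_sum, ← a5, ← Finset.sum_congr rfl fun l _ => (H l).2.2.1,
      Finset.sum_add_distrib, Finset.sum_add_distrib]
  have t4 : ex (.sh s.1 s.2 i r) 3 (∑ l, Q.wT s (h l)) = 0 := by
    rw [map_sum]
    exact Finset.sum_eq_zero fun l _ => (H l).2.2.2.2
  have t5 : ∀ l : Fin t, l ≠ ⟨i, hi.trans_le h1⟩ → i = (h l).1 → (h l).2.1 = 0 := by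
    intro l hl b
    rw [hh] at b ⊢
    show nd l = 0
    have b' : i = if (l : ℕ) < s.1 then (l : ℕ) else 0 := b
    split_ifs at b' with b1
    · exact absurd (Fin.ext b'.symm) hl
    · rw [hnd, if_neg b1]
  have t6 : h ⟨i, hi.trans_le h1⟩ = (i, nd i, c' ⟨i, hi.trans_le h1⟩) := by
    rw [hh, if_pos hi]
  have t0 : ex (.sh s.1 s.2 i r) 0 (∑ l, Q.wT s (h l)) = if nd i < AA Q.N then nd i else 0 := by
    rw [map_sum, Finset.sum_eq_single ⟨i, hi.trans_le h1⟩, (H _).1, t6]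
    · simp only [true_and]
    · intro l _ hl
      rw [(H l).1]
      split_ifs with b
      · exact t5 l hl b.1
      · rfl
    · exact fun b => absurd (Finset.mem_univ _) b
  have t1 : ex (.sh s.1 s.2 i r) 1 (∑ l, Q.wT s (h l)) = if nd i < AA Q.N then 0 else 1 := by
    rw [map_sum, Finset.sum_eq_single ⟨i, hi.trans_le h1⟩, (H _).2.1, t6]
    · simp only [true_and, ite_not]
    · intro l _ hl
      rw [(H l).2.1, if_neg]
      rintro ⟨b1, b2⟩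
      rw [t5 l hl b1] at b2
      omega
    · exact fun b => absurd (Finset.mem_univ _) b
  have u1 : nd i = min (AA Q.N) (raw i) := by rw [hnd, if_pos hi]
  have u2 : AA (r + 1) ≤ AA Q.N := AA_mono hr
  have u3 : c ≤ Q.Jk Q.N :=
    a3.trans ((Nat.mul_le_mul_right _ (by omega)).trans hQ.J_sh)
  have u4 : Q.JJ (.sh s.1 s.2 i r) = Q.Jk Q.N := rfl
  have u5 : Q.rk (.sh s.1 s.2 i r) = r + 1 := rfl
  have key : ∀ p : Fin 5, p ≠ 4 → p = 0 ∨ p = 1 ∨ p = 2 ∨ p = 3 := by decide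
  rw [u4, u5]
  generalize j • Q.wZ s + ∑ l, Q.wT s (g l) = w at s2 s3 s4 ⊢
  generalize ∑ l, Q.wT s (h l) = w' at t0 t1 t2 t4 ⊢
  have u6 : ex (.sh s.1 s.2 i r) 1 w = 0 ∨
      (1 ≤ ex (.sh s.1 s.2 i r) 1 w ∧ AA Q.N ≤ raw i) := by
    rcases Nat.eq_zero_or_pos (ex (.sh s.1 s.2 i r) 1 w) with b | b
    · exact Or.inl b
    · have := Nat.mul_le_mul_left (AA Q.N) b
      exact Or.inr ⟨b, by omega⟩
  by_cases b : nd i < AA Q.N
  · rw [if_pos b] at t0 t1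
    have b1 : ex (.sh s.1 s.2 i r) 1 w = 0 := by omega
    rw [b1, mul_zero] at s3
    refine Or.inl fun p hp => ?_
    rcases key p hp with rfl | rfl | rfl | rfl <;> omega
  · rw [if_neg b] at t0 t1
    refine Or.inr ⟨s4, t4, t0, t1, by omega, by omega, ?_⟩
    rcases u6 with b1 | b1
    · rw [b1, mul_zero] at s3
      omega
    · exact Or.inl b1.1

/-- A term of the expansion of a power of the positive part. -/
noncomputable def term_SharpPos (Q : Par) (s : ℕ × ℕ) (σ : Rg (Wd Fam)) {n : ℕ}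
    (g : Fin n → ℕ × ℕ × ℕ) : Rg (Wd Fam) :=
  σ ^ (∑ l, (g l).2.2) * wd (∑ l, Q.wT s (g l))

theorem pp_pow_SharpPos (s : ℕ × ℕ) (σ : Rg (Wd Fam)) (n : ℕ) :
    Q.pp s σ ^ n = ∑ g ∈ Fintype.piFinset fun _ : Fin n => Typ s.1 (AA Q.N),
      Q.term_SharpPos s σ g := by
  rw [pp, Finset.sum_pow']
  refine Finset.sum_congr rfl fun g _ => ?_
  rw [term_SharpPos, Finset.prod_mul_distrib, Finset.prod_pow_eq_pow_sum, wd_sum]

theorem pos_wd_SharpPos (w : Wd Fam) : E.toModel.Pos (wd w) := Model.pos_of_nn (NN.wd w)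

theorem pos_term_SharpPos (s : ℕ × ℕ) {σ : Rg (Wd Fam)} (hσ : E.toModel.Pos σ) {n : ℕ}
    (g : Fin n → ℕ × ℕ × ℕ) : E.toModel.Pos (Q.term_SharpPos s σ g) :=
  (hσ.pow _).mul (pos_wd_SharpPos E _)

theorem pos_pp_SharpPos (s : ℕ × ℕ) {σ : Rg (Wd Fam)} (hσ : E.toModel.Pos σ) (n : ℕ) :
    E.toModel.Pos (Q.pp s σ ^ n) := by
  rw [pp_pow_SharpPos]
  exact Model.Pos.sum fun g _ => pos_term_SharpPos E s hσ g

theorem neg_le (hQ : Q.OK ε) {s : ℕ × ℕ} (hs : s ∈ Sb Q.N Q.Jc) {j t' t : ℕ} (hj : 1 ≤ j)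
    (ht : j + t' = t) (h1 : s.1 ≤ t) (h2 : t < 2 * s.1) {σ : Rg (Wd Fam)}
    (hσ : E.toModel.Pos σ) :
    E.toModel.Pos ((8 * ((Q.N : ℝ) * ((AA Q.N : ℝ) + 1) ^ 2) ^ (2 * Q.N)) • Q.pp s σ ^ t -
      (σ ^ s.1 * wd (Q.wZ s)) ^ j * Q.pp s σ ^ t') := by
  classical
  have hk : 2 ≤ s.1 ∧ s.1 ≤ Q.N := Finset.mem_Icc.1 (Finset.mem_product.1 hs).1
  have a1 : ∀ g ∈ Fintype.piFinset fun _ : Fin t' => Typ s.1 (AA Q.N),
      E.toModel.Pos ((8 : ℝ) • Q.pp s σ ^ t -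
        (σ ^ s.1 * wd (Q.wZ s)) ^ j * Q.term_SharpPos s σ g) := by
    intro g hg
    obtain ⟨h, b1, b2, b3⟩ := compress E hQ hs hj ht h1 h2 g (Fintype.mem_piFinset.1 hg)
    have b4 := (hσ.pow (∑ l, (h l).2.2)).mul
      (Model.pos_of_le (M := E.toModel) (c := 8) (by norm_num) (by rwa [ENNReal.ofReal_ofNat]))
    have b5 : E.toModel.Pos (Q.pp s σ ^ t - Q.term_SharpPos s σ h) := by
      rw [pp_pow_SharpPos, ← Finset.add_sum_erase _ _ (Fintype.mem_piFinset.2 b1),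
        add_sub_cancel_left]
      exact Model.Pos.sum fun g _ => pos_term_SharpPos E s hσ g
    have b6 := (b5.smul (c := 8) (by norm_num)).add b4
    have b7 : (σ ^ s.1 * wd (Q.wZ s)) ^ j * Q.term_SharpPos s σ g =
        σ ^ (∑ l, (h l).2.2) * wd (j • Q.wZ s + ∑ l, Q.wT s (g l)) := by
      rw [b2, term_SharpPos, wd_add, wd_nsmul]
      ring
    rw [smul_sub, mul_sub, mul_smul_comm, term_SharpPos, sub_add_sub_cancel] at b6
    rwa [b7]
  have a2 : ((Fintype.piFinset fun _ : Fin t' => Typ s.1 (AA Q.N)).card : ℝ) ≤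
      ((Q.N : ℝ) * ((AA Q.N : ℝ) + 1) ^ 2) ^ (2 * Q.N) := by
    have b1 : (Typ s.1 (AA Q.N)).card ≤ Q.N * (AA Q.N + 1) ^ 2 :=
      (card_Typ_SharpPos _ _).trans (Nat.mul_le_mul_right _ hk.2)
    have b2 : 0 < Q.N * (AA Q.N + 1) ^ 2 := Nat.mul_pos (by omega) (by positivity)
    have b3 : (Typ s.1 (AA Q.N)).card ^ t' ≤ (Q.N * (AA Q.N + 1) ^ 2) ^ (2 * Q.N) :=
      (Nat.pow_le_pow_left b1 _).trans (Nat.pow_le_pow_right b2 (by omega))
    rw [Fintype.card_piFinset_const]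
    exact_mod_cast b3
  have a3 := ((pos_pp_SharpPos E s hσ t).smul
    (mul_nonneg (by norm_num : (0 : ℝ) ≤ 8) (sub_nonneg.2 a2))).add (Model.Pos.sum a1)
  rw [Finset.sum_sub_distrib, ← Finset.mul_sum, ← pp_pow_SharpPos, Finset.sum_const,
    ← Nat.cast_smul_eq_nsmul ℝ, smul_smul, ← add_sub_assoc, ← add_smul] at a3
  rwa [show ∀ x y : ℝ, 8 * (x - y) + y * 8 = 8 * x from fun x y => by ring] at a3

theorem ph_base_SharpPos (hQ : Q.OK ε) {s : ℕ × ℕ} (hs : s ∈ Sb Q.N Q.Jc) {t : ℕ} (h1 : s.1 ≤ t)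
    (h2 : t < 2 * s.1) {σ : Rg (Wd Fam)} (hσ : E.toModel.Pos σ) :
    E.toModel.Pos (Q.ph s σ ^ t) := by
  have hk : 2 ≤ s.1 ∧ s.1 ≤ Q.N := Finset.mem_Icc.1 (Finset.mem_product.1 hs).1
  obtain ⟨C, hC⟩ : ∃ C : ℝ, C = 8 * ((Q.N : ℝ) * ((AA Q.N : ℝ) + 1) ^ 2) ^ (2 * Q.N) := ⟨_, rfl⟩
  obtain ⟨Z, hZ⟩ : ∃ Z, Z = σ ^ s.1 * wd (Q.wZ s) := ⟨_, rfl⟩
  obtain ⟨ψ, hψ⟩ : ∃ ψ, ψ = Q.ψ s.1 := ⟨_, rfl⟩
  have p0 : 0 ≤ ψ := hψ ▸ (hQ.psi s.1).1
  have c1 : 1 ≤ C := by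
    have b1 : (1 : ℝ) ≤ Q.N := by exact_mod_cast (by omega : 1 ≤ Q.N)
    have b2 : (1 : ℝ) ≤ ((AA Q.N : ℝ) + 1) ^ 2 :=
      one_le_pow₀ (le_add_of_nonneg_left (Nat.cast_nonneg _))
    have b3 := one_le_pow₀ (n := 2 * Q.N) (one_le_mul_of_one_le_of_one_le b1 b2)
    rw [hC]
    linarith
  have p1 : ψ * (C * 2 ^ (2 * Q.N)) ≤ 1 := by
    have b1 := (hQ.psi s.1).2
    rw [psi0, ← hC, ← hψ, le_div_iff₀ (by positivity)] at b1
    exact b1
  have p2 : ψ ≤ 1 := by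
    have b1 : (1 : ℝ) ≤ C * 2 ^ (2 * Q.N) :=
      one_le_mul_of_one_le_of_one_le c1 (one_le_pow₀ one_le_two)
    nlinarith
  have hZp : E.toModel.Pos Z := hZ ▸ (hσ.pow _).mul (pos_wd_SharpPos E _)
  have a1 : ∀ m ∈ Finset.range t, E.toModel.Pos
      (((-ψ) • Z) ^ (m + 1) * Q.pp s σ ^ (t - (m + 1)) * (t.choose (m + 1) : Rg (Wd Fam)) +
        ((t.choose (m + 1) : ℝ) * ψ * C) • Q.pp s σ ^ t) := by
    intro m hm
    have hm' := Finset.mem_range.1 hm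
    have b1 := neg_le E hQ hs (j := m + 1) (t' := t - (m + 1)) (by omega) (by omega) h1 h2 hσ
    rw [← hC, ← hZ] at b1
    have b2 : E.toModel.Pos (Z ^ (m + 1) * Q.pp s σ ^ (t - (m + 1))) :=
      (hZp.pow _).mul (pos_pp_SharpPos E s hσ _)
    have b3 : 0 ≤ (-ψ) ^ (m + 1) + ψ := by
      have b4 := neg_abs_le ((-ψ) ^ (m + 1))
      rw [abs_pow, abs_neg, abs_of_nonneg p0] at b4
      have b5 : ψ ^ (m + 1) ≤ ψ := pow_le_of_le_one p0 p2 (Nat.succ_ne_zero m)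
      linarith
    have b6 : (0 : ℝ) ≤ t.choose (m + 1) := Nat.cast_nonneg _
    have b7 := (b2.smul (mul_nonneg b6 b3)).add (b1.smul (mul_nonneg b6 p0))
    rw [smul_pow, smul_mul_assoc, mul_comm _ (t.choose (m + 1) : Rg (Wd Fam)), ← nsmul_eq_mul,
      ← Nat.cast_smul_eq_nsmul ℝ, smul_smul]
    rw [smul_sub, smul_smul, mul_add, add_smul, cancel_SharpPos] at b7
    exact b7
  have a2 : 0 ≤ 1 - ∑ m ∈ Finset.range t, (t.choose (m + 1) : ℝ) * ψ * C := by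
    have b1 : ∑ m ∈ Finset.range t, t.choose (m + 1) ≤ 2 ^ (2 * Q.N) := by
      have b2 := Nat.sum_range_choose t
      rw [Finset.sum_range_succ'] at b2
      have b3 : 2 ^ t ≤ 2 ^ (2 * Q.N) := Nat.pow_le_pow_right two_pos (by omega)
      omega
    have b4 : ∑ m ∈ Finset.range t, (t.choose (m + 1) : ℝ) ≤ 2 ^ (2 * Q.N) := by
      exact_mod_cast b1
    rw [← Finset.sum_mul, ← Finset.sum_mul]
    have b5 := mul_le_mul_of_nonneg_right b4 (mul_nonneg p0 (zero_le_one.trans c1))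
    linarith
  have a3 := (Model.Pos.sum a1).add ((pos_pp_SharpPos E s hσ t).smul a2)
  rw [Finset.sum_add_distrib, ← Finset.sum_smul, add_assoc, ← add_smul, add_sub_cancel,
    one_smul] at a3
  rw [ph, ← hZ, ← hψ, sub_eq_add_neg, add_comm, ← neg_smul, add_pow, Finset.sum_range_succ',
    pow_zero, one_mul, Nat.sub_zero, Nat.choose_zero_right, Nat.cast_one, mul_one]
  exact a3

theorem ph_pow_pos (hQ : Q.OK ε) {s : ℕ × ℕ} (hs : s ∈ Sb Q.N Q.Jc) {t : ℕ} (ht : s.1 ≤ t)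
    {σ : Rg (Wd Fam)} (hσ : E.toModel.Pos σ) : E.toModel.Pos (Q.ph s σ ^ t) := by
  have hk : 2 ≤ s.1 ∧ s.1 ≤ Q.N := Finset.mem_Icc.1 (Finset.mem_product.1 hs).1
  induction t using Nat.strong_induction_on with
  | _ t ih =>
    by_cases h : t < 2 * s.1
    · exact ph_base_SharpPos E hQ hs ht h hσ
    · rw [show t = (t - s.1) + s.1 by omega, pow_add]
      exact (ih _ (by omega) (by omega)).mul (ph_base_SharpPos E hQ hs le_rfl (by omega) hσ)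

end Par

end Pool.Agent.P.MP_f562c3_an.SS
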