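import Pool.Agent.P.MP_f562c3_an.SS.Supp
import Pool.Agent.P.MP_f562c3_an.SS.Alg1

/-!
Time bounds. `E.up w D J0` gives `Up (w.1 + 4 * D / 2 ^ J0) w`; `Up` is additive (`Up.add`,
`Sup.prod_graded`, `Sup.pow_graded` with the grading monoid `ℝ`).
* `up_al`: `wA i` and the at most `i + 1` words `wD κ i` have exponents `≤ 1` and only touch
  families with `JJ ≥ Jk i` (`J_mono`); `J_al`.
* `up_ph`: let `δ = 4 / 2 ^ Jk N`. If `Sup (Up τ) σ` and `0 ≤ τ + δ` then the words of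
  `σ ^ c * wd (wT s g)` (`c = g.2.2`, all exponents of `wT s g` are `≤ c` for `g ∈ Typ`) and of
  `σ ^ k * wd (wZ s)` are `Up (AA N * (τ + δ))` (`k ≤ N ≤ AA N`). For `n < n0` take `τ = δ`; for
  `n0 ≤ n` we have `sg n = 0`, and `τ = -δ` is allowed.
* `up_wU`, `up_pc`: `u_deg`, `J_u`, `le_en`, `le_K`, `J_mono`.
-/

open Set

namespace Pool.Agent.P.MP_f562c3_an.SS.Par

variable {Q : Par} (E : Q.En) {ε : ℕ → ℝ}

/-- The exponents are at most `D` and only touch families that start at `J0` or later. -/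
def Tm_Time (Q : Par) (J0 D : ℕ) (w : Wd Fam) : Prop :=
  ∀ φ p, p ≠ 4 → ex φ p w ≤ D ∧ (ex φ p w ≠ 0 → J0 ≤ Q.JJ φ)

theorem up_Time {J0 D : ℕ} {w : Wd Fam} (h : Tm_Time Q J0 D w) :
    E.toModel.Up ((w.1 : ℝ) + D * (4 / 2 ^ J0)) w := by
  have := E.up w D J0 (fun φ p hp => (h φ p hp).1) fun φ p hp => (h φ p hp).2
  rwa [mul_comm (4 : ℝ), mul_div_assoc] at this

theorem up0_Time {J0 D : ℕ} {w : Wd Fam} (h : Tm_Time Q J0 D w) (h0 : w.1 = 0) :
    E.toModel.Up (D * (4 / 2 ^ J0)) w := by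
  simpa [h0] using up_Time E h

theorem tb_Time {a b c θ g D J0 J : ℕ} (h : a ≤ D ∧ b ≤ D ∧ c ≤ D ∧ θ ≤ D)
    (h' : a + b + c + θ ≠ 0 → J0 ≤ J) {p : Fin 5} (hp : p ≠ 4) :
    tb a b c θ g p ≤ D ∧ (tb a b c θ g p ≠ 0 → J0 ≤ J) := by
  fin_cases p
  · exact ⟨h.1, fun e : a ≠ 0 => h' (by omega)⟩
  · exact ⟨h.2.1, fun e : b ≠ 0 => h' (by omega)⟩
  · exact ⟨h.2.2.1, fun e : c ≠ 0 => h' (by omega)⟩
  · exact ⟨h.2.2.2, fun e : θ ≠ 0 => h' (by omega)⟩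
  · exact absurd rfl hp

theorem wA_Time (hQ : Q.OK ε) (i : ℕ) : Tm_Time Q (Q.Jk i) 1 (Q.wA i) := fun φ p hp => by
  cases φ <;> simp only [wA, ex_mkW, eA, JJ] <;> (try split_ifs) <;>
    refine tb_Time (by omega) (fun h => ?_) hp <;>
    first | exact hQ.J_mono (by omega) | omega

theorem wD_Time (hQ : Q.OK ε) (κ i : ℕ) : Tm_Time Q (Q.Jk i) 1 (wD κ i) := fun φ p hp => by
  cases φ <;> simp only [wD, ex_mkW, eD, JJ] <;> (try split_ifs) <;>
    refine tb_Time (by omega) (fun h => ?_) hp <;>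
    first | exact hQ.J_mono (by omega) | omega

theorem wS_Time (hQ : Q.OK ε) {r : ℕ} (hr : Q.N ≤ r) : Tm_Time Q (Q.Jk Q.N) 1 (wS r) :=
  fun φ p hp => by
  cases φ <;> simp only [wS, ex_mkW, eS, JJ] <;> (try split_ifs) <;>
    refine tb_Time (by omega) (fun h => ?_) hp <;>
    first | exact hQ.J_mono (by omega) | omega

theorem wT_Time (hQ : Q.OK ε) (s : ℕ × ℕ) {g : ℕ × ℕ × ℕ} (hg : g.2.1 ≤ g.2.2) :
    Tm_Time Q (Q.Jk Q.N) g.2.2 (Q.wT s g) := fun φ p hp => by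
  have h1 := le_AA Q.N
  have h2 := hQ.two_le
  cases φ <;> simp only [wT, ex_mkW, eT, JJ] <;> (try split_ifs) <;>
    exact tb_Time (by omega) (fun h => by omega) hp

theorem wZ_Time {s : ℕ × ℕ} (hs : 1 ≤ s.1) : Tm_Time Q (Q.Jk Q.N) s.1 (Q.wZ s) := fun φ p hp => by
  cases φ <;> simp only [wZ, ex_mkW, eZ, JJ] <;> (try split_ifs with h) <;>
    first
    | exact tb_Time (by omega) (fun h => by omega) hp
    | (obtain ⟨rfl, -⟩ := h
       exact tb_Time (by simp only at hs ⊢; omega) (fun h => le_rfl) hp)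

theorem wU_Time (hQ : Q.OK ε) {k : ℕ} (hk : Q.N < k) {m : ℕ × ℕ} {D : ℕ} (hm : m.1 + m.2 ≤ D) :
    Tm_Time Q (Q.Jk k) D (Q.wU k m) := fun φ p hp => by
  have h1 := hQ.le_en k hk
  cases φ <;> simp only [ex_wU, eU, JJ] <;> (try split_ifs) <;>
    refine tb_Time (by omega) (fun h => ?_) hp <;>
    first | exact hQ.J_mono (by omega) | omega | (subst_vars; exact hQ.J_mono h1)

theorem wL_Time (hQ : Q.OK ε) (k : ℕ) : Tm_Time Q (Q.Jk k) 1 (wL k) := fun φ p hp => by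
  have h1 := hQ.le_K k
  cases φ <;> simp only [wL, ex_mkW, eL, JJ] <;> (try split_ifs) <;>
    refine tb_Time (by omega) (fun h => ?_) hp <;>
    first | omega | (subst_vars; exact hQ.J_mono h1)

theorem add_Time (g g' : ℝ) (a b : Wd Fam) (h : E.toModel.Up g a) (h' : E.toModel.Up g' b) :
    E.toModel.Up (g + g') (a + b) := h.add h'

theorem num_Time {a b J : ℕ} (hb : 0 < b) (h : 4 * a * b ≤ 2 ^ J) :
    (a : ℝ) * (4 / 2 ^ J) ≤ 1 / b := by
  have h1 : (4 * a * b : ℝ) ≤ 2 ^ J := by exact_mod_cast h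
  rw [← mul_div_assoc, div_le_div_iff₀ (by positivity) (by exact_mod_cast hb)]
  linarith

theorem blk_Time {σ : Rg (Wd Fam)} {τ : ℝ} {J c A : ℕ} (hσ : Sup (E.toModel.Up τ) σ)
    (h0 : 0 ≤ τ + 4 / 2 ^ J) (hc : c ≤ A) {w : Wd Fam} (h : Tm_Time Q J c w) (hw : w.1 = 0) :
    Sup (E.toModel.Up (A * (τ + 4 / 2 ^ J))) (σ ^ c * wd w) := by
  refine ((Sup.pow_graded Model.Up.zero (add_Time E) hσ c).mul (Sup.wd (up0_Time E h hw))
    (add_Time E _ _)).mono fun v hv => hv.mono ?_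
  rw [nsmul_eq_mul, ← mul_add]
  exact mul_le_mul_of_nonneg_right (by exact_mod_cast hc) h0

theorem up_al (hQ : Q.OK ε) {i : ℕ} (hi : Q.N ≤ i) :
    Sup (E.toModel.Up (5 / (8 * (i : ℝ)))) (Q.al i) := by
  have h2 := hQ.two_le
  have hδ : (0 : ℝ) ≤ 4 / 2 ^ Q.Jk i := by positivity
  have h1 : Sup (E.toModel.Up (∑ _κ ∈ Finset.Icc Q.N i, (4 / 2 ^ Q.Jk i : ℝ))) (Q.kp i) :=
    Sup.prod_graded Model.Up.zero (add_Time E) fun κ _ => Sup.smul _
      ((Sup.one (Model.Up.zero.mono hδ)).sub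
        (Sup.wd (by simpa using up0_Time E (wD_Time hQ κ i) rfl)))
  refine ((Sup.wd (up_Time E (wA_Time hQ i))).mul h1 (add_Time E _ _)).mono fun v hv => hv.mono ?_
  have h3 := num_Time (a := i + 2) (b := 8 * i) (J := Q.Jk i) (by omega)
    (by have := hQ.J_al i; linarith)
  have h4 : ((Finset.Icc Q.N i).card : ℝ) ≤ i + 1 := by
    rw [Nat.card_Icc]; exact_mod_cast Nat.sub_le _ _
  have h5 := mul_le_mul_of_nonneg_right h4 hδ
  have h6 : (5 : ℝ) / (8 * i) = 1 / (2 * i) + 1 / (8 * i) := by ring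
  rw [Finset.sum_const, nsmul_eq_mul, wA, mkW_fst, h6]
  push_cast at h3 ⊢
  linarith

theorem lo_al (i : ℕ) : Sup (E.toModel.Lo (1 / (2 * (i : ℝ)))) (Q.al i) := by
  have h1 : E.toModel.Lo (1 / (2 * (i : ℝ))) (Q.wA i) := by
    have := E.lo (Q.wA i)
    rw [wA, mkW_fst] at this
    push_cast at this
    exact this
  exact (Sup.wd h1).mul (Sup.trivial _) fun a b ha _ => by
    simpa using ha.add (Model.Lo.zero b)

theorem up_ph (hQ : Q.OK ε) {s : ℕ × ℕ} (hs : s ∈ Sb Q.N Q.Jc) {n : ℕ} (hn : Q.N ≤ n) :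
    Sup (E.toModel.Up (if n < Q.n0 then 8 * (AA Q.N : ℝ) / 2 ^ Q.Jk Q.N else 0))
      (Q.ph s (Q.sg n)) := by
  have hδ : (0 : ℝ) ≤ 4 / 2 ^ Q.Jk Q.N := by positivity
  obtain ⟨τ, hσ, h0, e⟩ : ∃ τ : ℝ, Sup (E.toModel.Up τ) (Q.sg n) ∧ 0 ≤ τ + 4 / 2 ^ Q.Jk Q.N ∧
      (if n < Q.n0 then 8 * (AA Q.N : ℝ) / 2 ^ Q.Jk Q.N else 0) =
        AA Q.N * (τ + 4 / 2 ^ Q.Jk Q.N) := by
    split_ifs with h
    · exact ⟨4 / 2 ^ Q.Jk Q.N, Q.sup_sg fun r hr _ => by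
        simpa using up0_Time E (wS_Time hQ (hn.trans hr)) rfl, by linarith, by ring⟩
    · exact ⟨-(4 / 2 ^ Q.Jk Q.N), Q.sup_sg fun r hr hr' => by omega, by simp, by simp⟩
  have hs' := Finset.mem_Icc.1 (Finset.mem_product.1 hs).1
  rw [e]
  refine Sup.sub (Sup.sum fun g hg => ?_) (Sup.smul _
    (blk_Time E hσ h0 (hs'.2.trans (le_AA _)) (wZ_Time (by omega)) rfl))
  simp only [Typ, Finset.mem_filter, Finset.mem_product, Finset.mem_range] at hg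
  exact blk_Time E hσ h0 (by omega) (wT_Time hQ s hg.2) rfl

/-- A product of powers of sharp blocks takes time at most `1/8`. -/
theorem up_prod_ph (hQ : Q.OK ε) {S : Finset (ℕ × ℕ)} (hS : S ⊆ Sb Q.N Q.Jc) {n t : ℕ}
    (hn : Q.N ≤ n) (ht : t ≤ n) :
    Sup (E.toModel.Up (1 / 8)) (∏ s ∈ S, Q.ph s (Q.sg n) ^ t) := by
  refine (Sup.prod_graded Model.Up.zero (add_Time E) fun s hs =>
    Sup.pow_graded Model.Up.zero (add_Time E) (up_ph E hQ (hS hs) hn) t).mono fun v hv => hv.mono ?_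
  rw [Finset.sum_const]
  split_ifs with h
  · have h1 := num_Time (a := S.card * t * (2 * AA Q.N)) (b := 8) (J := Q.Jk Q.N) (by omega)
      (le_trans (by
        have := Nat.mul_le_mul_right (AA Q.N)
          (Nat.mul_le_mul (Finset.card_le_card hS) (ht.trans h.le))
        linarith) hQ.J_B)
    rw [nsmul_eq_mul, nsmul_eq_mul]
    push_cast at h1
    exact le_trans (le_of_eq (by ring)) h1
  · simp

theorem up_wU (hQ : Q.OK ε) {k n : ℕ} (hk : Q.N < k) (hn : n ≤ 2 * k) :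
    Sup (fun m => E.toModel.Up (1 / 8) (Q.wU k m)) ((1 + Q.u k) ^ n) := by
  have h1 := Sup.pow_graded (Q := fun (D : ℕ) (m : ℕ × ℕ) => m.1 + m.2 ≤ D) le_rfl
    (fun g g' a b ha hb => by simp only [Prod.fst_add, Prod.snd_add]; omega)
    ((Sup.one (Nat.zero_le (Q.Dk k))).add (hQ.u_deg k)) n
  refine h1.mono fun m hm => (up0_Time E (wU_Time hQ hk hm) rfl).mono ?_
  have h2 := num_Time (a := n • Q.Dk k) (b := 8) (J := Q.Jk k) (by omega) (le_trans (by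
    have := Nat.mul_le_mul hn (Nat.le_succ (Q.Dk k))
    rw [smul_eq_mul]
    linarith) (hQ.J_u k))
  exact_mod_cast h2

theorem up_pc (hQ : Q.OK ε) (i : ℕ) :
    Sup (E.toModel.Up (1 / (16 * (Q.N : ℝ)))) (Q.pc i) := by
  have h2 := hQ.two_le
  refine Q.sup_pc (Model.Up.zero.mono (by positivity)) fun k hk => ?_
  have hk' : Q.N < k := (Finset.mem_Ioc.1 (Finset.mem_filter.1 hk).1).1
  have h3 := num_Time (a := 1 + Q.Dk k) (b := 16 * Q.N) (J := Q.Jk k) (by omega) (le_trans (by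
    have := Nat.mul_le_mul_right (Q.Dk k + 1) hk'.le
    linarith) (hQ.J_u k))
  have h4 := (hQ.u_deg k).mono fun m hm => up0_Time E (wU_Time hQ hk' hm) rfl
  have hδ : (0 : ℝ) ≤ 4 / 2 ^ Q.Jk k := by positivity
  push_cast at h3
  refine Sup.sub ((Sup.mp _ h4.upos).mono fun v hv => hv.mono (by linarith))
    (((Sup.wd (up0_Time E (wL_Time hQ k) rfl)).mul (Sup.mp _ h4.uneg)
      (add_Time E _ _)).mono fun v hv => hv.mono ?_)
  push_cast
  linarith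

end Pool.Agent.P.MP_f562c3_an.SS.Par
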