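import Pool.Agent.P.MP_f562c3_an.SS.Carr
import Pool.Agent.P.MP_f562c3_an.SS.Time
import Pool.Agent.P.MP_f562c3_an.SS.SharpPos
import Pool.Agent.P.MP_f562c3_an.SS.Alg3a

/-! Exact norms up to level `N`, and the markers. -/

open Set

namespace Pool.Agent.P.MP_f562c3_an.SS.Par

variable {Q : Par} (E : Q.En) {ε : ℕ → ℝ}

theorem phs_LevA {T : Wd Fam → Prop} (h0 : T 0) (hadd : ∀ a b, T a → T b → T (a + b))
    {S : Finset (ℕ × ℕ)} {σ : Rg (Wd Fam)} (h : ∀ s ∈ S, Sup T (Q.ph s σ)) (t : ℕ) :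
    Sup T (∏ s ∈ S, Q.ph s σ ^ t) :=
  Sup.prod h0 hadd fun s hs => (h s hs).pow h0 hadd t

theorem gam_LevA (N L : ℕ) (S : Finset (ℕ × ℕ)) : ∃ Γ : Finset Fam, ∀ φ, φ ∈ Γ ↔
    (∃ κ k, N ≤ κ ∧ κ ≤ L ∧ k ≤ L ∧ Fam.main κ k = φ) ∨ (∃ k ≤ L, Fam.delay k = φ) ∨
      ∃ s ∈ S, Fam.sh s.1 s.2 0 0 = φ := by
  refine ⟨(Finset.Icc N L ×ˢ Finset.Iic L).image (fun p => Fam.main p.1 p.2) ∪
    ((Finset.Iic L).image Fam.delay ∪ S.image fun s => Fam.sh s.1 s.2 0 0), fun φ => ?_⟩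
  simp only [Finset.mem_union, Finset.mem_image, Finset.mem_product, Finset.mem_Icc,
    Finset.mem_Iic, Prod.exists, and_assoc]

theorem gd_al_LevA {n : ℕ} (ι : Fin n → ℕ) : Sup (Gd 0 n) (∏ l, Q.al (ι l)) := by
  have := Sup.prod_graded (Q := Gd 0) (Gd.zero 0) (Gd.add 0) (s := Finset.univ)
    (g := fun _ => 1) fun l _ => (Q.gd_al (ι l)).mono fun w h => h.mono (Nat.zero_le _)
  rwa [Finset.sum_const, Finset.card_fin, smul_eq_mul, mul_one] at this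

theorem gd_phs_LevA (S : Finset (ℕ × ℕ)) (t : ℕ) :
    Sup (Gd 0 0) (∏ s ∈ S, Q.ph s (Q.sg Q.N) ^ t) :=
  phs_LevA (Gd.zero 0) (Gd.add 0 0 0)
    (fun s _ => (Q.gd_ph s Q.N).mono fun _ h => h.mono (Nat.zero_le _)) t

theorem gd_pc_LevA {n : ℕ} (ι : Fin n → ℕ) : Sup (Gd 0 0) (∏ l, Q.pc (ι l)) :=
  Sup.prod (Gd.zero 0) (Gd.add 0 0 0) fun l _ => Q.gd_pc (ι l)

theorem up_LevA {n : ℕ} {f : Fin n → Rg (Wd Fam)} {τ τ' : ℝ}
    (h : ∀ l, Sup (E.toModel.Up τ) (f l)) (hτ : n * τ ≤ τ') :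
    Sup (E.toModel.Up τ') (∏ l, f l) := by
  have := Sup.prod_graded (Q := E.toModel.Up) Model.Up.zero (fun _ _ _ _ => Model.Up.add)
    (s := Finset.univ) (g := fun _ => τ) fun l _ => h l
  rw [Finset.sum_const, Finset.card_fin, nsmul_eq_mul] at this
  exact this.mono fun w hw => hw.mono hτ

theorem prod_Ac_LevA {n : ℕ} (ι : Fin n → ℕ) : ∏ l, Q.Ac (ι l) =
    (∏ l, Q.al (ι l)) * (∏ s ∈ Sb Q.N Q.Jc, Q.ph s (Q.sg Q.N) ^ n) * ∏ l, Q.pc (ι l) := by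
  simp only [Ac, Finset.prod_mul_distrib, Finset.prod_const, Finset.card_fin, Bc, Finset.prod_pow]

theorem lev_exact (hQ : Q.OK ε) {n : ℕ} (hn : n ≤ Q.N) (ι : Fin n → ℕ) (hι : ∀ l, Q.N ≤ ι l) :
    E.toModel.nrm (∏ l, Q.Ac (ι l)) = FB Q.N Q.Jc Q.ψ n ^ n * ∏ l, Q.ec (ι l) := by
  have hN : (0 : ℝ) < Q.N := Nat.cast_pos.2 (by have := hQ.two_le; omega)
  have hn' : (n : ℝ) ≤ Q.N := Nat.cast_le.2 hn
  have hSb : ∀ s ∈ Sb Q.N Q.Jc, 0 < s.1 ∧ s.1 ≤ Q.N := fun s hs => by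
    have := Finset.mem_Icc.1 (Finset.mem_product.1 hs).1
    omega
  have hL : ∀ l, ι l ≤ Finset.univ.sup ι := fun l => Finset.le_sup (Finset.mem_univ l)
  rw [FB, Finset.prod_ite, prod_Ac_LevA,
    ← Finset.prod_filter_mul_prod_filter_not (Sb Q.N Q.Jc) fun s => n < s.1]
  have h1 : ∀ s ∈ (Sb Q.N Q.Jc).filter fun s => ¬ n < s.1, s ∈ Sb Q.N Q.Jc ∧ ¬ n < s.1 :=
    fun s hs => Finset.mem_filter.1 hs
  have h2 : ∀ s ∈ (Sb Q.N Q.Jc).filter fun s => n < s.1, s ∈ Sb Q.N Q.Jc ∧ n < s.1 :=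
    fun s hs => Finset.mem_filter.1 hs
  generalize (Sb Q.N Q.Jc).filter (fun s => ¬ n < s.1) = S₁ at h1 ⊢
  generalize (Sb Q.N Q.Jc).filter (fun s => n < s.1) = S₂ at h2 ⊢
  obtain ⟨Γ, hΓ⟩ := gam_LevA Q.N (Finset.univ.sup ι) S₂
  have adm : Adm Γ := fun φ hφ => by
    rcases (hΓ φ).1 hφ with ⟨κ, k, -, -, -, rfl⟩ | ⟨k, -, rfl⟩ | ⟨s, -, rfl⟩
    exacts [Or.inl ⟨κ, k, rfl⟩, Or.inr (Or.inl ⟨k, rfl⟩), Or.inr (Or.inr ⟨_, _, rfl⟩)]
  have t1 := fun l => tw_al (Q := Q) adm (i := ι l) fun κ a b =>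
    (hΓ _).2 (Or.inl ⟨κ, _, a, b.trans (hL l), hL l, rfl⟩)
  have t2 := fun s (hs : s ∈ S₂) => tw_ph hQ adm (hSb s (h2 s hs).1).1
    ((hΓ _).2 (Or.inr (Or.inr ⟨s, hs, rfl⟩)))
  have t3 := fun l => tw_pc (Q := Q) adm (i := ι l) fun k hk => (hΓ _).2 (Or.inr (Or.inl
    ⟨k, (Finset.mem_Ioc.1 (Finset.mem_filter.1 hk).1).2.trans (hL l), rfl⟩))
  have hx : NN (tw (∑ φ ∈ Γ, cnt φ)
      ((∏ l, Q.al (ι l)) * (∏ s ∈ S₂, Q.ph s (Q.sg Q.N) ^ n) * ∏ l, Q.pc (ι l))) := by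
    simp only [map_mul, map_prod, map_pow]
    exact ((NN.prod fun l _ => (t1 l).1).mul (NN.prod fun s hs => (t2 s hs).1.pow n)).mul
      (NN.prod fun l _ => (t3 l).1)
  have u1 : Sup (E.toModel.Up (5 / 8)) (∏ l, Q.al (ι l)) := by
    refine up_LevA E (τ := 5 / (8 * (Q.N : ℝ))) (fun l => (up_al E hQ (hι l)).mono fun w h =>
      h.mono ?_) ?_
    · have : (Q.N : ℝ) ≤ ι l := Nat.cast_le.2 (hι l)
      gcongr
    · rw [← mul_div_assoc, div_le_div_iff₀ (by positivity) (by norm_num)]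
      linarith
  have u3 : Sup (E.toModel.Up (1 / 16)) (∏ l, Q.pc (ι l)) := by
    refine up_LevA E (fun l => up_pc E hQ (ι l)) ?_
    rw [← mul_div_assoc, div_le_div_iff₀ (by positivity) (by norm_num)]
    linarith
  have u := (u1.mul (up_prod_ph E hQ (fun s hs => (h2 s hs).1) le_rfl hn)
    fun _ _ => Model.Up.add).mul u3 fun _ _ => Model.Up.add
  have g := ((gd_al_LevA (Q := Q) ι).mul (gd_phs_LevA (Q := Q) S₂ n) (Gd.add 0 n 0)).mul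
    (gd_pc_LevA (Q := Q) ι) (Gd.add 0 n 0)
  have sh : ∀ s ∈ S₂, Sup (Sh Q.N s n)
      ((∏ l, Q.al (ι l)) * (∏ s ∈ S₂, Q.ph s (Q.sg Q.N) ^ n) * ∏ l, Q.pc (ι l)) := by
    intro s hs
    have a := Sup.pow_graded (Q := Sh Q.N s) (Sh.zero _ _) (Sh.add _ _)
      (Q.sh_ph (hSb s (h2 s hs).1).1 (Nat.cast_pos.1 hN) Q.N) n
    rw [smul_eq_mul, mul_one] at a
    have add : ∀ a b, Sh Q.N s n a → Off s b → Sh Q.N s n (a + b) :=
      fun a b ha hb => Sh.add _ _ n 0 a b ha (hb.sh _)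
    rw [← Finset.mul_prod_erase _ _ hs, mul_comm (∏ l, Q.al (ι l))]
    exact ((a.mul (phs_LevA (Off.zero s) (Off.add s)
      (fun s' h => Q.off_ph (Finset.ne_of_mem_erase h) _) n) add).mul
      (Sup.prod (Off.zero s) (Off.add s) fun l _ => Q.off_al s _) add).mul
      (Sup.prod (Off.zero s) (Off.add s) fun l _ => Q.off_pc s _) add
  rw [show ∀ a b c d : Rg (Wd Fam), a * (b * c) * d = c * (a * b * d) from fun a b c d => by ring,
    Model.nrm_exact Γ cnt (Hs E n) (measurableSet_Hs E n) (disjoint_Hs E n)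
      (Model.Pos.prod fun s hs => ph_pow_pos E hQ (h1 s hs).1 (not_lt.1 (h1 s hs).2)
        (Model.pos_of_nn (sg_nn hQ le_rfl))) hx (τ := 1 / 8 + (5 / 8 + 1 / 8 + 1 / 16))
      (by norm_num) fun v w hv hw => ⟨(up_prod_ph E hQ (fun s hs => (h1 s hs).1) le_rfl hn v
        hv).add (u w hw), fun φ hφ => ?_⟩, l1_eq_aug_tw hx]
  · simp only [map_mul, map_prod, map_pow, ph_aug, sg_aug hQ le_rfl, hQ.lam_N, one_pow, mul_one,
      (t1 _).2, (t3 _).2, Finset.prod_const_one, one_mul]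
    rw [Finset.prod_congr rfl fun s hs => congrArg (· ^ n) (t2 s hs).2, Finset.prod_pow,
      Finset.prod_pow]
    ring
  have ns := phs_LevA NoShift.zero NoShift.add (fun s _ => Q.noShift_ph s Q.N) n v hv
  have gv : Gd 0 n (v + w) := by
    rw [add_comm]
    exact Gd.add 0 n 0 w v (g w hw) (gd_phs_LevA S₁ n v hv)
  suffices h : cnt φ v = 0 ∧ E.toModel.Car (Hs E n φ (cnt φ (v + w))) (v + w) by
    have := h.2
    rwa [map_add, h.1, zero_add] at this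
  rcases (hΓ φ).1 hφ with ⟨κ, k, hκ, -, -, rfl⟩ | ⟨k, -, rfl⟩ | ⟨s, hs, rfl⟩
  · exact ⟨ns _, car_main E gv (Or.inl (hn.trans hκ)) k⟩
  · exact ⟨ns _, car_delay E gv hn k⟩
  · have off := phs_LevA (Off.zero s) (Off.add s) (fun s' h => Q.off_ph
      (fun e => (h1 s' h).2 (by rw [e]; exact (h2 s hs).2)) Q.N) n v hv
    refine ⟨off 0 0 4, car_sh E ?_ (h2 s hs).2 (hSb s (h2 s hs).1).2⟩
    rw [add_comm]
    exact Sh.add _ _ n 0 w v (sh s hs w hw) (off.sh _)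

theorem car_mark {n : ℕ} (ι : Fin n → ℕ) :
    Sup (E.toModel.Car (⋂ j, Hd E (.mark j) (mult ι j))) (∏ l, Q.Ac (ι l)) := by
  rw [prod_Ac_LevA]
  intro w hw
  have g := ((gd_al_LevA (Q := Q) ι).mul (gd_phs_LevA (Q := Q) _ n) (Gd.add 0 n 0)).mul
    (gd_pc_LevA (Q := Q) ι) (Gd.add 0 n 0) w hw
  refine Model.Car.iInter fun j => ?_
  have add : ∀ (g g' : ℕ) (a b : Wd Fam), ex (Fam.mark j) 3 a = g → ex (Fam.mark j) 3 b = g' →
      ex (Fam.mark j) 3 (a + b) = g + g' := fun g g' a b ha hb => by rw [map_add, ha, hb]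
  have a := Sup.prod_graded (Q := fun g w => ex (Fam.mark j) 3 w = g) (map_zero _) add
    (s := Finset.univ) fun l _ => Q.mark_al (ι l) j
  have e' : (∑ l, if j = ι l then 1 else 0) = mult ι j := by
    rw [mult, Finset.card_filter]
    exact Finset.sum_congr rfl fun l _ => if_congr eq_comm rfl rfl
  rw [e'] at a
  have e : ex (Fam.mark j) 3 w = mult ι j :=
    (a.mul (Q := fun w => ex (Fam.mark j) 3 w = mult ι j)
      (phs_LevA (T := fun w => ex (Fam.mark j) 3 w = 0) (map_zero _) (add 0 0)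
        (fun s _ => (Q.noShift_ph s Q.N).mono fun _ h => h _) n) (add _ 0)).mul
      (Q := fun w => ex (Fam.mark j) 3 w = mult ι j)
      (Sup.prod (Q := fun w => ex (Fam.mark j) 3 w = 0) (map_zero _) (add 0 0)
        fun l _ => Q.mark_pc (ι l) j) (add _ 0) w hw
  rw [← e]
  exact car_Hd E (g.2.2.1 j).2 (by rw [(g.2.2.1 j).1]; exact Nat.one_pos)

end Pool.Agent.P.MP_f562c3_an.SS.Par
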