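import Pool.Agent.P.MP_f562c3_an.SS.Carr
import Pool.Agent.P.MP_f562c3_an.SS.Time
import Pool.Agent.P.MP_f562c3_an.SS.SharpPos

/-! Levels above `N`: tuples with a small index, and the washed main term. -/

namespace Pool.Agent.P.MP_f562c3_an.SS.Par

variable {Q : Par} (E : Q.En) {ε : ℕ → ℝ}

theorem phs_LevB {T : Wd Fam → Prop} (h0 : T 0) (hadd : ∀ a b, T a → T b → T (a + b))
    {σ : Rg (Wd Fam)} (h : ∀ s, Sup T (Q.ph s σ)) (t : ℕ) : Sup T (Q.Bc σ ^ t) :=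
  (Sup.prod h0 hadd fun s _ => h s).pow h0 hadd t

theorem term_LevB (hQ : Q.OK ε) {n : ℕ} (hn : Q.N < n) (ι : Fin n → ℕ) (hι : ∀ l, n ≤ ι l)
    {m : ℕ × ℕ} (hm : E.toModel.Up (1 / 8) (Q.wU (Q.st n) m)) :
    Sup (E.toModel.Car (Hd E (.xm (Q.st n) false) m.1 ∩ Hd E (.xm (Q.st n) true) m.2))
      (Q.Bc (Q.sg n) ^ n * ((∏ l, Q.al (ι l)) * wd (Q.wU (Q.st n) m))) ∧
    E.toModel.nrm (Q.Bc (Q.sg n) ^ n * ((∏ l, Q.al (ι l)) * wd (Q.wU (Q.st n) m))) =
      FF Q.N Q.Jc Q.ψ (Q.lam n) ^ n := by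
  have g1 : Sup (Gd n n) (∏ l, Q.al (ι l)) := by
    have := Sup.prod_graded (Q := Gd n) (Gd.zero n) (Gd.add n) (s := Finset.univ)
      (g := fun _ => 1) fun l _ => (Q.gd_al (ι l)).mono fun w h => h.mono (hι l)
    rwa [Finset.sum_const, Finset.card_fin, smul_eq_mul, mul_one] at this
  have g2 := g1.mul (Sup.wd ((Q.gd_wU (Q.st n) m).mono (hQ.le_en_st n hn))) (Gd.add n n 0)
  have g3 := phs_LevB (Gd.zero n) (Gd.add n 0 0) (fun s => Q.gd_ph s n) n
  have ns := phs_LevB NoShift.zero NoShift.add (fun s => Q.noShift_ph s n) n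
  have gv : ∀ v w, Gd n 0 v → Gd n n w → Gd n n (v + w) := fun v w hv hw => by
    rw [add_comm]
    exact Gd.add n n 0 w v hw hv
  constructor
  · have xm : ∀ b, Sup (fun w => ex (Fam.xm (Q.st n) b) 3 w = if b then m.2 else m.1)
        (Q.Bc (Q.sg n) ^ n * ((∏ l, Q.al (ι l)) * wd (Q.wU (Q.st n) m))) := fun b =>
      ns.mul ((Sup.prod (Q := fun w => ex (Fam.xm (Q.st n) b) 3 w = 0) (map_zero _)
        (fun v w hv hw => by rw [map_add, hv, hw]) fun l _ => Q.xm_al (ι l) _ b).mul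
        (Q := fun w => ex (Fam.xm (Q.st n) b) 3 w = if b then m.2 else m.1)
        (Sup.wd (Q := fun w => ex (Fam.xm (Q.st n) b) 3 w = if b then m.2 else m.1)
          (if_pos rfl)) fun v w hv hw => by rw [map_add, hv, hw, zero_add])
        fun v w hv hw => by rw [map_add, hv, hw, zero_add]
    intro w hw
    have g := (g3.mul g2 gv w hw).2.2.2 (Q.st n)
    have c := fun b => car_Hd E (g b).2 (by rw [(g b).1]; exact Nat.one_pos)
    have c1 := c false
    have c2 := c true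
    rw [xm _ w hw] at c1 c2
    exact c1.inter c2
  have hL : ∀ l, ι l ≤ Finset.univ.sup ι := fun l => Finset.le_sup (Finset.mem_univ l)
  obtain ⟨Γ, hΓ, hΓ'⟩ : ∃ Γ : Finset Fam, (∀ φ ∈ Γ, ∃ κ k, φ = Fam.main κ k) ∧
      ∀ κ l, κ ≤ ι l → Fam.main κ (ι l) ∈ Γ :=
    ⟨(Finset.Iic (Finset.univ.sup ι) ×ˢ Finset.Iic (Finset.univ.sup ι)).image
      fun p => Fam.main p.1 p.2, fun φ h => by
        obtain ⟨p, -, rfl⟩ := Finset.mem_image.1 h
        exact ⟨_, _, rfl⟩, fun κ l h => Finset.mem_image.2 ⟨(κ, ι l), Finset.mem_product.2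
          ⟨Finset.mem_Iic.2 (h.trans (hL l)), Finset.mem_Iic.2 (hL l)⟩, rfl⟩⟩
  have adm : Adm Γ := fun φ h => Or.inl (hΓ φ h)
  have t1 := fun l => tw_al (Q := Q) adm (i := ι l) fun κ _ b => hΓ' κ l b
  have hx : NN (tw (∑ φ ∈ Γ, cnt φ) ((∏ l, Q.al (ι l)) * wd (Q.wU (Q.st n) m))) := by
    rw [map_mul, map_prod, tw_wd_of_zero (chi_wU adm _ _)]
    exact (NN.prod fun l _ => (t1 l).1).mul (NN.wd _)
  have hn0 : (0 : ℝ) < n := Nat.cast_pos.2 (by omega)
  have u1 : Sup (E.toModel.Up (5 / 8)) (∏ l, Q.al (ι l)) := by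
    have := Sup.prod_graded (Q := E.toModel.Up) Model.Up.zero (fun _ _ _ _ => Model.Up.add)
      (s := Finset.univ) (g := fun _ => 5 / (8 * (n : ℝ))) fun l _ =>
        (up_al E hQ (hn.le.trans (hι l))).mono fun w h => h.mono (by
          have : (n : ℝ) ≤ ι l := Nat.cast_le.2 (hι l)
          gcongr)
    rw [Finset.sum_const, Finset.card_fin, nsmul_eq_mul] at this
    exact this.mono fun w hw => hw.mono (le_of_eq (by field_simp))
  have u2 := up_prod_ph E hQ subset_rfl hn.le le_rfl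
  have pos := Model.Pos.prod fun s hs => ph_pow_pos E hQ hs
    ((Finset.mem_Icc.1 (Finset.mem_product.1 hs).1).2.trans hn.le)
    (Model.pos_of_nn (sg_nn hQ hn.le))
  rw [Finset.prod_pow] at u2 pos
  refine (Model.nrm_exact Γ cnt (Hs E n) (measurableSet_Hs E n) (disjoint_Hs E n) pos hx
    (τ := 1 / 8 + (5 / 8 + 1 / 8)) (by norm_num) fun v w hv hw => ⟨(u2 v hv).add
      (u1.mul (Sup.wd hm) (fun _ _ => Model.Up.add) w hw), fun φ hφ => ?_⟩).trans ?_
  · obtain ⟨κ, k, rfl⟩ := hΓ φ hφ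
    have := car_main E (gv v w (g3 v hv) (g2 w hw)) (le_or_gt n κ) k
    rwa [map_add, show cnt (.main κ k) v = 0 from ns v hv _, zero_add] at this
  · rw [l1_eq_aug_tw hx, map_pow, map_mul (tw _), tw_wd_of_zero (chi_wU adm _ _), map_mul,
      map_prod (tw _), map_prod aug (fun l => tw _ _), Finset.prod_eq_one fun l _ => (t1 l).2,
      aug_wd, mul_one, mul_one, ← sg_aug hQ hn.le, ← Bc_aug]
    rfl

theorem lev_bad (hQ : Q.OK ε) {n : ℕ} (hn : Q.N < n) (ι : Fin n → ℕ) (hι : ∀ l, Q.N ≤ ι l)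
    (hbad : ∃ l, ι l < n) : E.toModel.nrm (∏ l, Q.Ac (ι l)) ≤ ε n * (2 * Q.MB) ^ n := by
  obtain ⟨l1', hl⟩ := hbad
  obtain ⟨l0, -, h0⟩ := Finset.exists_max_image Finset.univ ι ⟨l1', Finset.mem_univ _⟩
  have h0' : ∀ l, ι l ≤ ι l0 := fun l => h0 l (Finset.mem_univ l)
  have hM := one_le_MB hQ
  by_cases hk : n < 2 * ι l0
  · obtain ⟨Y, e, hY, sY⟩ := Q.al_split ι l0 h0'
    have e' : ∏ l, Q.Ac (ι l) =
        Q.kp (ι l0) * (Y * (Q.Bc (Q.sg Q.N) ^ n * ∏ l, Q.pc (ι l))) := by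
      simp only [Ac, Finset.prod_mul_distrib, Finset.prod_const, Finset.card_fin, e, mul_assoc]
    rw [e']
    refine (kill E hQ (n := n) (sY.mul (Sup.trivial _) fun a b ha _ => ⟨fun κ => ?_,
      ι l1', hι _, hl, h0' _, ?_⟩)).trans (mul_le_mul (hQ.prec n _ hn hk) ?_ (l1_nonneg _) ?_)
    · rw [map_add]
      exact (ha.1 κ).trans (Nat.le_add_right _ _)
    · rw [map_add]
      exact (ha.2 l1').trans (Nat.le_add_right _ _)
    · refine (l1_mul_le _ _).trans ((mul_le_of_le_one_left (l1_nonneg _) hY).trans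
        ((l1_mul_le _ _).trans ?_))
      rw [mul_pow, mul_comm (2 ^ n : ℝ)]
      exact mul_le_mul (l1_pow_le_of_le (l1_Bc hQ le_rfl) n) (l1_prod_le_pow fun l => l1_pc hQ _)
        (l1_nonneg _) (by positivity)
    · exact le_trans (by positivity) (hQ.prec n _ hn hk)
  · have hε : 0 ≤ ε n := hQ.fut n hn.le ∅ fun k hk => absurd hk (Finset.notMem_empty k)
    refine (Model.nrm_eq_zero ?_).trans_le (by positivity)
    have hp : ∀ l, (0 : ℝ) < ι l := fun l => Nat.cast_pos.2 (by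
      have := hι l
      have := hQ.two_le
      omega)
    have add : ∀ {τ : ℝ} (a b : Wd Fam), E.toModel.Lo τ a → True → E.toModel.Lo τ (a + b) :=
      fun a b ha _ => (ha.add (Model.Lo.zero b)).mono (add_zero _).ge
    have := Sup.prod_graded (Q := E.toModel.Lo) (Model.Lo.zero 0) (fun _ _ _ _ => Model.Lo.add)
      (s := Finset.univ) (g := fun _ => 1 / (2 * (ι l0 : ℝ))) (f := fun l => Q.Ac (ι l))
      fun l _ => (((lo_al E (ι l)).mul (Sup.trivial _) add).mul (Sup.trivial _) add).mono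
        fun w h => h.mono (by
          have : (ι l : ℝ) ≤ ι l0 := Nat.cast_le.2 (h0' l)
          have := hp l
          gcongr)
    rw [Finset.sum_const, Finset.card_fin, nsmul_eq_mul] at this
    refine this.mono fun w hw => hw.mono ?_
    have := hp l0
    rw [mul_one_div, le_div_iff₀ (by positivity), one_mul]
    exact_mod_cast not_lt.1 hk

theorem lev_main (hQ : Q.OK ε) {n : ℕ} (hn : Q.N < n) (ι : Fin n → ℕ) (hι : ∀ l, n ≤ ι l) :
    E.toModel.nrm ((∏ l, Q.al (ι l)) * Q.Bc (Q.sg n) ^ n * (1 + Q.ub (Q.st n)) ^ n) =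
      FF Q.N Q.Jc Q.ψ (Q.lam n) ^ n * l1 ((1 + Q.u (Q.st n)) ^ n) := by
  have hk := hQ.lt_st n hn
  have hu := up_wU E hQ hk ((hQ.le_en_st n hn).trans (hQ.en_lt _ hk).le)
  have e : (1 + Q.ub (Q.st n)) ^ n = mp (Q.wU (Q.st n)) ((1 + Q.u (Q.st n)) ^ n) := by
    rw [map_pow, map_add, map_one, ub]
  rw [e, mp_eq, Finset.mul_sum]
  generalize (1 + Q.u (Q.st n)) ^ n = v at hu ⊢
  have t := fun m (hm : m ∈ v.coeff.support) =>
    term_LevB E hQ hn ι hι (hu m (Finsupp.mem_support_iff.1 hm))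
  rw [Finset.sum_congr rfl fun m _ => show (∏ l, Q.al (ι l)) * Q.Bc (Q.sg n) ^ n *
      v.coeff m • wd (Q.wU (Q.st n) m) = v.coeff m •
      (Q.Bc (Q.sg n) ^ n * ((∏ l, Q.al (ι l)) * wd (Q.wU (Q.st n) m))) by
        rw [mul_smul_comm, mul_comm (∏ l, Q.al (ι l)), mul_assoc],
    Model.nrm_disj _ _ (fun m => Hd E (.xm (Q.st n) false) m.1 ∩ Hd E (.xm (Q.st n) true) m.2)
      (fun m => (measurableSet_Hd E _ _).inter (measurableSet_Hd E _ _)) (fun m _ m' _ h => ?_)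
      fun m hm => (t m hm).1.smul _, l1, Finset.mul_sum]
  · exact Finset.sum_congr rfl fun m hm => by rw [Model.nrm_smul, (t m hm).2, mul_comm]
  · by_cases h1 : m.1 = m'.1
    · exact (disjoint_Hd E _ fun h2 => h (Prod.ext h1 h2)).mono Set.inter_subset_right
        Set.inter_subset_right
    · exact (disjoint_Hd E _ h1).mono Set.inter_subset_left Set.inter_subset_left

end Pool.Agent.P.MP_f562c3_an.SS.Par
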