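import Pool.Agent.P.MP_f562c3_an.SS.LevB

/-!
Levels above `N`: tuples with all indices in `[n, K k]`, `k = st n`. Let `a = ∏ l, al (ι l)`,
`B = Bc (sg n)`, `p' l = 1 + ∑ k' ∈ (att (ι l)).filter (k' = k ∨ n < k'), ut k'`.
1. `pc (ι l) - p' l` and `sg N - sg n` lie in the ideal `supIdeal (Kil N n L)`, `L` the largest
   index (`tri`, `kil_ut`, `kil_sg`; `ut k' = 0` if `u k' = 0`); so does
   `Bc (sg N) ^ n * ∏ pc - B ^ n * ∏ p'` (`Bc_congr`, `Ideal.Quotient.eq`, `map_prod`), and its l1 norm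
   is at most `2 (2 MB) ^ n`. By `al_split`, `kill` and `prec` (`n ≤ L < 2 L`) this changes the norm
   by at most `ε n * 2 (2 MB) ^ n`.
2. `k ∈ att (ι l)`, and `l1 (p' l - (1 + ut k)) ≤ ε n` by `fut`; `l1_prod_sub_prod_le` with `M = 2`.
3. `(1 + ut k) ^ n - (1 + ub k) ^ n = (1 - wd (wL k)) * z` with
   `z = mp (wU k) (uneg (u k)) * ∑ i ∈ range n, (1 + ut k) ^ i * (1 + ub k) ^ (n - 1 - i)`
   (`ut_sub_ub`, `Commute.geom_sum₂` or `geom_sum₂_mul`), `l1 z ≤ n * 2 ^ n`; all words of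
   `a * B ^ n * z` have `N + 1 ≤ n ≤ ex (delay k) 0` (`delay_al`); `wash_L`, `prec` (`n ≤ en k < 2k`).
4. `lev_main`. Use `abs_nrm_sub_le` and `nrm_le_l1`.
-/

namespace Pool.Agent.P.MP_f562c3_an.SS.Par

variable {Q : Par} (E : Q.En) {ε : ℕ → ℝ}

theorem eps_nonneg_LevC (hQ : Q.OK ε) {n : ℕ} (hn : Q.N ≤ n) : 0 ≤ ε n := by
  simpa using hQ.fut n hn ∅ (by simp)

theorem l1_a_LevC {n : ℕ} (ι : Fin n → ℕ) : l1 (∏ l, Q.al (ι l)) ≤ 1 := by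
  simpa using l1_prod_le_pow (f := fun l => Q.al (ι l)) (M := 1) fun l => l1_al _

theorem l1_mul_LevC {x y : Rg (Wd Fam)} {a b : ℝ} (hx : l1 x ≤ a) (hy : l1 y ≤ b) :
    l1 (x * y) ≤ a * b :=
  (l1_mul_le x y).trans (mul_le_mul hx hy (l1_nonneg _) ((l1_nonneg _).trans hx))

/-- The short blocks that survive at level `n`. -/
def sv_LevC (Q : Par) (n i : ℕ) : Finset ℕ := (Q.att i).filter fun k => k = Q.st n ∨ n < k

theorem att_gt_LevC {i k : ℕ} (h : k ∈ Q.att i) : Q.N < k :=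
  (Finset.mem_Ioc.1 (Finset.mem_filter.1 h).1).1

theorem l1_sv_LevC (hQ : Q.OK ε) (n i : ℕ) : l1 (1 + ∑ k ∈ sv_LevC Q n i, Q.ut k) ≤ 2 :=
  l1_one_add_sum hQ _ fun _ hk => att_gt_LevC (Finset.mem_filter.1 hk).1

theorem kil_pc_LevC (hQ : Q.OK ε) {n : ℕ} (hn : Q.N < n) {L : ℕ} (hL : n ≤ L) (i : ℕ) :
    Sup (Kil Q.N n L) (Q.pc i - (1 + ∑ k ∈ sv_LevC Q n i, Q.ut k)) := by
  have e : Q.pc i - (1 + ∑ k ∈ sv_LevC Q n i, Q.ut k) =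
      ∑ k ∈ (Q.att i).filter (fun k => ¬(k = Q.st n ∨ n < k)), Q.ut k := by
    rw [pc, sv_LevC, ← Finset.sum_filter_add_sum_filter_not (Q.att i)
      (fun k => k = Q.st n ∨ n < k)]
    ring
  rw [e]
  refine Sup.sum fun k hk => ?_
  obtain ⟨hk1, hk2⟩ := Finset.mem_filter.1 hk
  have hk3 := att_gt_LevC hk1
  rcases hQ.tri n k hn hk3 with h | h | h | h
  · exact absurd (Or.inl h) hk2
  · intro w hw
    exfalso
    apply hw
    have h1 := (abs_coeff_le_l1 (Q.ut k) w).trans (l1_ut (Q := Q) k)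
    rw [h, l1_zero] at h1
    exact abs_nonpos_iff.1 h1
  · exact Q.kil_ut (hQ.u_zero k) (hk3.le.trans (hQ.le_en k hk3)) h hL
  · exact absurd (Or.inr h) hk2

theorem step1_LevC (hQ : Q.OK ε) {n : ℕ} (hn : Q.N < n) (ι : Fin n → ℕ) (hι : ∀ l, n ≤ ι l) :
    E.toModel.nrm ((∏ l, Q.al (ι l)) * (Q.Bc (Q.sg Q.N) ^ n * ∏ l, Q.pc (ι l)) -
      (∏ l, Q.al (ι l)) * (Q.Bc (Q.sg n) ^ n * ∏ l, (1 + ∑ k ∈ sv_LevC Q n (ι l), Q.ut k))) ≤
      ε n * 2 * (2 * Q.MB) ^ n := by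
  have hn0 : 0 < n := by omega
  have : Nonempty (Fin n) := ⟨⟨0, hn0⟩⟩
  obtain ⟨l0, hl0⟩ := Finite.exists_max ι
  obtain ⟨Y, hY, hY1, hY2⟩ := Q.al_split ι l0 hl0
  have hL : n ≤ ι l0 := hι l0
  let I : Ideal (Rg (Wd Fam)) := supIdeal (Kil Q.N n (ι l0)) (Kil.add_left Q.N n (ι l0))
  have hB : Q.Bc (Q.sg Q.N) - Q.Bc (Q.sg n) ∈ I := Bc_congr I (Q.kil_sg hn.le hL)
  have hp : ∀ l, Q.pc (ι l) - (1 + ∑ k ∈ sv_LevC Q n (ι l), Q.ut k) ∈ I := fun l =>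
    kil_pc_LevC hQ hn hL (ι l)
  have hD : Q.Bc (Q.sg Q.N) ^ n * ∏ l, Q.pc (ι l) -
      Q.Bc (Q.sg n) ^ n * ∏ l, (1 + ∑ k ∈ sv_LevC Q n (ι l), Q.ut k) ∈ I := by
    rw [← Ideal.Quotient.eq] at hB ⊢
    rw [map_mul, map_mul, map_pow, map_pow, map_prod, map_prod, hB]
    congr 1
    exact Finset.prod_congr rfl fun l _ => Ideal.Quotient.eq.2 (hp l)
  have hMB := one_le_MB hQ
  have hD1 : l1 (Q.Bc (Q.sg Q.N) ^ n * ∏ l, Q.pc (ι l) -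
      Q.Bc (Q.sg n) ^ n * ∏ l, (1 + ∑ k ∈ sv_LevC Q n (ι l), Q.ut k)) ≤ 2 * (2 * Q.MB) ^ n := by
    refine (l1_sub_le _ _).trans ?_
    have a1 := l1_mul_LevC (l1_pow_le_of_le (l1_Bc hQ le_rfl) n)
      (l1_prod_le_pow (f := fun l => Q.pc (ι l)) fun l => l1_pc hQ _)
    have a2 := l1_mul_LevC (l1_pow_le_of_le (l1_Bc hQ hn.le) n)
      (l1_prod_le_pow (f := fun l => 1 + ∑ k ∈ sv_LevC Q n (ι l), Q.ut k)
        fun l => l1_sv_LevC hQ n _)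
    rw [mul_pow]
    linarith
  rw [← mul_sub, hY, mul_assoc]
  refine (kill E hQ (n := n) (hY2.mul (mem_supIdeal.1 hD) fun a b ha hb =>
    ⟨fun κ => ?_, Kil.add_left _ _ _ a b hb⟩)).trans ?_
  · rw [map_add]
    exact (ha.1 κ).trans (Nat.le_add_right _ _)
  · have h1 := hQ.prec n (ι l0) hn (by omega)
    have h2 := l1_mul_LevC hY1 hD1
    rw [one_mul] at h2
    rw [mul_assoc]
    exact mul_le_mul h1 h2 (l1_nonneg _) (eps_nonneg_LevC hQ hn.le)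

theorem step2_LevC (hQ : Q.OK ε) {n : ℕ} (hn : Q.N < n) (ι : Fin n → ℕ) (hι : ∀ l, n ≤ ι l)
    (hK : ∀ l, ι l ≤ Q.K (Q.st n)) :
    E.toModel.nrm ((∏ l, Q.al (ι l)) *
        (Q.Bc (Q.sg n) ^ n * ∏ l, (1 + ∑ k ∈ sv_LevC Q n (ι l), Q.ut k)) -
      (∏ l, Q.al (ι l)) * (Q.Bc (Q.sg n) ^ n * (1 + Q.ut (Q.st n)) ^ n)) ≤
      ε n * n * (2 * Q.MB) ^ n := by
  refine (Model.nrm_le_l1 _).trans ?_
  rw [← mul_sub, ← mul_sub]
  have hε := eps_nonneg_LevC hQ hn.le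
  have h2 : l1 (1 + Q.ut (Q.st n)) ≤ 2 := by
    simpa using l1_one_add_sum hQ {Q.st n} (by simpa using hQ.lt_st n hn)
  have h3 : ∀ l, l1 ((1 + ∑ k ∈ sv_LevC Q n (ι l), Q.ut k) - (1 + Q.ut (Q.st n))) ≤ ε n := by
    intro l
    have hk : Q.st n ∈ sv_LevC Q n (ι l) :=
      Finset.mem_filter.2 ⟨Finset.mem_filter.2 ⟨Finset.mem_Ioc.2
        ⟨hQ.lt_st n hn, (hQ.st_le n hn).trans (hι l)⟩, hK l⟩, Or.inl rfl⟩
    rw [← Finset.add_sum_erase _ _ hk]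
    have e : 1 + (Q.ut (Q.st n) + ∑ k ∈ (sv_LevC Q n (ι l)).erase (Q.st n), Q.ut k) -
        (1 + Q.ut (Q.st n)) = ∑ k ∈ (sv_LevC Q n (ι l)).erase (Q.st n), Q.ut k := by ring
    rw [e]
    refine (l1_sum_le _ _).trans ((Finset.sum_le_sum fun k _ => l1_ut k).trans
      (hQ.fut n hn.le _ fun k hk => ?_))
    obtain ⟨hk1, hk2⟩ := Finset.mem_erase.1 hk
    exact (Finset.mem_filter.1 hk2).2.resolve_left hk1
  have h4 := l1_prod_sub_prod_le (n := n) (f := fun l => 1 + ∑ k ∈ sv_LevC Q n (ι l), Q.ut k)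
    (g := fun _ => 1 + Q.ut (Q.st n)) (M := 2) (by norm_num) hε (fun l => l1_sv_LevC hQ n _)
    (fun _ => h2) h3
  rw [Fin.prod_const] at h4
  have h5 := l1_mul_LevC (l1_a_LevC (Q := Q) ι)
    (l1_mul_LevC (l1_pow_le_of_le (l1_Bc hQ hn.le) n) h4)
  refine h5.trans (le_of_eq ?_)
  rw [mul_pow]
  ring

theorem step3_LevC (hQ : Q.OK ε) {n : ℕ} (hn : Q.N < n) (ι : Fin n → ℕ)
    (hK : ∀ l, ι l ≤ Q.K (Q.st n)) :
    E.toModel.nrm ((∏ l, Q.al (ι l)) * (Q.Bc (Q.sg n) ^ n * (1 + Q.ut (Q.st n)) ^ n) -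
      (∏ l, Q.al (ι l)) * (Q.Bc (Q.sg n) ^ n * (1 + Q.ub (Q.st n)) ^ n)) ≤
      ε n * n * (2 * Q.MB) ^ n := by
  have hk := hQ.lt_st n hn
  set k := Q.st n with hkdef
  have hu : l1 (Q.u k) ≤ 1 := by
    refine (hQ.u_le k).trans ?_
    rw [div_le_one (by positivity)]
    exact one_le_pow₀ (by norm_num)
  have h2 : l1 (1 + Q.ut k) ≤ 2 := by
    have := l1_add_le 1 (Q.ut k)
    have := l1_ut (Q := Q) k
    rw [l1_one] at *
    linarith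
  have h2' : l1 (1 + Q.ub k) ≤ 2 := by
    have := l1_add_le 1 (Q.ub k)
    have : l1 (Q.ub k) ≤ l1 (Q.u k) := l1_mp_le _ _
    rw [l1_one] at *
    linarith
  set g := ∑ i ∈ Finset.range n, (1 + Q.ut k) ^ i * (1 + Q.ub k) ^ (n - 1 - i) with hg
  have hg1 : l1 g ≤ n * 2 ^ n := by
    refine (l1_sum_le _ _).trans ?_
    have : ∀ i ∈ Finset.range n,
        l1 ((1 + Q.ut k) ^ i * (1 + Q.ub k) ^ (n - 1 - i)) ≤ (2 : ℝ) ^ n := by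
      intro i hi
      refine (l1_mul_LevC (l1_pow_le_of_le h2 i) (l1_pow_le_of_le h2' _)).trans ?_
      rw [← pow_add]
      have := Finset.mem_range.1 hi
      exact pow_le_pow_right₀ (by norm_num) (by omega)
    simpa using Finset.sum_le_card_nsmul _ _ _ this
  have e1 : (1 + Q.ut k) ^ n - (1 + Q.ub k) ^ n =
      g * ((1 - wd (wL k)) * mp (Q.wU k) (uneg (Q.u k))) := by
    rw [← ut_sub_ub, ← geom_sum₂_mul]
    congr 1
    ring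
  have e2 : (∏ l, Q.al (ι l)) * (Q.Bc (Q.sg n) ^ n * (1 + Q.ut k) ^ n) -
      (∏ l, Q.al (ι l)) * (Q.Bc (Q.sg n) ^ n * (1 + Q.ub k) ^ n) =
      (1 - wd (wL k)) * ((∏ l, Q.al (ι l)) *
        (Q.Bc (Q.sg n) ^ n * (mp (Q.wU k) (uneg (Q.u k)) * g))) := by
    rw [← mul_sub, ← mul_sub, e1]
    ring
  rw [e2]
  have hs : Sup (fun w => n ≤ ex (.delay k) 0 w) (∏ l, Q.al (ι l)) := by
    have := Sup.prod_graded (G := ℕ) (Q := fun g w => g ≤ ex (Fam.delay k) 0 w) (by simp)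
      (fun g g' a b ha hb => by rw [map_add]; exact add_le_add ha hb) (s := Finset.univ)
      (f := fun l => Q.al (ι l)) (g := fun _ => 1) fun l _ => Q.delay_al (hK l)
    simpa using this
  refine (wash_L E hQ hk (hs.mul (Sup.trivial _) fun a b ha _ => ?_)).trans ?_
  · rw [map_add]
    omega
  · have h1 := hQ.prec n k hn ((hQ.le_en_st n hn).trans_lt (hQ.en_lt k hk))
    have h3 : l1 (mp (Q.wU k) (uneg (Q.u k))) ≤ 1 :=
      (l1_mp_le _ _).trans ((l1_uneg_le _).trans hu)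
    have h5 := l1_mul_LevC (l1_a_LevC (Q := Q) ι)
      (l1_mul_LevC (l1_pow_le_of_le (l1_Bc hQ hn.le) n) (l1_mul_LevC h3 hg1))
    refine (mul_le_mul h1 h5 (l1_nonneg _) (eps_nonneg_LevC hQ hn.le)).trans (le_of_eq ?_)
    rw [mul_pow]
    ring

theorem lev_good (hQ : Q.OK ε) {n : ℕ} (hn : Q.N < n) (ι : Fin n → ℕ) (hι : ∀ l, n ≤ ι l)
    (hK : ∀ l, ι l ≤ Q.K (Q.st n)) :
    |E.toModel.nrm (∏ l, Q.Ac (ι l)) -
        FF Q.N Q.Jc Q.ψ (Q.lam n) ^ n * l1 ((1 + Q.u (Q.st n)) ^ n)| ≤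
      ε n * (2 + 2 * n) * (2 * Q.MB) ^ n := by
  have e0 : ∏ l, Q.Ac (ι l) =
      (∏ l, Q.al (ι l)) * (Q.Bc (Q.sg Q.N) ^ n * ∏ l, Q.pc (ι l)) := by
    simp only [Ac]
    rw [Finset.prod_mul_distrib, Finset.prod_mul_distrib, Fin.prod_const, mul_assoc]
  rw [e0, ← lev_main E hQ hn ι hι, mul_assoc (∏ l, Q.al (ι l))]
  have a1 := abs_le.1 ((Model.abs_nrm_sub_le _ _).trans (step1_LevC E hQ hn ι hι))
  have a2 := abs_le.1 ((Model.abs_nrm_sub_le _ _).trans (step2_LevC E hQ hn ι hι hK))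
  have a3 := abs_le.1 ((Model.abs_nrm_sub_le _ _).trans (step3_LevC E hQ hn ι hK))
  rw [abs_le]
  constructor <;> linarith [a1.1, a1.2, a2.1, a2.2, a3.1, a3.2]

end Pool.Agent.P.MP_f562c3_an.SS.Par
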