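import Pool.Agent.P.MP_f562c3_an.SS.PlatDefs

/-!
* `plat_exists`: choose `N ≥ max 2 N0` with `ρ (N+1) < ρ N` (otherwise `ρ` is eventually constant
  and positive). For `n > N` let `st n` be the least `k > N` with `ρ k = ρ n`, and `en k` the least
  `l ≥ k` with `ρ (l+1) < ρ l`; then `ρ` is constant on `[k, en k]`, and `en k < 2 k` because
  `ρ (2 k) < ρ k`.
* `ladder_exists`: let `f k = ff k (AA N) 1 ≥ 1`, `q k = (ρ (k-1) / ρ k) ^ (1 / Jc) ≥ 1`,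
  `ψ k = f k * (q k - 1) / (q k + 1)`, so `(f + ψ) / (f - ψ) = q`; `q k → 1` as `Jc → ∞`, which
  gives `ψ k ≤ psi0 N` for all `k ∈ [2, N]`. `FB n / FF 1` is the product of `q k ^ Jc` over
  `n < k ≤ N` and telescopes. On `[0,1]` each factor `ff k A x - ψ k * x ^ k` is positive, at least
  `1`, and strictly increasing, because `ψ k ≤ 1`, `(0,0,k)`, `(0,0,0)`, `(0,0,1)` lie in `Typ k A`
  (`k ≤ N ≤ AA N`, `2 ≤ k`). Put `φ n = max (FF 0) (FF 1 * sqrt (ρ n / ρ N))` and choose `lam n` in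
  `[0,1]` with `FF (lam n) = φ n` (intermediate value theorem); `ρ n / φ n` is
  `min (ρ n / FF 0) (sqrt (ρ n * ρ N) / FF 1)`, strictly increasing in `ρ n`.
-/

open Filter Topology

namespace Pool.Agent.P.MP_f562c3_an.SS

theorem anti_Plat (ρ : ℕ → ℝ) (hanti : ∀ n, 1 ≤ n → ρ (n + 1) ≤ ρ n) {a b : ℕ} (ha : 1 ≤ a)
    (hab : a ≤ b) : ρ b ≤ ρ a := by
  induction b, hab using Nat.le_induction with
  | base => exact le_rfl
  | succ b hb ih => exact (hanti b (ha.trans hb)).trans ih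

theorem drop_Plat (ρ : ℕ → ℝ) (hanti : ∀ n, 1 ≤ n → ρ (n + 1) ≤ ρ n) {k : ℕ} (hk : 1 ≤ k)
    (h : ρ (2 * k) < ρ k) : ∃ l, k ≤ l ∧ l < 2 * k ∧ ρ (l + 1) < ρ l := by
  by_contra hc
  have key : ∀ j, k ≤ j → j ≤ 2 * k → ρ k ≤ ρ j := by
    intro j hj
    induction j, hj using Nat.le_induction with
    | base => intro _; exact le_rfl
    | succ j hj ih =>
      intro h2
      have h3 : ¬ ρ (j + 1) < ρ j := fun hd => hc ⟨j, hj, by omega, hd⟩
      exact (ih (by omega)).trans (not_lt.1 h3)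
  exact absurd (key (2 * k) (by omega) le_rfl) (not_le.2 h)

theorem plat_exists (ρ : ℕ → ℝ) (hpos : ∀ n, 1 ≤ n → 0 < ρ n)
    (hanti : ∀ n, 1 ≤ n → ρ (n + 1) ≤ ρ n) (hlim : Tendsto ρ atTop (𝓝 0)) (N0 : ℕ)
    (hfin : ∀ k, N0 ≤ k → ρ (2 * k) < ρ k) : Nonempty (Plat ρ) := by
  have hex : ∀ k, ∃ l, k ≤ l ∧ ρ (l + 1) < ρ l := by
    intro k
    obtain ⟨l, h1, _, h3⟩ := drop_Plat ρ hanti (k := k + N0 + 1) (by omega) (hfin _ (by omega))
    exact ⟨l, by omega, h3⟩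
  obtain ⟨N, hN, hNd⟩ := hex (N0 + 2)
  obtain ⟨en, hen⟩ : ∃ en : ℕ → ℕ, ∀ k, en k = sInf {l | k ≤ l ∧ ρ (l + 1) < ρ l} :=
    ⟨_, fun _ => rfl⟩
  obtain ⟨st, hst⟩ : ∃ st : ℕ → ℕ, ∀ n, st n = sInf {k | N < k ∧ ρ k = ρ n} :=
    ⟨_, fun _ => rfl⟩
  have en_mem : ∀ k, k ≤ en k ∧ ρ (en k + 1) < ρ (en k) := by
    intro k
    rw [hen]
    exact Nat.sInf_mem (s := {l | k ≤ l ∧ ρ (l + 1) < ρ l}) (hex k)
  have en_min : ∀ k l, k ≤ l → ρ (l + 1) < ρ l → en k ≤ l := by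
    intro k l h1 h2
    rw [hen]
    exact Nat.sInf_le ⟨h1, h2⟩
  have en_const : ∀ k j, 1 ≤ k → k ≤ j → j ≤ en k → ρ j = ρ k := by
    intro k j hk hj
    induction j, hj using Nat.le_induction with
    | base => intro _; rfl
    | succ j hj ih =>
      intro h2
      have h3 : ¬ ρ (j + 1) < ρ j := fun hd => by
        have := en_min k j hj hd
        omega
      rw [← ih (by omega)]
      exact le_antisymm (hanti j (hk.trans hj)) (not_lt.1 h3)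
  have en_past : ∀ k j, 1 ≤ k → en k < j → ρ j < ρ k := by
    intro k j hk hj
    have h1 := en_mem k
    have h2 : ρ j ≤ ρ (en k + 1) := anti_Plat ρ hanti (by omega) hj
    have h3 := en_const k (en k) hk h1.1 le_rfl
    linarith [h1.2]
  have st_mem : ∀ n, N < n → N < st n ∧ ρ (st n) = ρ n := by
    intro n hn
    rw [hst]
    exact Nat.sInf_mem (s := {k | N < k ∧ ρ k = ρ n}) ⟨n, hn, rfl⟩
  have st_min : ∀ n k, N < k → ρ k = ρ n → st n ≤ k := by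
    intro n k h1 h2
    rw [hst]
    exact Nat.sInf_le ⟨h1, h2⟩
  have st_congr : ∀ n m, ρ n = ρ m → st n = st m := by
    intro n m h
    rw [hst, hst, h]
  have st_le : ∀ n, N < n → st n ≤ n := fun n hn => st_min n n hn rfl
  have le_en_st : ∀ n, N < n → n ≤ en (st n) := by
    intro n hn
    by_contra hc
    have h1 := st_mem n hn
    have h2 := en_past (st n) n (by omega) (not_le.1 hc)
    linarith [h1.2]
  refine ⟨⟨N, st, en, by omega, hNd, fun n hn => (st_mem n hn).1, st_le, le_en_st,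
    fun n hn => st_congr _ _ (st_mem n hn).2, fun k _ => (en_mem k).1, ?_,
    fun k _ => (en_mem k).2, ?_, ?_, ?_⟩⟩
  · intro k hk
    obtain ⟨l, h1, h2, h3⟩ := drop_Plat ρ hanti (k := k) (by omega) (hfin _ (by omega))
    exact lt_of_le_of_lt (en_min k l h1 h3) h2
  · intro n hn
    rcases (hanti n (by omega)).eq_or_lt with h | h
    · exact Or.inl ⟨st_congr _ _ h, h⟩
    · refine Or.inr ⟨?_, le_antisymm (en_min _ _ (st_le n hn) h) (le_en_st n hn)⟩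
      have h1 := st_mem (n + 1) (by omega)
      have h2 := st_le (n + 1) (by omega)
      by_contra hc
      have h3 : ρ n ≤ ρ (st (n + 1)) := anti_Plat ρ hanti (by omega) (by omega)
      linarith [h1.2]
  · intro n k hn hk _ hlt
    by_contra hc
    have h1 := st_le n hn
    have h2 := en_const k n (by omega) (by omega) (not_lt.1 hc)
    have h3 := st_min n k hk h2.symm
    omega
  · intro n k hn hk hlt
    by_contra hc
    have h1 := st_mem n hn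
    have h2 : ρ k ≤ ρ (st n) := anti_Plat ρ hanti (by omega) hlt.le
    have h3 : ρ n ≤ ρ k := anti_Plat ρ hanti (by omega) (not_lt.1 hc)
    have h4 : st k = st n := st_congr _ _ (le_antisymm (by linarith [h1.2]) h3)
    omega

theorem mem_Typ_Plat {k A c : ℕ} (hk : 1 ≤ k) (hc : c ≤ A) : ((0, 0, c) : ℕ × ℕ × ℕ) ∈ Typ k A := by
  simp only [Typ, Finset.mem_filter, Finset.mem_product, Finset.mem_range]
  omega

theorem ff_split_Plat {k A : ℕ} (hk : 1 ≤ k) (hA : k ≤ A) (p x : ℝ) :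
    ff k A x - p * x ^ k = (1 - p) * x ^ k + ∑ g ∈ (Typ k A).erase (0, 0, k), x ^ g.2.2 := by
  have h := Finset.add_sum_erase (Typ k A) (fun g : ℕ × ℕ × ℕ => x ^ g.2.2) (mem_Typ_Plat hk hA)
  unfold ff
  rw [← h]
  ring

theorem fac_one_Plat {k A : ℕ} (hk : 2 ≤ k) (hA : k ≤ A) {p x : ℝ} (hp : p ≤ 1) (hx : 0 ≤ x) :
    1 ≤ ff k A x - p * x ^ k := by
  rw [ff_split_Plat (by omega) hA]
  have h0 : ((0, 0, 0) : ℕ × ℕ × ℕ) ∈ (Typ k A).erase (0, 0, k) :=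
    Finset.mem_erase.2 ⟨by simp only [ne_eq, Prod.mk.injEq, true_and]; omega,
      mem_Typ_Plat (by omega) (by omega)⟩
  have h1 := Finset.single_le_sum (f := fun g : ℕ × ℕ × ℕ => x ^ g.2.2)
    (fun g _ => pow_nonneg hx _) h0
  have h2 : 0 ≤ (1 - p) * x ^ k := mul_nonneg (by linarith) (pow_nonneg hx _)
  simp only [pow_zero] at h1
  linarith

theorem fac_lt_Plat {k A : ℕ} (hk : 2 ≤ k) (hA : k ≤ A) {p x y : ℝ} (hp : p ≤ 1) (hx : 0 ≤ x)
    (hxy : x < y) : ff k A x - p * x ^ k < ff k A y - p * y ^ k := by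
  rw [ff_split_Plat (by omega) hA, ff_split_Plat (by omega) hA]
  have h0 : ((0, 0, 1) : ℕ × ℕ × ℕ) ∈ (Typ k A).erase (0, 0, k) :=
    Finset.mem_erase.2 ⟨by simp only [ne_eq, Prod.mk.injEq, true_and]; omega,
      mem_Typ_Plat (by omega) (by omega)⟩
  have h1 : ∑ g ∈ (Typ k A).erase (0, 0, k), x ^ g.2.2 <
      ∑ g ∈ (Typ k A).erase (0, 0, k), y ^ g.2.2 :=
    Finset.sum_lt_sum (fun g _ => pow_le_pow_left₀ hx hxy.le _) ⟨_, h0, by simpa using hxy⟩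
  have h2 : (1 - p) * x ^ k ≤ (1 - p) * y ^ k :=
    mul_le_mul_of_nonneg_left (pow_le_pow_left₀ hx hxy.le _) (by linarith)
  linarith

theorem psi0_pos_Plat {N : ℕ} (hN : 1 ≤ N) : 0 < psi0 N := by
  have : (0 : ℝ) < N := by exact_mod_cast hN
  unfold psi0
  positivity

theorem psi0_le_Plat {N : ℕ} (hN : 1 ≤ N) : psi0 N ≤ 1 := by
  have h1 : (1 : ℝ) ≤ N := by exact_mod_cast hN
  have h2 : (0 : ℝ) ≤ AA N := Nat.cast_nonneg _
  have h3 : (1 : ℝ) ≤ ((AA N : ℝ) + 1) ^ 2 := one_le_pow₀ (by linarith)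
  have h4 : (1 : ℝ) ≤ ((N : ℝ) * ((AA N : ℝ) + 1) ^ 2) ^ (2 * N) :=
    one_le_pow₀ (one_le_mul_of_one_le_of_one_le h1 h3)
  have h5 : (1 : ℝ) ≤ 2 ^ (2 * N) := one_le_pow₀ (by norm_num)
  unfold psi0
  rw [div_le_one (by positivity)]
  nlinarith [one_le_mul_of_one_le_of_one_le h4 h5]

theorem tele_Plat (ρ : ℕ → ℝ) (hpos : ∀ n, 1 ≤ n → 0 < ρ n) {n M : ℕ} (hn : 1 ≤ n) (hM : n ≤ M) :
    (∏ k ∈ Finset.Icc 2 M, if n < k then ρ (k - 1) / ρ k else 1) * ρ M = ρ n := by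
  induction M, hM using Nat.le_induction with
  | base =>
    rw [Finset.prod_eq_one, one_mul]
    intro k hk
    rw [if_neg (not_lt.2 (Finset.mem_Icc.1 hk).2)]
  | succ M hM ih =>
    have h := (hpos (M + 1) (by omega)).ne'
    rw [Finset.prod_Icc_succ_top (by omega), if_pos (by omega), Nat.add_sub_cancel, mul_assoc,
      div_mul_cancel₀ _ h, ih]

theorem ratio_Plat {a b c d R : ℝ} (ha : 0 < a) (hab : a < b) (hc : 0 < c) (hd : 0 < d)
    (hR : 0 < R) :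
    a / max c (d * Real.sqrt (a / R)) < b / max c (d * Real.sqrt (b / R)) := by
  have hs : 0 < Real.sqrt (a / R) := Real.sqrt_pos.2 (div_pos ha hR)
  have hst : Real.sqrt (a / R) < Real.sqrt (b / R) :=
    Real.sqrt_lt_sqrt (div_pos ha hR).le (div_lt_div_of_pos_right hab hR)
  rcases le_total c (d * Real.sqrt (b / R)) with h | h
  · rw [max_eq_right h]
    have h1 : a / max c (d * Real.sqrt (a / R)) ≤ a / (d * Real.sqrt (a / R)) :=
      div_le_div_of_nonneg_left ha.le (mul_pos hd hs) (le_max_right _ _)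
    refine h1.trans_lt ?_
    have ea : a = R * Real.sqrt (a / R) ^ 2 := by
      rw [Real.sq_sqrt (div_pos ha hR).le]; field_simp
    have eb : b = R * Real.sqrt (b / R) ^ 2 := by
      rw [Real.sq_sqrt (div_pos (ha.trans hab) hR).le]; field_simp
    generalize Real.sqrt (a / R) = s at *
    generalize Real.sqrt (b / R) = t at *
    have ht : 0 < t := hs.trans hst
    have e1 : a / (d * s) = R / d * s := by rw [ea]; field_simp
    have e2 : b / (d * t) = R / d * t := by rw [eb]; field_simp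
    rw [e1, e2]
    exact mul_lt_mul_of_pos_left hst (div_pos hR hd)
  · rw [max_eq_left h]
    exact (div_le_div_of_nonneg_left ha.le hc (le_max_left _ _)).trans_lt
      (div_lt_div_of_pos_right hab hc)

theorem psi_Plat (ρ : ℕ → ℝ) (hpos : ∀ n, 1 ≤ n → 0 < ρ n)
    (hanti : ∀ n, 1 ≤ n → ρ (n + 1) ≤ ρ n) {N : ℕ} (hN : 2 ≤ N) :
    ∃ (Jc : ℕ) (ψ : ℕ → ℝ), 1 ≤ Jc ∧ (∀ k, 0 ≤ ψ k ∧ ψ k ≤ psi0 N) ∧
      ∀ n, 1 ≤ n → n ≤ N → FB N Jc ψ n * ρ N = FF N Jc ψ 1 * ρ n := by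
  have hp := psi0_pos_Plat (N := N) (by omega)
  have hr : ∀ k ∈ Finset.Icc 2 N, 1 ≤ ρ (k - 1) / ρ k := by
    intro k hk
    have h := (Finset.mem_Icc.1 hk).1
    rw [one_le_div (hpos k (by omega))]
    exact anti_Plat ρ hanti (by omega) (by omega)
  have hev : ∀ k ∈ Finset.Icc 2 N, ∀ᶠ J : ℕ in atTop,
      ff k (AA N) 1 * (((ρ (k - 1) / ρ k) ^ (1 / (J : ℝ)) - 1) /
        ((ρ (k - 1) / ρ k) ^ (1 / (J : ℝ)) + 1)) ≤ psi0 N := by
    intro k hk
    have h0 : ρ (k - 1) / ρ k ≠ 0 := by linarith [hr k hk]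
    have h1 : Tendsto (fun J : ℕ => (ρ (k - 1) / ρ k) ^ (1 / (J : ℝ))) atTop (𝓝 1) := by
      have := (Real.continuousAt_const_rpow (b := 0) h0).tendsto.comp
        (tendsto_one_div_atTop_nhds_zero_nat (𝕜 := ℝ))
      rw [Real.rpow_zero] at this
      exact this
    have h2 := ((h1.sub_const 1).div (h1.add_const 1) (by norm_num)).const_mul (ff k (AA N) 1)
    rw [sub_self, zero_div, mul_zero] at h2
    exact (h2.eventually (gt_mem_nhds hp)).mono fun J hJ => le_of_lt hJ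
  obtain ⟨Jc, hJ, hJ1⟩ :=
    (((eventually_all_finset _).2 hev).and (eventually_ge_atTop 1)).exists
  obtain ⟨q, hq⟩ : ∃ q : ℕ → ℝ, ∀ k, q k = (ρ (k - 1) / ρ k) ^ (1 / (Jc : ℝ)) := ⟨_, fun _ => rfl⟩
  simp only [← hq] at hJ
  have hq1 : ∀ k ∈ Finset.Icc 2 N, 1 ≤ q k := fun k hk => by
    rw [hq]; exact Real.one_le_rpow (hr k hk) (by positivity)
  have hqJ : ∀ k ∈ Finset.Icc 2 N, q k ^ Jc = ρ (k - 1) / ρ k := fun k hk => by
    rw [hq, one_div]
    exact Real.rpow_inv_natCast_pow (by linarith [hr k hk]) (by omega)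
  obtain ⟨ψ, hψ⟩ : ∃ ψ : ℕ → ℝ, ∀ k, ψ k =
      if k ∈ Finset.Icc 2 N then ff k (AA N) 1 * ((q k - 1) / (q k + 1)) else 0 :=
    ⟨_, fun _ => rfl⟩
  refine ⟨Jc, ψ, hJ1, fun k => ?_, fun n hn hnN => ?_⟩
  · rw [hψ]
    split_ifs with hk
    · refine ⟨mul_nonneg ?_ (div_nonneg ?_ ?_), hJ k hk⟩
      · exact Finset.sum_nonneg fun g _ => by positivity
      · linarith [hq1 k hk]
      · linarith [hq1 k hk]
    · exact ⟨le_rfl, hp.le⟩
  · have e1 : FB N Jc ψ n = FF N Jc ψ 1 * ∏ s ∈ Sb N Jc, if n < s.1 then q s.1 else 1 := by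
      unfold FB FF
      rw [← Finset.prod_mul_distrib]
      refine Finset.prod_congr rfl fun s hs => ?_
      have hk : s.1 ∈ Finset.Icc 2 N := (Finset.mem_product.1 hs).1
      have h1 : q s.1 + 1 ≠ 0 := by linarith [hq1 _ hk]
      rw [one_pow, mul_one]
      split_ifs with h
      · rw [hψ, if_pos hk]; field_simp; ring
      · rw [mul_one]
    have e2 : (∏ s ∈ Sb N Jc, if n < s.1 then q s.1 else 1) =
        ∏ k ∈ Finset.Icc 2 N, if n < k then ρ (k - 1) / ρ k else 1 := by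
      unfold Sb
      rw [Finset.prod_product]
      refine Finset.prod_congr rfl fun k hk => ?_
      simp only [Finset.prod_const, Finset.card_range]
      split_ifs with h
      · exact hqJ k hk
      · exact one_pow _
    rw [e1, e2, mul_assoc, tele_Plat ρ hpos hn hnN]

theorem ladder_exists (ρ : ℕ → ℝ) (hpos : ∀ n, 1 ≤ n → 0 < ρ n)
    (hanti : ∀ n, 1 ≤ n → ρ (n + 1) ≤ ρ n) (hlim : Tendsto ρ atTop (𝓝 0)) {N : ℕ} (hN : 2 ≤ N) :
    ∃ (Jc : ℕ) (ψ : ℕ → ℝ) (lam : ℕ → ℝ) (n0 : ℕ), (∀ k, 0 ≤ ψ k ∧ ψ k ≤ psi0 N) ∧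
      (∀ n, 1 ≤ n → n ≤ N → FB N Jc ψ n * ρ N = FF N Jc ψ 1 * ρ n) ∧
      N < n0 ∧ lam N = 1 ∧ (∀ n, N ≤ n → lam (n + 1) ≤ lam n) ∧ (∀ n, n0 ≤ n → lam n = 0) ∧
      (∀ n, N ≤ n → 1 ≤ FF N Jc ψ (lam n)) ∧
      (∀ n, N ≤ n → ρ (n + 1) = ρ n → lam (n + 1) = lam n) ∧
      ∀ n, N ≤ n → ρ (n + 1) < ρ n →
        ρ (n + 1) / FF N Jc ψ (lam (n + 1)) < ρ n / FF N Jc ψ (lam n) := by
  obtain ⟨Jc, ψ, hJ, hψ, hFB⟩ := psi_Plat ρ hpos hanti hN
  have hψ1 : ∀ k, ψ k ≤ 1 := fun k => (hψ k).2.trans (psi0_le_Plat (by omega))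
  have hS : ∀ s ∈ Sb N Jc, 2 ≤ s.1 ∧ s.1 ≤ AA N := fun s hs => by
    have := Finset.mem_Icc.1 (Finset.mem_product.1 hs).1
    exact ⟨this.1, this.2.trans (le_AA N)⟩
  have hone : ∀ x, 0 ≤ x → 1 ≤ FF N Jc ψ x := fun x hx =>
    (Finset.prod_const_one (s := Sb N Jc)).ge.trans <| Finset.prod_le_prod (fun _ _ => zero_le_one)
      fun s hs => fac_one_Plat (hS s hs).1 (hS s hs).2 (hψ1 _) hx
  have hmono : StrictMonoOn (FF N Jc ψ) (Set.Icc 0 1) := by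
    intro x hx y _ hxy
    refine Finset.prod_lt_prod_of_nonempty (fun s hs => ?_) (fun s hs => ?_) ⟨(2, 0), ?_⟩
    · exact one_pos.trans_le (fac_one_Plat (hS s hs).1 (hS s hs).2 (hψ1 _) hx.1)
    · exact fac_lt_Plat (hS s hs).1 (hS s hs).2 (hψ1 _) hx.1 hxy
    · exact Finset.mem_product.2 ⟨Finset.mem_Icc.2 ⟨le_rfl, hN⟩, Finset.mem_range.2 hJ⟩
  have hcont : Continuous (FF N Jc ψ) := by
    unfold FF ff
    fun_prop
  have m0 : (0 : ℝ) ∈ Set.Icc (0 : ℝ) 1 := ⟨le_rfl, zero_le_one⟩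
  have m1 : (1 : ℝ) ∈ Set.Icc (0 : ℝ) 1 := ⟨zero_le_one, le_rfl⟩
  have h01 : FF N Jc ψ 0 ≤ FF N Jc ψ 1 := (hmono m0 m1 one_pos).le
  have hc : 0 < FF N Jc ψ 0 := one_pos.trans_le (hone 0 le_rfl)
  have hd : 0 < FF N Jc ψ 1 := hc.trans_le h01
  have hR : 0 < ρ N := hpos N (by omega)
  have hex : ∀ n, ∃ x : ℝ, N ≤ n → x ∈ Set.Icc (0 : ℝ) 1 ∧
      FF N Jc ψ x = max (FF N Jc ψ 0) (FF N Jc ψ 1 * Real.sqrt (ρ n / ρ N)) := by
    intro n
    by_cases hn : N ≤ n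
    · have h1 : Real.sqrt (ρ n / ρ N) ≤ 1 :=
        Real.sqrt_le_one.2 ((div_le_one hR).2 (anti_Plat ρ hanti (by omega) hn))
      obtain ⟨x, hx, e⟩ := intermediate_value_Icc zero_le_one hcont.continuousOn
        (⟨le_max_left _ _, max_le h01 (mul_le_of_le_one_right hd.le h1)⟩ :
          max (FF N Jc ψ 0) (FF N Jc ψ 1 * Real.sqrt (ρ n / ρ N)) ∈ Set.Icc _ _)
      exact ⟨x, fun _ => ⟨hx, e⟩⟩
    · exact ⟨0, fun h => absurd h hn⟩
  choose lam hlam using hex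
  have hl : Tendsto (fun n => FF N Jc ψ 1 * Real.sqrt (ρ n / ρ N)) atTop (𝓝 0) := by
    have := ((hlim.div_const (ρ N)).sqrt).const_mul (FF N Jc ψ 1)
    rwa [zero_div, Real.sqrt_zero, mul_zero] at this
  obtain ⟨n1, hn1⟩ := eventually_atTop.1 (hl.eventually (gt_mem_nhds hc))
  refine ⟨Jc, ψ, lam, n1 + N + 1, hψ, hFB, by omega, ?_, fun n hn => ?_, fun n hn => ?_,
    fun n hn => hone _ (hlam n hn).1.1, fun n hn e => ?_, fun n hn h => ?_⟩
  · refine hmono.injOn (hlam N le_rfl).1 m1 ?_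
    rw [(hlam N le_rfl).2, div_self hR.ne', Real.sqrt_one, mul_one, max_eq_right h01]
  · rw [← hmono.le_iff_le (hlam (n + 1) (by omega)).1 (hlam n hn).1, (hlam n hn).2,
      (hlam (n + 1) (by omega)).2]
    refine max_le_max le_rfl (mul_le_mul_of_nonneg_left (Real.sqrt_le_sqrt ?_) hd.le)
    exact div_le_div_of_nonneg_right (hanti n (by omega)) hR.le
  · refine hmono.injOn (hlam n (by omega)).1 m0 ?_
    rw [(hlam n (by omega)).2, max_eq_left (hn1 n (by omega)).le]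
  · refine hmono.injOn (hlam (n + 1) (by omega)).1 (hlam n hn).1 ?_
    rw [(hlam n hn).2, (hlam (n + 1) (by omega)).2, e]
  · rw [(hlam n hn).2, (hlam (n + 1) (by omega)).2]
    exact ratio_Plat (hpos _ (by omega)) h hc hd hR

end Pool.Agent.P.MP_f562c3_an.SS
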