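import Pool.Agent.P.MP_f562c3_an.SS.Comp
import Pool.Agent.P.MP_f562c3_an.SS.Plat
import Pool.Agent.P.MP_f562c3_an.SS.Blocks

/-!
Choice of all parameters.
-/

open Filter Topology

namespace Pool.Agent.P.MP_f562c3_an.SS

theorem one_le_ff_MainA {k : ℕ} (hk : 0 < k) (A : ℕ) : 1 ≤ ff k A 1 := by
  have h : ((0, 0, 0) : ℕ × ℕ × ℕ) ∈ Typ k A := by simp [Typ, hk]
  have := Finset.single_le_sum (f := fun g : ℕ × ℕ × ℕ => (1 : ℝ) ^ g.2.2)
    (fun _ _ => by positivity) h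
  simpa [ff] using this

theorem mono_choice_MainA (T : ℕ → ℕ → Prop) (h : ∀ k, ∀ᶠ J in atTop, T k J) :
    ∃ Jk : ℕ → ℕ, Monotone Jk ∧ ∀ k, T k (Jk k) := by
  choose b hb using fun k => eventually_atTop.1 (h k)
  refine ⟨fun k => ∑ i ∈ Finset.range (k + 1), b i, fun i j hij => ?_, fun k => hb k _ ?_⟩
  · exact Finset.sum_le_sum_of_subset (Finset.range_mono (by omega))
  · exact Finset.single_le_sum (f := b) (fun _ _ => Nat.zero_le _) (Finset.self_mem_range_succ k)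

theorem ev_pow_MainA (c : ℕ) : ∀ᶠ J in atTop, c ≤ 2 ^ J := by
  filter_upwards [eventually_ge_atTop c] with J hJ
  exact hJ.trans Nat.lt_two_pow_self.le

theorem ev_small_MainA {e : ℝ} (he : 0 < e) : ∀ᶠ J : ℕ in atTop, 4 / (2 : ℝ) ^ J ≤ e := by
  have h : Tendsto (fun J : ℕ => 4 / (2 : ℝ) ^ J) atTop (𝓝 0) :=
    tendsto_const_nhds.div_atTop (tendsto_pow_atTop_atTop_of_one_lt one_lt_two)
  exact h.eventually (ge_mem_nhds he)

/-- The target sequence of the fixed point. -/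
noncomputable def Par.RR (Q : Par) (ρ : ℕ → ℝ) (n : ℕ) : ℝ :=
  ρ n / FF Q.N Q.Jc Q.ψ (Q.lam n) / GG Q.N Q.st Q.u n

theorem par_exists (ρ : ℕ → ℝ) (hpos : ∀ n, 1 ≤ n → 0 < ρ n)
    (hanti : ∀ n, 1 ≤ n → ρ (n + 1) ≤ ρ n) (hlim : Tendsto ρ atTop (𝓝 0)) (N0 : ℕ)
    (hfin : ∀ k, N0 ≤ k → ρ (2 * k) < ρ k) :
    ∃ (Q : Par) (ε m : ℕ → ℝ), Q.OK ε ∧
      (∀ n, 1 ≤ n → n ≤ Q.N → FB Q.N Q.Jc Q.ψ n * ρ Q.N = FF Q.N Q.Jc Q.ψ 1 * ρ n) ∧
      (∀ n, Q.N ≤ n → 1 ≤ FF Q.N Q.Jc Q.ψ (Q.lam n)) ∧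
      Tendsto (Q.RR ρ) atTop (𝓝 0) ∧ (∀ n, Q.N ≤ n → 0 < m n) ∧
      (∀ n, Q.N ≤ n → 4 * m n ≤ Q.RR ρ n - Q.RR ρ (n + 1)) ∧
      (∀ n, Q.N ≤ n → 4 * m (n + 1) ≤ Q.RR ρ n - Q.RR ρ (n + 1)) ∧
      ∀ n, Q.N ≤ n →
        (ε n * (2 + 2 * n) * (2 * Q.MB) ^ n * (2 * Q.RR ρ Q.N) +
          n * (if n ≤ Q.N then 0 else (2 * Q.MB) ^ n) *
            (2 * Q.RR ρ ((if n ≤ Q.N then Q.N else Q.K (Q.st n)) + 1))) *
          (2 * Q.RR ρ Q.N) ^ (n - 1) ≤ m n * (Q.RR ρ n / 2) ^ (n - 1) / (2 * n) := by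
  classical
  obtain ⟨P⟩ := plat_exists ρ hpos hanti hlim N0 hfin
  obtain ⟨Jc, ψ, lam, n0, hψ, hFB, hn0, hl1, hla, hl0, hF1, hleq, hllt⟩ :=
    ladder_exists ρ hpos hanti hlim P.two_le
  have hN := P.two_le
  set N := P.N with hNdef
  let T : ℕ → ℝ := fun n => ρ n / FF N Jc ψ (lam n)
  have hT : ∀ n, N ≤ n → 0 < T n := fun n hn =>
    div_pos (hpos n (by omega)) (lt_of_lt_of_le one_pos (hF1 n hn))
  let MM : ℝ := 2 * ∏ s ∈ Sb N Jc, (ff s.1 (AA N) 1 + ψ s.1)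
  have hMM : 0 < MM := by
    refine mul_pos two_pos (Finset.prod_pos fun s hs => ?_)
    have h2 : 2 ≤ s.1 := (Finset.mem_Icc.1 (Finset.mem_product.1 hs).1).1
    linarith [one_le_ff_MainA (k := s.1) (by omega) (AA N), (hψ s.1).1]
  let κ : ℕ → ℝ := fun n => 1 / (T N * (2 + 2 * n) * MM ^ n * (2 * T N) ^ n * (4 * n) * 2 ^ n)
  have hκ : ∀ n, N ≤ n → 0 < κ n := fun n hn => by
    have := hT N le_rfl
    have : (0 : ℝ) < n := by exact_mod_cast (by omega : 0 < n)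
    simp only [κ]; positivity
  obtain ⟨u, m, hu0, hust, hule, hm, h1, h2, hfut⟩ := blocks_exists P T κ hT hκ
    (fun n hn h => by simp only [T]; rw [h, hleq n hn h]) (fun n hn h => hllt n hn h)
  let R : ℕ → ℝ := fun n => T n / GG N P.st u n
  have hG := one_le_GG N P.st hu0
  have hR : ∀ n, N ≤ n → 0 < R n := fun n hn => div_pos (hT n hn) (lt_of_lt_of_le one_pos (hG n))
  have hRN : R N = T N := by simp [R, GG]
  have hRle : ∀ n, N ≤ n → R n ≤ T N := by
    intro n hn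
    induction n, hn using Nat.le_induction with
    | base => exact hRN.le
    | succ n hn ih =>
      have := h1 n hn
      have := hm n hn
      simp only [R] at ih ⊢
      linarith
  have hRlim : Tendsto R atTop (𝓝 0) := by
    refine tendsto_of_tendsto_of_tendsto_of_le_of_le' tendsto_const_nhds hlim ?_ ?_
    · filter_upwards [eventually_ge_atTop N] with n hn using (hR n hn).le
    · filter_upwards [eventually_ge_atTop N] with n hn
      exact (div_le_self (hT n hn).le (hG n)).trans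
        (div_le_self (hpos n (by omega)).le (hF1 n hn))
  have hKex : ∀ k, ∃ K, k ≤ K ∧ ∀ n ∈ Finset.Ico N (2 * k),
      n * MM ^ n * (2 * R (K + 1)) * (2 * R N) ^ (n - 1) ≤ m n * (R n / 2) ^ (n - 1) / (4 * n) := by
    intro k
    have : ∀ᶠ K in atTop, ∀ n ∈ Finset.Ico N (2 * k),
        n * MM ^ n * (2 * R (K + 1)) * (2 * R N) ^ (n - 1) ≤
          m n * (R n / 2) ^ (n - 1) / (4 * n) := by
      rw [eventually_all_finset]
      intro n hn
      have hn' := (Finset.mem_Ico.1 hn).1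
      have hp : 0 < m n * (R n / 2) ^ (n - 1) / (4 * n) := by
        have := hm n hn'
        have := hR n hn'
        have : (0 : ℝ) < n := by exact_mod_cast (by omega : 0 < n)
        positivity
      have ht : Tendsto (fun K : ℕ => n * MM ^ n * (2 * R (K + 1)) * (2 * R N) ^ (n - 1)) atTop
          (𝓝 (n * MM ^ n * (2 * 0) * (2 * R N) ^ (n - 1))) :=
        ((((hRlim.comp (tendsto_add_atTop_nat 1)).const_mul 2).const_mul _).mul_const _)
      rw [mul_zero, mul_zero, zero_mul] at ht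
      exact ht.eventually (ge_mem_nhds hp)
    exact ((eventually_ge_atTop k).and this).exists
  choose K hK hKs using hKex
  let Dk : ℕ → ℕ := fun k => (u k).coeff.support.sup fun x => x.1 + x.2
  let ε : ℕ → ℝ := fun n => κ n * m n * R n ^ n
  have hε : ∀ n, N ≤ n → 0 < ε n := fun n hn =>
    mul_pos (mul_pos (hκ n hn) (hm n hn)) (pow_pos (hR n hn) n)
  obtain ⟨Jk, hJm, hJ⟩ := mono_choice_MainA (fun k J => k + 2 ≤ J ∧ 32 * k * (k + 2) ≤ 2 ^ J ∧
      64 * n0 * (Sb N Jc).card * AA N ≤ 2 ^ J ∧ 64 * k * (Dk k + 1) ≤ 2 ^ J ∧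
      2 * N * AA N ≤ J ∧ ∀ n ∈ Finset.Ioo N (2 * k), 4 / (2 : ℝ) ^ J ≤ ε n) fun k => by
    refine (eventually_ge_atTop _).and ((ev_pow_MainA _).and ((ev_pow_MainA _).and
      ((ev_pow_MainA _).and ((eventually_ge_atTop _).and ?_))))
    rw [eventually_all_finset]
    exact fun n hn => ev_small_MainA (hε n (Finset.mem_Ioo.1 hn).1.le)
  refine ⟨⟨N, Jc, n0, ψ, lam, P.st, P.en, K, Jk, Dk, u⟩, ε, m, ?_, hFB, hF1, hRlim, hm, h1, h2, ?_⟩
  · exact {
      two_le := hN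
      psi := hψ
      lt_n0 := hn0
      lam_N := hl1
      lam_anti := hla
      lam_zero := hl0
      lt_st := P.lt_st
      st_le := P.st_le
      le_en_st := P.le_en_st
      le_en := P.le_en
      en_lt := P.en_lt
      tri := fun n k hn hk => by
        by_cases hs : P.st k = k
        · rcases lt_trichotomy k (P.st n) with h | h | h
          · exact Or.inr (Or.inr (Or.inl (P.past n k hn hk hs h)))
          · exact Or.inl h
          · exact Or.inr (Or.inr (Or.inr (P.future n k hn hs h)))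
        · exact Or.inr (Or.inl (hust k hs))
      u_zero := hu0
      u_le := hule
      u_deg := fun k x hx =>
        Finset.le_sup (f := fun x : ℕ × ℕ => x.1 + x.2) (Finsupp.mem_support_iff.2 hx)
      le_K := hK
      J_mono := hJm
      J_ge := fun k => (hJ k).1
      J_al := fun k => (hJ k).2.1
      J_B := (hJ N).2.2.1
      J_u := fun k => (hJ k).2.2.2.1
      J_sh := (hJ N).2.2.2.2.1
      prec := fun n k hn hk => (hJ k).2.2.2.2.2 n (Finset.mem_Ioo.2 ⟨hn, hk⟩)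
      fut := hfut }
  · intro n hn
    change N ≤ n at hn
    change (ε n * (2 + 2 * n) * MM ^ n * (2 * R N) +
      n * (if n ≤ N then 0 else MM ^ n) * (2 * R ((if n ≤ N then N else K (P.st n)) + 1))) *
        (2 * R N) ^ (n - 1) ≤ m n * (R n / 2) ^ (n - 1) / (2 * n)
    have hn0' : (0 : ℝ) < n := by exact_mod_cast (by omega : 0 < n)
    have hTN := hT N le_rfl
    have hRn := hR n hn
    have hmn := hm n hn
    obtain ⟨n', rfl⟩ : ∃ n', n = n' + 1 := ⟨n - 1, by omega⟩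
    have hA : ε (n' + 1) * (2 + 2 * ((n' + 1 : ℕ) : ℝ)) * MM ^ (n' + 1) * (2 * R N) *
        (2 * R N) ^ (n' + 1 - 1) ≤
        m (n' + 1) * (R (n' + 1) / 2) ^ (n' + 1 - 1) / (4 * ((n' + 1 : ℕ) : ℝ)) := by
      have e : ε (n' + 1) * (2 + 2 * ((n' + 1 : ℕ) : ℝ)) * MM ^ (n' + 1) * (2 * R N) *
          (2 * R N) ^ (n' + 1 - 1) =
          m (n' + 1) * (R (n' + 1) / 2) ^ (n' + 1 - 1) / (4 * ((n' + 1 : ℕ) : ℝ)) *
            (R (n' + 1) / (2 * T N)) := by
        simp only [ε, κ, hRN, Nat.add_sub_cancel, div_pow, pow_succ]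
        field_simp
      rw [e]
      refine mul_le_of_le_one_right (by positivity) ?_
      rw [div_le_one (by positivity)]
      linarith [hRle _ hn]
    have hB : ((n' + 1 : ℕ) : ℝ) * (if n' + 1 ≤ N then 0 else MM ^ (n' + 1)) *
        (2 * R ((if n' + 1 ≤ N then N else K (P.st (n' + 1))) + 1)) * (2 * R N) ^ (n' + 1 - 1) ≤
        m (n' + 1) * (R (n' + 1) / 2) ^ (n' + 1 - 1) / (4 * ((n' + 1 : ℕ) : ℝ)) := by
      split_ifs with h
      · simp only [mul_zero, zero_mul]; positivity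
      · have hlt : N < n' + 1 := by omega
        refine hKs _ _ (Finset.mem_Ico.2 ⟨hn, ?_⟩)
        exact (P.le_en_st _ hlt).trans_lt (P.en_lt _ (P.lt_st _ hlt))
    rw [add_mul]
    refine (add_le_add hA hB).trans (le_of_eq ?_)
    field_simp
    ring

end Pool.Agent.P.MP_f562c3_an.SS
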