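import Pool.Agent.P.MP_f562c3_an.SS.LevA
import Pool.Agent.P.MP_f562c3_an.SS.LevC
import Pool.Agent.P.MP_f562c3_an.SS.Eng
import Pool.Agent.P.MP_f562c3_an.SS.Fix
import Pool.Agent.P.MP_f562c3_an.SS.Alg3
import Pool.Agent.P.MP_f562c3_an.SS.MainA

/-!
Assembly: a star-shaped radical weight with finitely many equalities embeds isometrically.
-/

open Filter Topology Set

namespace Pool.Agent.P.MP_f562c3_an.SS

theorem prod_sub_one_le_Main {n : ℕ} {e : Fin n → ℝ} {δ : ℝ} (hδ : 0 ≤ δ) (h1 : ∀ l, 1 ≤ e l)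
    (h2 : ∀ l, e l ≤ 2) (h3 : ∀ l, e l ≤ 1 + δ) : |∏ l, e l - 1| ≤ n * δ * 2 ^ n := by
  induction n with
  | zero => simp
  | succ n ih =>
    have h := ih (e := fun l => e l.succ) (fun l => h1 _) (fun l => h2 _) (fun l => h3 _)
    rw [Fin.prod_univ_succ]
    have e1 : e 0 * ∏ l : Fin n, e l.succ - 1 = e 0 * (∏ l : Fin n, e l.succ - 1) + (e 0 - 1) := by
      ring
    have h4 : (1 : ℝ) ≤ 2 ^ (n + 1) := one_le_pow₀ one_le_two
    rw [e1]
    calc _ ≤ |e 0 * (∏ l : Fin n, e l.succ - 1)| + |e 0 - 1| := abs_add_le _ _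
      _ ≤ 2 * (n * δ * 2 ^ n) + δ := by
          refine add_le_add ?_ ?_
          · rw [abs_mul, abs_of_nonneg (by linarith [h1 0])]
            exact mul_le_mul (h2 0) h (abs_nonneg _) zero_le_two
          · rw [abs_of_nonneg (by linarith [h1 0])]; linarith [h3 0]
      _ ≤ 2 * (n * δ * 2 ^ n) + δ * 2 ^ (n + 1) := by nlinarith
      _ = _ := by push_cast; ring

theorem geom_le_Main (L : ℕ) : ∑ k ∈ Finset.Ioc 0 L, (1 : ℝ) / 2 ^ k = 1 - 1 / 2 ^ L := by
  induction L with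
  | zero => simp
  | succ L ih => rw [Finset.sum_Ioc_succ_top (Nat.zero_le L), ih]; field_simp; ring

theorem ec_mem_Main {Q : Par} {ε : ℕ → ℝ} (hQ : Q.OK ε) (i : ℕ) :
    1 ≤ Q.ec i ∧ Q.ec i ≤ 2 ∧ Q.ec i ≤ 1 + ε Q.N := by
  refine ⟨le_add_of_nonneg_right (Finset.sum_nonneg fun _ _ => l1_nonneg _), ?_, ?_⟩
  · have h1 : ∑ k ∈ Q.att i, l1 (Q.u k) ≤ ∑ k ∈ Finset.Ioc 0 i, (1 : ℝ) / 2 ^ k := by
      refine (Finset.sum_le_sum fun k _ => hQ.u_le k).trans
        (Finset.sum_le_sum_of_subset_of_nonneg (fun k hk => ?_) fun _ _ _ => by positivity)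
      have := Finset.mem_Ioc.1 (Finset.mem_filter.1 hk).1
      exact Finset.mem_Ioc.2 ⟨by omega, this.2⟩
    rw [geom_le_Main] at h1
    have : (0 : ℝ) < 1 / 2 ^ i := by positivity
    unfold Par.ec
    linarith
  · have := hQ.fut Q.N le_rfl (Q.att i) fun k hk => (Finset.mem_Ioc.1 (Finset.mem_filter.1 hk).1).1
    unfold Par.ec
    linarith

theorem embeds_of_roots {w ρ : ℕ → ℝ} (hw : ∀ n, 0 < w n) (hw0 : w 0 = 1)
    (hsub : ∀ m n, w (m + n) ≤ w m * w n) (hρ : ∀ n, 1 ≤ n → ρ n ^ n = w n)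
    (hpos : ∀ n, 1 ≤ n → 0 < ρ n) (hanti : ∀ n, 1 ≤ n → ρ (n + 1) ≤ ρ n)
    (hlim : Tendsto ρ atTop (𝓝 0)) (N0 : ℕ) (hfin : ∀ k, N0 ≤ k → ρ (2 * k) < ρ k) :
    Embeds w := by
  classical
  obtain ⟨Q, ε, m, hQ, hFB, hF1, hRlim, hm, h1, h2, hsmall⟩ :=
    par_exists ρ hpos hanti hlim N0 hfin
  obtain ⟨E⟩ := eng_exists Fam Q.rk Q.JJ Q.one_le_rk
  have hN := hQ.two_le
  have hG := one_le_GG Q.N Q.st hQ.u_zero
  have hMB := Par.one_le_MB hQ
  have hε : ∀ n, Q.N ≤ n → 0 ≤ ε n := fun n hn => by simpa using hQ.fut n hn ∅ (by simp)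
  let c : ℕ → ℝ := fun n => (FF Q.N Q.Jc Q.ψ (Q.lam n) * GG Q.N Q.st Q.u n) ^ n
  have hc : ∀ n, Q.N ≤ n → 1 ≤ c n := fun n hn =>
    one_le_pow₀ (one_le_mul_of_one_le_of_one_le (hF1 n hn) (hG n))
  let X : (n : ℕ) → (Fin n → ℕ) → ℝ := fun n ι => E.toModel.nrm (∏ l, Q.Ac (ι l))
  have hX0 : ∀ n ι, 0 ≤ X n ι := fun n ι => Model.nrm_nonneg _
  have hXle : ∀ n ι, X n ι ≤ (2 * Q.MB) ^ n := fun n ι =>
    (Model.nrm_le_l1 _).trans (l1_prod_le_pow fun l => Par.l1_Ac hQ _)
  have hFN : FB Q.N Q.Jc Q.ψ Q.N = FF Q.N Q.Jc Q.ψ 1 :=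
    mul_right_cancel₀ (hpos Q.N (by omega)).ne' (hFB Q.N (by omega) le_rfl)
  have hR : ∀ n, Q.N ≤ n → 0 < Q.RR ρ n := fun n hn =>
    div_pos (div_pos (hpos n (by omega)) (lt_of_lt_of_le one_pos (hF1 n hn)))
      (lt_of_lt_of_le one_pos (hG n))
  obtain ⟨a, ha0, haN, hsum, hfix⟩ := fix_exists Q.N (by omega) (Q.RR ρ) m hR hRlim hm h1 h2
    (fun n ι => X n ι / c n - if ∀ l, n ≤ ι l then 1 else 0)
    (fun n => if n ≤ Q.N then Q.N else Q.K (Q.st n))
    (fun n => ε n * (2 + 2 * n) * (2 * Q.MB) ^ n)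
    (fun n => if n ≤ Q.N then 0 else (2 * Q.MB) ^ n)
    (fun n hn => by
      split_ifs with h
      · exact le_rfl
      · exact (hQ.lt_st n (by omega)).le.trans (hQ.le_K _))
    (fun n hn => by have := hε n hn; positivity)
    (fun n hn => by split_ifs <;> positivity)
    (fun n hn ι hι => by
      have hεn := hε n hn
      have hcn := hc n hn
      have hM1 : (1 : ℝ) ≤ (2 * Q.MB) ^ n := one_le_pow₀ (by linarith)
      have hn0 : (0 : ℝ) ≤ n := Nat.cast_nonneg n
      have hpos1 : 0 ≤ ε n * (2 + 2 * n) * (2 * Q.MB) ^ n := by positivity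
      rcases eq_or_lt_of_le hn with hEq | hlt
      · subst hEq
        have hcN : c Q.N = FB Q.N Q.Jc Q.ψ Q.N ^ Q.N := by simp [c, GG, hFN, hQ.lam_N]
        have hx : X Q.N ι / c Q.N = ∏ l, Q.ec (ι l) := by
          simp only [X]
          rw [Par.lev_exact E hQ le_rfl ι hι, ← hcN, mul_div_cancel_left₀ _ (by linarith)]
        rw [hx, if_pos hι]
        have h3 := prod_sub_one_le_Main (e := fun l => Q.ec (ι l)) hεn
          (fun l => (ec_mem_Main hQ _).1) (fun l => (ec_mem_Main hQ _).2.1)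
          (fun l => (ec_mem_Main hQ _).2.2)
        have h4 : (2 : ℝ) ^ Q.N ≤ (2 * Q.MB) ^ Q.N := pow_le_pow_left₀ zero_le_two (by linarith) _
        have h5 : (Q.N : ℝ) * ε Q.N * 2 ^ Q.N ≤ ε Q.N * (2 + 2 * Q.N) * (2 * Q.MB) ^ Q.N :=
          mul_le_mul (by nlinarith) h4 (by positivity) (by positivity)
        simp only [le_refl, if_true, ite_self, add_zero]
        exact h3.trans h5
      · have hnle : ¬ n ≤ Q.N := by omega
        simp only [hnle, if_false]
        by_cases hgood : ∀ l, n ≤ ι l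
        · rw [if_pos hgood]
          by_cases hK : ∃ l, Q.K (Q.st n) < ι l
          · rw [if_pos hK]
            have h3 : X n ι / c n ≤ (2 * Q.MB) ^ n :=
              (div_le_self (hX0 n ι) hcn).trans (hXle n ι)
            have h4 : 0 ≤ X n ι / c n := div_nonneg (hX0 n ι) (by linarith)
            rw [abs_le]
            constructor <;> linarith
          · rw [if_neg hK, add_zero]
            have h3 := Par.lev_good E hQ hlt ι hgood fun l => not_lt.1 fun h => hK ⟨l, h⟩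
            have hcn' : c n = FF Q.N Q.Jc Q.ψ (Q.lam n) ^ n * l1 ((1 + Q.u (Q.st n)) ^ n) := by
              simp only [c, GG, hnle, if_false, mul_pow]
              rw [one_div, Real.rpow_inv_natCast_pow (l1_nonneg _) (by omega)]
            rw [← hcn'] at h3
            have e : X n ι / c n - 1 = (X n ι - c n) / c n := by field_simp
            rw [e, abs_div, abs_of_pos (by linarith : 0 < c n)]
            exact (div_le_self (abs_nonneg _) hcn).trans h3
        · rw [if_neg hgood, sub_zero, abs_of_nonneg (div_nonneg (hX0 n ι) (by linarith))]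
          have h3 := Par.lev_bad E hQ hlt ι hι (by simpa using hgood)
          have h4 : ε n * (2 * Q.MB) ^ n ≤ ε n * (2 + 2 * n) * (2 * Q.MB) ^ n :=
            mul_le_mul_of_nonneg_right (by nlinarith) (by positivity)
          have h5 : (0 : ℝ) ≤ if ∃ l, Q.K (Q.st n) < ι l then (2 * Q.MB) ^ n else 0 := by
            split_ifs <;> positivity
          linarith [div_le_self (hX0 n ι) hcn])
    hsmall
  have hhigh : ∀ n, Q.N ≤ n →
      HasSum (fun ι : Fin n → ℕ => (∏ l, a (ι l)) * X n ι) (ρ n ^ n) := by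
    intro n hn
    have hcn := hc n hn
    have h := (hfix n hn).mul_left (c n)
    have e1 : c n * Q.RR ρ n ^ n = ρ n ^ n := by
      have := hF1 n hn
      have := hG n
      simp only [c, Par.RR]
      rw [← mul_pow]
      congr 1
      field_simp
    rw [e1] at h
    refine h.congr_fun fun ι => ?_
    have : c n ≠ 0 := by linarith
    field_simp
    ring
  have hbs : Summable fun i => a i * Q.ec i :=
    Summable.of_nonneg_of_le (fun i => mul_nonneg (ha0 i) (by linarith [(ec_mem_Main hQ i).1]))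
      (fun i => mul_le_mul_of_nonneg_left (ec_mem_Main hQ i).2.1 (ha0 i)) (hsum.mul_right 2)
  obtain ⟨S, hS⟩ := hbs
  have hS0 : 0 ≤ S :=
    hS.nonneg fun i => mul_nonneg (ha0 i) (by linarith [(ec_mem_Main hQ i).1])
  have hlow : ∀ n, n ≤ Q.N → HasSum (fun ι : Fin n → ℕ => (∏ l, a (ι l)) * X n ι)
      ((FB Q.N Q.Jc Q.ψ n * S) ^ n) := by
    intro n hn
    have h := (hasSum_prod_pi (fun i => mul_nonneg (ha0 i) (by linarith [(ec_mem_Main hQ i).1]))
      hS n).mul_left (FB Q.N Q.Jc Q.ψ n ^ n)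
    rw [← mul_pow] at h
    refine h.congr_fun fun ι => ?_
    by_cases hι : ∀ l, Q.N ≤ ι l
    · simp only [X]
      rw [Par.lev_exact E hQ hn ι hι, Finset.prod_mul_distrib]
      ring
    · push Not at hι
      obtain ⟨l, hl⟩ := hι
      rw [Finset.prod_eq_zero (Finset.mem_univ l) (haN _ hl),
        Finset.prod_eq_zero (Finset.mem_univ l) (by rw [haN _ hl, zero_mul])]
      simp
  have hFS : FF Q.N Q.Jc Q.ψ 1 * S = ρ Q.N := by
    have h := (hlow Q.N le_rfl).unique (hhigh Q.N le_rfl)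
    rw [hFN] at h
    have hF := hF1 Q.N le_rfl
    rw [hQ.lam_N] at hF
    exact (pow_left_inj₀ (mul_nonneg (by linarith) hS0) (hpos Q.N (by omega)).le (by omega)).1 h
  refine embeds_of_model E.toModel hw hsub Q.Ac a ha0 hsum (Par.l1_Ac hQ)
    (fun t => ⋂ j, Par.Hd E (.mark j) (t j))
    (fun t => MeasurableSet.iInter fun j => Par.measurableSet_Hd E _ _) (fun t t' h => ?_)
    (fun n ι => Par.car_mark E ι) fun n => ?_
  · obtain ⟨j, hj⟩ := Function.ne_iff.1 h
    exact (Par.disjoint_Hd E (.mark j) hj).mono (iInter_subset _ j) (iInter_subset _ j)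
  · rcases Nat.eq_zero_or_pos n with rfl | hn
    · have h := hlow 0 (by omega)
      rw [pow_zero, ← hw0] at h
      exact h
    · rw [← hρ n hn]
      rcases le_total Q.N n with h | h
      · exact hhigh n h
      · have e : FB Q.N Q.Jc Q.ψ n * S = ρ n := by
          apply mul_right_cancel₀ (hpos Q.N (by omega)).ne'
          calc FB Q.N Q.Jc Q.ψ n * S * ρ Q.N = FB Q.N Q.Jc Q.ψ n * ρ Q.N * S := by ring
            _ = FF Q.N Q.Jc Q.ψ 1 * S * ρ n := by rw [hFB n hn h]; ring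
            _ = _ := by rw [hFS]; ring
        rw [← e]
        exact hlow n h

theorem embeds_of_star_finite {w : ℕ → ℝ} (hw : IsRadicalWeight w)
    (hanti : ∀ n, 1 ≤ n → root w (n + 1) ≤ root w n)
    (hfin : Set.Finite {p : ℕ × ℕ | 1 ≤ p.1 ∧ 1 ≤ p.2 ∧ w (p.1 + p.2) = w p.1 * w p.2}) :
    Embeds w := by
  obtain ⟨h1, h0, hsub, hlim⟩ := hw
  have hρ : ∀ n, 1 ≤ n → root w n ^ n = w n := fun n hn => by
    rw [root, one_div, Real.rpow_inv_natCast_pow (h1 n).le (by omega)]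
  obtain ⟨B, hB⟩ := (hfin.image Prod.fst).bddAbove
  refine embeds_of_roots h1 h0 hsub hρ (fun n _ => Real.rpow_pos_of_pos (h1 n) _) hanti hlim
    (B + 1) fun k hk => ?_
  have hk1 : 1 ≤ k := by omega
  have hle : ∀ j, root w (k + j) ≤ root w k := by
    intro j
    induction j with
    | zero => exact le_rfl
    | succ j ih => exact (hanti (k + j) (by omega)).trans ih
  refine lt_of_le_of_ne (by rw [two_mul]; exact hle k) fun h => ?_
  have : k ≤ B := hB ⟨(k, k), ⟨hk1, hk1, by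
    change w (k + k) = w k * w k
    rw [← hρ (k + k) (by omega), ← hρ k hk1, ← two_mul, h, two_mul, pow_add]⟩, rfl⟩
  omega

end Pool.Agent.P.MP_f562c3_an.SS
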