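import Pool.Agent.P.MP_f562c3_an.Defs
import Pool.Agent.P.MP_f562c3_an.SS.Alg0

/-!
Words are interpreted as probability measures on the half line; formal sums of words as signed
measures, and, after truncation, as elements of M(0,1).
-/

open MeasureTheory Set
open scoped ENNReal NNRat

namespace Pool.Agent.P.MP_f562c3_an.SS

/-- A convolution semigroup of probability measures on the half line. -/
structure Model (W : Type*) [AddCommMonoid W] where
  /-- the measure of a word -/
  ν : W → Measure ℝ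
  prob : ∀ w, IsProbabilityMeasure (ν w)
  zero : ν 0 = Measure.dirac 0
  add : ∀ v w, ν (v + w) = (ν v).conv (ν w)
  nonneg : ∀ w, ν w (Iio 0) = 0

namespace Model

variable {W : Type*} [AddCommMonoid W] (M : Model W)

instance (w : W) : IsProbabilityMeasure (M.ν w) := M.prob w

/-- The value of the signed measure of `x` on a set. -/
noncomputable def ev (x : Rg W) (B : Set ℝ) : ℝ :=
  ∑ w ∈ x.coeff.support, x.coeff w * (M.ν w).real B

/-- The signed measure of `x` is positive. -/
def Pos (x : Rg W) : Prop := ∀ B, MeasurableSet B → 0 ≤ M.ev x B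

/-- The truncation of the measure of a word. -/
noncomputable def trw (w : W) : ComplexMeasure UI :=
  (((M.ν w).comap (Subtype.val : UI → ℝ)).toSignedMeasure).toComplexMeasure 0

/-- The truncation of the signed measure of `x`. -/
noncomputable def tr (x : Rg W) : ComplexMeasure UI :=
  ∑ w ∈ x.coeff.support, x.coeff w • M.trw w

/-- The norm of `x` in M(0,1). -/
noncomputable def nrm (x : Rg W) : ℝ := ((M.tr x).variation univ).toReal

/-- The measure of the word is carried by `C`. -/
def Car (C : Set ℝ) (w : W) : Prop := M.ν w Cᶜ = 0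

/-- The measure of the word is carried by `(-∞, τ]`. -/
def Up (τ : ℝ) (w : W) : Prop := M.ν w (Ioi τ) = 0

/-- The measure of the word is carried by `[τ, ∞)`. -/
def Lo (τ : ℝ) (w : W) : Prop := M.ν w (Iio τ) = 0

end Model

/-- Bounded exponent tables. Columns: 0 rank one letters, 1 uniform letters, 2 bulk letters,
3 shifts, 4 an invisible counter. -/
def Bdd (Fam : Type*) : AddSubmonoid (Fam → Fin 5 → ℕ) where
  carrier := {e | ∃ D, ∀ φ p, e φ p ≤ D}
  zero_mem' := ⟨0, fun _ _ => le_rfl⟩
  add_mem' := by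
    rintro a b ⟨D, hD⟩ ⟨E, hE⟩
    exact ⟨D + E, fun φ p => add_le_add (hD φ p) (hE φ p)⟩

/-- Words: a rational time and an exponent table. -/
abbrev Wd (Fam : Type*) : Type _ := ℚ≥0 × Bdd Fam

/-- An exponent of a word, as an additive map. -/
def ex {Fam : Type*} (φ : Fam) (p : Fin 5) : Wd Fam →+ ℕ where
  toFun w := w.2.1 φ p
  map_zero' := rfl
  map_add' _ _ := rfl

/-- The word with time `t` and table `e`. -/
def mkW {Fam : Type*} (t : ℚ≥0) (e : Fam → Fin 5 → ℕ) (D : ℕ) (h : ∀ φ p, e φ p ≤ D) : Wd Fam :=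
  (t, ⟨e, D, h⟩)

@[simp] theorem ex_mkW {Fam : Type*} (t : ℚ≥0) (e : Fam → Fin 5 → ℕ) (D : ℕ)
    (h : ∀ φ p, e φ p ≤ D) (φ : Fam) (p : Fin 5) : ex φ p (mkW t e D h) = e φ p := rfl

@[simp] theorem mkW_fst {Fam : Type*} (t : ℚ≥0) (e : Fam → Fin 5 → ℕ) (D : ℕ)
    (h : ∀ φ p, e φ p ≤ D) : (mkW t e D h).1 = t := rfl

theorem Wd.ext' {Fam : Type*} {v w : Wd Fam} (h1 : v.1 = w.1)
    (h2 : ∀ φ p, ex φ p v = ex φ p w) : v = w :=
  Prod.ext h1 (Subtype.ext (funext fun φ => funext fun p => h2 φ p))

end Pool.Agent.P.MP_f562c3_an.SS
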