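import Pool.Agent.P.MP_f562c3_an.SS.Alg0

/-!
Short blocks: an element `1 + u` close to `1` whose norm roots increase strictly on `[k, 2k)`.
Words are pairs `(i, j)`, standing for `x ^ i * y ^ j`.
* `exists_b`: start from `1 + X - C (1/k) * X ^ k`; the coefficients of its `t`-th power are
  `choose t i` for `i < k` and `choose t k - t / k` for `i = k` (modulo `X ^ (k+1)` the power is
  `(1+X)^t - (t/k) X^k`), and `choose t k ≥ t / k` for `k ≤ t`. Then for `i = k+1, ..., 2k+1` add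
  `C β * X ^ i` with `β` large: this keeps all coefficients below `i` of all powers and adds
  `t * β` to the coefficient `i` of the `t`-th power.
* `exists_q`: `q = ∑ i ∈ range (k+1), (1 - b ^ (k-1)) ^ i` satisfies
  `b ^ (k-1) * q = 1 - (1 - b ^ (k-1)) ^ (k+1) ≡ 1` modulo `X ^ (k+1)`.
* `exists_p`: `p = b(x) + y q(x)` as an element of `Rg (ℕ × ℕ)` (transport `b.toFinsupp` or
  `aeval (wd (1,0))`). The coefficient of `p ^ t` at `(i, 0)` is that of `b ^ t`, at `(i, 1)` it is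
  `t * (b ^ (t-1) * q).coeff i`, and `b ^ (t-1) * q ≡ b ^ (t-k)` modulo `X ^ (k+1)`; so it is
  `t * choose (t-k) i ≥ 0` for `i < k` and `- t (t-k) / k` for `i = k`.
-/

open Polynomial

namespace Pool.Agent.P.MP_f562c3_an.SS

theorem coeff_pow_add_ShortA (b : ℝ[X]) (hb : b.coeff 0 = 1) (β : ℝ) {n : ℕ} (hn : 1 ≤ n) (t : ℕ) :
    (∀ i, i < n → ((b + C β * X ^ n) ^ t).coeff i = (b ^ t).coeff i) ∧
      ((b + C β * X ^ n) ^ t).coeff n = (b ^ t).coeff n + t * β := by
  obtain ⟨r, hr⟩ := Polynomial.powAddExpansion b (C β * X ^ n) t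
  have e : (b + C β * X ^ n) ^ t =
      b ^ t + (C ((t : ℝ) * β) * b ^ (t - 1)) * X ^ n + (r * C β ^ 2) * X ^ (2 * n) := by
    rw [hr, map_mul, map_natCast]; ring
  refine ⟨fun i hi => ?_, ?_⟩
  · rw [e, coeff_add, coeff_add, coeff_mul_X_pow', coeff_mul_X_pow', if_neg (by omega),
      if_neg (by omega)]
    simp
  · rw [e, coeff_add, coeff_add, coeff_mul_X_pow', coeff_mul_X_pow', if_pos le_rfl,
      if_neg (by omega), Nat.sub_self, coeff_C_mul, coeff_zero_eq_eval_zero, eval_pow,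
      ← coeff_zero_eq_eval_zero, hb]
    simp

theorem exists_b_aux_ShortA {k : ℕ} (hk : 2 ≤ k) (n : ℕ) : ∃ b : ℝ[X], b.coeff 0 = 1 ∧
    (∀ m i : ℕ, i < k → (b ^ m).coeff i = m.choose i) ∧
    (∀ m : ℕ, (b ^ m).coeff k = m.choose k - (m : ℝ) / k) ∧
    ∀ t i : ℕ, k ≤ t → t < 2 * k → i ≤ k + n → 0 ≤ (b ^ t).coeff i := by
  induction n with
  | zero =>
    have h0 : ((1 : ℝ[X]) + X).coeff 0 = 1 := by simp
    have key := coeff_pow_add_ShortA (1 + X) h0 (-(1 / k)) (n := k) (by omega)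
    have h1 : ∀ m i : ℕ, i < k →
        ((1 + X + C (-(1 / (k : ℝ))) * X ^ k) ^ m).coeff i = (m.choose i : ℝ) := by
      intro m i hi
      rw [(key m).1 i hi, coeff_one_add_X_pow]
    have h2 : ∀ m : ℕ, ((1 + X + C (-(1 / (k : ℝ))) * X ^ k) ^ m).coeff k =
        m.choose k - (m : ℝ) / k := by
      intro m
      rw [(key m).2, coeff_one_add_X_pow]
      ring
    refine ⟨1 + X + C (-(1 / (k : ℝ))) * X ^ k, ?_, h1, h2, ?_⟩
    · have := h1 1 0 (by omega)
      simpa using this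
    · intro t i ht ht2 hi
      rcases Nat.lt_or_ge i k with h | h
      · rw [h1 t i h]; positivity
      · have hik : i = k := by omega
        subst hik
        rw [h2, sub_nonneg]
        have hi0 : (0 : ℝ) < i := by exact_mod_cast (by omega : 0 < i)
        rw [div_le_iff₀ hi0]
        have : t ≤ t.choose i * i := by
          rcases Nat.eq_or_lt_of_le ht with h' | h'
          · subst h'; simp
          · have a1 : (i + 1).choose i ≤ t.choose i := Nat.choose_le_choose i h'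
            rw [Nat.choose_succ_self_right] at a1
            nlinarith
        exact_mod_cast this
  | succ n ih =>
    obtain ⟨b, hb0, h1, h2, h3⟩ := ih
    set β : ℝ := ∑ t ∈ Finset.range (2 * k), |(b ^ t).coeff (k + n + 1)| with hβ
    have key := coeff_pow_add_ShortA b hb0 β (n := k + n + 1) (by omega)
    refine ⟨b + C β * X ^ (k + n + 1), ?_, ?_, ?_, ?_⟩
    · have := (key 1).1 0 (by omega)
      rw [pow_one, pow_one] at this
      rw [this, hb0]
    · intro m i hi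
      rw [(key m).1 i (by omega), h1 m i hi]
    · intro m
      rw [(key m).1 k (by omega), h2 m]
    · intro t i ht ht2 hi
      rcases Nat.lt_or_ge i (k + n + 1) with h | h
      · rw [(key t).1 i h]
        exact h3 t i ht ht2 (by omega)
      · have hik : i = k + n + 1 := by omega
        rw [hik, (key t).2]
        have a1 : |(b ^ t).coeff (k + n + 1)| ≤ β :=
          Finset.single_le_sum (f := fun t => |(b ^ t).coeff (k + n + 1)|)
            (fun _ _ => abs_nonneg _) (Finset.mem_range.mpr ht2)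
        have a2 : (1 : ℝ) ≤ t := by exact_mod_cast (by omega : 1 ≤ t)
        have a3 : 0 ≤ β := (abs_nonneg _).trans a1
        have a4 := neg_abs_le ((b ^ t).coeff (k + n + 1))
        nlinarith

theorem exists_b {k : ℕ} (hk : 2 ≤ k) : ∃ b : ℝ[X], b.coeff 0 = 1 ∧
    (∀ m i : ℕ, i < k → (b ^ m).coeff i = m.choose i) ∧
    (∀ m : ℕ, (b ^ m).coeff k = m.choose k - (m : ℝ) / k) ∧
    ∀ t i : ℕ, k ≤ t → t < 2 * k → i ≤ 2 * k + 1 → 0 ≤ (b ^ t).coeff i := by
  obtain ⟨b, h0, h1, h2, h3⟩ := exists_b_aux_ShortA hk (k + 1)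
  exact ⟨b, h0, h1, h2, fun t i ht ht2 hi => h3 t i ht ht2 (by omega)⟩

theorem exists_q {k : ℕ} (b : ℝ[X]) (hb : b.coeff 0 = 1) :
    ∃ q : ℝ[X], X ^ (k + 1) ∣ b ^ (k - 1) * q - 1 := by
  refine ⟨∑ i ∈ Finset.range (k + 1), (1 - b ^ (k - 1)) ^ i, ?_⟩
  have h1 : (X : ℝ[X]) ∣ 1 - b ^ (k - 1) := by
    rw [X_dvd_iff, coeff_sub, coeff_zero_eq_eval_zero (b ^ _), eval_pow,
      ← coeff_zero_eq_eval_zero, hb]
    simp
  have h2 := mul_neg_geom_sum (1 - b ^ (k - 1)) (k + 1)
  rw [sub_sub_cancel] at h2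
  rw [h2, sub_sub_cancel_left, dvd_neg]
  exact pow_dvd_pow_of_dvd h1 _

theorem coeff_aeval_ShortA (f : ℝ[X]) (a i j : ℕ) :
    (wd ((0, a) : ℕ × ℕ) * aeval (wd ((1, 0) : ℕ × ℕ)) f).coeff (i, j) =
      if j = a then f.coeff i else 0 := by
  induction f using Polynomial.induction_on' with
  | add p q hp hq =>
    rw [map_add, mul_add, coeff_add', hp, hq, coeff_add]
    split_ifs <;> simp
  | monomial n c =>
    rw [aeval_monomial, ← Algebra.smul_def, ← wd_nsmul, mul_smul_comm, ← wd_add, coeff_smul',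
      coeff_wd, coeff_monomial]
    by_cases h1 : j = a
    · subst h1
      by_cases h2 : n = i <;> simp [h2]
    · have h1' : ¬ a = j := fun h => h1 h.symm
      simp [h1, h1']

theorem exists_p {k : ℕ} (hk : 2 ≤ k) : ∃ p : Rg (ℕ × ℕ), p.coeff 0 = 1 ∧
    ∀ t : ℕ, k ≤ t → t < 2 * k → (p ^ t).coeff (k, 1) = -((t : ℝ) * (t - k) / k) ∧
      ∀ i j : ℕ, i + (k + 1) * j ≤ 2 * k + 1 → (i, j) ≠ (k, 1) → 0 ≤ (p ^ t).coeff (i, j) := by
  obtain ⟨b, hb0, h1, h2, h3⟩ := exists_b hk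
  obtain ⟨q, hq⟩ := exists_q (k := k) b hb0
  set φ : ℝ[X] →ₐ[ℝ] Rg (ℕ × ℕ) := aeval (wd ((1, 0) : ℕ × ℕ)) with hφ
  have c0 : ∀ (f : ℝ[X]) (i j : ℕ), (φ f).coeff (i, j) = if j = 0 then f.coeff i else 0 := by
    intro f i j
    have := coeff_aeval_ShortA f 0 i j
    rwa [show ((0, 0) : ℕ × ℕ) = 0 from rfl, wd_zero, one_mul] at this
  have c1 : ∀ (f : ℝ[X]) (i j : ℕ), (wd ((0, 1) : ℕ × ℕ) * φ f).coeff (i, j) =
      if j = 1 then f.coeff i else 0 := fun f i j => coeff_aeval_ShortA f 1 i j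
  have main : ∀ t i j : ℕ, j ≤ 1 → ((φ b + wd ((0, 1) : ℕ × ℕ) * φ q) ^ t).coeff (i, j) =
      if j = 0 then (b ^ t).coeff i else t * (b ^ (t - 1) * q).coeff i := by
    intro t i j hj
    obtain ⟨r, hr⟩ := Polynomial.powAddExpansion (φ b) (wd ((0, 1) : ℕ × ℕ) * φ q) t
    have e : (φ b + wd ((0, 1) : ℕ × ℕ) * φ q) ^ t =
        φ (b ^ t) + (t : ℝ) • (wd ((0, 1) : ℕ × ℕ) * φ (b ^ (t - 1) * q)) +
          (r * φ q ^ 2) * wd ((0, 2) : ℕ × ℕ) := by
      have e2 : wd ((0, 2) : ℕ × ℕ) = wd ((0, 1) : ℕ × ℕ) ^ 2 := by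
        rw [← wd_nsmul]; rfl
      rw [hr, e2, map_mul, map_pow, map_pow, Nat.cast_smul_eq_nsmul, nsmul_eq_mul]
      ring
    have s2 : Sup (fun w : ℕ × ℕ => 2 ≤ w.2) ((r * φ q ^ 2) * wd ((0, 2) : ℕ × ℕ)) :=
      (Sup.trivial _).mul (Sup.wd (Q := fun w : ℕ × ℕ => 2 ≤ w.2) le_rfl) fun a b _ hb => by
        simp only [Prod.snd_add]; omega
    have z2 : ((r * φ q ^ 2) * wd ((0, 2) : ℕ × ℕ)).coeff (i, j) = 0 := by
      by_contra hne
      have := s2 _ hne
      simp only at this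
      omega
    rw [e, coeff_add', coeff_add', z2, coeff_smul', c0, c1]
    rcases Nat.eq_zero_or_pos j with h | h
    · simp [h]
    · have : j = 1 := by omega
      simp [this]
  have red : ∀ t i : ℕ, k ≤ t → i ≤ k → (b ^ (t - 1) * q).coeff i = (b ^ (t - k)).coeff i := by
    intro t i ht hi
    obtain ⟨c, hc⟩ := hq
    have e : b ^ (t - 1) * q = b ^ (t - k) + (b ^ (t - k) * c) * X ^ (k + 1) := by
      have e1 : t - 1 = (t - k) + (k - 1) := by omega
      have e2 : b ^ (k - 1) * q = 1 + X ^ (k + 1) * c := by rw [← hc]; ring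
      rw [e1, pow_add, mul_assoc, e2]; ring
    rw [e, coeff_add, coeff_mul_X_pow', if_neg (by omega), add_zero]
  refine ⟨φ b + wd ((0, 1) : ℕ × ℕ) * φ q, ?_, fun t ht ht2 => ⟨?_, ?_⟩⟩
  · have := main 1 0 0 (by omega)
    rw [pow_one, pow_one, if_pos rfl, hb0] at this
    exact this
  · rw [main t k 1 le_rfl, if_neg one_ne_zero, red t k ht le_rfl, h2,
      Nat.choose_eq_zero_of_lt (by omega), Nat.cast_sub ht]
    push_cast
    ring
  · intro i j hij hne
    have hj : j ≤ 1 := by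
      by_contra hj
      have : (k + 1) * 2 ≤ (k + 1) * j := Nat.mul_le_mul_left _ (by omega)
      omega
    rw [main t i j hj]
    split_ifs with h
    · exact h3 t i ht ht2 (by subst h; omega)
    · have hj1 : j = 1 := by omega
      subst hj1
      have hik : i < k := by
        have : i ≠ k := fun h => hne (by rw [h])
        omega
      rw [red t i ht hik.le, h1 _ i hik]
      positivity

end Pool.Agent.P.MP_f562c3_an.SS
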