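import Pool.Agent.P.MP_f562c3_an.SS.SlotDefs

/-!
Counting over a finite field with `q` elements. Write `u i = (f i).1`, `v i = (f i).2`; then
`vecMul w (outer f) = ∑ i, (w ⬝ᵥ u i) • v i`.
* `dep_outer`: the linear map `w ↦ (w ⬝ᵥ u i)_i` from `F^r` to `F^a` is not injective if `a < r`.
* `card_notOnto`: call `u` bad if some `w ≠ 0` has `w ⬝ᵥ u i = 0` for all `i`. Double count pairs
  `(w, u)`: each `w ≠ 0` has `q^((r-1) a)` such `u`, each bad `u` has at least `q - 1` such `w`
  (multiples of one of them). So the share of bad `u` is at most `q^r / (q^a (q - 1))`.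
* For `u` not bad, `v ↦ outer (u, v)` is a surjective additive map (columnwise: the map
  `x ↦ ∑ i, x i • u i` from `F^a` to `F^r` is onto), so all its fibres have the same size. This
  gives `cnt_lower` and `cnt_upper` (for bad `u` bound the fibre by everything).
* `cnt_dep`: for `w ≠ 0` and `u` with `(w ⬝ᵥ u i)_i ≠ 0` the map `v ↦ ∑ i, (w ⬝ᵥ u i) • v i` is onto
  `F^(r+1)`, so a given value has share `q^-(r+1)`; union bound over `w` gives `1/q`. If
  `(w ⬝ᵥ u i)_i = 0` then `vecMul w (outer f + c • D0) = c • vecMul w D0`, which is nonzero for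
  `c ≠ 0`; for `r ≤ a` use `card_notOnto`.
* `cnt_unif`: for `w ≠ 0` the map `y ↦ vecMul w y` is onto `F^(r+1)`; union bound.
-/

open scoped Classical

namespace Pool.Agent.P.MP_f562c3_an.SS

variable {F : Type*} [Field F] [Fintype F] {r a : ℕ}

theorem fib_SlotA {A B : Type*} [AddCommGroup A] [AddCommGroup B] [Fintype A] [Fintype B]
    (φ : A →+ B) (h : Function.Surjective φ) (y : B) (S : Finset A) (hS : ∀ x, x ∈ S ↔ φ x = y) :
    S.card * Fintype.card B = Fintype.card A := by
  have h0 : S = Finset.univ.filter fun x => φ x = y := by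
    ext x
    rw [hS, Finset.mem_filter]
    exact ⟨fun h => ⟨Finset.mem_univ _, h⟩, fun h => h.2⟩
  rw [h0]
  have h1 : (Finset.univ : Finset A).card =
      ∑ b ∈ (Finset.univ : Finset B), (Finset.univ.filter fun x => φ x = b).card :=
    Finset.card_eq_sum_card_fiberwise (fun _ _ => Finset.mem_coe.2 (Finset.mem_univ _))
  have h2 : ∀ b : B, (Finset.univ.filter fun x => φ x = b).card =
      (Finset.univ.filter fun x => φ x = y).card := fun b =>
    AddMonoidHom.card_fiber_eq_of_mem_range φ (h b) (h y)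
  rw [← Finset.card_univ (α := A), h1, Finset.sum_congr rfl fun b _ => h2 b, Finset.sum_const,
    Finset.card_univ, smul_eq_mul, mul_comm]

theorem union_SlotA {W A B : Type*} [Fintype W] [AddCommGroup A] [AddCommGroup B] [Fintype A]
    [Fintype B] (φ : W → A →+ B) (b : W → B) (good : W → Prop)
    (h : ∀ w, good w → Function.Surjective (φ w)) (S : Finset A)
    (hS : ∀ x ∈ S, ∃ w, good w ∧ φ w x = b w) :
    S.card * Fintype.card B ≤ Fintype.card W * Fintype.card A := by
  have h1 : S ⊆ (Finset.univ.filter good).biUnion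
      fun w => Finset.univ.filter fun x => φ w x = b w := by
    intro x hx
    obtain ⟨w, hw, e⟩ := hS x hx
    exact Finset.mem_biUnion.2 ⟨w, Finset.mem_filter.2 ⟨Finset.mem_univ _, hw⟩,
      Finset.mem_filter.2 ⟨Finset.mem_univ _, e⟩⟩
  have h2 := (Finset.card_le_card h1).trans Finset.card_biUnion_le
  calc S.card * Fintype.card B
      ≤ (∑ w ∈ Finset.univ.filter good,
          (Finset.univ.filter fun x => φ w x = b w).card) * Fintype.card B :=
        Nat.mul_le_mul_right _ h2
    _ = ∑ w ∈ Finset.univ.filter good, Fintype.card A := by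
        rw [Finset.sum_mul]
        exact Finset.sum_congr rfl fun w hw =>
          fib_SlotA (φ w) (h w (Finset.mem_filter.1 hw).2) (b w) _ (fun x => by simp)
    _ ≤ Fintype.card W * Fintype.card A := by
        rw [Finset.sum_const, smul_eq_mul]
        exact Nat.mul_le_mul_right _ (Finset.card_le_univ _)

theorem split_SlotA {ι α β : Type*} [Fintype ι] [DecidableEq ι] [Fintype α] [Fintype β]
    (P : (ι → α × β) → Prop) [DecidablePred P] :
    (Finset.univ.filter P).card =
      ∑ u : ι → α, (Finset.univ.filter fun v : ι → β => P fun i => (u i, v i)).card := by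
  simp only [Finset.card_filter]
  rw [← Fintype.sum_prod_type']
  exact Fintype.sum_equiv (Equiv.arrowProdEquivProdArrow ι (fun _ => α) (fun _ => β)) _ _
    fun f => rfl

omit [Fintype F] in
theorem vecMul_outer_SlotA (w : Fin r → F) (f : Fin a → (Fin r → F) × (Fin (r + 1) → F)) :
    Matrix.vecMul w (outer f) = ∑ i, (w ⬝ᵥ (f i).1) • (f i).2 := by
  unfold outer
  rw [Matrix.vecMul_sum]
  exact Finset.sum_congr rfl fun i _ => Matrix.vecMul_vecMulVec _ _ _

/-- The first vectors lie in a hyperplane. -/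
def Bad_SlotA (u : Fin a → Fin r → F) : Prop := ∃ w : Fin r → F, w ≠ 0 ∧ ∀ i, w ⬝ᵥ u i = 0

/-- The pairings with a fixed vector. -/
def pr_SlotA (a : ℕ) (w : Fin r → F) : (Fin a → Fin r → F) →+ (Fin a → F) where
  toFun u := fun i => w ⬝ᵥ u i
  map_zero' := by ext i; simp
  map_add' u u' := by ext i; simp

omit [Fintype F] in
theorem pr_surj_SlotA {w : Fin r → F} (hw : w ≠ 0) : Function.Surjective (pr_SlotA a w) := by
  obtain ⟨j, hj⟩ := Function.ne_iff.1 hw
  have hj' : w j ≠ 0 := hj
  intro x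
  refine ⟨fun i => Pi.single j (x i / w j), funext fun i => ?_⟩
  show w ⬝ᵥ Pi.single j (x i / w j) = x i
  rw [dotProduct_single]
  field_simp

theorem card_bad_SlotA :
    (Fintype.card F - 1) * (Finset.univ.filter (Bad_SlotA (F := F) (a := a) (r := r))).card *
      Fintype.card F ^ a ≤ Fintype.card F ^ r * Fintype.card F ^ (r * a) := by
  have h1 : ∑ u : Fin a → Fin r → F,
      (Finset.univ.filter fun w : Fin r → F => w ≠ 0 ∧ pr_SlotA a w u = 0).card =
      ∑ w : Fin r → F,
        (Finset.univ.filter fun u : Fin a → Fin r → F => w ≠ 0 ∧ pr_SlotA a w u = 0).card := by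
    simp only [Finset.card_filter]
    exact Finset.sum_comm
  have h2 : (Fintype.card F - 1) *
      (Finset.univ.filter (Bad_SlotA (F := F) (a := a) (r := r))).card ≤
      ∑ u : Fin a → Fin r → F,
        (Finset.univ.filter fun w : Fin r → F => w ≠ 0 ∧ pr_SlotA a w u = 0).card := by
    rw [mul_comm, ← smul_eq_mul]
    refine le_trans (Finset.card_nsmul_le_sum _ (fun u =>
      (Finset.univ.filter fun w : Fin r → F => w ≠ 0 ∧ pr_SlotA a w u = 0).card) _ ?_)
      (Finset.sum_le_sum_of_subset (Finset.subset_univ _))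
    intro u hu
    obtain ⟨w, hw, hu⟩ := (Finset.mem_filter.1 hu).2
    have e : Fintype.card F - 1 = (Finset.univ.erase (0 : F)).card := by
      rw [Finset.card_erase_of_mem (Finset.mem_univ _), Finset.card_univ]
    rw [e]
    refine Finset.card_le_card_of_injOn (fun c : F => c • w) ?_ ?_
    · intro c hc
      have hc0 : c ≠ 0 := Finset.ne_of_mem_erase (Finset.mem_coe.1 hc)
      refine Finset.mem_coe.2 (Finset.mem_filter.2 ⟨Finset.mem_univ _, smul_ne_zero hc0 hw,
        funext fun i => ?_⟩)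
      show (c • w) ⬝ᵥ u i = 0
      rw [smul_dotProduct, hu i, smul_zero]
    · intro c _ c' _ h
      exact smul_left_injective F hw h
  have h3 : ∀ w : Fin r → F,
      (Finset.univ.filter fun u : Fin a → Fin r → F => w ≠ 0 ∧ pr_SlotA a w u = 0).card *
        Fintype.card F ^ a ≤ Fintype.card F ^ (r * a) := by
    intro w
    by_cases hw : w = 0
    · simp [hw]
    · have := fib_SlotA (pr_SlotA a w) (pr_surj_SlotA hw) 0
        (Finset.univ.filter fun u : Fin a → Fin r → F => w ≠ 0 ∧ pr_SlotA a w u = 0)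
        (fun u => by simp [hw])
      simp only [Fintype.card_fun, Fintype.card_fin] at this
      rw [pow_mul, ← this]
  refine le_trans (Nat.mul_le_mul_right _ (h2.trans h1.le)) ?_
  rw [Finset.sum_mul]
  refine le_trans (Finset.sum_le_sum fun w _ => h3 w) ?_
  simp

theorem one_lt_q_SlotA : (1 : ℝ) < Fintype.card F := by
  exact_mod_cast Fintype.one_lt_card

theorem card_bad_real_SlotA {k : ℕ} (h : r + k ≤ a) :
    ((Finset.univ.filter (Bad_SlotA (F := F) (a := a) (r := r))).card : ℝ) *
      (Fintype.card F : ℝ) ^ k ≤ 1 / ((Fintype.card F : ℝ) - 1) * (Fintype.card F : ℝ) ^ (r * a) := by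
  have hq := one_lt_q_SlotA (F := F)
  have h1 : ((Fintype.card F : ℝ) - 1) *
      ((Finset.univ.filter (Bad_SlotA (F := F) (a := a) (r := r))).card : ℝ) *
      (Fintype.card F : ℝ) ^ a ≤ (Fintype.card F : ℝ) ^ r * (Fintype.card F : ℝ) ^ (r * a) := by
    have := card_bad_SlotA (F := F) (a := a) (r := r)
    have h2 : ((Fintype.card F - 1 : ℕ) : ℝ) = (Fintype.card F : ℝ) - 1 := by
      rw [Nat.cast_sub Fintype.one_lt_card.le, Nat.cast_one]
    rw [← h2]
    exact_mod_cast this
  generalize ((Finset.univ.filter (Bad_SlotA (F := F) (a := a) (r := r))).card : ℕ) = m at h1 ⊢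
  generalize (Fintype.card F : ℝ) = q at hq h1 ⊢
  have hq0 : 0 < q := by linarith
  have hm : (0 : ℝ) ≤ m := Nat.cast_nonneg m
  have h2 : q ^ r * q ^ k ≤ q ^ a := by
    rw [← pow_add]; exact pow_le_pow_right₀ hq.le h
  have h3 : (q - 1) * m * (q ^ r * q ^ k) ≤ q ^ r * q ^ (r * a) :=
    le_trans (mul_le_mul_of_nonneg_left h2 (mul_nonneg (by linarith) hm)) h1
  have h4 : (q - 1) * (m * q ^ k) ≤ q ^ (r * a) := by
    refine le_of_mul_le_mul_left (a := q ^ r) ?_ (pow_pos hq0 r)
    calc q ^ r * ((q - 1) * (m * q ^ k)) = (q - 1) * m * (q ^ r * q ^ k) := by ring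
      _ ≤ _ := h3
  rw [one_div, inv_mul_eq_div, le_div_iff₀ (by linarith), mul_comm]
  exact h4

/-- The sum of rank one matrices as a function of the second vectors. -/
def ou_SlotA (u : Fin a → Fin r → F) :
    (Fin a → Fin (r + 1) → F) →+ Matrix (Fin r) (Fin (r + 1)) F where
  toFun v := outer fun i => (u i, v i)
  map_zero' := by
    unfold outer
    exact Finset.sum_eq_zero fun i _ => by
      ext j k
      simp [Matrix.vecMulVec_apply]
  map_add' v v' := by
    simp only [outer, Pi.add_apply, Matrix.vecMulVec_add, Finset.sum_add_distrib]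

omit [Fintype F] in
theorem ou_surj_SlotA {u : Fin a → Fin r → F} (hu : ¬ Bad_SlotA u) :
    Function.Surjective (ou_SlotA u) := by
  have hinj : LinearMap.ker (Matrix.mulVecLin (Matrix.of u)) = ⊥ := by
    rw [LinearMap.ker_eq_bot']
    intro w hw
    by_contra h0
    refine hu ⟨w, h0, fun i => ?_⟩
    rw [dotProduct_comm]
    exact congrFun hw i
  obtain ⟨L, hL⟩ := LinearMap.exists_leftInverse_of_injective _ hinj
  have hM : LinearMap.toMatrix' L * Matrix.of u = 1 := by
    have := congrArg LinearMap.toMatrix' hL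
    rw [LinearMap.toMatrix'_comp, LinearMap.toMatrix'_id] at this
    rw [← this]
    congr 1
    exact (LinearMap.toMatrix'_toLin' (Matrix.of u)).symm
  intro y
  refine ⟨fun i j => ((LinearMap.toMatrix' L).transpose * y) i j, ?_⟩
  have e : (Matrix.of u).transpose * ((LinearMap.toMatrix' L).transpose * y) = y := by
    rw [← Matrix.mul_assoc, ← Matrix.transpose_mul, hM, Matrix.transpose_one, Matrix.one_mul]
  conv_rhs => rw [← e]
  ext i j
  show (outer fun k => (u k, fun j => ((LinearMap.toMatrix' L).transpose * y) k j)) i j = _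
  unfold outer
  rw [Matrix.sum_apply, Matrix.mul_apply]
  exact Finset.sum_congr rfl fun k _ => rfl

theorem card_mat_SlotA :
    Fintype.card (Matrix (Fin r) (Fin (r + 1)) F) = Fintype.card F ^ (r * (r + 1)) := by
  rw [← Fintype.card_congr (Matrix.of (m := Fin r) (n := Fin (r + 1)) (α := F))]
  simp only [Fintype.card_fun, Fintype.card_fin]
  rw [← pow_mul, mul_comm]

theorem fib_good_SlotA {u : Fin a → Fin r → F} (hu : ¬ Bad_SlotA u)
    (y : Matrix (Fin r) (Fin (r + 1)) F) :
    (Fintype.card F : ℝ) ^ (r * (r + 1)) *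
      ((Finset.univ.filter fun v : Fin a → Fin (r + 1) → F =>
        outer (fun i => (u i, v i)) = y).card : ℝ) = (Fintype.card F : ℝ) ^ ((r + 1) * a) := by
  have h := fib_SlotA (ou_SlotA u) (ou_surj_SlotA hu) y
    (Finset.univ.filter fun v : Fin a → Fin (r + 1) → F => outer (fun i => (u i, v i)) = y)
    (fun v => by rw [Finset.mem_filter]; exact ⟨fun h => h.2, fun h => ⟨Finset.mem_univ _, h⟩⟩)
  rw [card_mat_SlotA] at h
  simp only [Fintype.card_fun, Fintype.card_fin] at h
  rw [pow_mul (Fintype.card F : ℝ) (r + 1) a, mul_comm]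
  exact_mod_cast h

theorem card_v_SlotA (S : Finset (Fin a → Fin (r + 1) → F)) :
    (S.card : ℝ) ≤ (Fintype.card F : ℝ) ^ ((r + 1) * a) := by
  have h := Finset.card_le_univ S
  simp only [Fintype.card_fun, Fintype.card_fin] at h
  rw [pow_mul]
  exact_mod_cast h

theorem sum_ite_bad_SlotA (s t : ℝ) :
    ∑ u : Fin a → Fin r → F, ((if Bad_SlotA u then s else 0) + t) =
      ((Finset.univ.filter (Bad_SlotA (F := F) (a := a) (r := r))).card : ℝ) * s +
        (Fintype.card F : ℝ) ^ (r * a) * t := by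
  rw [Finset.sum_add_distrib, ← Finset.sum_filter, Finset.sum_const, Finset.sum_const,
    nsmul_eq_mul, nsmul_eq_mul, Finset.card_univ]
  simp only [Fintype.card_fun, Fintype.card_fin, Nat.cast_pow, pow_mul]

theorem tot_SlotA (q : ℝ) : (q ^ (2 * r + 1)) ^ a = q ^ (r * a) * q ^ ((r + 1) * a) := by
  rw [← pow_mul, ← pow_add]
  congr 1
  ring

/-- A fixed linear combination of the second vectors. -/
def lc_SlotA (x : Fin a → F) : (Fin a → Fin (r + 1) → F) →+ (Fin (r + 1) → F) where
  toFun v := ∑ i, x i • v i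
  map_zero' := by simp
  map_add' v v' := by simp only [Pi.add_apply, smul_add, Finset.sum_add_distrib]

omit [Fintype F] in
theorem lc_surj_SlotA {x : Fin a → F} (hx : x ≠ 0) :
    Function.Surjective (lc_SlotA (r := r) x) := by
  obtain ⟨j, hj⟩ := Function.ne_iff.1 hx
  have hj' : x j ≠ 0 := hj
  intro y
  refine ⟨Pi.single j ((x j)⁻¹ • y), ?_⟩
  show ∑ i, x i • (Pi.single j ((x j)⁻¹ • y) : Fin a → Fin (r + 1) → F) i = y
  rw [Finset.sum_eq_single j (fun i _ hi => by rw [Pi.single_eq_of_ne hi, smul_zero])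
    (fun h => absurd (Finset.mem_univ j) h), Pi.single_eq_same, smul_smul, mul_inv_cancel₀ hj',
    one_smul]

omit [Fintype F] in
theorem vecMul_D0_SlotA {w : Fin r → F} (h : Matrix.vecMul w (D0 F r) = 0) : w = 0 := by
  funext i
  have := congrFun h i.castSucc
  simpa [Matrix.vecMul, dotProduct, D0, Fin.castSucc_inj] using this

theorem dep_outer (h : a < r) (f : Fin a → (Fin r → F) × (Fin (r + 1) → F)) : Dep (outer f) := by
  have hk : LinearMap.ker (Matrix.mulVecLin (Matrix.of fun i => (f i).1)) ≠ ⊥ :=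
    LinearMap.ker_ne_bot_of_finrank_lt (by simpa using h)
  obtain ⟨w, hw, h0⟩ := Submodule.exists_mem_ne_zero_of_ne_bot hk
  refine ⟨w, h0, ?_⟩
  rw [vecMul_outer_SlotA]
  refine Finset.sum_eq_zero fun i _ => ?_
  have : w ⬝ᵥ (f i).1 = 0 := by
    rw [dotProduct_comm]
    exact congrFun (LinearMap.mem_ker.1 hw) i
  rw [this, zero_smul]

theorem cnt_dep (c : F) (h : c ≠ 0 ∨ r ≤ a) :
    ((Finset.univ.filter fun f : Fin a → (Fin r → F) × (Fin (r + 1) → F) =>
      Dep (outer f + c • D0 F r)).card : ℝ) ≤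
      2 / ((Fintype.card F : ℝ) - 1) * ((Fintype.card F : ℝ) ^ (2 * r + 1)) ^ a := by
  have hq := one_lt_q_SlotA (F := F)
  have hq0 : (0 : ℝ) < Fintype.card F := by linarith
  have hV : (0 : ℝ) < (Fintype.card F : ℝ) ^ ((r + 1) * a) := pow_pos hq0 _
  have hU : (0 : ℝ) < (Fintype.card F : ℝ) ^ (r * a) := pow_pos hq0 _
  have hi : (0 : ℝ) < 1 / ((Fintype.card F : ℝ) - 1) := one_div_pos.2 (by linarith)
  have key : ∀ u : Fin a → Fin r → F, (c ≠ 0 ∨ ¬ Bad_SlotA u) →
      ((Finset.univ.filter fun v : Fin a → Fin (r + 1) → F =>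
        Dep (outer (fun i => (u i, v i)) + c • D0 F r)).card : ℝ) ≤
        1 / ((Fintype.card F : ℝ) - 1) * (Fintype.card F : ℝ) ^ ((r + 1) * a) := by
    intro u hu
    have h1 := union_SlotA (fun w : Fin r → F => lc_SlotA (r := r) (pr_SlotA a w u))
      (fun w => -(c • Matrix.vecMul w (D0 F r))) (fun w => pr_SlotA a w u ≠ 0)
      (fun w hw => lc_surj_SlotA hw)
      (Finset.univ.filter fun v : Fin a → Fin (r + 1) → F =>
        Dep (outer (fun i => (u i, v i)) + c • D0 F r)) (by
        intro v hv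
        obtain ⟨w, hw, e⟩ := (Finset.mem_filter.1 hv).2
        rw [Matrix.vecMul_add, vecMul_outer_SlotA, Matrix.vecMul_smul] at e
        have e' : lc_SlotA (r := r) (pr_SlotA a w u) v = -(c • Matrix.vecMul w (D0 F r)) :=
          eq_neg_of_add_eq_zero_left e
        refine ⟨w, fun h0 => ?_, e'⟩
        rcases hu with hc | hb
        · have z : lc_SlotA (r := r) (0 : Fin a → F) v = 0 := by
            show ∑ i, (0 : Fin a → F) i • v i = 0
            simp
          rw [h0, z] at e'
          have := neg_eq_zero.1 e'.symm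
          exact hw (vecMul_D0_SlotA ((smul_eq_zero.1 this).resolve_left hc))
        · exact hb ⟨w, hw, fun i => congrFun h0 i⟩)
    simp only [Fintype.card_fun, Fintype.card_fin] at h1
    have h2 : ((Finset.univ.filter fun v : Fin a → Fin (r + 1) → F =>
        Dep (outer (fun i => (u i, v i)) + c • D0 F r)).card : ℝ) *
        (Fintype.card F : ℝ) ^ (r + 1) ≤
        (Fintype.card F : ℝ) ^ r * (Fintype.card F : ℝ) ^ ((r + 1) * a) := by
      rw [pow_mul (Fintype.card F : ℝ) (r + 1) a]
      exact_mod_cast h1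
    generalize ((Finset.univ.filter fun v : Fin a → Fin (r + 1) → F =>
        Dep (outer (fun i => (u i, v i)) + c • D0 F r)).card : ℕ) = m at h2 ⊢
    have hm : (0 : ℝ) ≤ m := Nat.cast_nonneg m
    have h3 : (m : ℝ) * Fintype.card F ≤ (Fintype.card F : ℝ) ^ ((r + 1) * a) := by
      refine le_of_mul_le_mul_left (a := (Fintype.card F : ℝ) ^ r) ?_ (pow_pos hq0 r)
      calc (Fintype.card F : ℝ) ^ r * (m * Fintype.card F)
          = m * (Fintype.card F : ℝ) ^ (r + 1) := by ring
        _ ≤ _ := h2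
    rw [one_div, inv_mul_eq_div, le_div_iff₀ (by linarith)]
    nlinarith
  rw [split_SlotA, Nat.cast_sum, tot_SlotA]
  rcases h with hc | hr
  · refine le_trans (Finset.sum_le_sum fun u _ => key u (Or.inl hc)) ?_
    rw [Finset.sum_const, nsmul_eq_mul, Finset.card_univ]
    simp only [Fintype.card_fun, Fintype.card_fin, Nat.cast_pow, ← pow_mul]
    have e : 2 / ((Fintype.card F : ℝ) - 1) = 2 * (1 / ((Fintype.card F : ℝ) - 1)) := by ring
    rw [e]
    nlinarith [mul_pos hi (mul_pos hU hV)]
  · have h1 : ∀ u : Fin a → Fin r → F,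
        ((Finset.univ.filter fun v : Fin a → Fin (r + 1) → F =>
          Dep (outer (fun i => (u i, v i)) + c • D0 F r)).card : ℝ) ≤
          (if Bad_SlotA u then (Fintype.card F : ℝ) ^ ((r + 1) * a) else 0) +
            1 / ((Fintype.card F : ℝ) - 1) * (Fintype.card F : ℝ) ^ ((r + 1) * a) := by
      intro u
      split_ifs with hb
      · exact le_trans (card_v_SlotA _) (le_add_of_nonneg_right (mul_pos hi hV).le)
      · rw [zero_add]; exact key u (Or.inr hb)
    refine le_trans (Finset.sum_le_sum fun u _ => h1 u) ?_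
    rw [sum_ite_bad_SlotA]
    have h2 := card_bad_real_SlotA (F := F) (r := r) (a := a) (k := 0) (by simpa using hr)
    rw [pow_zero, mul_one] at h2
    have e : 2 / ((Fintype.card F : ℝ) - 1) = 2 * (1 / ((Fintype.card F : ℝ) - 1)) := by ring
    rw [e]
    nlinarith [mul_le_mul_of_nonneg_right h2 hV.le]

theorem cnt_lower (h : r ≤ a) (y : Matrix (Fin r) (Fin (r + 1)) F) :
    (1 - 1 / ((Fintype.card F : ℝ) - 1)) * ((Fintype.card F : ℝ) ^ (2 * r + 1)) ^ a ≤
      (Fintype.card F : ℝ) ^ (r * (r + 1)) *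
        ((Finset.univ.filter fun f : Fin a → (Fin r → F) × (Fin (r + 1) → F) =>
          outer f = y).card : ℝ) := by
  have hq := one_lt_q_SlotA (F := F)
  have hq0 : (0 : ℝ) < Fintype.card F := by linarith
  have hV : (0 : ℝ) < (Fintype.card F : ℝ) ^ ((r + 1) * a) := pow_pos hq0 _
  rw [split_SlotA, Nat.cast_sum, tot_SlotA, Finset.mul_sum]
  have h1 : ∀ u : Fin a → Fin r → F,
      (if Bad_SlotA u then -(Fintype.card F : ℝ) ^ ((r + 1) * a) else 0) +
        (Fintype.card F : ℝ) ^ ((r + 1) * a) ≤ (Fintype.card F : ℝ) ^ (r * (r + 1)) *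
      ((Finset.univ.filter fun v : Fin a → Fin (r + 1) → F =>
        outer (fun i => (u i, v i)) = y).card : ℝ) := by
    intro u
    split_ifs with hb
    · rw [neg_add_cancel]; positivity
    · rw [zero_add, fib_good_SlotA hb]
  refine le_trans ?_ (Finset.sum_le_sum fun u _ => h1 u)
  rw [sum_ite_bad_SlotA]
  have h2 := card_bad_real_SlotA (F := F) (r := r) (a := a) (k := 0) (by simpa using h)
  rw [pow_zero, mul_one] at h2
  nlinarith [mul_le_mul_of_nonneg_right h2 hV.le]

theorem cnt_upper (h : AA r ≤ a) (y : Matrix (Fin r) (Fin (r + 1)) F) :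
    (Fintype.card F : ℝ) ^ (r * (r + 1)) *
        ((Finset.univ.filter fun f : Fin a → (Fin r → F) × (Fin (r + 1) → F) =>
          outer f = y).card : ℝ) ≤
      (1 + 1 / ((Fintype.card F : ℝ) - 1)) * ((Fintype.card F : ℝ) ^ (2 * r + 1)) ^ a := by
  have hq := one_lt_q_SlotA (F := F)
  have hq0 : (0 : ℝ) < Fintype.card F := by linarith
  have hV : (0 : ℝ) < (Fintype.card F : ℝ) ^ ((r + 1) * a) := pow_pos hq0 _
  have hM : (0 : ℝ) < (Fintype.card F : ℝ) ^ (r * (r + 1)) := pow_pos hq0 _
  rw [split_SlotA, Nat.cast_sum, tot_SlotA, Finset.mul_sum]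
  have h1 : ∀ u : Fin a → Fin r → F, (Fintype.card F : ℝ) ^ (r * (r + 1)) *
      ((Finset.univ.filter fun v : Fin a → Fin (r + 1) → F =>
        outer (fun i => (u i, v i)) = y).card : ℝ) ≤
      (if Bad_SlotA u then
        (Fintype.card F : ℝ) ^ (r * (r + 1)) * (Fintype.card F : ℝ) ^ ((r + 1) * a) else 0) +
        (Fintype.card F : ℝ) ^ ((r + 1) * a) := by
    intro u
    split_ifs with hb
    · exact le_trans (mul_le_mul_of_nonneg_left (card_v_SlotA _) hM.le)
        (le_add_of_nonneg_right hV.le)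
    · rw [zero_add, fib_good_SlotA hb]
  refine le_trans (Finset.sum_le_sum fun u _ => h1 u) ?_
  rw [sum_ite_bad_SlotA]
  have h2 := card_bad_real_SlotA (F := F) (r := r) (a := a) (k := r * (r + 1))
    (by unfold AA at h; nlinarith)
  nlinarith [mul_le_mul_of_nonneg_right h2 hV.le]

theorem cnt_unif :
    (Fintype.card F : ℝ) *
        ((Finset.univ.filter fun y : Matrix (Fin r) (Fin (r + 1)) F => Dep y).card : ℝ) ≤
      (Fintype.card F : ℝ) ^ (r * (r + 1)) := by
  have hq := one_lt_q_SlotA (F := F)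
  have hq0 : (0 : ℝ) < Fintype.card F := by linarith
  have h1 := union_SlotA
    (fun w : Fin r → F => AddMonoidHom.mk' (fun y : Matrix (Fin r) (Fin (r + 1)) F =>
      Matrix.vecMul w y) (fun y y' => Matrix.vecMul_add y y' w))
    (fun _ => 0) (fun w => w ≠ 0) (fun w hw z => by
        obtain ⟨v, hv⟩ := lc_surj_SlotA hw z
        refine ⟨Matrix.of v, ?_⟩
        rw [← hv]
        exact Matrix.vecMul_eq_sum w (Matrix.of v))
    (Finset.univ.filter fun y : Matrix (Fin r) (Fin (r + 1)) F => Dep y)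
    (fun y hy => (Finset.mem_filter.1 hy).2)
  rw [card_mat_SlotA] at h1
  simp only [Fintype.card_fun, Fintype.card_fin] at h1
  have h2 : ((Finset.univ.filter fun y : Matrix (Fin r) (Fin (r + 1)) F => Dep y).card : ℝ) *
      (Fintype.card F : ℝ) ^ (r + 1) ≤
      (Fintype.card F : ℝ) ^ r * (Fintype.card F : ℝ) ^ (r * (r + 1)) := by
    exact_mod_cast h1
  refine le_of_mul_le_mul_left (a := (Fintype.card F : ℝ) ^ r) (le_trans (le_of_eq ?_) h2)
    (pow_pos hq0 r)
  ring

end Pool.Agent.P.MP_f562c3_an.SS
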