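import Pool.Agent.P.MP_f562c3_an.SS.SlotDefs

/-!
Boxes absorb carries. `wd (q • γ) * bx q 0 M` is the uniform law on `q * ([0, M) + γ)`.
* `bx_lower`: for `γ ≤ Γ` that box contains `q * [Γ, M)`: the map `m ↦ Γ + m - γ` is injective from
  `D → Fin (M - Γ)` to `D → Fin M`, so the difference is a sum of words over the complement of the
  image (`Finset.sum_le_sum_of_subset` type argument, or `Finset.sum_sdiff`).
* `bx_upper`: for `γ ≤ 1` the box lies in `q * [0, M + 1)`; then induction on `m`, splitting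
  `γ = min γ 1 + (γ - 1)` and using `NN.mul`.
-/

namespace Pool.Agent.P.MP_f562c3_an.SS

variable {D : Type*} [Fintype D] [DecidableEq D]

theorem box_le_SlotB (q : ℕ) {L L' : ℕ} (α β : D → ℕ) (h1 : ∀ p, β p ≤ α p)
    (h2 : ∀ p, α p + L ≤ β p + L') :
    NN (∑ m : D → Fin L', wd (fun p => q * (β p + (m p : ℕ))) -
      ∑ m : D → Fin L, wd (fun p => q * (α p + (m p : ℕ)))) := by
  let φ : (D → Fin L) ↪ (D → Fin L') :=
    ⟨fun m p => ⟨α p - β p + m p, by have := h1 p; have := h2 p; have := (m p).2; omega⟩,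
      fun m m' h => funext fun p => Fin.ext (by
        have := congrArg Fin.val (congrFun h p)
        simpa using this)⟩
  have e : ∑ m : D → Fin L, wd (fun p => q * (α p + (m p : ℕ))) =
      ∑ m ∈ Finset.univ.map φ, wd (fun p => q * (β p + (m p : ℕ))) := by
    rw [Finset.sum_map]
    refine Finset.sum_congr rfl fun m _ => congrArg wd (funext fun p => ?_)
    have := h1 p
    change q * (α p + (m p : ℕ)) = q * (β p + (α p - β p + m p))
    congr 1
    omega
  rw [e, ← Finset.sum_sdiff_eq_sub (Finset.subset_univ _)]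
  exact NN.sum fun m _ => NN.wd _

theorem wd_mul_bx_SlotB (q M : ℕ) (γ : D → ℕ) : wd (q • γ) * bx D q 0 M =
    (((M : ℝ) ^ Fintype.card D)⁻¹) • ∑ m : D → Fin M, wd (fun p => q * (γ p + (m p : ℕ))) := by
  rw [bx, mul_smul_comm, Finset.mul_sum]
  refine congrArg _ (Finset.sum_congr rfl fun m _ => ?_)
  rw [← wd_add]
  refine congrArg wd (funext fun p => ?_)
  simp [mul_add]

theorem smul_bx_SlotB (q lo M : ℕ) {L : ℕ} (h : 0 < L) :
    (((L : ℝ) / M) ^ Fintype.card D) • bx D q lo L =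
    (((M : ℝ) ^ Fintype.card D)⁻¹) • ∑ m : D → Fin L, wd (fun p => q * (lo + (m p : ℕ))) := by
  have : (L : ℝ) ^ Fintype.card D ≠ 0 := pow_ne_zero _ (Nat.cast_ne_zero.2 h.ne')
  rw [bx, smul_smul, div_pow, div_eq_mul_inv, mul_right_comm, mul_inv_cancel₀ this, one_mul]

theorem bx_nn (q lo len : ℕ) : NN (bx D q lo len) := by
  exact NN.smul (by positivity) (NN.sum fun m _ => NN.wd _)

theorem bx_aug (q lo : ℕ) {len : ℕ} (h : 0 < len) : aug (bx D q lo len) = 1 := by
  have : (len : ℝ) ^ Fintype.card D ≠ 0 := pow_ne_zero _ (Nat.cast_ne_zero.2 h.ne')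
  rw [bx, map_smul, map_sum]
  simp [aug_wd, this]

theorem bx_sup (q lo len : ℕ) :
    Sup (fun m : D → ℕ => ∀ p, q ∣ m p ∧ m p ≤ q * (lo + len)) (bx D q lo len) := by
  refine Sup.smul _ (Sup.sum fun m _ => Sup.wd fun p => ⟨dvd_mul_right _ _, ?_⟩)
  exact Nat.mul_le_mul_left q (Nat.add_le_add_left (m p).2.le lo)

theorem bx_lower (q : ℕ) {M Γ : ℕ} (h : Γ < M) (γ : D → ℕ) (hγ : ∀ p, γ p ≤ Γ) :
    NN (wd (q • γ) * bx D q 0 M -
      ((((M : ℝ) - Γ) / M) ^ Fintype.card D) • bx D q Γ (M - Γ)) := by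
  rw [← Nat.cast_sub h.le, smul_bx_SlotB q Γ M (Nat.sub_pos_of_lt h), wd_mul_bx_SlotB, ← smul_sub]
  exact NN.smul (by positivity)
    (box_le_SlotB q (fun _ => Γ) γ hγ fun p => by omega)

theorem bx_upper (q : ℕ) {M : ℕ} (h : 0 < M) (m : ℕ) (γ : D → ℕ) (hγ : ∀ p, γ p ≤ m) :
    NN (((((M : ℝ) + 1) / M) ^ (Fintype.card D * m)) • bx D q 0 (M + 1) ^ m -
      wd (q • γ) * bx D q 0 M ^ m) := by
  have one : ∀ γ : D → ℕ, (∀ p, γ p ≤ 1) →
      NN (((((M : ℝ) + 1) / M) ^ Fintype.card D) • bx D q 0 (M + 1) - wd (q • γ) * bx D q 0 M) := by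
    intro γ hγ
    rw [← Nat.cast_add_one, smul_bx_SlotB q 0 M (Nat.succ_pos M), wd_mul_bx_SlotB, ← smul_sub]
    exact NN.smul (by positivity)
      (box_le_SlotB q γ (fun _ => 0) (fun p => Nat.zero_le _) fun p => by have := hγ p; omega)
  induction m generalizing γ with
  | zero =>
    have : γ = 0 := funext fun p => Nat.le_zero.1 (hγ p)
    subst this
    simpa [wd_zero] using NN.zero
  | succ m ih =>
    have e : γ = (fun p => γ p - 1) + fun p => min (γ p) 1 := funext fun p => by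
      simp only [Pi.add_apply]; omega
    have h1 := ih (fun p => γ p - 1) fun p => by have := hγ p; omega
    have h2 := one (fun p => min (γ p) 1) fun p => min_le_right _ _
    have h3 := (h1.mul (NN.smul (c := (((M : ℝ) + 1) / M) ^ Fintype.card D) (by positivity)
      (bx_nn q 0 (M + 1)))).add (((NN.wd (q • fun p => γ p - 1)).mul ((bx_nn q 0 M).pow m)).mul h2)
    have e2 : wd (q • γ) = wd (q • fun p => γ p - 1) * wd (q • fun p => min (γ p) 1) := by
      rw [← wd_add, ← smul_add, ← e]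
    rw [e2, Nat.mul_succ, pow_add, mul_smul, pow_succ, pow_succ]
    refine Eq.subst (motive := NN) ?_ h3
    simp only [Algebra.smul_def]
    ring

end Pool.Agent.P.MP_f562c3_an.SS
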