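import Pool.Agent.P.MP_f562c3_an.SS.SlotC0

/-!
Washing and domination in one slot; `π = bx q 0 M`, `π' = bx q 0 (M + 1)`.
* `slot_wash`: `g = U0 * bx q r (M - r) * π ^ (r - 1)`; `res_lower` with `Γ = r` for `x = X0 ^ r` and
  for `x = X0 ^ r * wd d` (entries `≤ (r+1) (q-1)` by `Sup.pow_graded`, `X0_sup`, `lft_le`);
  `X0_pow_lower` (times `wd D0`, with `Un_mul`), `lftL_mono`, `lftL_Un`; multiply by `π ^ (r - 1)`.
* `slot_dom`: `res_upper` with `x = X0 ^ a * U0 ^ b`, `m = a + b - 1` (`1 ≤ a + b` since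
  `1 ≤ r ≤ AA r`); the residue law is at most `(1 + 1/(q-1)) • Un` (`X0_pow_upper` for `b = 0`,
  `Un_mul` for `1 ≤ b`); multiply by `π * π' ^ c`; finally `m ≤ t`.
All inequalities `x ≤ y` are written `NN (y - x)`; chain them with `NN.add`, `NN.mul`, `NN.smul`
and `convert ... using 1; module` or `simp only [smul_sub, mul_sub, smul_smul, smul_mul_assoc]; ring`.
-/

namespace Pool.Agent.P.MP_f562c3_an.SS

variable {q r : ℕ} [Fact q.Prime]

omit [Fact q.Prime] in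
theorem sup_pow_SlotC2 {x : Rg (Ps r → ℕ)} (h : Sup (fun m : Ps r → ℕ => ∀ p, m p ≤ q - 1) x)
    (n : ℕ) : Sup (fun m : Ps r → ℕ => ∀ p, m p ≤ n * (q - 1)) (x ^ n) := by
  have := Sup.pow_graded (G := ℕ) (Q := fun g (m : Ps r → ℕ) => ∀ p, m p ≤ g * (q - 1))
    (fun p => by simp) (fun g g' a b ha hb p => by
      rw [add_mul]; exact add_le_add (ha p) (hb p)) (g := 1) (x := x)
    (h.mono fun w hw p => by rw [one_mul]; exact hw p) n
  simpa using this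

theorem wash_SlotC2 {M s : ℕ} (hM : r < M) {x : Rg (Ps r → ℕ)} (hx : NN x)
    (hs : Sup (fun v : Ps r → ℕ => ∀ p, v p ≤ (r + 1) * (q - 1)) x) {e : ℝ}
    (h : NN ((1 : ℝ) • mp (red q r) x - e • Un q r)) :
    NN (x * bx (Ps r) q 0 M ^ (s + 1) - (e * (((M : ℝ) - r) / M) ^ (r * (r + 1))) •
      (U0 q r * bx (Ps r) q r (M - r) * bx (Ps r) q 0 M ^ s)) := by
  have hκ : (0 : ℝ) ≤ (((M : ℝ) - r) / M) ^ (r * (r + 1)) :=
    pow_nonneg (div_nonneg (sub_nonneg.2 (by exact_mod_cast hM.le)) (Nat.cast_nonneg _)) _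
  have A := res_lower (q := q) hM hx hs
  have B := lftL_mono h
  rw [lftL_Un] at B
  have C := (A.add (NN.smul hκ (B.mul (bx_nn q r (M - r))))).mul ((bx_nn q 0 M).pow s)
  refine Eq.subst (motive := NN) ?_ C
  simp only [Algebra.smul_def, map_mul, map_one]
  ring

theorem slot_wash {M : ℕ} (hr : 1 ≤ r) (hM : r < M) :
    ∃ g : Rg (Ps r → ℕ), NN g ∧ aug g = 1 ∧
      NN ((X0 q r * bx (Ps r) q 0 M) ^ r -
        ((1 - 1 / ((q : ℝ) - 1)) * (((M : ℝ) - r) / M) ^ (r * (r + 1))) • g) ∧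
      NN ((X0 q r * bx (Ps r) q 0 M) ^ r * wd (lft (D0 (ZMod q) r)) -
        ((1 - 1 / ((q : ℝ) - 1)) * (((M : ℝ) - r) / M) ^ (r * (r + 1))) • g) := by
  obtain ⟨s, hs⟩ : ∃ s, r = s + 1 := ⟨r - 1, by omega⟩
  have hM0 : 0 < M := by omega
  have e : (X0 q r * bx (Ps r) q 0 M) ^ r = X0 q r ^ r * bx (Ps r) q 0 M ^ (s + 1) := by
    rw [mul_pow, ← hs]
  refine ⟨U0 q r * bx (Ps r) q r (M - r) * bx (Ps r) q 0 M ^ s,
    (U0_nn.mul (bx_nn _ _ _)).mul ((bx_nn _ _ _).pow s), ?_, ?_, ?_⟩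
  · rw [map_mul, map_mul, map_pow, U0_aug, bx_aug q r (by omega), bx_aug q 0 hM0]
    simp
  · rw [e]
    exact wash_SlotC2 hM (X0_nn.pow r) ((sup_pow_SlotC2 X0_sup r).mono fun w hw p =>
      (hw p).trans (Nat.mul_le_mul_right _ (Nat.le_succ r))) (X0_pow_lower le_rfl)
  · rw [e, mul_right_comm]
    refine wash_SlotC2 hM ((X0_nn.pow r).mul (NN.wd _)) ((sup_pow_SlotC2 X0_sup r).mul
      (Sup.wd (Q := fun m : Ps r → ℕ => ∀ p, m p ≤ q - 1) (lft_le _)) fun a b ha hb p => ?_) ?_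
    · rw [add_mul, one_mul]; exact add_le_add (ha p) (hb p)
    · have := (X0_pow_lower (q := q) (le_refl r)).mul (NN.wd (D0 (ZMod q) r))
      rw [sub_mul, smul_mul_assoc, smul_mul_assoc, Un_mul, aug_wd, one_smul ℝ (Un q r)] at this
      rw [map_mul, mp_wd, red_lft]
      exact this

theorem slot_dom {M : ℕ} (hr : 1 ≤ r) (hM : 0 < M) {a b c t : ℕ} (ht : a + b + c = t + 1)
    (h : 1 ≤ b ∨ AA r ≤ a) :
    NN (((1 + 1 / ((q : ℝ) - 1)) * (((M : ℝ) + 1) / M) ^ (r * (r + 1) * t)) •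
        (U0 q r * bx (Ps r) q 0 M * bx (Ps r) q 0 (M + 1) ^ t) -
      (X0 q r * bx (Ps r) q 0 M) ^ a * (U0 q r * bx (Ps r) q 0 M) ^ b *
        bx (Ps r) q 0 (M + 1) ^ c) := by
  have hA := le_AA r
  obtain ⟨m, hm⟩ : ∃ m, a + b = m + 1 := ⟨a + b - 1, by omega⟩
  obtain rfl : t = m + c := by omega
  have hq : (1 : ℝ) ≤ q := by exact_mod_cast (Fact.out : q.Prime).one_le
  have he : (0 : ℝ) ≤ 1 / ((q : ℝ) - 1) := div_nonneg zero_le_one (sub_nonneg.2 hq)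
  have hM' : (0 : ℝ) < M := by exact_mod_cast hM
  have hK : (1 : ℝ) ≤ ((M : ℝ) + 1) / M := by rw [le_div_iff₀ hM']; linarith
  have hx : NN (X0 q r ^ a * U0 q r ^ b) := (X0_nn.pow a).mul (U0_nn.pow b)
  have hs : Sup (fun v : Ps r → ℕ => ∀ p, v p ≤ (m + 1) * (q - 1)) (X0 q r ^ a * U0 q r ^ b) :=
    (sup_pow_SlotC2 X0_sup a).mul (sup_pow_SlotC2 U0_sup b) fun u v hu hv p => by
      rw [← hm, add_mul]; exact add_le_add (hu p) (hv p)
  have law : NN ((1 + 1 / ((q : ℝ) - 1)) • Un q r -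
      (1 : ℝ) • mp (red q r) (X0 q r ^ a * U0 q r ^ b)) := by
    rcases b with _ | b
    · rw [pow_zero, mul_one]
      exact X0_pow_upper (h.resolve_left (by omega))
    · have e : mp (red q r) (X0 q r ^ a * U0 q r ^ (b + 1)) = Un q r := by
        rw [pow_succ, ← mul_assoc, map_mul, mp_red_U0, mul_comm, Un_mul, aug_mp, map_mul, map_pow,
          map_pow, X0_aug, U0_aug]
        simp
      have hU : NN (Un q r) := mp_red_U0 (q := q) (r := r) ▸ NN.mp (red q r) U0_nn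
      rw [e, ← sub_smul, add_sub_cancel_left]
      exact NN.smul he hU
  have A := res_upper (q := q) hM m hx hs
  have B := lftL_mono law
  rw [lftL_Un] at B
  have hle : (((M : ℝ) + 1) / M) ^ (r * (r + 1) * m) ≤
      (((M : ℝ) + 1) / M) ^ (r * (r + 1) * (m + c)) :=
    pow_le_pow_right₀ hK (Nat.mul_le_mul_left _ (Nat.le_add_right _ _))
  have C := ((A.add (NN.smul (pow_nonneg (zero_le_one.trans hK) (r * (r + 1) * m))
    (B.mul ((bx_nn q 0 (M + 1)).pow m)))).mul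
      ((bx_nn q 0 M).mul ((bx_nn q 0 (M + 1)).pow c))).add
    (NN.smul (mul_nonneg (add_nonneg zero_le_one he) (sub_nonneg.2 hle))
      (((U0_nn (q := q)).mul (bx_nn q 0 M)).mul ((bx_nn q 0 (M + 1)).pow (m + c))))
  refine Eq.subst (motive := NN) ?_ C
  have e : (X0 q r * bx (Ps r) q 0 M) ^ a * (U0 q r * bx (Ps r) q 0 M) ^ b =
      X0 q r ^ a * U0 q r ^ b * bx (Ps r) q 0 M ^ (m + 1) := by
    rw [← hm]; ring
  rw [e]
  generalize (((M : ℝ) + 1) / M) ^ (r * (r + 1) * m) = K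
  generalize (((M : ℝ) + 1) / M) ^ (r * (r + 1) * (m + c)) = K'
  generalize (1 + 1 / ((q : ℝ) - 1)) = ε
  simp only [Algebra.smul_def, map_mul, map_sub, map_one]
  ring

end Pool.Agent.P.MP_f562c3_an.SS
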