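import Pool.Agent.P.MP_f562c3_an.SS.SlotC1
import Pool.Agent.P.MP_f562c3_an.SS.SlotC2

/-!
The slot with values in integer arrays: `X = X0 * π`, `U = U0 * π`, `P = π'`, `d = lft D0`,
`Z = ZZ q r`, where `π = bx q 0 M`, `π' = bx q 0 (M + 1)`. Choose a prime `q > n` with
`2 / (q - 1) ≤ ε` (`Nat.exists_infinite_primes`), then `M > r` so large that
`(1 + 1/(q-1)) ((M+1)/M)^(r(r+1)n) ≤ 1 + ε` and `(1 - 1/(q-1)) ((M-r)/M)^(r(r+1)) ≥ 1 - ε`
(both left sides converge as `M → ∞`, to `1 + 1/(q-1) < 1 + ε` and `1 - 1/(q-1) > 1 - ε`).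
`B = q + q * (M + 1)` bounds the entries (`X0_sup`, `U0_sup`, `bx_sup`, `lft_le`). To pass from the
explicit constants of `slot_wash`, `slot_dom` to `1 - ε`, `1 + ε` add a nonnegative multiple of a
nonnegative element.
-/

namespace Pool.Agent.P.MP_f562c3_an.SS

theorem exists_M_SlotC (r K K' : ℕ) {δ ε : ℝ} (h : δ < ε) :
    ∃ M : ℕ, r < M ∧ (1 + δ) * (((M : ℝ) + 1) / M) ^ K ≤ 1 + ε ∧
      1 - ε ≤ (1 - δ) * (((M : ℝ) - r) / M) ^ K' := by
  have h0 : Filter.Tendsto (fun M : ℕ => 1 / (M : ℝ)) Filter.atTop (nhds 0) :=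
    tendsto_one_div_atTop_nhds_zero_nat
  have c1 : Continuous fun x : ℝ => (1 + δ) * (1 + x) ^ K := by fun_prop
  have c2 : Continuous fun x : ℝ => (1 - δ) * (1 - r * x) ^ K' := by fun_prop
  have t1 := (c1.tendsto 0).comp h0
  have t2 := (c2.tendsto 0).comp h0
  have e1 := t1.eventually (gt_mem_nhds (a := 1 + ε) (by simp; linarith))
  have e2 := t2.eventually (lt_mem_nhds (a := 1 - ε) (by simp; linarith))
  obtain ⟨M, ⟨h1, h2⟩, h3⟩ := ((e1.and e2).and (Filter.eventually_gt_atTop r)).exists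
  have hM : (0 : ℝ) < M := by exact_mod_cast (Nat.zero_le r).trans_lt h3
  have a1 : ((M : ℝ) + 1) / M = 1 + 1 / M := by field_simp
  have a2 : ((M : ℝ) - r) / M = 1 - r * (1 / M) := by field_simp
  refine ⟨M, h3, ?_, ?_⟩
  · rw [a1]
    exact h1.le
  · rw [a2]
    exact h2.le

theorem nn_lower_SlotC {W : Type*} [AddCommMonoid W] {x g : Rg W} {c e : ℝ} (hg : NN g)
    (h : NN (x - c • g)) (he : e ≤ c) : NN (x - e • g) := by
  have e1 : x - e • g = (x - c • g) + (c - e) • g := by module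
  rw [e1]
  exact h.add (hg.smul (sub_nonneg.2 he))

theorem nn_upper_SlotC {W : Type*} [AddCommMonoid W] {x g : Rg W} {c e : ℝ} (hg : NN g)
    (h : NN (c • g - x)) (he : c ≤ e) : NN (e • g - x) := by
  have e1 : e • g - x = (c • g - x) + (e - c) • g := by module
  rw [e1]
  exact h.add (hg.smul (sub_nonneg.2 he))

theorem slotArr_exists (r n : ℕ) (hr : 1 ≤ r) {ε : ℝ} (hε : 0 < ε) :
    ∃ B : ℕ, Nonempty (SlotOn (Ps r → ℕ) r n ε fun m => ∀ p, m p ≤ B) := by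
  obtain ⟨k, hk⟩ := exists_nat_ge (2 / ε)
  obtain ⟨q, hq, hp⟩ := Nat.exists_infinite_primes (n + k + 2)
  have : Fact q.Prime := ⟨hp⟩
  have hq1 : (k : ℝ) + 1 ≤ (q : ℝ) - 1 := by
    have : ((k + 2 : ℕ) : ℝ) ≤ q := by exact_mod_cast (by omega : k + 2 ≤ q)
    push_cast at this
    linarith
  have hk0 : (0 : ℝ) ≤ k := Nat.cast_nonneg k
  have hq0 : (0 : ℝ) < (q : ℝ) - 1 := by linarith
  have h2 : 2 / ((q : ℝ) - 1) ≤ ε := by
    rw [div_le_iff₀ hε] at hk
    rw [div_le_iff₀ hq0]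
    nlinarith
  have hδ0 : 0 < 1 / ((q : ℝ) - 1) := by positivity
  have hδ : 1 / ((q : ℝ) - 1) < ε := by
    have : 2 / ((q : ℝ) - 1) = 2 * (1 / ((q : ℝ) - 1)) := by ring
    linarith
  obtain ⟨M, hM, hU, hL⟩ := exists_M_SlotC r (r * (r + 1) * n) (r * (r + 1)) hδ
  have hM0 : 0 < M := (Nat.zero_le r).trans_lt hM
  have hMr : (0 : ℝ) < M := by exact_mod_cast hM0
  have hb : ∀ a b : Ps r → ℕ, (∀ p, a p ≤ q - 1) → (∀ p, q ∣ b p ∧ b p ≤ q * (0 + M)) →
      ∀ p, (a + b) p ≤ q + q * (M + 1) := fun a b ha hb p => by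
    have e1 := ha p
    have e2 := (hb p).2
    rw [zero_add] at e2
    rw [Pi.add_apply, mul_add]
    omega
  refine ⟨q + q * (M + 1), ⟨{
    X := X0 q r * bx (Ps r) q 0 M
    U := U0 q r * bx (Ps r) q 0 M
    P := bx (Ps r) q 0 (M + 1)
    d := lft (D0 (ZMod q) r)
    Z := ZZ q r
    nnX := X0_nn.mul (bx_nn _ _ _)
    nnU := U0_nn.mul (bx_nn _ _ _)
    nnP := bx_nn _ _ _
    augX := by rw [map_mul, X0_aug, bx_aug _ _ hM0, mul_one]
    augU := by rw [map_mul, U0_aug, bx_aug _ _ hM0, mul_one]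
    augP := bx_aug _ _ (Nat.succ_pos M)
    smX := X0_sup.mul (bx_sup q 0 M) hb
    smU := U0_sup.mul (bx_sup q 0 M) hb
    smP := (bx_sup q 0 (M + 1)).mono fun m hm p => by
      have e2 := (hm p).2
      rw [zero_add] at e2
      omega
    smd := fun p => by
      have := lft_le (D0 (ZMod q) r) p
      omega
    car := fun a c θ h => slot_car M a c θ h
    nul := fun a b c θ θ' h1 h3 h4 =>
      (slot_nul hM0 a b c (by omega) (by omega) h4).trans h2
    wash := fun _ => by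
      obtain ⟨g, g1, g2, g3, g4⟩ := slot_wash (q := q) hr hM
      exact ⟨g, g1, g2, nn_lower_SlotC g1 g3 hL, nn_lower_SlotC g1 g4 hL⟩
    dom := fun a b c t h1 h3 h4 => by
      refine nn_upper_SlotC ((U0_nn.mul (bx_nn _ _ _)).mul ((bx_nn _ _ _).pow t))
        (slot_dom hr hM0 h1 h4) (le_trans ?_ hU)
      refine mul_le_mul_of_nonneg_left ?_ (by linarith)
      refine pow_le_pow_right₀ ?_ (Nat.mul_le_mul_left _ (by omega))
      rw [le_div_iff₀ hMr]
      linarith }⟩⟩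

end Pool.Agent.P.MP_f562c3_an.SS
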