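import Pool.Agent.P.MP_f562c3_an.SS.SlotA
import Pool.Agent.P.MP_f562c3_an.SS.SlotB

/-!
Residue laws. `mp (red q r) x` is the law of the residue matrix of `x`.
* `red (lft y) = y`, and `m = lft (red m) + q • (m / q)` entrywise (`ZMod.val_natCast`,
  `Nat.mod_add_div`).
* `mp red (X0 ^ a) = (q^(2r+1))^-a • ∑ f, wd (outer f)` by `Finset.prod_univ_sum` or
  `Finset.sum_pow'` and `wd_sum`; its coefficient at `y` is the share of `f` with `outer f = y`.
* `Un * wd y = Un` (translation), hence `Un * x = aug x • Un`.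
* `res_upper`, `res_lower`: write `x = ∑ m, x.coeff m • (wd (lft (red m)) * wd (q • (m / q)))`,
  apply `bx_upper` or `bx_lower` to each term, and use that `lftL` is linear with
  `lftL (wd y) = wd (lft y)`, so that `lftL (mp red x) = ∑ m, x.coeff m • wd (lft (red m))`.
-/

namespace Pool.Agent.P.MP_f562c3_an.SS

variable {q r : ℕ} [Fact q.Prime]

theorem qpos_SlotC0 : (0 : ℝ) < q := by
  exact_mod_cast (Fact.out : q.Prime).pos

theorem card_Mt_SlotC0 : Fintype.card (Mt q r) = q ^ (r * (r + 1)) := by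
  have h : Fintype.card (Mt q r) = Fintype.card (Fin r → Fin (r + 1) → ZMod q) :=
    Fintype.card_congr Matrix.of.symm
  rw [h]
  simp only [Fintype.card_fun, Fintype.card_fin, ZMod.card]
  rw [← pow_mul, mul_comm]

theorem card_om_SlotC0 :
    Fintype.card ((Fin r → ZMod q) × (Fin (r + 1) → ZMod q)) = q ^ (2 * r + 1) := by
  simp only [Fintype.card_prod, Fintype.card_fun, Fintype.card_fin, ZMod.card]
  rw [← pow_add]
  congr 1
  omega

theorem card_Ps_SlotC0 : Fintype.card (Ps r) = r * (r + 1) := by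
  simp

theorem red_lft (y : Mt q r) : red q r (lft y) = y := by
  ext i j
  simp [red, lft]

theorem lft_le (y : Mt q r) (p : Ps r) : lft y p ≤ q - 1 := by
  have h : (y p.1 p.2).val < q := ZMod.val_lt _
  unfold lft
  omega

theorem X0_nn : NN (X0 q r) := by
  exact NN.smul (by have := qpos_SlotC0 (q := q); positivity) (NN.sum fun _ _ => NN.wd _)

theorem X0_aug : aug (X0 q r) = 1 := by
  have h := qpos_SlotC0 (q := q)
  unfold X0
  rw [map_smul, map_sum]
  simp only [aug_wd, Finset.sum_const, Finset.card_univ, card_om_SlotC0, smul_eq_mul,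
    nsmul_eq_mul, mul_one]
  push_cast
  exact inv_mul_cancel₀ (by positivity)

theorem X0_sup : Sup (fun m : Ps r → ℕ => ∀ p, m p ≤ q - 1) (X0 q r) := by
  exact Sup.smul _ (Sup.sum fun _ _ => Sup.wd fun p => lft_le _ p)

theorem U0_nn : NN (U0 q r) := by
  exact NN.smul (by have := qpos_SlotC0 (q := q); positivity) (NN.sum fun _ _ => NN.wd _)

theorem U0_aug : aug (U0 q r) = 1 := by
  have h := qpos_SlotC0 (q := q)
  unfold U0
  rw [map_smul, map_sum]
  simp only [aug_wd, Finset.sum_const, Finset.card_univ, card_Mt_SlotC0, smul_eq_mul,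
    nsmul_eq_mul, mul_one]
  push_cast
  exact inv_mul_cancel₀ (by positivity)

theorem U0_sup : Sup (fun m : Ps r → ℕ => ∀ p, m p ≤ q - 1) (U0 q r) := by
  exact Sup.smul _ (Sup.sum fun _ _ => Sup.wd fun p => lft_le _ p)

theorem mp_red_X0_pow (a : ℕ) : mp (red q r) (X0 q r ^ a) =
    ((((q : ℝ) ^ (2 * r + 1)) ^ a)⁻¹) •
      ∑ f : Fin a → (Fin r → ZMod q) × (Fin (r + 1) → ZMod q), wd (outer f) := by
  have h1 : mp (red q r) (X0 q r) = (((q : ℝ) ^ (2 * r + 1))⁻¹) •
      ∑ ω : (Fin r → ZMod q) × (Fin (r + 1) → ZMod q), wd (Matrix.vecMulVec ω.1 ω.2) := by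
    unfold X0
    rw [map_smul, map_sum]
    simp only [mp_wd, red_lft]
  rw [map_pow, h1, smul_pow, inv_pow, Fintype.sum_pow]
  congr 1
  refine Finset.sum_congr rfl fun f _ => ?_
  rw [outer, wd_sum]

theorem mp_red_U0 : mp (red q r) (U0 q r) = Un q r := by
  unfold U0 Un
  rw [map_smul, map_sum]
  simp only [mp_wd, red_lft]

theorem mp_red_bx (lo : ℕ) {len : ℕ} (h : 0 < len) : mp (red q r) (bx (Ps r) q lo len) = 1 := by
  unfold bx
  rw [map_smul, map_sum]
  have h1 : ∀ m : Ps r → Fin len,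
      mp (red q r) (wd (fun p => q * (lo + (m p : ℕ)))) = 1 := by
    intro m
    rw [mp_wd, ← wd_zero]
    congr 1
    ext i j
    simp [red]
  have h2 : (0 : ℝ) < len := by exact_mod_cast h
  simp only [h1, Finset.sum_const, Finset.card_univ, Fintype.card_fun, Fintype.card_fin]
  rw [← Nat.cast_smul_eq_nsmul ℝ, smul_smul]
  push_cast
  rw [inv_mul_cancel₀ (by positivity), one_smul]

theorem Un_mul_wd_SlotC0 (y : Mt q r) : Un q r * wd y = Un q r := by
  unfold Un
  rw [smul_mul_assoc, Finset.sum_mul]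
  congr 1
  simp only [← wd_add]
  exact Equiv.sum_comp (Equiv.addRight y) fun z => wd z

theorem Un_mul (x : Rg (Mt q r)) : Un q r * x = aug x • Un q r := by
  conv_lhs => rw [eq_sum_wd x]
  rw [Finset.mul_sum, aug_eq, Finset.sum_smul]
  refine Finset.sum_congr rfl fun y _ => ?_
  rw [mul_smul_comm, Un_mul_wd_SlotC0]

theorem coeff_Un_SlotC0 (y : Mt q r) :
    (Un q r).coeff y = ((q : ℝ) ^ (r * (r + 1)))⁻¹ := by
  classical
  unfold Un
  rw [coeff_smul', coeff_sum']
  simp only [coeff_wd]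
  simp

theorem lftL_eq_SlotC0 (x : Rg (Mt q r)) :
    lftL x = ∑ y : Mt q r, x.coeff y • wd (lft y) := by
  unfold lftL
  refine Finset.sum_subset (Finset.subset_univ _) fun y _ hy => ?_
  rw [Finsupp.notMem_support_iff.1 hy, zero_smul]

theorem lftL_sum_SlotC0 {ι : Type*} (s : Finset ι) (c : ι → ℝ) (g : ι → Mt q r) :
    lftL (∑ i ∈ s, c i • wd (g i)) = ∑ i ∈ s, c i • wd (lft (g i)) := by
  classical
  rw [lftL_eq_SlotC0]
  simp only [coeff_sum', coeff_smul', coeff_wd, Finset.sum_smul]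
  rw [Finset.sum_comm]
  refine Finset.sum_congr rfl fun i _ => ?_
  rw [Finset.sum_eq_single (g i)]
  · simp
  · intro b _ hb
    simp [Ne.symm hb]
  · simp

theorem lftL_Un : lftL (Un q r) = U0 q r := by
  rw [lftL_eq_SlotC0]
  unfold U0
  rw [Finset.smul_sum]
  exact Finset.sum_congr rfl fun y _ => by rw [coeff_Un_SlotC0]

/-- `lftL` is monotone. -/
theorem lftL_mono {x y : Rg (Mt q r)} {c e : ℝ} (h : NN (c • x - e • y)) :
    NN (c • lftL x - e • lftL y) := by
  have h1 : c • lftL x - e • lftL y =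
      ∑ z : Mt q r, (c • x - e • y).coeff z • wd (lft z) := by
    rw [lftL_eq_SlotC0, lftL_eq_SlotC0, Finset.smul_sum, Finset.smul_sum,
      ← Finset.sum_sub_distrib]
    refine Finset.sum_congr rfl fun z _ => ?_
    rw [coeff_sub', coeff_smul', coeff_smul', sub_smul, smul_smul, smul_smul]
  rw [h1]
  exact NN.sum fun z _ => NN.smul (h z) (NN.wd _)

theorem coeff_X0_pow_SlotC0 (a : ℕ) (y : Mt q r) :
    (mp (red q r) (X0 q r ^ a)).coeff y = (((q : ℝ) ^ (2 * r + 1)) ^ a)⁻¹ *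
      (({f : Fin a → (Fin r → ZMod q) × (Fin (r + 1) → ZMod q) | outer f = y}.ncard : ℕ) : ℝ) := by
  classical
  rw [mp_red_X0_pow, coeff_smul', coeff_sum']
  simp only [coeff_wd]
  rw [Finset.sum_boole, ← Set.ncard_coe_finset, Finset.coe_filter]
  simp only [Finset.mem_univ, true_and]

theorem X0_pow_lower {a : ℕ} (h : r ≤ a) :
    NN ((1 : ℝ) • mp (red q r) (X0 q r ^ a) - (1 - 1 / ((q : ℝ) - 1)) • Un q r) := by
  classical
  intro y
  have hq := qpos_SlotC0 (q := q)
  have h1 := cnt_lower (F := ZMod q) h y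
  rw [ZMod.card, ← Set.ncard_coe_finset, Finset.coe_filter] at h1
  simp only [Finset.mem_univ, true_and] at h1
  rw [coeff_sub', coeff_smul', coeff_smul', coeff_X0_pow_SlotC0, coeff_Un_SlotC0, one_mul,
    sub_nonneg]
  have hA : (0 : ℝ) < ((q : ℝ) ^ (2 * r + 1)) ^ a := by positivity
  have hB : (0 : ℝ) < (q : ℝ) ^ (r * (r + 1)) := by positivity
  rw [← div_eq_mul_inv, ← div_eq_inv_mul, div_le_div_iff₀ hB hA]
  linarith

theorem X0_pow_upper {a : ℕ} (h : AA r ≤ a) :
    NN ((1 + 1 / ((q : ℝ) - 1)) • Un q r - (1 : ℝ) • mp (red q r) (X0 q r ^ a)) := by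
  classical
  intro y
  have hq := qpos_SlotC0 (q := q)
  have h1 := cnt_upper (F := ZMod q) h y
  rw [ZMod.card, ← Set.ncard_coe_finset, Finset.coe_filter] at h1
  simp only [Finset.mem_univ, true_and] at h1
  rw [coeff_sub', coeff_smul', coeff_smul', coeff_X0_pow_SlotC0, coeff_Un_SlotC0, one_mul,
    sub_nonneg]
  have hA : (0 : ℝ) < ((q : ℝ) ^ (2 * r + 1)) ^ a := by positivity
  have hB : (0 : ℝ) < (q : ℝ) ^ (r * (r + 1)) := by positivity
  rw [← div_eq_mul_inv, ← div_eq_inv_mul, div_le_div_iff₀ hA hB]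
  linarith

omit [Fact q.Prime] in
theorem split_SlotC0 (v : Ps r → ℕ) :
    v = lft (red q r v) + q • fun p => v p / q := by
  funext p
  simp only [lft, red, AddMonoidHom.coe_mk, ZeroHom.coe_mk, Matrix.of_apply, Pi.add_apply,
    Pi.smul_apply, smul_eq_mul, ZMod.val_natCast]
  exact (Nat.mod_add_div _ _).symm

omit [Fact q.Prime] in
theorem split_sum_SlotC0 (x : Rg (Ps r → ℕ)) :
    x = ∑ v ∈ x.coeff.support,
      x.coeff v • (wd (lft (red q r v)) * wd (q • fun p => v p / q)) := by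
  conv_lhs => rw [eq_sum_wd x]
  refine Finset.sum_congr rfl fun v _ => ?_
  rw [← wd_add, ← split_SlotC0]

theorem lftL_mp_SlotC0 (x : Rg (Ps r → ℕ)) :
    lftL (mp (red q r) x) = ∑ v ∈ x.coeff.support, x.coeff v • wd (lft (red q r v)) := by
  rw [mp_eq, lftL_sum_SlotC0]

theorem div_le_SlotC0 {n m : ℕ} (h : n ≤ (m + 1) * (q - 1)) : n / q ≤ m := by
  have hq : 0 < q := (Fact.out : q.Prime).pos
  apply Nat.le_of_lt_succ
  rw [Nat.div_lt_iff_lt_mul hq]
  obtain ⟨k, rfl⟩ : ∃ k, q = k + 1 := ⟨q - 1, by omega⟩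
  simp only [Nat.add_sub_cancel] at h
  simp only [Nat.succ_eq_add_one]
  nlinarith

theorem res_upper {M : ℕ} (hM : 0 < M) (m : ℕ) {x : Rg (Ps r → ℕ)} (hx : NN x)
    (hs : Sup (fun v : Ps r → ℕ => ∀ p, v p ≤ (m + 1) * (q - 1)) x) :
    NN (((((M : ℝ) + 1) / M) ^ (r * (r + 1) * m)) •
        (lftL (mp (red q r) x) * bx (Ps r) q 0 (M + 1) ^ m) - x * bx (Ps r) q 0 M ^ m) := by
  rw [lftL_mp_SlotC0]
  conv =>
    enter [1, 2, 1]
    rw [split_sum_SlotC0 (q := q) x]
  rw [Finset.sum_mul, Finset.sum_mul, Finset.smul_sum, ← Finset.sum_sub_distrib]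
  refine NN.sum fun v hv => ?_
  have h1 := bx_upper (D := Ps r) q hM m (fun p => v p / q)
    (fun p => div_le_SlotC0 (hs v (Finsupp.mem_support_iff.1 hv) p))
  rw [card_Ps_SlotC0] at h1
  have h2 := NN.smul (hx v) ((NN.wd (lft (red q r v))).mul h1)
  have e : (((M : ℝ) + 1) / M) ^ (r * (r + 1) * m) •
        (x.coeff v • wd (lft (red q r v)) * bx (Ps r) q 0 (M + 1) ^ m) -
      x.coeff v • (wd (lft (red q r v)) * wd (q • fun p => v p / q)) * bx (Ps r) q 0 M ^ m =
      x.coeff v • (wd (lft (red q r v)) *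
        ((((M : ℝ) + 1) / M) ^ (r * (r + 1) * m) • bx (Ps r) q 0 (M + 1) ^ m -
          wd (q • fun p => v p / q) * bx (Ps r) q 0 M ^ m)) := by
    rw [mul_sub, smul_sub, smul_mul_assoc, smul_mul_assoc, mul_smul_comm, smul_comm,
      mul_assoc (wd _)]
  rw [e]
  exact h2

theorem res_lower {M Γ : ℕ} (hM : Γ < M) {x : Rg (Ps r → ℕ)} (hx : NN x)
    (hs : Sup (fun v : Ps r → ℕ => ∀ p, v p ≤ (Γ + 1) * (q - 1)) x) :
    NN (x * bx (Ps r) q 0 M - ((((M : ℝ) - Γ) / M) ^ (r * (r + 1))) •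
        (lftL (mp (red q r) x) * bx (Ps r) q Γ (M - Γ))) := by
  rw [lftL_mp_SlotC0]
  conv =>
    enter [1, 1, 1]
    rw [split_sum_SlotC0 (q := q) x]
  rw [Finset.sum_mul, Finset.sum_mul, Finset.smul_sum, ← Finset.sum_sub_distrib]
  refine NN.sum fun v hv => ?_
  have h1 := bx_lower (D := Ps r) q hM (fun p => v p / q)
    (fun p => div_le_SlotC0 (hs v (Finsupp.mem_support_iff.1 hv) p))
  rw [card_Ps_SlotC0] at h1
  have h2 := NN.smul (hx v) ((NN.wd (lft (red q r v))).mul h1)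
  have e : x.coeff v • (wd (lft (red q r v)) * wd (q • fun p => v p / q)) * bx (Ps r) q 0 M -
      (((M : ℝ) - Γ) / M) ^ (r * (r + 1)) •
        (x.coeff v • wd (lft (red q r v)) * bx (Ps r) q Γ (M - Γ)) =
      x.coeff v • (wd (lft (red q r v)) *
        (wd (q • fun p => v p / q) * bx (Ps r) q 0 M -
          (((M : ℝ) - Γ) / M) ^ (r * (r + 1)) • bx (Ps r) q Γ (M - Γ))) := by
    rw [mul_sub, smul_sub, smul_mul_assoc, smul_mul_assoc, mul_smul_comm, smul_comm, mul_assoc]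
  rw [e]
  exact h2

end Pool.Agent.P.MP_f562c3_an.SS
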