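import Pool.Agent.P.MP_f562c3_an.SS.SlotC0

/-!
The slot with values in integer arrays: `X = X0 * π`, `U = U0 * π`, `P = π'`, `d = lft D0`, where
`π = bx q 0 M`, `π' = bx q 0 (M + 1)`. The test sets.
* `mass_preimage`: both sides are linear in `x` (`mp_eq`, `eq_sum_wd`); prove additivity and
  homogeneity of `mass` first (sum over any finite superset of the support).
* `slot_car`: every word has residue `outer f + θ • D0` for some `f : Fin a → _`: use `Sup.mul` with
  `bx_sup` (boxes have residue `0`) and the explicit form of `X0 ^ a` as a sum over `f`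
  (or `Sup.pow_graded` with the predicate: the residue is `outer f` for some `f : Fin a → _`,
  or simply: there is a submodule of dimension `≤ a` containing all columns); then `dep_outer`.
* `slot_nul`: `ZZ θ'` is a preimage under `red`, and `mp red` is an algebra map that kills the
  boxes (`mp_red_bx`). For `b = 0` use `mp_red_X0_pow` and `cnt_dep` with `c = θ - θ'` (nonzero in
  `ZMod q` if `θ ≠ θ'` are both `< q`); for `1 ≤ b` the residue law is `Un` by `Un_mul`, and
  `cnt_unif` applies after a translation (`Equiv.subRight`).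
-/

namespace Pool.Agent.P.MP_f562c3_an.SS

theorem mass_sub_SlotC1 {W : Type*} [AddCommMonoid W] (Z : Set W) (x : Rg W) {s : Finset W}
    (h : x.coeff.support ⊆ s) : mass Z x = ∑ w ∈ s, Z.indicator x.coeff w :=
  Finset.sum_subset h fun w _ hw => by
    have h0 : x.coeff w = 0 := Finsupp.notMem_support_iff.1 hw
    by_cases hz : w ∈ Z
    · rw [Set.indicator_of_mem hz, h0]
    · rw [Set.indicator_of_notMem hz]

open Classical in
theorem mass_sum_SlotC1 {W ι : Type*} [AddCommMonoid W] (Z : Set W) (s : Finset ι) (c : ι → ℝ)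
    (g : ι → W) : mass Z (∑ i ∈ s, c i • wd (g i)) = ∑ i ∈ s, if g i ∈ Z then c i else 0 := by
  have hc : ∀ v, (∑ i ∈ s, c i • wd (g i)).coeff v = ∑ i ∈ s, if g i = v then c i else 0 :=
    fun v => by
      rw [coeff_sum']
      refine Finset.sum_congr rfl fun i _ => ?_
      rw [coeff_smul', coeff_wd, mul_ite, mul_one, mul_zero]
  have hs : (∑ i ∈ s, c i • wd (g i)).coeff.support ⊆ s.image g := fun v hv => by
    rw [Finsupp.mem_support_iff, hc] at hv
    obtain ⟨i, hi, h0⟩ := Finset.exists_ne_zero_of_sum_ne_zero hv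
    refine Finset.mem_image.2 ⟨i, hi, ?_⟩
    by_contra hne
    exact h0 (if_neg hne)
  rw [mass_sub_SlotC1 Z _ hs]
  have h1 : ∀ v, Z.indicator (∑ i ∈ s, c i • wd (g i)).coeff v =
      ∑ i ∈ s, if g i = v then (if g i ∈ Z then c i else 0) else 0 := fun v => by
    by_cases hz : v ∈ Z
    · rw [Set.indicator_of_mem hz, hc]
      refine Finset.sum_congr rfl fun i _ => ?_
      by_cases e : g i = v
      · rw [if_pos e, if_pos e, if_pos (e ▸ hz)]
      · rw [if_neg e, if_neg e]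
    · rw [Set.indicator_of_notMem hz]
      refine (Finset.sum_eq_zero fun i _ => ?_).symm
      by_cases e : g i = v
      · rw [if_pos e, if_neg (e ▸ hz)]
      · rw [if_neg e]
  rw [Finset.sum_congr rfl fun v _ => h1 v, Finset.sum_comm]
  refine Finset.sum_congr rfl fun i hi => ?_
  rw [Finset.sum_ite_eq, if_pos (Finset.mem_image_of_mem g hi)]

open Classical in
theorem mass_card_SlotC1 {W ι : Type*} [AddCommMonoid W] [Fintype ι] (Z : Set W) (c : ℝ)
    (g : ι → W) (P : ι → Prop) [DecidablePred P] (hP : ∀ i, g i ∈ Z ↔ P i) :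
    mass Z (c • ∑ i, wd (g i)) = c * ((Finset.univ.filter P).card : ℝ) := by
  rw [Finset.smul_sum, mass_sum_SlotC1, Finset.card_filter, Nat.cast_sum, Finset.mul_sum]
  refine Finset.sum_congr rfl fun i _ => ?_
  by_cases h : P i
  · rw [if_pos ((hP i).2 h), if_pos h, Nat.cast_one, mul_one]
  · rw [if_neg fun h' => h ((hP i).1 h'), if_neg h, Nat.cast_zero, mul_zero]

theorem mass_preimage {W V : Type*} [AddCommMonoid W] [AddCommMonoid V] (f : W →+ V) (S : Set V)
    (x : Rg W) : mass (f ⁻¹' S) x = mass S (mp f x) := by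
  classical
  rw [mp_eq, mass_sum_SlotC1, mass]
  refine Finset.sum_congr rfl fun w _ => ?_
  by_cases h : f w ∈ S
  · rw [if_pos h, Set.indicator_of_mem (show w ∈ f ⁻¹' S from h)]
  · rw [if_neg h, Set.indicator_of_notMem (show w ∉ f ⁻¹' S from h)]

variable {q r : ℕ} [Fact q.Prime]

theorem red_shift_SlotC1 (θ : ℕ) :
    red q r (θ • lft (D0 (ZMod q) r)) = (θ : ZMod q) • D0 (ZMod q) r := by
  rw [map_nsmul, red_lft, Nat.cast_smul_eq_nsmul]

theorem bx_red_SlotC1 (lo len : ℕ) : Sup (fun m => red q r m = 0) (bx (Ps r) q lo len) :=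
  (bx_sup q lo len).mono fun m hm => by
    ext i j
    exact (ZMod.natCast_eq_zero_iff _ _).2 (hm (i, j)).1

theorem X0_red_SlotC1 (M a : ℕ) :
    Sup (fun m => ∃ f : Fin a → (Fin r → ZMod q) × (Fin (r + 1) → ZMod q), red q r m = outer f)
      ((X0 q r * bx (Ps r) q 0 M) ^ a) := by
  have h1 : Sup (fun m => ∃ ω : (Fin r → ZMod q) × (Fin (r + 1) → ZMod q),
      red q r m = Matrix.vecMulVec ω.1 ω.2) (X0 q r * bx (Ps r) q 0 M) := by
    refine Sup.mul (Q₁ := fun m => ∃ ω : (Fin r → ZMod q) × (Fin (r + 1) → ZMod q),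
      red q r m = Matrix.vecMulVec ω.1 ω.2) ?_ (bx_red_SlotC1 0 M) ?_
    · exact Sup.smul _ (Sup.sum fun ω _ => Sup.wd ⟨ω, red_lft _⟩)
    · rintro u v ⟨ω, hu⟩ hv
      exact ⟨ω, by rw [map_add, hu, hv, add_zero]⟩
  induction a with
  | zero =>
    rw [pow_zero]
    exact Sup.one ⟨Fin.elim0, by rw [map_zero, outer, Fin.sum_univ_zero]⟩
  | succ a ih =>
    rw [pow_succ']
    refine h1.mul ih ?_
    rintro u v ⟨ω, hu⟩ ⟨f, hv⟩
    refine ⟨Fin.cons ω f, ?_⟩
    rw [map_add, hu, hv, outer, outer, Fin.sum_univ_succ]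
    rfl

theorem slot_car (M a c θ : ℕ) (h : a < r) :
    Sup (fun m => m ∈ ZZ q r θ) ((X0 q r * bx (Ps r) q 0 M) ^ a * bx (Ps r) q 0 (M + 1) ^ c *
      wd (θ • lft (D0 (ZMod q) r))) := by
  have h2 : Sup (fun m => red q r m = 0) (bx (Ps r) q 0 (M + 1) ^ c) :=
    Sup.pow (Q := fun m => red q r m = 0) (map_zero _)
      (fun u v hu hv => by rw [map_add, hu, hv, add_zero])
      (bx_red_SlotC1 0 (M + 1)) c
  have h3 : Sup (fun m => ∃ f : Fin a → (Fin r → ZMod q) × (Fin (r + 1) → ZMod q),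
      red q r m = outer f) ((X0 q r * bx (Ps r) q 0 M) ^ a * bx (Ps r) q 0 (M + 1) ^ c) := by
    refine (X0_red_SlotC1 M a).mul h2 ?_
    rintro u v ⟨f, hu⟩ hv
    exact ⟨f, by rw [map_add, hu, hv, add_zero]⟩
  refine h3.mul (Sup.wd (Q := fun m => m = θ • lft (D0 (ZMod q) r)) rfl) ?_
  rintro u v ⟨f, hu⟩ rfl
  show Dep (red q r (u + θ • lft (D0 (ZMod q) r)) - (θ : ZMod q) • D0 (ZMod q) r)
  rw [map_add, hu, red_shift_SlotC1, add_sub_cancel_right]
  exact dep_outer h f

theorem slot_nul {M : ℕ} (hM : 0 < M) (a b c : ℕ) {θ θ' : ℕ} (hθ : θ < q) (hθ' : θ' < q)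
    (h : θ' ≠ θ ∨ 1 ≤ b ∨ r ≤ a) :
    mass (ZZ q r θ') ((X0 q r * bx (Ps r) q 0 M) ^ a * (U0 q r * bx (Ps r) q 0 M) ^ b *
      bx (Ps r) q 0 (M + 1) ^ c * wd (θ • lft (D0 (ZMod q) r))) ≤ 2 / ((q : ℝ) - 1) := by
  classical
  have hq : (2 : ℝ) ≤ q := by exact_mod_cast (Fact.out : q.Prime).two_le
  have hq0 : (0 : ℝ) < q := by linarith
  have hZ : ZZ q r θ' = red q r ⁻¹' {y | Dep (y - (θ' : ZMod q) • D0 (ZMod q) r)} := rfl
  rw [hZ, mass_preimage]
  simp only [map_mul, map_pow, mp_red_bx 0 hM, mp_red_bx 0 (Nat.succ_pos M), mul_one, one_pow,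
    mp_red_U0, mp_wd, red_shift_SlotC1]
  rcases Nat.eq_zero_or_pos b with rfl | hb
  · have hc : (θ : ZMod q) - θ' ≠ 0 ∨ r ≤ a := by
      rcases h with h | h | h
      · refine Or.inl fun h0 => h ?_
        have h1 := congrArg ZMod.val (sub_eq_zero.1 h0)
        rw [ZMod.val_natCast_of_lt hθ, ZMod.val_natCast_of_lt hθ'] at h1
        exact h1.symm
      · omega
      · exact Or.inr h
    have h1 := cnt_dep (r := r) (a := a) ((θ : ZMod q) - θ') hc
    rw [ZMod.card] at h1
    rw [pow_zero, mul_one, ← map_pow, mp_red_X0_pow, smul_mul_assoc, Finset.sum_mul]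
    simp only [← wd_add]
    rw [mass_card_SlotC1 _ _ _ (fun f : Fin a → (Fin r → ZMod q) × (Fin (r + 1) → ZMod q) =>
      Dep (outer f + ((θ : ZMod q) - θ') • D0 (ZMod q) r)) fun f => by
        rw [Set.mem_ofPred_eq, sub_smul, add_sub_assoc]]
    rw [inv_mul_le_iff₀ (by positivity), mul_comm]
    exact h1
  · obtain ⟨b, rfl⟩ : ∃ b', b = b' + 1 := ⟨b - 1, by omega⟩
    have hU : aug (Un q r) = 1 := by rw [← mp_red_U0, aug_mp, U0_aug]
    have e : mp (red q r) (X0 q r) ^ a * Un q r ^ (b + 1) * wd ((θ : ZMod q) • D0 (ZMod q) r) =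
        Un q r := by
      rw [show mp (red q r) (X0 q r) ^ a * Un q r ^ (b + 1) * wd ((θ : ZMod q) • D0 (ZMod q) r) =
        Un q r * (mp (red q r) (X0 q r) ^ a * Un q r ^ b * wd ((θ : ZMod q) • D0 (ZMod q) r)) by
          ring, Un_mul, map_mul, map_mul, map_pow, map_pow, aug_mp, X0_aug, hU, aug_wd]
      simp
    have h1 := cnt_unif (F := ZMod q) (r := r)
    rw [ZMod.card] at h1
    have e2 : Un q r = (((q : ℝ) ^ (r * (r + 1)))⁻¹) •
        ∑ y : Mt q r, wd (y + (θ' : ZMod q) • D0 (ZMod q) r) := by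
      rw [Un, ← Equiv.sum_comp (Equiv.addRight ((θ' : ZMod q) • D0 (ZMod q) r))]
      rfl
    rw [e, e2, mass_card_SlotC1 _ _ _ (fun y : Mt q r => Dep y) fun y => by
      rw [Set.mem_ofPred_eq, add_sub_cancel_right]]
    rw [inv_mul_le_iff₀ (by positivity)]
    have h2 : (1 : ℝ) / q ≤ 2 / ((q : ℝ) - 1) := by
      rw [div_le_div_iff₀ hq0 (by linarith)]
      linarith
    refine le_trans ?_ (mul_le_mul_of_nonneg_left h2 (by positivity))
    rw [mul_one_div, le_div_iff₀ hq0, mul_comm]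
    exact h1

end Pool.Agent.P.MP_f562c3_an.SS
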