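import Pool.Agent.P.MP_f562c3_an.SS.CompAlg

/-!
Shapes of the words of the components. All proofs are closure arguments (`Sup.mul`, `Sup.sum`,
`Sup.prod`, `Sup.pow`, `Sup.smul`, `Sup.sub`, `Sup.mp`, `Sup.upos`, `Sup.uneg`) down to single words,
where `simp [wA, eA, ...]` evaluates the tables; `map_add` makes `ex φ p` additive.
The lemmas `sup_kp`, `sup_sg`, `sup_ph`, `sup_ut`, `sup_pc` reduce a property that is closed under
sums to the letters. `al_split`: for the position `l0` write `al (ι l0) = wd (wA k) * kp k` and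
use `Finset.mul_prod_erase`; `Y = wd (wA k) * ∏ l ∈ univ.erase l0, al (ι l)`.
-/

namespace Pool.Agent.P.MP_f562c3_an.SS

theorem tb_zero_Supp (p : Fin 5) : tb 0 0 0 0 0 p = 0 := by
  fin_cases p <;> rfl

theorem Gd.zero (lo : ℕ) : Gd lo 0 0 := by
  simp [Gd]

theorem Gd.add (lo n n' : ℕ) (a b : Wd Fam) (ha : Gd lo n a) (hb : Gd lo n' b) :
    Gd lo (n + n') (a + b) := by
  obtain ⟨a1, a2, a3, a4⟩ := ha
  obtain ⟨b1, b2, b3, b4⟩ := hb
  refine ⟨fun κ k => ?_, fun k => ?_, fun i => ?_, fun k c => ?_⟩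
  · have h1 := a1 κ k
    have h2 := b1 κ k
    simp only [map_add]
    omega
  · have h1 := a2 k
    have h2 := b2 k
    simp only [map_add]
    omega
  · have h1 := a3 i
    have h2 := b3 i
    simp only [map_add]
    omega
  · have h1 := a4 k c
    have h2 := b4 k c
    simp only [map_add]
    omega

theorem Gd.mono {lo lo' n : ℕ} {w : Wd Fam} (h : Gd lo n w) (hl : lo' ≤ lo) : Gd lo' n w := by
  obtain ⟨a1, a2⟩ := h
  refine ⟨fun κ k => ?_, a2⟩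
  have h1 := a1 κ k
  omega

theorem Sh.zero (N : ℕ) (s : ℕ × ℕ) : Sh N s 0 0 := by
  refine ⟨by simp, by simp, by simp, ∅, by simp, by simp⟩

theorem Sh.add (N : ℕ) (s : ℕ × ℕ) (n n' : ℕ) (a b : Wd Fam) (ha : Sh N s n a)
    (hb : Sh N s n' b) : Sh N s (n + n') (a + b) := by
  obtain ⟨a1, a2, a3, I, a4, a5⟩ := ha
  obtain ⟨b1, b2, b3, J, b4, b5⟩ := hb
  refine ⟨?_, fun i r => ?_, fun i r hi hr => ?_, I ∪ J, ?_, fun i r hi hr hI => ?_⟩
  · rw [map_add]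
    omega
  · rw [map_add, a2, b2]
  · have h1 := a3 i r hi hr
    have h2 := b3 i r hi hr
    simp only [map_add]
    omega
  · have := Finset.card_union_le I J
    omega
  · rw [Finset.mem_union, not_or] at hI
    have h1 := a5 i r hi hr hI.1
    have h2 := b5 i r hi hr hI.2
    simp only [map_add]
    omega

theorem Off.sh (N : ℕ) {s : ℕ × ℕ} {w : Wd Fam} (h : Off s w) : Sh N s 0 w := by
  refine ⟨(h _ _ _).le, fun i r => h _ _ _, fun i r _ _ => Or.inl ?_, ∅, by simp,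
    fun i r _ _ _ => ⟨?_, h _ _ _⟩⟩
  · rw [h]
    exact Nat.zero_le _
  · rw [h, h]

theorem Off.zero (s : ℕ × ℕ) : Off s 0 := by
  intro i r p
  simp

theorem Off.add (s : ℕ × ℕ) (a b : Wd Fam) (ha : Off s a) (hb : Off s b) : Off s (a + b) := by
  intro i r p
  rw [map_add, ha, hb]

theorem NoShift.zero : NoShift 0 := by
  intro φ
  simp

theorem NoShift.add (a b : Wd Fam) (ha : NoShift a) (hb : NoShift b) : NoShift (a + b) := by
  intro φ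
  rw [map_add, ha, hb]

theorem Kil.add_left (N n k : ℕ) (a b : Wd Fam) (hb : Kil N n k b) : Kil N n k (a + b) := by
  obtain ⟨κ, h1, h2, h3, h4⟩ := hb
  refine ⟨κ, h1, h2, h3, ?_⟩
  rw [map_add]
  omega

namespace Par

variable (Q : Par) {T : Wd Fam → Prop}

theorem sup_kp (h0 : T 0) (hadd : ∀ a b, T a → T b → T (a + b)) {k : ℕ}
    (h : ∀ κ, Q.N ≤ κ → κ ≤ k → T (wD κ k)) : Sup T (Q.kp k) := by
  refine Sup.prod h0 hadd fun κ hκ => ?_
  rw [Finset.mem_Icc] at hκ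
  exact Sup.smul _ (Sup.sub (Sup.one h0) (Sup.wd (h κ hκ.1 hκ.2)))

theorem sup_sg {n : ℕ} (h : ∀ r, n ≤ r → r < Q.n0 → T (wS r)) : Sup T (Q.sg n) := by
  refine Sup.sum fun r hr => ?_
  rw [Finset.mem_Ico] at hr
  exact Sup.smul _ (Sup.wd (h r hr.1 hr.2))

theorem sup_ph (h0 : T 0) (hadd : ∀ a b, T a → T b → T (a + b)) {s : ℕ × ℕ} {σ : Rg (Wd Fam)}
    (hσ : Sup T σ) (hT : ∀ g, T (Q.wT s g)) (hZ : T (Q.wZ s)) : Sup T (Q.ph s σ) := by
  refine Sup.sub (Sup.sum fun g _ => ?_) (Sup.smul _ ?_)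
  · exact Sup.mul (Sup.pow h0 hadd hσ _) (Sup.wd (hT g)) hadd
  · exact Sup.mul (Sup.pow h0 hadd hσ _) (Sup.wd hZ) hadd

theorem sup_ut (hadd : ∀ a b, T a → T b → T (a + b)) {k : ℕ}
    (h : ∀ m, (Q.u k).coeff m ≠ 0 → T (Q.wU k m)) (hL : T (wL k)) : Sup T (Q.ut k) := by
  have hu : Sup (fun m => T (Q.wU k m)) (Q.u k) := h
  exact Sup.sub (Sup.mp _ hu.upos) (Sup.mul (Sup.wd hL) (Sup.mp _ hu.uneg) hadd)

theorem sup_pc (h0 : T 0) {i : ℕ} (h : ∀ k ∈ Q.att i, Sup T (Q.ut k)) : Sup T (Q.pc i) := by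
  exact Sup.add (Sup.one h0) (Sup.sum h)

theorem gd_al (i : ℕ) : Sup (Gd i 1) (Q.al i) := by
  have h1 : Gd i 1 (Q.wA i) := by
    refine ⟨fun κ k => ?_, fun k => ?_, fun j => ?_, fun k c => ?_⟩
    · refine ⟨ite_le_one _, rfl, rfl, rfl, fun h => ?_⟩
      exact if_neg (fun h' => by omega)
    · exact ⟨ite_le_one _, rfl⟩
    · exact ⟨rfl, rfl⟩
    · exact ⟨rfl, rfl⟩
  have h2 : Sup (Gd i 0) (Q.kp i) := by
    refine Q.sup_kp (Gd.zero i) (Gd.add i 0 0) fun κ _ _ => ?_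
    exact ⟨fun _ _ => ⟨le_rfl, rfl, rfl, rfl, fun _ => rfl⟩, fun _ => ⟨le_rfl, rfl⟩,
      fun _ => ⟨rfl, rfl⟩, fun _ _ => ⟨rfl, rfl⟩⟩
  exact Sup.mul (Sup.wd h1) h2 (Gd.add i 1 0)

theorem gd_ph (s : ℕ × ℕ) (n : ℕ) : Sup (Gd n 0) (Q.ph s (Q.sg n)) := by
  refine Q.sup_ph (Gd.zero n) (Gd.add n 0 0) (Q.sup_sg fun r hr _ => ?_) (fun g => ?_) ?_
  · refine ⟨fun κ k => ⟨le_rfl, rfl, rfl, rfl, fun h => ?_⟩, fun _ => ⟨le_rfl, rfl⟩,
      fun _ => ⟨rfl, rfl⟩, fun _ _ => ⟨rfl, rfl⟩⟩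
    exact if_neg (fun h' => by omega)
  · exact ⟨fun _ _ => ⟨le_rfl, rfl, rfl, rfl, fun _ => rfl⟩, fun _ => ⟨le_rfl, rfl⟩,
      fun _ => ⟨rfl, rfl⟩, fun _ _ => ⟨rfl, rfl⟩⟩
  · exact ⟨fun _ _ => ⟨le_rfl, rfl, rfl, rfl, fun _ => rfl⟩, fun _ => ⟨le_rfl, rfl⟩,
      fun _ => ⟨rfl, rfl⟩, fun _ _ => ⟨rfl, rfl⟩⟩

theorem gd_wU (k : ℕ) (m : ℕ × ℕ) : Gd (Q.en k) 0 (Q.wU k m) := by
  refine ⟨fun κ k' => ⟨le_rfl, rfl, rfl, rfl, fun h => ?_⟩, fun _ => ⟨le_rfl, rfl⟩,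
    fun _ => ⟨rfl, rfl⟩, fun _ _ => ⟨rfl, rfl⟩⟩
  exact if_neg (fun h' => by omega)

theorem gd_pc (i : ℕ) : Sup (Gd 0 0) (Q.pc i) := by
  refine Q.sup_pc (Gd.zero 0) fun k _ => Q.sup_ut (Gd.add 0 0 0) (fun m _ => ?_) ?_
  · exact (Q.gd_wU k m).mono (Nat.zero_le _)
  · exact ⟨fun _ _ => ⟨le_rfl, rfl, rfl, rfl, fun _ => rfl⟩, fun _ => ⟨le_rfl, rfl⟩,
      fun _ => ⟨rfl, rfl⟩, fun _ _ => ⟨rfl, rfl⟩⟩

theorem off_al (s : ℕ × ℕ) (i : ℕ) : Sup (Off s) (Q.al i) := by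
  refine Sup.mul (Sup.wd ?_) (Q.sup_kp (Off.zero s) (Off.add s) fun κ _ _ => ?_) (Off.add s)
  · exact fun _ _ p => tb_zero_Supp p
  · exact fun _ _ p => tb_zero_Supp p

theorem off_pc (s : ℕ × ℕ) (i : ℕ) : Sup (Off s) (Q.pc i) := by
  refine Q.sup_pc (Off.zero s) fun k _ => Q.sup_ut (Off.add s) (fun m _ => ?_) ?_
  · exact fun _ _ p => tb_zero_Supp p
  · exact fun _ _ p => tb_zero_Supp p

theorem off_ph {s s' : ℕ × ℕ} (h : s' ≠ s) (n : ℕ) : Sup (Off s) (Q.ph s' (Q.sg n)) := by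
  refine Q.sup_ph (Off.zero s) (Off.add s) (Q.sup_sg fun r _ _ => ?_) (fun g => ?_) ?_
  · exact fun _ _ p => tb_zero_Supp p
  · intro i r p
    simp only [wT, ex_mkW, eT]
    rw [if_neg (fun h' => h h'.1.symm)]
    exact tb_zero_Supp p
  · intro i r p
    simp only [wZ, ex_mkW, eZ]
    rw [if_neg (fun h' => h h'.1.symm)]
    exact tb_zero_Supp p

theorem sh_ph {s : ℕ × ℕ} (hs : 0 < s.1) (hN : 0 < Q.N) (n : ℕ) :
    Sup (Sh Q.N s 1) (Q.ph s (Q.sg n)) := by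
  have hσ : Sup (Off s) (Q.sg n) := Q.sup_sg fun r _ _ _ _ p => tb_zero_Supp p
  have hp : ∀ c, Sup (Sh Q.N s 0) (Q.sg n ^ c) := fun c =>
    (Sup.pow (Off.zero s) (Off.add s) hσ c).mono fun w hw => hw.sh Q.N
  refine Sup.sub (Sup.sum fun g _ => ?_) (Sup.smul _ ?_)
  · refine Sup.mul (hp _) (Sup.wd ?_) (Sh.add Q.N s 0 1)
    have h4 : ex (.sh s.1 s.2 0 0) 4 (Q.wT s g) = 0 := by
      simp only [wT, ex_mkW, eT]
      split_ifs <;> rfl
    refine ⟨by omega, fun i r => ?_, fun i r _ _ => Or.inl (by omega), {g.1}, by simp,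
      fun i r hi hr hI => ?_⟩
    · simp only [wT, ex_mkW, eT]
      split_ifs <;> rfl
    · rw [Finset.mem_singleton] at hI
      rw [h4]
      simp only [wT, ex_mkW, eT, if_neg hI]
      split_ifs <;> exact ⟨rfl, rfl⟩
  · refine Sup.mul (hp _) (Sup.wd ?_) (Sh.add Q.N s 0 1)
    have h4 : ex (.sh s.1 s.2 0 0) 4 (Q.wZ s) = 1 := by
      simp [wZ, eZ, hs, hN]
    have h0 : ∀ i r, i < s.1 → r < Q.N → ex (.sh s.1 s.2 i r) 0 (Q.wZ s) = 1 ∧
        ex (.sh s.1 s.2 i r) 1 (Q.wZ s) = 0 := by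
      intro i r hi hr
      simp [wZ, eZ, hi, hr]
    refine ⟨by omega, fun i r => ?_, fun i r hi hr => Or.inl ?_, ∅, by simp,
      fun i r hi hr _ => ?_⟩
    · simp only [wZ, ex_mkW, eZ]
      split_ifs <;> rfl
    · rw [h4, (h0 i r hi hr).1]
    · rw [h4]
      exact h0 i r hi hr

theorem noShift_ph (s : ℕ × ℕ) (n : ℕ) : Sup NoShift (Q.ph s (Q.sg n)) := by
  refine Q.sup_ph NoShift.zero NoShift.add (Q.sup_sg fun r _ _ φ => ?_) (fun g φ => ?_)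
    fun φ => ?_
  · cases φ <;> rfl
  · cases φ <;> simp only [wT, ex_mkW, eT] <;> (try split_ifs) <;> rfl
  · cases φ <;> simp only [wZ, ex_mkW, eZ] <;> (try split_ifs) <;> rfl

theorem xm_al (i k : ℕ) (b : Bool) : Sup (fun w => ex (.xm k b) 3 w = 0) (Q.al i) := by
  have hadd : ∀ v w : Wd Fam, ex (.xm k b) 3 v = 0 → ex (.xm k b) 3 w = 0 →
      ex (.xm k b) 3 (v + w) = 0 := fun v w hv hw => by rw [map_add, hv, hw]
  have h1 : Sup (fun w => ex (.xm k b) 3 w = 0) (wd (Q.wA i)) := Sup.wd rfl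
  have h2 : Sup (fun w => ex (.xm k b) 3 w = 0) (Q.kp i) :=
    Q.sup_kp (T := fun w => ex (.xm k b) 3 w = 0) (map_zero _) hadd fun κ _ _ => rfl
  exact Sup.mul h1 h2 hadd

theorem mark_al (i j : ℕ) :
    Sup (fun w => ex (.mark j) 3 w = if j = i then 1 else 0) (Q.al i) := by
  have hadd : ∀ v w : Wd Fam, ex (.mark j) 3 v = 0 → ex (.mark j) 3 w = 0 →
      ex (.mark j) 3 (v + w) = 0 := fun v w hv hw => by rw [map_add, hv, hw]
  have h1 : Sup (fun w => ex (.mark j) 3 w = if j = i then 1 else 0) (wd (Q.wA i)) := Sup.wd rfl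
  have h2 : Sup (fun w => ex (.mark j) 3 w = 0) (Q.kp i) :=
    Q.sup_kp (T := fun w => ex (.mark j) 3 w = 0) (map_zero _) hadd fun κ _ _ => rfl
  refine Sup.mul h1 h2 fun v w hv hw => ?_
  rw [map_add, hv, hw, add_zero]

theorem mark_pc (i j : ℕ) : Sup (fun w => ex (.mark j) 3 w = 0) (Q.pc i) := by
  have hadd : ∀ v w : Wd Fam, ex (.mark j) 3 v = 0 → ex (.mark j) 3 w = 0 →
      ex (.mark j) 3 (v + w) = 0 := fun v w hv hw => by rw [map_add, hv, hw]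
  exact Q.sup_pc (T := fun w => ex (.mark j) 3 w = 0) (map_zero _) fun k _ =>
    Q.sup_ut hadd (fun m _ => rfl) rfl

theorem delay_al {i k : ℕ} (h : i ≤ Q.K k) : Sup (fun w => 1 ≤ ex (.delay k) 0 w) (Q.al i) := by
  have h1 : Sup (fun w => 1 ≤ ex (.delay k) 0 w) (wd (Q.wA i)) :=
    Sup.wd (by simp [wA, eA, h])
  refine Sup.mul h1 (Sup.trivial _) fun v w hv _ => ?_
  rw [map_add]
  omega

theorem kil_sg {n k : ℕ} (hn : Q.N ≤ n) (hk : n ≤ k) :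
    Sup (Kil Q.N n k) (Q.sg Q.N - Q.sg n) := by
  have e : (Finset.Ico Q.N Q.n0).filter (fun r => ¬ r < n) = Finset.Ico n Q.n0 := by
    ext r
    simp only [Finset.mem_filter, Finset.mem_Ico]
    omega
  have : Q.sg Q.N - Q.sg n = ∑ r ∈ (Finset.Ico Q.N Q.n0).filter (fun r => r < n),
      (Q.lam r - Q.lam (r + 1)) • wd (wS r) := by
    rw [sg, sg, ← e, ← Finset.sum_filter_add_sum_filter_not (Finset.Ico Q.N Q.n0) (fun r => r < n),
      add_sub_cancel_right]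
  rw [this]
  refine Sup.sum fun r hr => Sup.smul _ (Sup.wd ?_)
  simp only [Finset.mem_filter, Finset.mem_Ico] at hr
  refine ⟨r, hr.1.1, hr.2, by omega, ?_⟩
  have : r ≤ k := by omega
  simp [wS, eS, this]

theorem kil_ut {n k k' : ℕ} (h0 : (Q.u k').coeff 0 = 0) (h1 : Q.N ≤ Q.en k') (h2 : Q.en k' < n)
    (hk : n ≤ k) : Sup (Kil Q.N n k) (Q.ut k') := by
  have hu : Sup (fun m => Kil Q.N n k (Q.wU k' m)) (Q.u k') := by
    intro m hm
    have hm0 : m ≠ 0 := fun h => hm (h ▸ h0)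
    have hm1 : 1 ≤ m.1 + m.2 := by
      by_contra hc
      exact hm0 (Prod.ext (by simp only [Prod.fst_zero]; omega)
        (by simp only [Prod.snd_zero]; omega))
    refine ⟨Q.en k', h1, h2, by omega, ?_⟩
    have : Q.en k' ≤ k := by omega
    simp [ex_wU, eU, this, hm1]
  exact Sup.sub (Sup.mp _ hu.upos) (Sup.mul (Sup.trivial _) (Sup.mp _ hu.uneg)
    fun a b _ hb => Kil.add_left _ _ _ a b hb)

theorem al_split {n : ℕ} (ι : Fin n → ℕ) (l0 : Fin n) (h : ∀ l, ι l ≤ ι l0) :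
    ∃ Y : Rg (Wd Fam), ∏ l, Q.al (ι l) = Q.kp (ι l0) * Y ∧ l1 Y ≤ 1 ∧
      Sup (fun w => (∀ κ, n ≤ ex (.main κ (ι l0)) 0 w) ∧
        ∀ l, 1 ≤ ex (.lock (ι l) (ι l0)) 0 w) Y := by
  refine ⟨wd (Q.wA (ι l0)) * ∏ l ∈ Finset.univ.erase l0, Q.al (ι l), ?_, ?_, Sup.and ?_ ?_⟩
  · rw [← Finset.mul_prod_erase Finset.univ (fun l => Q.al (ι l)) (Finset.mem_univ l0), al]
    ring
  · refine (l1_mul_le _ _).trans ?_
    rw [l1_wd, one_mul]
    exact (l1_prod_le _ _).trans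
      (Finset.prod_le_one (fun l _ => l1_nonneg _) fun l _ => l1_al _)
  · have hadd : ∀ (g g' : ℕ) (a b : Wd Fam), (∀ κ, g ≤ ex (.main κ (ι l0)) 0 a) →
        (∀ κ, g' ≤ ex (.main κ (ι l0)) 0 b) → ∀ κ, g + g' ≤ ex (.main κ (ι l0)) 0 (a + b) :=
      fun g g' a b ha hb κ => by
        rw [map_add]
        exact add_le_add (ha κ) (hb κ)
    have hA : ∀ l, Sup (fun w => ∀ κ, 1 ≤ ex (.main κ (ι l0)) 0 w) (wd (Q.wA (ι l))) :=
      fun l => Sup.wd fun κ => by simp [wA, eA, h l]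
    have hal : ∀ l, Sup (fun w => ∀ κ, 1 ≤ ex (.main κ (ι l0)) 0 w) (Q.al (ι l)) :=
      fun l => Sup.mul (hA l) (Sup.trivial _) fun a b ha _ κ => by
        rw [map_add]
        exact (ha κ).trans (Nat.le_add_right _ _)
    have hP := Sup.prod_graded
      (Q := fun (g : ℕ) (w : Wd Fam) => ∀ κ, g ≤ ex (Fam.main κ (ι l0)) 0 w)
      (fun _ => Nat.zero_le _) hadd (s := Finset.univ.erase l0) (g := fun _ => 1)
      fun l _ => hal l
    have hc : 1 + ∑ _l ∈ Finset.univ.erase l0, 1 = n := by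
      have := l0.2
      simp only [Finset.sum_const, smul_eq_mul, mul_one,
        Finset.card_erase_of_mem (Finset.mem_univ l0), Finset.card_univ, Fintype.card_fin]
      omega
    refine Sup.mul (hA l0) hP fun a b ha hb κ => ?_
    exact hc.ge.trans (hadd 1 _ a b ha hb κ)
  · intro w hw l
    revert w
    have hA : Sup (fun w => 1 ≤ ex (.lock (ι l) (ι l0)) 0 w) (wd (Q.wA (ι l))) :=
      Sup.wd (by simp [wA, eA, h l])
    have hl : ∀ a b : Wd Fam, 1 ≤ ex (.lock (ι l) (ι l0)) 0 a → True →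
        1 ≤ ex (.lock (ι l) (ι l0)) 0 (a + b) := fun a b ha _ => by
      rw [map_add]
      omega
    by_cases hl0 : l = l0
    · subst hl0
      exact Sup.mul hA (Sup.trivial _) hl
    · rw [← Finset.mul_prod_erase _ (fun l => Q.al (ι l))
        (Finset.mem_erase.2 ⟨hl0, Finset.mem_univ l⟩), mul_left_comm]
      exact Sup.mul (Sup.mul hA (Sup.trivial _) hl) (Sup.trivial _) hl

end Par

end Pool.Agent.P.MP_f562c3_an.SS
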